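import Mathlib

/-!
Pointwise identities and inequalities used in the eigenvalue estimate of Theorem R
(relaxed competitors for the eigenvalue-torsion functional).
-/

namespace Pool.Agent.H47.FQ

open scoped InnerProductSpace

variable {E : Type*} [NormedAddCommGroup E] [InnerProductSpace ℝ E]

/-- Picone identity for the test function `φ ^ 2 / W`. -/
theorem picone (a b : E) (φ : ℝ) {W : ℝ} (hW : 0 < W) :
    ⟪b, (2 * φ / W) • a - (φ ^ 2 / W ^ 2) • b⟫_ℝ
      = ‖a‖ ^ 2 - W ^ 2 * ‖(1 / W) • a - (φ / W ^ 2) • b‖ ^ 2 := by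
  rw [inner_sub_right, inner_smul_right, inner_smul_right, @norm_sub_sq_real E _ _,
    norm_smul, norm_smul, inner_smul_left, inner_smul_right, real_inner_self_eq_norm_sq,
    real_inner_comm b a]
  simp only [Real.norm_eq_abs, mul_pow, sq_abs, conj_trivial]
  field_simp
  ring

/-- Gradient of a product, tested against the equation. -/
theorem prod_sq (c p : E) (w ψ : ℝ) :
    ‖ψ • c + w • p‖ ^ 2
      = w ^ 2 * ‖p‖ ^ 2 + ⟪c, (ψ ^ 2) • c + (2 * w * ψ) • p⟫_ℝ := by
  rw [@norm_add_sq_real E _ _, norm_smul, norm_smul, inner_smul_left, inner_smul_right,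
    inner_add_right, inner_smul_right, inner_smul_right, real_inner_self_eq_norm_sq]
  simp only [Real.norm_eq_abs, mul_pow, sq_abs, conj_trivial]
  ring

/-- The scalar inequality behind the eigenvalue estimate: `W = w' + v + s`. -/
theorem scalar_ineq {w w' v s W φ : ℝ} (hw : 0 ≤ w) (hww : w ≤ w') (hv : 0 ≤ v) (hs : 0 < s)
    (hW : W = w' + v + s) (hhalf : w' ≠ w → w' ≤ 1 / 2) :
    φ ^ 2 - 4 * (v + s) * φ ^ 2
      ≤ w ^ 2 * (φ / W) ^ 2 - w * (φ / W) ^ 2 + W * (φ / W) ^ 2 := by
  have hWpos : 0 < W := by rw [hW]; linarith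
  have key : W ^ 2 * (1 - 4 * (v + s)) ≤ w ^ 2 - w + W := by
    by_cases h : w' = w
    · subst h
      -- `w^2 - w + W - W^2 = (W - w) (1 - w - W)`, `W - w = v + s`
      have h1 : w' ^ 2 - w' + W - W ^ 2 = (v + s) * (1 - w' - W) := by
        rw [hW]; ring
      have h2 : 0 ≤ (v + s) * ((1 - w' - W) + 4 * W ^ 2) := by
        apply mul_nonneg (by linarith)
        nlinarith [sq_nonneg (2 * W - 1 / 2), sq_nonneg (W - 1/4), hWpos]
      nlinarith
    · have hh := hhalf h
      have h1 : w ^ 2 - w + W - W ^ 2 = (W - w) * (1 - w - W) := by ring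
      have hWw : 0 < W - w := by linarith
      by_cases hsgn : 0 ≤ 1 - w - W
      · have : 0 ≤ (W - w) * (1 - w - W) := mul_nonneg hWw.le hsgn
        have h3 : 0 ≤ 4 * (v + s) * W ^ 2 := by positivity
        nlinarith
      · push Not at hsgn
        -- `w + W - 1 ≤ v + s`
        have h3 : w + W - 1 ≤ v + s := by linarith
        have hWhalf : 1 / 2 < W := by linarith
        have h4 : (W - w) * (w + W - 1) ≤ W * (v + s) := by
          apply mul_le_mul (by linarith) h3 (by linarith) hWpos.le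
        have h5 : W * (v + s) ≤ 4 * (v + s) * W ^ 2 := by
          have : 0 ≤ (v + s) * W * (4 * W - 1) := by
            apply mul_nonneg (by positivity) (by linarith)
          nlinarith
        nlinarith
  have h1 : w ^ 2 * (φ / W) ^ 2 - w * (φ / W) ^ 2 + W * (φ / W) ^ 2
      = (w ^ 2 - w + W) * (φ ^ 2 / W ^ 2) := by
    rw [div_pow]; ring
  have h2 : φ ^ 2 - 4 * (v + s) * φ ^ 2 = (W ^ 2 * (1 - 4 * (v + s))) * (φ ^ 2 / W ^ 2) := by
    field_simp
  rw [h1, h2]
  exact mul_le_mul_of_nonneg_right key (by positivity)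

end Pool.Agent.H47.FQ
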