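import Mathlib

set_option autoImplicit false

namespace Pool.Agent.H47.DZ

open Polynomial Finset

/-- The sum of the absolute values of the coefficients. -/
noncomputable def L1 (p : ℝ[X]) : ℝ := ∑ i ∈ p.support, |p.coeff i|

lemma L1_eq {p : ℝ[X]} {s : Finset ℕ} (h : p.support ⊆ s) : L1 p = ∑ i ∈ s, |p.coeff i| := by
  unfold L1
  refine Finset.sum_subset h ?_
  intro i _ hi
  simp only [mem_support_iff, not_not] at hi
  simp [hi]

lemma L1_nonneg (p : ℝ[X]) : 0 ≤ L1 p := Finset.sum_nonneg (fun _ _ => abs_nonneg _)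

lemma L1_add_le (p q : ℝ[X]) : L1 (p + q) ≤ L1 p + L1 q := by
  classical
  rw [L1_eq (p := p) (s := p.support ∪ q.support) Finset.subset_union_left,
    L1_eq (p := q) (s := p.support ∪ q.support) Finset.subset_union_right,
    L1_eq (p := p + q) (s := p.support ∪ q.support) support_add, ← Finset.sum_add_distrib]
  refine Finset.sum_le_sum fun i _ => ?_
  rw [coeff_add]
  exact abs_add_le _ _

@[simp] lemma L1_zero : L1 0 = 0 := by simp [L1]

lemma L1_sum_le {ι : Type*} (s : Finset ι) (f : ι → ℝ[X]) :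
    L1 (∑ i ∈ s, f i) ≤ ∑ i ∈ s, L1 (f i) := by
  classical
  induction s using Finset.induction_on with
  | empty => simp
  | insert a s ha ih =>
    rw [Finset.sum_insert ha, Finset.sum_insert ha]
    exact (L1_add_le _ _).trans (by linarith)

lemma L1_monomial (n : ℕ) (a : ℝ) : L1 (monomial n a) = |a| := by
  rw [L1_eq (s := {n}) (support_monomial_subset n a)]
  simp

lemma L1_C (a : ℝ) : L1 (C a) = |a| := by
  rw [← monomial_zero_left]; exact L1_monomial 0 a

lemma L1_neg (p : ℝ[X]) : L1 (-p) = L1 p := by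
  simp [L1]

lemma L1_mul_le (p q : ℝ[X]) : L1 (p * q) ≤ L1 p * L1 q := by
  rw [mul_eq_sum_sum]
  refine (L1_sum_le _ _).trans ?_
  have : ∀ i ∈ p.support, L1 (q.sum fun j a => (monomial (i + j)) (p.coeff i * a))
      ≤ |p.coeff i| * L1 q := by
    intro i _
    rw [Polynomial.sum]
    refine (L1_sum_le _ _).trans ?_
    rw [L1, Finset.mul_sum]
    refine Finset.sum_le_sum fun j _ => ?_
    rw [L1_monomial, abs_mul]
  refine (Finset.sum_le_sum this).trans ?_
  rw [← Finset.sum_mul]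
  exact le_rfl

lemma L1_C_mul_le (a : ℝ) (p : ℝ[X]) : L1 (C a * p) ≤ |a| * L1 p := by
  refine (L1_mul_le _ _).trans ?_
  rw [L1_C]

lemma L1_X_pow (n : ℕ) : L1 (X ^ n : ℝ[X]) = 1 := by
  rw [← monomial_one_right_eq_X_pow, L1_monomial]; simp

lemma L1_C_mul_X_pow (a : ℝ) (n : ℕ) : L1 (C a * X ^ n : ℝ[X]) = |a| := by
  rw [C_mul_X_pow_eq_monomial, L1_monomial]

lemma abs_coeff_le_L1 (p : ℝ[X]) (i : ℕ) : |p.coeff i| ≤ L1 p := by
  by_cases h : i ∈ p.support
  · exact Finset.single_le_sum (f := fun i => |p.coeff i|) (fun _ _ => abs_nonneg _) h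
  · simp only [mem_support_iff, not_not] at h
    rw [h, abs_zero]; exact L1_nonneg p

/-- If all coefficients of `q` are bounded by `M`, those of `p * q` are bounded by `L1 p * M`. -/
lemma abs_coeff_mul_le (p q : ℝ[X]) {M : ℝ} (hM : ∀ i, |q.coeff i| ≤ M) (j : ℕ) :
    |(p * q).coeff j| ≤ L1 p * M := by
  have hM0 : 0 ≤ M := (abs_nonneg _).trans (hM 0)
  rw [coeff_mul]
  refine (Finset.abs_sum_le_sum_abs _ _).trans ?_
  rw [Finset.Nat.sum_antidiagonal_eq_sum_range_succ (fun i k => |p.coeff i * q.coeff k|)]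
  calc ∑ k ∈ range j.succ, |p.coeff k * q.coeff (j - k)|
      ≤ ∑ k ∈ range j.succ, |p.coeff k| * M := by
        refine Finset.sum_le_sum fun k _ => ?_
        rw [abs_mul]
        exact mul_le_mul_of_nonneg_left (hM _) (abs_nonneg _)
    _ = (∑ k ∈ range j.succ, |p.coeff k|) * M := by rw [Finset.sum_mul]
    _ ≤ L1 p * M := by
        refine mul_le_mul_of_nonneg_right ?_ hM0
        rw [L1_eq (p := p) (s := range j.succ ∪ p.support) Finset.subset_union_right]
        exact Finset.sum_le_sum_of_subset_of_nonneg Finset.subset_union_left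
          (fun _ _ _ => abs_nonneg _)

/-- Evaluation bound for a polynomial with bounded coefficients that vanish below index `N`. -/
lemma abs_eval_le (q : ℝ[X]) {M x : ℝ} {N : ℕ} (hM : ∀ i, |q.coeff i| ≤ M)
    (hN : ∀ i < N, q.coeff i = 0) (hx0 : 0 ≤ x) (hx1 : x < 1) :
    |q.eval x| ≤ M * (x ^ N / (1 - x)) := by
  have hM0 : 0 ≤ M := (abs_nonneg _).trans (hM 0)
  have h1 : q.eval x = ∑ i ∈ Ico N (max N (q.natDegree + 1)), q.coeff i * x ^ i := by
    rw [eval_eq_sum_range' (n := max N (q.natDegree + 1))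
      (lt_of_lt_of_le (Nat.lt_succ_self _) (le_max_right _ _))]
    rw [← Finset.sum_range_add_sum_Ico _ (le_max_left N (q.natDegree + 1))]
    rw [Finset.sum_eq_zero (fun i hi => by rw [hN i (Finset.mem_range.1 hi), zero_mul]), zero_add]
  rw [h1]
  refine (Finset.abs_sum_le_sum_abs _ _).trans ?_
  calc ∑ i ∈ Ico N (max N (q.natDegree + 1)), |q.coeff i * x ^ i|
      ≤ ∑ i ∈ Ico N (max N (q.natDegree + 1)), M * x ^ i := by
        refine Finset.sum_le_sum fun i _ => ?_
        rw [abs_mul, abs_of_nonneg (pow_nonneg hx0 i)]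
        exact mul_le_mul_of_nonneg_right (hM i) (pow_nonneg hx0 i)
    _ = M * ∑ i ∈ Ico N (max N (q.natDegree + 1)), x ^ i := by rw [Finset.mul_sum]
    _ ≤ M * (x ^ N / (1 - x)) :=
        mul_le_mul_of_nonneg_left (geom_sum_Ico_le_of_lt_one hx0 hx1) hM0

/-- Noise-shaping rounding: error feedback through the filter `1 + P1`. -/
lemma rounding (P1 B : ℝ[X]) {G β : ℝ} (hP0 : P1.coeff 0 = 0) (hG : L1 P1 ≤ G)
    (hB : ∀ i, |B.coeff i| ≤ β) (hβ : β + G / 2 ≤ 3 / 2) (n : ℕ) :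
    ∃ E D : ℝ[X], (∀ i, E.coeff i = -1 ∨ E.coeff i = 0 ∨ E.coeff i = 1) ∧
      (∀ i, n ≤ i → E.coeff i = 0) ∧ (∀ i, |D.coeff i| ≤ 1 / 2) ∧
      (∀ i, n ≤ i → D.coeff i = 0) ∧
      (∀ i < n, (B - (1 + P1) * D - E).coeff i = 0) := by
  induction n with
  | zero => exact ⟨0, 0, by simp, by simp, by simp, by simp, by simp⟩
  | succ n ih =>
    obtain ⟨E, D, hE, hE0, hD, hD0, hR⟩ := ih
    set u : ℝ := (B - (1 + P1) * D - E).coeff n with hu
    have hub : |u| ≤ 3 / 2 := by
      have h1 : u = B.coeff n - (P1 * D).coeff n := by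
        rw [hu, coeff_sub, coeff_sub, add_mul, one_mul, coeff_add, hD0 n le_rfl, hE0 n le_rfl]
        ring
      rw [h1]
      have h2 := abs_coeff_mul_le P1 D hD n
      have h3 : |B.coeff n - (P1 * D).coeff n| ≤ |B.coeff n| + |(P1 * D).coeff n| := abs_sub _ _
      have h4 := hB n
      nlinarith
    obtain ⟨ε, hε, hδ⟩ : ∃ ε : ℝ, (ε = -1 ∨ ε = 0 ∨ ε = 1) ∧ |u - ε| ≤ 1 / 2 := by
      rw [abs_le] at hub
      rcases le_total u (-(1/2)) with h | h
      · exact ⟨-1, Or.inl rfl, abs_le.2 ⟨by linarith [hub.1], by linarith⟩⟩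
      · rcases le_total u (1/2) with h' | h'
        · exact ⟨0, Or.inr (Or.inl rfl), abs_le.2 ⟨by linarith, by linarith⟩⟩
        · exact ⟨1, Or.inr (Or.inr rfl), abs_le.2 ⟨by linarith, by linarith [hub.2]⟩⟩
    refine ⟨E + C ε * X ^ n, D + C (u - ε) * X ^ n, ?_, ?_, ?_, ?_, ?_⟩
    · intro i
      rw [coeff_add, coeff_C_mul_X_pow]
      by_cases hi : i = n
      · subst hi
        rw [hE0 i le_rfl, if_pos rfl, zero_add]
        exact hε
      · rw [if_neg hi, add_zero]; exact hE i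
    · intro i hi
      rw [coeff_add, coeff_C_mul_X_pow, if_neg (by omega), hE0 i (by omega), add_zero]
    · intro i
      rw [coeff_add, coeff_C_mul_X_pow]
      by_cases hi : i = n
      · subst hi
        rw [hD0 i le_rfl, if_pos rfl, zero_add]
        exact hδ
      · rw [if_neg hi, add_zero]; exact hD i
    · intro i hi
      rw [coeff_add, coeff_C_mul_X_pow, if_neg (by omega), hD0 i (by omega), add_zero]
    · intro i hi
      have hexp : B - (1 + P1) * (D + C (u - ε) * X ^ n) - (E + C ε * X ^ n)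
          = (B - (1 + P1) * D - E) - C (u - ε) * ((1 + P1) * X ^ n) - C ε * X ^ n := by ring
      rw [hexp, coeff_sub, coeff_sub, coeff_C_mul, coeff_mul_X_pow', coeff_C_mul_X_pow]
      rcases Nat.lt_succ_iff_lt_or_eq.1 hi with h | h
      · rw [if_neg (by omega), if_neg (by omega), hR i h]; simp
      · subst h
        rw [if_pos le_rfl, if_pos rfl, ← hu]
        simp [hP0]

/-- The rounded polynomial `E` has coefficients `-1, 0, 1` and is close to `B` wherever the filter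
`1 + P1` is small. -/
lemma rounding_eval (P1 B : ℝ[X]) {G β : ℝ} (hP0 : P1.coeff 0 = 0) (hG : L1 P1 ≤ G)
    (hB : ∀ i, |B.coeff i| ≤ β) (hβ : β + G / 2 ≤ 3 / 2) (n : ℕ) :
    ∃ E : ℝ[X], (∀ i, E.coeff i = -1 ∨ E.coeff i = 0 ∨ E.coeff i = 1) ∧
      (∀ i, n ≤ i → E.coeff i = 0) ∧
      ∀ x : ℝ, 0 ≤ x → x < 1 →
        |E.eval x - B.eval x| ≤ |(1 + P1).eval x| * (1 / 2 / (1 - x)) + 3 / 2 * (x ^ n / (1 - x)) := by
  obtain ⟨E, D, hE, hE0, hD, hD0, hR⟩ := rounding P1 B hP0 hG hB hβ n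
  refine ⟨E, hE, hE0, fun x hx0 hx1 => ?_⟩
  set R : ℝ[X] := B - (1 + P1) * D - E with hRdef
  have hRb : ∀ i, |R.coeff i| ≤ 3 / 2 := by
    intro i
    rcases lt_or_ge i n with h | h
    · rw [hR i h]; norm_num
    · have h1 : R.coeff i = B.coeff i - (P1 * D).coeff i := by
        rw [hRdef, coeff_sub, coeff_sub, add_mul, one_mul, coeff_add, hD0 i h, hE0 i h]
        ring
      rw [h1]
      have h2 := abs_coeff_mul_le P1 D hD i
      have h3 : |B.coeff i - (P1 * D).coeff i| ≤ |B.coeff i| + |(P1 * D).coeff i| := abs_sub _ _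
      have h4 := hB i
      nlinarith
  have h1 : E.eval x - B.eval x = -((1 + P1).eval x * D.eval x) - R.eval x := by
    rw [hRdef]; simp only [eval_sub, eval_mul]; ring
  have h2 : |D.eval x| ≤ 1 / 2 * (x ^ 0 / (1 - x)) := abs_eval_le D hD (by simp) hx0 hx1
  have h3 : |R.eval x| ≤ 3 / 2 * (x ^ n / (1 - x)) := abs_eval_le R hRb hR hx0 hx1
  rw [h1]
  calc |-((1 + P1).eval x * D.eval x) - R.eval x|
      ≤ |-((1 + P1).eval x * D.eval x)| + |R.eval x| := abs_sub _ _
    _ = |(1 + P1).eval x| * |D.eval x| + |R.eval x| := by rw [abs_neg, abs_mul]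
    _ ≤ |(1 + P1).eval x| * (1 / 2 / (1 - x)) + 3 / 2 * (x ^ n / (1 - x)) := by
        refine add_le_add (mul_le_mul_of_nonneg_left ?_ (abs_nonneg _)) h3
        refine h2.trans (le_of_eq ?_)
        rw [pow_zero]; ring

end Pool.Agent.H47.DZ
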