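import Mathlib

set_option autoImplicit false

namespace Pool.Agent.H47.DZ

open Finset

/-- Taylor remainder for `exp (-y)`, `y ≥ 0`. -/
lemma exp_neg_remainder (n : ℕ) : ∀ y : ℝ, 0 ≤ y →
    |Real.exp (-y) - ∑ l ∈ range n, (-y) ^ l / (l.factorial : ℝ)| ≤ y ^ n / (n.factorial : ℝ) := by
  induction n with
  | zero =>
    intro y hy
    simp only [range_zero, sum_empty, sub_zero, pow_zero, Nat.factorial_zero, Nat.cast_one, div_one]
    rw [abs_of_pos (Real.exp_pos _)]
    exact Real.exp_le_one_iff.2 (by linarith)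
  | succ n ih =>
    have hder : ∀ y : ℝ, HasDerivAt (fun y : ℝ => Real.exp (-y) -
        ∑ l ∈ range (n + 1), (-y) ^ l / (l.factorial : ℝ))
        (-(Real.exp (-y) - ∑ l ∈ range n, (-y) ^ l / (l.factorial : ℝ))) y := by
      intro y
      have h1 : HasDerivAt (fun y : ℝ => Real.exp (-y)) (-Real.exp (-y)) y := by
        have := (hasDerivAt_neg y).exp
        exact this.congr_deriv (by ring)
      have h2 : HasDerivAt (fun y : ℝ => ∑ l ∈ range (n + 1), (-y) ^ l / (l.factorial : ℝ))
          (-(∑ l ∈ range n, (-y) ^ l / (l.factorial : ℝ))) y := by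
        have h3 : ∀ l ∈ range (n + 1), HasDerivAt (fun y : ℝ => (-y) ^ l / (l.factorial : ℝ))
            ((l : ℝ) * (-y) ^ (l - 1) * (-1) / (l.factorial : ℝ)) y := by
          intro l _
          exact ((hasDerivAt_neg y).pow l).div_const _
        have h4 := HasDerivAt.fun_sum h3
        refine h4.congr_deriv ?_
        rw [Finset.sum_range_succ']
        simp only [Nat.cast_zero, zero_mul, zero_div, add_zero]
        rw [← Finset.sum_neg_distrib]
        refine Finset.sum_congr rfl fun l _ => ?_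
        rw [Nat.add_sub_cancel, Nat.factorial_succ]
        have : ((l.factorial : ℕ) : ℝ) ≠ 0 := by positivity
        have h5 : ((l : ℝ) + 1) ≠ 0 := by positivity
        push_cast
        field_simp
      exact (h1.fun_sub h2).congr_deriv (by ring)
    have hpow : ∀ y : ℝ, HasDerivAt (fun y : ℝ => y ^ (n + 1) / ((n + 1).factorial : ℝ))
        (y ^ n / (n.factorial : ℝ)) y := by
      intro y
      have := (hasDerivAt_pow (n + 1) y).div_const ((n + 1).factorial : ℝ)
      refine this.congr_deriv ?_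
      rw [Nat.add_sub_cancel, Nat.factorial_succ]
      have : ((n.factorial : ℕ) : ℝ) ≠ 0 := by positivity
      have h5 : ((n : ℝ) + 1) ≠ 0 := by positivity
      push_cast
      field_simp
    have hz : (fun y : ℝ => Real.exp (-y) -
        ∑ l ∈ range (n + 1), (-y) ^ l / (l.factorial : ℝ)) 0 = 0 := by
      simp only [neg_zero, Real.exp_zero]
      rw [Finset.sum_range_succ']
      simp
    intro y hy
    rw [abs_le]
    constructor
    · have hm : MonotoneOn (fun y : ℝ => y ^ (n + 1) / ((n + 1).factorial : ℝ) +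
          (Real.exp (-y) - ∑ l ∈ range (n + 1), (-y) ^ l / (l.factorial : ℝ))) (Set.Ici 0) := by
        refine monotoneOn_of_deriv_nonneg (convex_Ici 0) ?_ ?_ ?_
        · exact fun y _ => ((hpow y).fun_add (hder y)).continuousAt.continuousWithinAt
        · exact fun y _ => ((hpow y).fun_add (hder y)).differentiableAt.differentiableWithinAt
        · intro y hy
          rw [interior_Ici] at hy
          rw [((hpow y).fun_add (hder y)).deriv]
          have := (abs_le.1 (ih y (le_of_lt hy))).2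
          linarith
      have := hm (Set.mem_Ici.2 le_rfl) (Set.mem_Ici.2 hy) hy
      simp only at this hz
      rw [hz] at this
      simp at this
      linarith
    · have hm : MonotoneOn (fun y : ℝ => y ^ (n + 1) / ((n + 1).factorial : ℝ) -
          (Real.exp (-y) - ∑ l ∈ range (n + 1), (-y) ^ l / (l.factorial : ℝ))) (Set.Ici 0) := by
        refine monotoneOn_of_deriv_nonneg (convex_Ici 0) ?_ ?_ ?_
        · exact fun y _ => ((hpow y).fun_sub (hder y)).continuousAt.continuousWithinAt
        · exact fun y _ => ((hpow y).fun_sub (hder y)).differentiableAt.differentiableWithinAt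
        · intro y hy
          rw [interior_Ici] at hy
          rw [((hpow y).fun_sub (hder y)).deriv]
          have := (abs_le.1 (ih y (le_of_lt hy))).1
          linarith
      have := hm (Set.mem_Ici.2 le_rfl) (Set.mem_Ici.2 hy) hy
      simp only at this hz
      rw [hz] at this
      simp at this
      linarith

/-- Ratio of binomial coefficients `C(2m, m+j) / C(2m, m)`. -/
noncomputable def b (m j : ℕ) : ℝ := ((2 * m).choose (m + j) : ℝ) / ((2 * m).choose m : ℝ)

lemma choose_pos' (m : ℕ) : (0 : ℝ) < ((2 * m).choose m : ℝ) := by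
  exact_mod_cast Nat.choose_pos (by omega)

lemma b_zero (m : ℕ) : b m 0 = 1 := by
  unfold b; rw [add_zero]; exact div_self (choose_pos' m).ne'

lemma b_nonneg (m j : ℕ) : 0 ≤ b m j := by unfold b; positivity

lemma b_succ (m j : ℕ) (hj : j ≤ m) : b m (j + 1) * (m + j + 1) = b m j * (m - j) := by
  unfold b
  have h := Nat.choose_succ_right_eq (2 * m) (m + j)
  have h2 : 2 * m - (m + j) = m - j := by omega
  rw [h2] at h
  have h3 : ((2 * m).choose (m + j + 1) : ℝ) * (m + j + 1) = ((2 * m).choose (m + j) : ℝ) * (m - j) := by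
    have := congrArg (Nat.cast : ℕ → ℝ) h
    push_cast [Nat.cast_sub hj] at this
    linarith
  have h4 := (choose_pos' m).ne'
  rw [show m + (j + 1) = m + j + 1 by ring]
  field_simp
  linarith

lemma b_le_exp (m j : ℕ) (hj : j ≤ m) : b m j ≤ Real.exp (-((j : ℝ) ^ 2 / (2 * m))) := by
  induction j with
  | zero => simp [b_zero]
  | succ j ih =>
    have hm : (0 : ℝ) < m := by exact_mod_cast (show 0 < m by omega)
    have hj' : (j : ℝ) + 1 ≤ m := by exact_mod_cast hj
    have h1 := b_succ m j (by omega)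
    have h2 : b m (j + 1) = b m j * ((m - j) / (m + j + 1)) := by
      field_simp
      linarith
    have hj0 : (0 : ℝ) ≤ j := Nat.cast_nonneg j
    have h3 : ((m : ℝ) - j) / (m + j + 1) ≤ Real.exp (-((2 * j + 1) / (2 * m))) := by
      have h4 : ((m : ℝ) - j) / (m + j + 1) ≤ 1 - (2 * j + 1) / (2 * m) := by
        rw [div_le_iff₀ (by positivity)]
        have : (1 - (2 * (j : ℝ) + 1) / (2 * m)) * (m + j + 1)
            = (m + j + 1) - (2 * j + 1) * ((m + j + 1) / (2 * m)) := by
          field_simp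
        rw [this]
        have h5 : ((m : ℝ) + j + 1) / (2 * m) ≤ 1 := by
          rw [div_le_one (by positivity)]; linarith
        nlinarith
      have h6 := Real.add_one_le_exp (-((2 * (j : ℝ) + 1) / (2 * m)))
      linarith
    rw [h2]
    calc b m j * ((m - j) / (m + j + 1))
        ≤ Real.exp (-((j : ℝ) ^ 2 / (2 * m))) * Real.exp (-((2 * j + 1) / (2 * m))) := by
          refine mul_le_mul (ih (by omega)) h3 ?_ (Real.exp_pos _).le
          apply div_nonneg <;> linarith
      _ = Real.exp (-(((j + 1 : ℕ) : ℝ) ^ 2 / (2 * m))) := by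
          rw [← Real.exp_add]
          congr 1
          push_cast
          field_simp
          ring

lemma b_le_one (m j : ℕ) (hj : j ≤ m) : b m j ≤ 1 := by
  refine (b_le_exp m j hj).trans ?_
  rw [Real.exp_le_one_iff]
  have : (0 : ℝ) ≤ (j : ℝ) ^ 2 / (2 * m) := by positivity
  linarith

/-- Moment identity for the signed binomial weights. -/
lemma b_moment (m l : ℕ) (hl : l < m) :
    (0 : ℝ) ^ l + 2 * ∑ j ∈ Icc 1 m, (-1) ^ j * b m j * ((j : ℝ) ^ 2) ^ l = 0 := by
  have h1 := congrFun (fwdDiff_iter_pow_eq_zero_of_lt (R := ℝ) (j := 2 * l) (n := 2 * m) (by omega))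
    (-(m : ℝ))
  rw [fwdDiff_iter_eq_sum_shift] at h1
  simp only [Pi.zero_apply, nsmul_eq_mul, mul_one, zsmul_eq_mul, Int.cast_mul, Int.cast_pow,
    Int.cast_neg, Int.cast_one, Int.cast_natCast] at h1
  -- split the sum
  have h2 : ∑ k ∈ range (2 * m + 1), (-1 : ℝ) ^ (2 * m - k) * ((2 * m).choose k : ℝ) *
      (-(m : ℝ) + k) ^ (2 * l) = ((2 * m).choose m : ℝ) * (-1) ^ m *
        ((0 : ℝ) ^ l + 2 * ∑ j ∈ Icc 1 m, (-1) ^ j * b m j * ((j : ℝ) ^ 2) ^ l) := by
    have hc := (choose_pos' m).ne'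
    have hA : ∑ k ∈ range (2 * m + 1), (-1 : ℝ) ^ (2 * m - k) * ((2 * m).choose k : ℝ) *
        (-(m : ℝ) + k) ^ (2 * l) =
        ∑ k ∈ range m, (-1 : ℝ) ^ (2 * m - k) * ((2 * m).choose k : ℝ) *
        (-(m : ℝ) + k) ^ (2 * l) + ∑ k ∈ Ico m (2 * m + 1), (-1 : ℝ) ^ (2 * m - k) *
        ((2 * m).choose k : ℝ) * (-(m : ℝ) + k) ^ (2 * l) := by
      rw [Finset.sum_range_add_sum_Ico _ (by omega)]
    have hB : ∑ k ∈ range m, (-1 : ℝ) ^ (2 * m - k) * ((2 * m).choose k : ℝ) *
        (-(m : ℝ) + k) ^ (2 * l) = ∑ j ∈ range m, (-1 : ℝ) ^ (m + (j + 1)) *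
        ((2 * m).choose (m + (j + 1)) : ℝ) * (((j + 1 : ℕ) : ℝ) ^ 2) ^ l := by
      rw [← Finset.sum_range_reflect]
      refine Finset.sum_congr rfl fun j hj => ?_
      have hj' := Finset.mem_range.1 hj
      have e1 : 2 * m - (m - 1 - j) = m + (j + 1) := by omega
      have e2 : (2 * m).choose (m - 1 - j) = (2 * m).choose (m + (j + 1)) := by
        rw [← Nat.choose_symm (show m + (j + 1) ≤ 2 * m by omega)]
        congr 1; omega
      rw [e1, e2]
      congr 1
      rw [← pow_mul]
      have e3 : ((m - 1 - j : ℕ) : ℝ) = m - 1 - j := by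
        rw [Nat.cast_sub (by omega), Nat.cast_sub (by omega)]; simp
      rw [e3]
      have e4 : (-(m : ℝ) + (m - 1 - j)) = -(((j + 1 : ℕ) : ℝ)) := by push_cast; ring
      rw [e4, Even.neg_pow (by simp)]
    have hC : ∑ k ∈ Ico m (2 * m + 1), (-1 : ℝ) ^ (2 * m - k) *
        ((2 * m).choose k : ℝ) * (-(m : ℝ) + k) ^ (2 * l) =
        ∑ j ∈ range m, (-1 : ℝ) ^ (m + (j + 1)) *
        ((2 * m).choose (m + (j + 1)) : ℝ) * (((j + 1 : ℕ) : ℝ) ^ 2) ^ l +
          (-1) ^ m * ((2 * m).choose m : ℝ) * (0 : ℝ) ^ l := by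
      rw [Finset.sum_Ico_eq_sum_range]
      rw [show 2 * m + 1 - m = m + 1 by omega, Finset.sum_range_succ']
      congr 1
      · refine Finset.sum_congr rfl fun j hj => ?_
        have hj' := Finset.mem_range.1 hj
        have e1 : (-1 : ℝ) ^ (2 * m - (m + (j + 1))) = (-1) ^ (m + (j + 1)) := by
          have : m + (j + 1) = (2 * m - (m + (j + 1))) + 2 * (j + 1) := by omega
          conv_rhs => rw [this, pow_add, pow_mul]
          simp
        rw [e1]
        congr 1
        rw [← pow_mul]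
        push_cast
        congr 1
        ring
      · simp only [add_zero]
        have e1 : 2 * m - m = m := by omega
        rw [e1]
        congr 1
        rw [pow_mul]
        simp
    rw [hA, hB, hC]
    have hD : ∑ j ∈ Icc 1 m, (-1 : ℝ) ^ j * b m j * ((j : ℝ) ^ 2) ^ l
        = ∑ j ∈ range m, (-1 : ℝ) ^ (j + 1) * b m (j + 1) * (((j + 1 : ℕ) : ℝ) ^ 2) ^ l := by
      rw [Finset.range_eq_Ico, Finset.sum_Ico_add' (fun j => (-1 : ℝ) ^ j * b m j * ((j : ℝ) ^ 2) ^ l)]
      rfl
    rw [hD, Finset.mul_sum, mul_add, Finset.mul_sum]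
    have hE : ∑ i ∈ range m, ((2 * m).choose m : ℝ) * (-1) ^ m * (2 * ((-1) ^ (i + 1) * b m (i + 1) *
        (((i + 1 : ℕ) : ℝ) ^ 2) ^ l)) = ∑ j ∈ range m, (-1 : ℝ) ^ (m + (j + 1)) *
        ((2 * m).choose (m + (j + 1)) : ℝ) * (((j + 1 : ℕ) : ℝ) ^ 2) ^ l +
        ∑ j ∈ range m, (-1 : ℝ) ^ (m + (j + 1)) *
        ((2 * m).choose (m + (j + 1)) : ℝ) * (((j + 1 : ℕ) : ℝ) ^ 2) ^ l := by
      rw [← Finset.sum_add_distrib]
      refine Finset.sum_congr rfl fun j _ => ?_
      unfold b
      rw [pow_add]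
      field_simp
      ring
    rw [hE]
    ring
  rw [h2] at h1
  have hc := (choose_pos' m).ne'
  rcases mul_eq_zero.1 h1 with h3 | h3
  · exfalso
    rcases mul_eq_zero.1 h3 with h4 | h4
    · exact hc h4
    · exact pow_ne_zero m (by norm_num) h4
  · exact h3

end Pool.Agent.H47.DZ
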