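import Mathlib
import Pool.Agent.H47.DZBasic
import Pool.Agent.H47.DZBinom

set_option autoImplicit false

namespace Pool.Agent.H47.DZ

open Polynomial Finset

noncomputable def cc (m j : ℕ) : ℝ := 2 * (-1) ^ (j + 1) * b m j / (9 * (j : ℝ) ^ 2 - 1)

noncomputable def c1 (m : ℕ) : ℝ := -(1 + ∑ j ∈ Icc 1 m, cc m j)

lemma den_pos {j : ℕ} (hj : 1 ≤ j) : (0 : ℝ) < 9 * (j : ℝ) ^ 2 - 1 := by
  have : (1 : ℝ) ≤ j := by exact_mod_cast hj
  nlinarith

lemma abs_cc (m j : ℕ) (hj : 1 ≤ j) : |cc m j| = 2 * b m j / (9 * (j : ℝ) ^ 2 - 1) := by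
  unfold cc
  rw [abs_div, abs_of_pos (den_pos hj), abs_mul, abs_mul, abs_of_nonneg (b_nonneg m j)]
  simp

lemma sum_two_div_le (m : ℕ) (hm : 1 ≤ m) :
    ∑ j ∈ Icc 1 m, 2 / (9 * (j : ℝ) ^ 2 - 1) ≤ 1 / 2 - 1 / (4 * (m : ℝ)) := by
  induction m, hm using Nat.le_induction with
  | base => norm_num
  | succ n hn ih =>
    rw [Finset.sum_Icc_succ_top (by omega)]
    have hn' : (1 : ℝ) ≤ n := by exact_mod_cast hn
    have h1 : 2 / (9 * ((n + 1 : ℕ) : ℝ) ^ 2 - 1) ≤ 1 / (4 * (n : ℝ)) - 1 / (4 * ((n + 1 : ℕ) : ℝ)) := by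
      push_cast
      have h2 : 1 / (4 * (n : ℝ)) - 1 / (4 * ((n : ℝ) + 1)) = 1 / (4 * (n * (n + 1))) := by
        field_simp; ring
      rw [h2, div_le_div_iff₀ (by nlinarith) (by positivity)]
      nlinarith
    linarith

lemma sum_two_div_le' (m : ℕ) : ∑ j ∈ Icc 1 m, 2 / (9 * (j : ℝ) ^ 2 - 1) ≤ 1 / 2 := by
  rcases Nat.eq_zero_or_pos m with h | h
  · subst h; simp
  · have := sum_two_div_le m h
    have h2 : (0 : ℝ) ≤ 1 / (4 * (m : ℝ)) := by positivity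
    linarith

lemma sum_abs_cc_le (m : ℕ) : ∑ j ∈ Icc 1 m, |cc m j| ≤ 1 / 2 := by
  refine le_trans (Finset.sum_le_sum fun j hj => ?_) (sum_two_div_le' m)
  have hj := Finset.mem_Icc.1 hj
  rw [abs_cc m j hj.1]
  exact div_le_div_of_nonneg_right (by nlinarith [b_le_one m j hj.2]) (den_pos hj.1).le

lemma abs_c1_le (m : ℕ) : |c1 m| ≤ 3 / 2 := by
  unfold c1
  rw [abs_neg]
  have h1 : |∑ j ∈ Icc 1 m, cc m j| ≤ 1 / 2 := (Finset.abs_sum_le_sum_abs _ _).trans (sum_abs_cc_le m)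
  have h2 := abs_add_le (1 : ℝ) (∑ j ∈ Icc 1 m, cc m j)
  rw [abs_one] at h2
  linarith

lemma moment (m l : ℕ) (hl : l ≤ m) :
    (0 : ℝ) ^ l + c1 m + ∑ j ∈ Icc 1 m, cc m j * (9 * (j : ℝ) ^ 2) ^ l = 0 := by
  induction l with
  | zero =>
    simp [c1]
  | succ l ih =>
    have h1 := ih (by omega)
    have h2 := b_moment m l (by omega)
    have h3 : ∑ j ∈ Icc 1 m, cc m j * (9 * (j : ℝ) ^ 2) ^ (l + 1)
        = ∑ j ∈ Icc 1 m, cc m j * (9 * (j : ℝ) ^ 2) ^ l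
          - 9 ^ l * (2 * ∑ j ∈ Icc 1 m, (-1) ^ j * b m j * ((j : ℝ) ^ 2) ^ l) := by
      rw [Finset.mul_sum, Finset.mul_sum, ← Finset.sum_sub_distrib]
      refine Finset.sum_congr rfl fun j hj => ?_
      have hj := Finset.mem_Icc.1 hj
      have h4 := (den_pos hj.1).ne'
      unfold cc
      field_simp
      ring
    have h4 : (2 : ℝ) * ∑ j ∈ Icc 1 m, (-1) ^ j * b m j * ((j : ℝ) ^ 2) ^ l = - (0 : ℝ) ^ l := by
      linarith
    rw [h3, h4]
    have h5 : (9 : ℝ) ^ l * -(0 : ℝ) ^ l = - 0 ^ l := by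
      rcases Nat.eq_zero_or_pos l with h | h
      · subst h; simp
      · rw [zero_pow (by omega)]; simp
    rw [h5, pow_succ (0 : ℝ) l, mul_zero]
    linarith

/-- The filter `1 + c1 x + ∑ cc_j x^(9 j^2)` vanishes to order `m + 1` at `x = 1`, quantitatively. -/
lemma filter_small (m : ℕ) (hm0 : 1 ≤ m) (s : ℝ) (hs : 0 ≤ s) :
    |1 + c1 m * Real.exp (-s) + ∑ j ∈ Icc 1 m, cc m j * Real.exp (-((9 * (j : ℝ) ^ 2) * s))|
      ≤ 2 * ((9 * (m : ℝ) ^ 2 * s) ^ (m + 1) / ((m + 1).factorial : ℝ)) := by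
  set T : ℝ → ℝ := fun y => ∑ l ∈ range (m + 1), (-y) ^ l / (l.factorial : ℝ) with hT
  have hT0 : T 0 = 1 := by
    simp only [hT, neg_zero]
    rw [Finset.sum_range_succ']; simp
  have hkey : 1 + c1 m * T s + ∑ j ∈ Icc 1 m, cc m j * T ((9 * (j : ℝ) ^ 2) * s) = 0 := by
    have h1 : ∀ l ∈ range (m + 1), ((-s) ^ l / (l.factorial : ℝ)) *
        ((0 : ℝ) ^ l + c1 m + ∑ j ∈ Icc 1 m, cc m j * (9 * (j : ℝ) ^ 2) ^ l) = 0 := by
      intro l hl
      rw [moment m l (by have := Finset.mem_range.1 hl; omega), mul_zero]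
    have h2 := Finset.sum_eq_zero h1
    rw [← h2]
    simp only [mul_add, Finset.sum_add_distrib]
    congr 1
    · congr 1
      · rw [Finset.sum_range_succ']; simp
      · rw [hT, Finset.mul_sum]; exact Finset.sum_congr rfl fun l _ => by ring
    · simp only [hT, Finset.mul_sum]
      rw [Finset.sum_comm]
      refine Finset.sum_congr rfl fun l _ => Finset.sum_congr rfl fun j _ => ?_
      rw [← mul_neg, mul_pow]
      ring
  have hrem : ∀ y : ℝ, 0 ≤ y → |Real.exp (-y) - T y| ≤ y ^ (m + 1) / ((m + 1).factorial : ℝ) :=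
    fun y hy => exp_neg_remainder (m + 1) y hy
  have hm1 : (1 : ℝ) ≤ m := by exact_mod_cast hm0
  have hfac : (0 : ℝ) < ((m + 1).factorial : ℝ) := by positivity
  set M : ℝ := (9 * (m : ℝ) ^ 2 * s) ^ (m + 1) / ((m + 1).factorial : ℝ) with hM
  have hM0 : 0 ≤ M := by positivity
  have e1 : |Real.exp (-s) - T s| ≤ M := by
    refine (hrem s hs).trans ?_
    refine div_le_div_of_nonneg_right ?_ hfac.le
    refine pow_le_pow_left₀ hs ?_ _
    nlinarith [mul_nonneg hs (by nlinarith : (0:ℝ) ≤ 9 * (m : ℝ) ^ 2 - 1)]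
  have e2 : ∀ j ∈ Icc 1 m, |Real.exp (-((9 * (j : ℝ) ^ 2) * s)) - T ((9 * (j : ℝ) ^ 2) * s)| ≤ M := by
    intro j hj
    have hj := Finset.mem_Icc.1 hj
    refine (hrem _ (by positivity)).trans ?_
    refine div_le_div_of_nonneg_right ?_ hfac.le
    refine pow_le_pow_left₀ (by positivity) ?_ _
    have : (j : ℝ) ≤ m := by exact_mod_cast hj.2
    gcongr
  have e3 : 1 + c1 m * Real.exp (-s) + ∑ j ∈ Icc 1 m, cc m j * Real.exp (-((9 * (j : ℝ) ^ 2) * s))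
      = c1 m * (Real.exp (-s) - T s) + ∑ j ∈ Icc 1 m, cc m j *
        (Real.exp (-((9 * (j : ℝ) ^ 2) * s)) - T ((9 * (j : ℝ) ^ 2) * s)) := by
    simp only [mul_sub, Finset.sum_sub_distrib]
    linarith
  rw [e3]
  calc |c1 m * (Real.exp (-s) - T s) + ∑ j ∈ Icc 1 m, cc m j *
        (Real.exp (-((9 * (j : ℝ) ^ 2) * s)) - T ((9 * (j : ℝ) ^ 2) * s))|
      ≤ |c1 m * (Real.exp (-s) - T s)| + |∑ j ∈ Icc 1 m, cc m j *
        (Real.exp (-((9 * (j : ℝ) ^ 2) * s)) - T ((9 * (j : ℝ) ^ 2) * s))| := abs_add_le _ _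
    _ ≤ 3 / 2 * M + 1 / 2 * M := by
        refine add_le_add ?_ ?_
        · rw [abs_mul]
          exact mul_le_mul (abs_c1_le m) e1 (abs_nonneg _) (by norm_num)
        · refine (Finset.abs_sum_le_sum_abs _ _).trans ?_
          calc ∑ j ∈ Icc 1 m, |cc m j * (Real.exp (-((9 * (j : ℝ) ^ 2) * s)) -
                T ((9 * (j : ℝ) ^ 2) * s))|
              ≤ ∑ j ∈ Icc 1 m, |cc m j| * M := by
                refine Finset.sum_le_sum fun j hj => ?_
                rw [abs_mul]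
                exact mul_le_mul_of_nonneg_left (e2 j hj) (abs_nonneg _)
            _ = (∑ j ∈ Icc 1 m, |cc m j|) * M := by rw [Finset.sum_mul]
            _ ≤ 1 / 2 * M := mul_le_mul_of_nonneg_right (sum_abs_cc_le m) hM0
    _ = 2 * M := by ring

/-- The part of the filter without its constant term `1`, zeros pushed to `x0`. -/
noncomputable def P1 (m : ℕ) (x0 : ℝ) : ℝ[X] :=
  C (c1 m / x0) * X ^ 1 + ∑ j ∈ Icc 1 m, C (cc m j / x0 ^ (9 * j ^ 2)) * X ^ (9 * j ^ 2)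

lemma P1_coeff_zero (m : ℕ) (x0 : ℝ) : (P1 m x0).coeff 0 = 0 := by
  unfold P1
  rw [coeff_add, finsetSum_coeff, coeff_C_mul_X_pow, if_neg (by norm_num), zero_add]
  refine Finset.sum_eq_zero fun j hj => ?_
  have hj := Finset.mem_Icc.1 hj
  rw [coeff_C_mul_X_pow, if_neg]
  have : 1 ≤ j ^ 2 := Nat.one_le_pow _ _ hj.1
  omega

lemma P1_L1 (m : ℕ) (hm : 1 ≤ m) : L1 (P1 m (Real.exp (-(1 / (18 * m))))) ≤ 5 / 2 := by
  have hm' : (1 : ℝ) ≤ m := by exact_mod_cast hm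
  unfold P1
  refine (L1_add_le _ _).trans ?_
  have h1 : L1 (C (c1 m / Real.exp (-(1 / (18 * (m : ℝ))))) * X ^ 1) ≤ 2 := by
    rw [L1_C_mul_X_pow, abs_div, abs_of_pos (Real.exp_pos _), div_le_iff₀ (Real.exp_pos _)]
    have h2 : (3 / 4 : ℝ) ≤ Real.exp (-(1 / (18 * (m : ℝ)))) := by
      have h3 := Real.add_one_le_exp (-(1 / (18 * (m : ℝ))))
      have h4 : 1 / (18 * (m : ℝ)) ≤ 1 / 18 := by
        apply div_le_div_of_nonneg_left <;> linarith
      linarith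
    linarith [abs_c1_le m]
  have h2 : L1 (∑ j ∈ Icc 1 m, C (cc m j / Real.exp (-(1 / (18 * (m : ℝ)))) ^ (9 * j ^ 2)) *
      X ^ (9 * j ^ 2)) ≤ 1 / 2 := by
    refine (L1_sum_le _ _).trans ?_
    refine le_trans (Finset.sum_le_sum fun j hj => ?_) (sum_two_div_le' m)
    have hj := Finset.mem_Icc.1 hj
    rw [L1_C_mul_X_pow, abs_div, abs_cc m j hj.1, abs_of_pos (pow_pos (Real.exp_pos _) _),
      ← Real.exp_nat_mul]
    have h3 : b m j ≤ Real.exp (((9 * j ^ 2 : ℕ) : ℝ) * (-(1 / (18 * (m : ℝ))))) := by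
      refine (b_le_exp m j hj.2).trans (le_of_eq ?_)
      congr 1
      push_cast
      field_simp
      ring
    rw [div_le_iff₀ (Real.exp_pos _), div_mul_eq_mul_div]
    exact div_le_div_of_nonneg_right (by linarith) (den_pos hj.1).le
  linarith

lemma P1_eval (m : ℕ) (x0 s : ℝ) (hx0 : 0 < x0) :
    (1 + P1 m x0).eval (x0 * Real.exp (-s)) =
      1 + c1 m * Real.exp (-s) + ∑ j ∈ Icc 1 m, cc m j * Real.exp (-((9 * (j : ℝ) ^ 2) * s)) := by
  unfold P1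
  rw [eval_add, eval_one, eval_add, eval_finsetSum, ← add_assoc]
  congr 1
  · rw [eval_mul, eval_C, eval_pow, eval_X, pow_one]
    field_simp
  · refine Finset.sum_congr rfl fun j _ => ?_
    rw [eval_mul, eval_C, eval_pow, eval_X, mul_pow, ← Real.exp_nat_mul]
    have h1 : x0 ^ (9 * j ^ 2) ≠ 0 := (pow_pos hx0 _).ne'
    rw [← mul_assoc, div_mul_cancel₀ _ h1]
    congr 2
    push_cast
    ring

end Pool.Agent.H47.DZ
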