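import Mathlib
import Pool.Agent.H47.DZFilter

set_option autoImplicit false
set_option maxHeartbeats 4000000

namespace Pool.Agent.H47.DZ

open Polynomial Finset

lemma L1_T_comp (l : ℝ[X]) {L : ℝ} (hL : L1 l ≤ L) (k : ℕ) :
    L1 ((Chebyshev.T ℝ k).comp l) ≤ (2 * L + 1) ^ k := by
  have hL0 : 0 ≤ L := (L1_nonneg l).trans hL
  have key : ∀ k : ℕ, L1 ((Chebyshev.T ℝ k).comp l) ≤ (2 * L + 1) ^ k ∧
      L1 ((Chebyshev.T ℝ ((k + 1 : ℕ) : ℤ)).comp l) ≤ (2 * L + 1) ^ (k + 1) := by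
    intro k
    induction k with
    | zero =>
      constructor
      · simp only [Nat.cast_zero, Chebyshev.T_zero, one_comp, pow_zero]
        rw [← C_1, L1_C]; simp
      · simp only [zero_add, Nat.cast_one, Chebyshev.T_one, X_comp, pow_one]
        linarith
    | succ k ih =>
      refine ⟨ih.2, ?_⟩
      have h1 : (((k + 1 + 1 : ℕ)) : ℤ) = (k : ℤ) + 2 := by push_cast; ring
      have h2 : Chebyshev.T ℝ (((k + 1 + 1 : ℕ)) : ℤ)
          = 2 * X * Chebyshev.T ℝ ((k + 1 : ℕ) : ℤ) - Chebyshev.T ℝ (k : ℤ) := by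
        rw [h1, Chebyshev.T_add_two]; push_cast; rfl
      rw [h2]
      simp only [sub_comp, mul_comp, X_comp]
      have h3 : ((2 : ℝ[X]).comp l) = C 2 := by
        rw [show (2 : ℝ[X]) = C 2 by rfl]; simp
      rw [h3, sub_eq_add_neg]
      refine (L1_add_le _ _).trans ?_
      rw [L1_neg]
      have h4 : L1 (C 2 * l * (Chebyshev.T ℝ ((k + 1 : ℕ) : ℤ)).comp l)
          ≤ (2 * L) * (2 * L + 1) ^ (k + 1) := by
        refine (L1_mul_le _ _).trans ?_
        refine mul_le_mul ?_ ih.2 (L1_nonneg _) (by positivity)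
        refine (L1_C_mul_le _ _).trans ?_
        rw [abs_of_pos (by norm_num : (0 : ℝ) < 2)]
        linarith
      have h5 : (2 * L + 1) ^ k ≤ (2 * L + 1) ^ (k + 1) :=
        pow_le_pow_right₀ (by linarith) (Nat.le_succ k)
      calc _ ≤ (2 * L) * (2 * L + 1) ^ (k + 1) + (2 * L + 1) ^ (k + 1) := by linarith [ih.1]
        _ = (2 * L + 1) ^ (k + 1 + 1) := by ring
  exact (key k).1

lemma exp_six_ge : (400 : ℝ) ≤ Real.exp 6 := by
  have h := Real.exp_one_gt_d9
  have h2 : Real.exp 6 = Real.exp 1 ^ 6 := by rw [← Real.exp_nat_mul]; norm_num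
  rw [h2]
  have h3 : (2.718 : ℝ) ^ 6 ≤ Real.exp 1 ^ 6 := pow_le_pow_left₀ (by norm_num) (by linarith) 6
  norm_num at h3 ⊢
  linarith

/-- The width parameter. -/
noncomputable def kap : ℝ := Real.exp (-21) / 9

lemma kap_pos : 0 < kap := by unfold kap; positivity

lemma kap_le_one : kap ≤ 1 := by
  have : Real.exp (-21) ≤ 1 := Real.exp_le_one_iff.2 (by norm_num)
  unfold kap; linarith

lemma exp_neg_kap : Real.exp (-kap) ≤ 1 - kap / 2 := by
  have h1 := Real.add_one_le_exp kap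
  have h2 : Real.exp (-kap) * Real.exp kap = 1 := by rw [← Real.exp_add]; simp
  have h3 : 0 < Real.exp (-kap) := Real.exp_pos _
  have h4 := kap_pos
  have h5 := kap_le_one
  nlinarith

lemma gap_bound (m : ℕ) (hm : 1 ≤ m) : 1 / (1 - Real.exp (-(1 / (18 * (m : ℝ))))) ≤ 19 * m := by
  have hm' : (1 : ℝ) ≤ m := by exact_mod_cast hm
  have h1 := Real.add_one_le_exp (1 / (18 * (m : ℝ)))
  have h2 : Real.exp (-(1 / (18 * (m : ℝ)))) * Real.exp (1 / (18 * (m : ℝ))) = 1 := by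
    rw [← Real.exp_add]; simp
  have h0 : 0 < Real.exp (-(1 / (18 * (m : ℝ)))) := Real.exp_pos _
  have h3 : 1 / (19 * (m : ℝ)) ≤ 1 - Real.exp (-(1 / (18 * (m : ℝ)))) := by
    have h4 : Real.exp (-(1 / (18 * (m : ℝ)))) ≤ 1 / (1 + 1 / (18 * (m : ℝ))) := by
      rw [le_div_iff₀ (by positivity)]
      nlinarith
    have h5 : 1 / (1 + 1 / (18 * (m : ℝ))) = 1 - 1 / (18 * m + 1) := by
      field_simp
      ring
    have h6 : 1 / (19 * (m : ℝ)) ≤ 1 / (18 * m + 1) := by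
      apply div_le_div_of_nonneg_left <;> nlinarith
    linarith
  have h7 : 0 < 1 / (19 * (m : ℝ)) := by positivity
  rw [div_le_iff₀ (by linarith)]
  rw [div_le_iff₀ (by positivity)] at h3
  linarith

lemma cmp_bound (m : ℕ) : 95 / 2 * m * Real.exp (-(20 * (m : ℝ)))
    < 1 / 4 * Real.exp (-(27 / 2 * (m : ℝ))) := by
  have h1 : Real.exp (-(27 / 2 * (m : ℝ))) = Real.exp (-(20 * m)) * Real.exp (13 / 2 * m) := by
    rw [← Real.exp_add]; congr 1; ring
  rw [h1]
  have hm0 : (0 : ℝ) ≤ m := Nat.cast_nonneg m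
  have h2 : 190 * (m : ℝ) < Real.exp (13 / 2 * m) := by
    rcases Nat.eq_zero_or_pos m with hm | hm
    · subst hm; simp
    · have hm' : (1 : ℝ) ≤ m := by exact_mod_cast hm
      have h3 : Real.exp 6 * Real.exp ((m : ℝ) / 2) ≤ Real.exp (13 / 2 * m) := by
        rw [← Real.exp_add]
        exact Real.exp_le_exp.2 (by linarith)
      have h4 := exp_six_ge
      have h5 := Real.add_one_le_exp ((m : ℝ) / 2)
      nlinarith
  have h3 := Real.exp_pos (-(20 * (m : ℝ)))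
  nlinarith

lemma filter_small' (m : ℕ) (hm : 1 ≤ m) (s : ℝ) (hs : 0 ≤ s) (hsκ : s ≤ kap / m) :
    |1 + c1 m * Real.exp (-s) + ∑ j ∈ Icc 1 m, cc m j * Real.exp (-((9 * (j : ℝ) ^ 2) * s))|
      ≤ 2 * Real.exp (-(20 * m)) := by
  have hm' : (1 : ℝ) ≤ m := by exact_mod_cast hm
  refine (filter_small m hm s hs).trans ?_
  refine mul_le_mul_of_nonneg_left ?_ (by norm_num)
  have h2 : (9 * (m : ℝ) ^ 2 * s) ^ (m + 1) ≤ (9 * kap) ^ (m + 1) * (m : ℝ) ^ (m + 1) := by
    rw [← mul_pow]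
    refine pow_le_pow_left₀ (by positivity) ?_ _
    have h4 : s * m ≤ kap := by rwa [le_div_iff₀ (by linarith)] at hsκ
    nlinarith
  have h3 : (m : ℝ) ^ (m + 1) / ((m + 1).factorial : ℝ) ≤ Real.exp m :=
    Real.pow_div_factorial_le_exp m (by linarith) (m + 1)
  have h4 : (9 * kap) ^ (m + 1) = Real.exp (-21 * (m + 1)) := by
    have : 9 * kap = Real.exp (-21) := by unfold kap; ring
    rw [this, ← Real.exp_nat_mul]
    congr 1
    push_cast; ring
  calc (9 * (m : ℝ) ^ 2 * s) ^ (m + 1) / ((m + 1).factorial : ℝ)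
      ≤ ((9 * kap) ^ (m + 1) * (m : ℝ) ^ (m + 1)) / ((m + 1).factorial : ℝ) :=
        div_le_div_of_nonneg_right h2 (by positivity)
    _ = (9 * kap) ^ (m + 1) * ((m : ℝ) ^ (m + 1) / ((m + 1).factorial : ℝ)) := by ring
    _ ≤ Real.exp (-21 * (m + 1)) * Real.exp m := by
        rw [h4]
        exact mul_le_mul_of_nonneg_left h3 (Real.exp_pos _).le
    _ = Real.exp (-21 * (m + 1) + m) := by rw [Real.exp_add]
    _ ≤ Real.exp (-(20 * m)) := Real.exp_le_exp.2 (by linarith)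

/-- The test polynomial: a rescaled Chebyshev polynomial in `X ^ m` with small coefficients. -/
lemma test_poly (k m : ℕ) (A y0 : ℝ) (hA : 0 < A) (hy0 : y0 ≤ 1) (hw : kap / 4 ≤ y0 - A) :
    ∃ (q : ℝ) (B : ℝ[X]), 1 ≤ q ∧ q ≤ Real.exp 27 ∧ (∀ i, |B.coeff i| ≤ 1 / 4) ∧
      ∀ x θ : ℝ, x ^ m = ((y0 - A) * Real.cos θ + (A + y0)) / 2 →
        B.eval x = 1 / 4 / q ^ k * Real.cos (k * θ) := by
  have hκ0 := kap_pos
  obtain ⟨w, hwdef⟩ : ∃ w : ℝ, w = y0 - A := ⟨_, rfl⟩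
  rw [← hwdef] at hw ⊢
  have hwpos : 0 < w := by linarith
  obtain ⟨L, hL⟩ : ∃ L : ℝ, L = 16 / kap := ⟨_, rfl⟩
  have hLpos : 0 < L := by rw [hL]; positivity
  obtain ⟨l, hl⟩ : ∃ l : ℝ[X], l = C (2 / w) * X ^ m + C (-(A + y0) / w) := ⟨_, rfl⟩
  have hlL1 : L1 l ≤ L := by
    rw [hl]
    refine (L1_add_le _ _).trans ?_
    rw [L1_C_mul_X_pow, L1_C, abs_div, abs_div, abs_of_pos hwpos, abs_neg,
      abs_of_pos (by linarith : 0 < A + y0), abs_of_pos (by norm_num : (0 : ℝ) < 2), ← add_div, hL,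
      div_le_div_iff₀ hwpos hκ0]
    nlinarith
  refine ⟨2 * L + 1, C (1 / 4 / (2 * L + 1) ^ k) * (Chebyshev.T ℝ k).comp l, by linarith, ?_, ?_, ?_⟩
  · have h1 : L = 144 * Real.exp 21 := by
      rw [hL]
      unfold kap
      rw [Real.exp_neg]
      field_simp
      norm_num
    have h2 : Real.exp 27 = Real.exp 6 * Real.exp 21 := by rw [← Real.exp_add]; norm_num
    rw [h1, h2]
    have h3 := exp_six_ge
    have h4 : 1 ≤ Real.exp 21 := Real.one_le_exp (by norm_num)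
    nlinarith
  · intro i
    refine (abs_coeff_le_L1 _ i).trans ?_
    refine (L1_C_mul_le _ _).trans ?_
    rw [abs_of_pos (by positivity)]
    have h1 := L1_T_comp l hlL1 k
    calc 1 / 4 / (2 * L + 1) ^ k * L1 ((Chebyshev.T ℝ k).comp l)
        ≤ 1 / 4 / (2 * L + 1) ^ k * (2 * L + 1) ^ k :=
          mul_le_mul_of_nonneg_left h1 (by positivity)
      _ = 1 / 4 := by field_simp
  · intro x θ hx
    rw [eval_mul, eval_C, eval_comp, hl]
    simp only [eval_add, eval_mul, eval_C, eval_pow, eval_X]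
    rw [hx]
    have h1 : 2 / w * ((w * Real.cos θ + (A + y0)) / 2) + -(A + y0) / w = Real.cos θ := by
      field_simp
      ring
    rw [h1, Chebyshev.T_real_cos]
    push_cast
    rfl

/-- The test points. -/
lemma test_points (m : ℕ) (hm : 1 ≤ m) (k : ℕ) (hk1 : 1 ≤ k) :
    ∃ (A y0 : ℝ) (s : ℕ → ℝ), 0 < A ∧ y0 ≤ 1 ∧ kap / 4 ≤ y0 - A ∧
      (∀ i, 0 ≤ s i) ∧ (∀ i, s i ≤ kap / m) ∧
      (∀ i, (Real.exp (-(1 / (18 * (m : ℝ)))) * Real.exp (-s i)) ^ m =
        ((y0 - A) * Real.cos (i * (Real.pi / k)) + (A + y0)) / 2) ∧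
      (∀ i < k, ((y0 - A) * Real.cos ((i + 1 : ℕ) * (Real.pi / k)) + (A + y0)) / 2
        < ((y0 - A) * Real.cos (i * (Real.pi / k)) + (A + y0)) / 2) := by
  have hm' : (1 : ℝ) ≤ m := by exact_mod_cast hm
  have hk1' : (1 : ℝ) ≤ k := by exact_mod_cast hk1
  have hκ0 := kap_pos
  have hκ1 := kap_le_one
  have hexpκ := exp_neg_kap
  obtain ⟨y0, hy0⟩ : ∃ y0 : ℝ, y0 = Real.exp (-(1 / 18)) := ⟨_, rfl⟩
  have hy0pos : 0 < y0 := by rw [hy0]; exact Real.exp_pos _
  have hy0half : 1 / 2 ≤ y0 := by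
    have := Real.add_one_le_exp (-(1 / 18 : ℝ))
    rw [hy0]; linarith
  have hy0le : y0 ≤ 1 := by rw [hy0]; exact Real.exp_le_one_iff.2 (by norm_num)
  obtain ⟨A, hA⟩ : ∃ A : ℝ, A = y0 * Real.exp (-kap) := ⟨_, rfl⟩
  have hApos : 0 < A := by rw [hA]; positivity
  have hwκ : kap / 4 ≤ y0 - A := by
    rw [hA]
    nlinarith
  have hAle : A ≤ y0 := by linarith
  have hx0m : Real.exp (-(1 / (18 * (m : ℝ)))) ^ m = y0 := by
    rw [hy0, ← Real.exp_nat_mul]
    congr 1
    field_simp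
  obtain ⟨y, hy⟩ : ∃ y : ℕ → ℝ, ∀ i, y i =
    ((y0 - A) * Real.cos (i * (Real.pi / k)) + (A + y0)) / 2 := ⟨_, fun _ => rfl⟩
  have hyA : ∀ i, A ≤ y i := by
    intro i
    have := Real.neg_one_le_cos (i * (Real.pi / k))
    rw [hy i]
    nlinarith
  have hyB : ∀ i, y i ≤ y0 := by
    intro i
    have := Real.cos_le_one (i * (Real.pi / k))
    rw [hy i]
    nlinarith
  have hypos : ∀ i, 0 < y i := fun i => hApos.trans_le (hyA i)
  refine ⟨A, y0, fun i => (Real.log y0 - Real.log (y i)) / m, hApos, hy0le, hwκ, ?_, ?_, ?_, ?_⟩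
  · intro i
    have : Real.log (y i) ≤ Real.log y0 := Real.log_le_log (hypos i) (hyB i)
    apply div_nonneg <;> linarith
  · intro i
    have h1 : Real.log A ≤ Real.log (y i) := Real.log_le_log hApos (hyA i)
    have h2 : Real.log A = Real.log y0 - kap := by
      rw [hA, Real.log_mul hy0pos.ne' (Real.exp_pos _).ne', Real.log_exp (-kap)]; ring
    exact div_le_div_of_nonneg_right (by linarith) (by linarith)
  · intro i
    rw [← hy i, mul_pow, hx0m, ← Real.exp_nat_mul]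
    have h1 : (m : ℝ) * -((Real.log y0 - Real.log (y i)) / m) = Real.log (y i) - Real.log y0 := by
      field_simp
      ring
    rw [h1, Real.exp_sub, Real.exp_log (hypos i), Real.exp_log hy0pos]
    field_simp
  · intro i hi
    have hi' : (i : ℝ) + 1 ≤ k := by exact_mod_cast hi
    have hpi := Real.pi_pos
    have h1 : Real.cos (((i + 1 : ℕ) : ℝ) * (Real.pi / k)) < Real.cos (i * (Real.pi / k)) := by
      refine Real.cos_lt_cos_of_nonneg_of_le_pi (by positivity) ?_ ?_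
      · push_cast
        rw [mul_div_assoc', div_le_iff₀ (by linarith)]
        nlinarith
      · push_cast
        have : 0 < Real.pi / k := by positivity
        nlinarith
    nlinarith

/-- Main construction. -/
lemma main_signs (m : ℕ) (hm : 1 ≤ m) (k : ℕ) (hk1 : 1 ≤ k) (hk : 2 * k ≤ m) (n : ℕ)
    (hn : 360 * m ^ 2 ≤ n) :
    ∃ E : ℝ[X], (∀ i, E.coeff i = -1 ∨ E.coeff i = 0 ∨ E.coeff i = 1) ∧
      (∀ i, n ≤ i → E.coeff i = 0) ∧
      ∃ x : ℕ → ℝ, (∀ i ≤ k, 0 < x i ∧ x i ≤ Real.exp (-(1 / (18 * (m : ℝ))))) ∧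
        (∀ i < k, x (i + 1) < x i) ∧ (∀ i ≤ k, 0 < (-1) ^ i * E.eval (x i)) := by
  have hm' : (1 : ℝ) ≤ m := by exact_mod_cast hm
  have hk1' : (1 : ℝ) ≤ k := by exact_mod_cast hk1
  have hkm : 2 * (k : ℝ) ≤ m := by exact_mod_cast hk
  obtain ⟨A, y0, s, hA, hy0, hw, hs0, hsκ, hsm, hanti⟩ := test_points m hm k hk1
  obtain ⟨q, B, hq1, hqexp, hBcoeff, hBev'⟩ := test_poly k m A y0 hA hy0 hw
  obtain ⟨x0, hx0⟩ : ∃ x0 : ℝ, x0 = Real.exp (-(1 / (18 * (m : ℝ)))) := ⟨_, rfl⟩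
  have hgap := gap_bound m hm
  have hP1 := P1_L1 m hm
  rw [← hx0] at hsm hgap hP1 ⊢
  have hqpos : 0 < q := by linarith
  have hx0pos : 0 < x0 := by rw [hx0]; exact Real.exp_pos _
  have hx0lt : x0 < 1 := by
    rw [hx0]
    refine Real.exp_lt_one_iff.2 ?_
    have : (0 : ℝ) < 1 / (18 * (m : ℝ)) := by positivity
    linarith
  obtain ⟨E, hE, hE0, hEev⟩ := rounding_eval (P1 m x0) B (G := 5 / 2) (β := 1 / 4)
    (P1_coeff_zero m x0) hP1 hBcoeff (by norm_num) n
  have hxpos : ∀ i, 0 < x0 * Real.exp (-s i) := fun i => by positivity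
  have hxle : ∀ i, x0 * Real.exp (-s i) ≤ x0 := by
    intro i
    have : Real.exp (-s i) ≤ 1 := Real.exp_le_one_iff.2 (by linarith [hs0 i])
    nlinarith
  have hBev : ∀ i : ℕ, B.eval (x0 * Real.exp (-s i)) = 1 / 4 / q ^ k * (-1) ^ i := by
    intro i
    rw [hBev' _ _ (hsm i)]
    congr 1
    have h2 : (k : ℝ) * (i * (Real.pi / k)) = i * Real.pi := by field_simp
    rw [h2, Real.cos_nat_mul_pi]
  refine ⟨E, hE, hE0, fun i => x0 * Real.exp (-s i), fun i _ => ⟨hxpos i, hxle i⟩, ?_, ?_⟩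
  · intro i hi
    have h1 : (x0 * Real.exp (-s (i + 1))) ^ m < (x0 * Real.exp (-s i)) ^ m := by
      rw [hsm, hsm]; exact hanti i hi
    exact lt_of_pow_lt_pow_left₀ m (hxpos i).le h1
  · intro i _
    obtain ⟨x, hx⟩ : ∃ x : ℝ, x = x0 * Real.exp (-s i) := ⟨_, rfl⟩
    have hx1 := hxpos i
    have hx2 := hxle i
    have hx3 := hBev i
    have hP : |(1 + P1 m x0).eval (x0 * Real.exp (-s i))| ≤ 2 * Real.exp (-(20 * m)) := by
      rw [P1_eval m x0 (s i) hx0pos]
      exact filter_small' m hm (s i) (hs0 i) (hsκ i)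
    simp only [← hx] at hx1 hx2 hx3 hP ⊢
    have hxi1 : x < 1 := hx2.trans_lt hx0lt
    have herr := hEev x hx1.le hxi1
    have htail : x ^ n ≤ Real.exp (-(20 * m)) := by
      refine (pow_le_pow_left₀ hx1.le hx2 n).trans ?_
      rw [hx0, ← Real.exp_nat_mul]
      refine Real.exp_le_exp.2 ?_
      have hn' : 360 * (m : ℝ) ^ 2 ≤ n := by exact_mod_cast hn
      have h1 : 20 * (m : ℝ) ≤ n * (1 / (18 * m)) := by
        rw [mul_one_div, le_div_iff₀ (by positivity)]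
        nlinarith
      linarith
    have hgi : 1 / (1 - x) ≤ 19 * m := by
      refine le_trans ?_ hgap
      exact one_div_le_one_div_of_le (by linarith) (by linarith)
    have hgi0 : 0 ≤ 1 / (1 - x) := by
      apply div_nonneg <;> linarith
    have hbound : |E.eval x - B.eval x| ≤ 95 / 2 * m * Real.exp (-(20 * m)) := by
      refine herr.trans ?_
      have h1 : |(1 + P1 m x0).eval x| * (1 / 2 / (1 - x))
          ≤ (2 * Real.exp (-(20 * m))) * (19 * m / 2) := by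
        refine mul_le_mul hP ?_ ?_ (by positivity)
        · rw [show 1 / 2 / (1 - x) = (1 / (1 - x)) / 2 by ring]; linarith
        · rw [show 1 / 2 / (1 - x) = (1 / (1 - x)) / 2 by ring]; linarith
      have h2 : 3 / 2 * (x ^ n / (1 - x)) ≤ 3 / 2 * (Real.exp (-(20 * m)) * (19 * m)) := by
        refine mul_le_mul_of_nonneg_left ?_ (by norm_num)
        rw [div_eq_mul_one_div]
        exact mul_le_mul htail hgi hgi0 (Real.exp_pos _).le
      linarith
    have hBlow : 1 / 4 * Real.exp (-(27 / 2 * m)) ≤ 1 / 4 / q ^ k := by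
      have h1 : q ^ k ≤ Real.exp (27 / 2 * m) := by
        calc q ^ k ≤ (Real.exp 27) ^ k := pow_le_pow_left₀ hqpos.le hqexp k
          _ = Real.exp (k * 27) := by rw [← Real.exp_nat_mul]
          _ ≤ Real.exp (27 / 2 * m) := Real.exp_le_exp.2 (by linarith)
      rw [Real.exp_neg, div_eq_mul_inv (1 / 4 : ℝ) (q ^ k)]
      refine mul_le_mul_of_nonneg_left ?_ (by norm_num)
      exact inv_anti₀ (by positivity) h1
    have hcmp := cmp_bound m
    have hsgn : (-1 : ℝ) ^ i * (-1) ^ i = 1 := by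
      rw [← mul_pow]; simp
    have hfin : (-1 : ℝ) ^ i * E.eval x
        = (-1) ^ i * (E.eval x - B.eval x) + 1 / 4 / q ^ k := by
      rw [hx3]
      have : (-1 : ℝ) ^ i * (E.eval x - 1 / 4 / q ^ k * (-1) ^ i)
        = (-1) ^ i * E.eval x - 1 / 4 / q ^ k * ((-1) ^ i * (-1) ^ i) := by ring
      rw [this, hsgn]; ring
    rw [hfin]
    have habs : |(-1 : ℝ) ^ i * (E.eval x - B.eval x)| = |E.eval x - B.eval x| := by
      rw [abs_mul, abs_pow]; simp
    have h6 := neg_abs_le ((-1 : ℝ) ^ i * (E.eval x - B.eval x))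
    rw [habs] at h6
    linarith

/-- A ternary polynomial of degree `< n` with `k` distinct zeros in `(0, exp(-1/(18m)))`. -/
lemma main_zeros (m : ℕ) (hm : 1 ≤ m) (k : ℕ) (hk1 : 1 ≤ k) (hk : 2 * k ≤ m) (n : ℕ)
    (hn : 360 * m ^ 2 ≤ n) :
    ∃ E : ℝ[X], E ≠ 0 ∧ (∀ i, E.coeff i = -1 ∨ E.coeff i = 0 ∨ E.coeff i = 1) ∧
      (∀ i, n ≤ i → E.coeff i = 0) ∧
      ∃ S : Finset ℝ, S.card = k ∧ ∀ z ∈ S, 0 < z ∧ z ≤ Real.exp (-(1 / (18 * m))) ∧ E.eval z = 0 := by
  obtain ⟨E, hE, hE0, x, hx, hanti, hsgn⟩ := main_signs m hm k hk1 hk n hn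
  have hroot : ∀ i, i < k → ∃ z, x (i + 1) < z ∧ z < x i ∧ E.eval z = 0 := by
    intro i hi
    have h1 := hsgn i (by omega)
    have h2 := hsgn (i + 1) (by omega)
    have hlt := hanti i hi
    have hcont : ContinuousOn (fun t => (-1 : ℝ) ^ i * E.eval t) (Set.Icc (x (i + 1)) (x i)) :=
      (continuous_const.mul E.continuous).continuousOn
    have h3 : (-1 : ℝ) ^ i * E.eval (x (i + 1)) < 0 := by
      rw [pow_succ] at h2; linarith
    have h4 := intermediate_value_Ioo hlt.le hcont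
    obtain ⟨z, hz, hz0⟩ := h4 ⟨h3, h1⟩
    refine ⟨z, hz.1, hz.2, ?_⟩
    have h5 : (-1 : ℝ) ^ i ≠ 0 := pow_ne_zero _ (by norm_num)
    simpa [h5] using hz0
  have hne : E ≠ 0 := by
    rintro rfl
    have := hsgn 0 (Nat.zero_le _)
    simp at this
  choose! z hz1 hz2 hz3 using hroot
  refine ⟨E, hne, hE, hE0, (Finset.range k).image z, ?_, ?_⟩
  · have hmono : ∀ i j, i < j → j < k → z j < z i := by
      intro i j hij hj
      have hxle : ∀ d, i + 1 + d ≤ k → x (i + 1 + d) ≤ x (i + 1) := by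
        intro d
        induction d with
        | zero => intro _; simp
        | succ d ih =>
          intro hd
          have h1 := ih (by omega)
          have h2 := hanti (i + 1 + d) (by omega)
          have h3 : i + 1 + (d + 1) = i + 1 + d + 1 := by ring
          rw [h3]; linarith
      have h1 := hxle (j - (i + 1)) (by omega)
      rw [show i + 1 + (j - (i + 1)) = j by omega] at h1
      have h2 := hz2 j hj
      have h3 := hz1 i (by omega)
      linarith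
    rw [Finset.card_image_of_injOn, Finset.card_range]
    intro i hi j hj hij
    have hi' := Finset.mem_range.1 (Finset.mem_coe.1 hi)
    have hj' := Finset.mem_range.1 (Finset.mem_coe.1 hj)
    rcases lt_trichotomy i j with h | h | h
    · exact absurd hij (hmono i j h hj').ne'
    · exact h
    · exact absurd hij (hmono j i h hi').ne
  · intro t ht
    obtain ⟨i, hi, rfl⟩ := Finset.mem_image.1 ht
    have hi' := Finset.mem_range.1 hi
    refine ⟨?_, ?_, hz3 i hi'⟩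
    · exact (hx (i + 1) (by omega)).1.trans (hz1 i hi')
    · exact (hz2 i hi').le.trans (hx i (by omega)).2

end Pool.Agent.H47.DZ
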