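import Mathlib

set_option autoImplicit false
set_option maxHeartbeats 4000000

namespace Pool.Agent.H47.DZ

open Polynomial Finset

lemma norm_eval_le (p : ℂ[X]) (hp : ∀ j, ‖p.coeff j‖ ≤ 1) (z : ℂ) (hz : ‖z‖ < 1) :
    ‖p.eval z‖ ≤ 1 / (1 - ‖z‖) := by
  rw [eval_eq_sum_range]
  refine (norm_sum_le _ _).trans ?_
  calc ∑ i ∈ range (p.natDegree + 1), ‖p.coeff i * z ^ i‖
      ≤ ∑ i ∈ range (p.natDegree + 1), ‖z‖ ^ i := by
        refine Finset.sum_le_sum fun i _ => ?_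
        rw [norm_mul, norm_pow]
        have := hp i
        have h2 : 0 ≤ ‖z‖ ^ i := by positivity
        nlinarith
    _ = ∑ i ∈ Ico 0 (p.natDegree + 1), ‖z‖ ^ i := by rw [Finset.range_eq_Ico]
    _ ≤ ‖z‖ ^ 0 / (1 - ‖z‖) := geom_sum_Ico_le_of_lt_one (norm_nonneg _) hz
    _ = 1 / (1 - ‖z‖) := by rw [pow_zero]

/-- On the circle of centre `1/4` and radius `3/4 - a/2` the function `(1 - z)^2 p(z)` is at most
`6` in modulus. -/
lemma circle_bound (a : ℝ) (ha0 : 0 < a) (ha1 : a < 1) (z : ℂ)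
    (hz : ‖z - (1 / 4 : ℝ)‖ = 3 / 4 - a / 2) :
    ‖z‖ < 1 ∧ ‖1 - z‖ ^ 2 ≤ 6 * (1 - ‖z‖) := by
  obtain ⟨x, y⟩ := z
  have h1 : (x - 1 / 4) ^ 2 + y ^ 2 = (3 / 4 - a / 2) ^ 2 := by
    rw [← hz, Complex.sq_norm, Complex.normSq_apply]
    simp
    ring
  have hz2 : ‖(⟨x, y⟩ : ℂ)‖ ^ 2 = x ^ 2 + y ^ 2 := by
    rw [Complex.sq_norm, Complex.normSq_apply]; ring
  have hw2 : ‖1 - (⟨x, y⟩ : ℂ)‖ ^ 2 = (1 - x) ^ 2 + y ^ 2 := by
    rw [Complex.sq_norm, Complex.normSq_apply]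
    simp
    ring
  have hn := norm_nonneg (⟨x, y⟩ : ℂ)
  have hx : x ≤ 1 - a / 2 := by
    nlinarith [sq_nonneg y, abs_le_of_sq_le_sq' (show (x - 1 / 4) ^ 2 ≤ (3 / 4 - a / 2) ^ 2 by
      nlinarith [sq_nonneg y]) (by linarith)]
  have h3 : 3 * (1 - ‖(⟨x, y⟩ : ℂ)‖ ^ 2) - ‖1 - (⟨x, y⟩ : ℂ)‖ ^ 2 ≥ 0 := by
    rw [hz2, hw2]
    nlinarith
  have h4 : ‖(⟨x, y⟩ : ℂ)‖ < 1 := by
    have : ‖(⟨x, y⟩ : ℂ)‖ ^ 2 < 1 := by
      rw [hz2]
      nlinarith
    nlinarith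
  refine ⟨h4, ?_⟩
  nlinarith

lemma upper_pos (p : ℂ[X]) (hp0 : ‖p.coeff 0‖ = 1) (hp : ∀ j, ‖p.coeff j‖ ≤ 1) (a : ℝ)
    (ha0 : 0 < a) (ha1 : a < 1) (S : Finset ℝ)
    (hS : ∀ x ∈ S, 0 ≤ x ∧ x ≤ 1 - a ∧ p.eval (x : ℂ) = 0) : (S.card : ℝ) * a ≤ 15 := by
  classical
  obtain ⟨R, hR⟩ : ∃ R : ℝ, R = 3 / 4 - a / 2 := ⟨_, rfl⟩
  have hRpos : 0 < R := by rw [hR]; linarith
  -- factor out the zeros
  obtain ⟨g, hg⟩ : (∏ x ∈ S, (X - C (x : ℂ))) ∣ p := by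
    refine Finset.prod_dvd_of_coprime ?_ ?_
    · intro x _ y _ hxy
      refine Polynomial.pairwise_coprime_X_sub_C (s := fun x : ℝ => (x : ℂ)) ?_ hxy
      intro u v huv
      exact Complex.ofReal_injective huv
    · intro x hx
      rw [dvd_iff_isRoot]
      exact (hS x hx).2.2
  have hpeval : ∀ z : ℂ, p.eval z = (∏ x ∈ S, (z - (x : ℂ))) * g.eval z := by
    intro z
    conv_lhs => rw [hg]
    rw [eval_mul, eval_prod]
    simp
  set G : ℂ → ℂ := fun z => g.eval z * (1 - z) ^ 2 *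
    ∏ x ∈ S, (((R : ℂ) ^ 2 - (z - (1 / 4 : ℝ)) * ((x : ℂ) - (1 / 4 : ℝ))) / R) with hG
  have hGd : Differentiable ℂ G := by
    rw [hG]
    refine ((Polynomial.differentiable g).mul (by fun_prop)).mul ?_
    fun_prop
  have hfront : ∀ z ∈ frontier (Metric.ball (((1 / 4 : ℝ)) : ℂ) R), ‖G z‖ ≤ 6 := by
    intro z hz
    rw [frontier_ball _ hRpos.ne', mem_sphere_iff_norm] at hz
    have hz' : ‖z - (1 / 4 : ℝ)‖ = 3 / 4 - a / 2 := by rw [hz, hR]
    obtain ⟨hz1, hz2⟩ := circle_bound a ha0 ha1 z hz'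
    have hfac : ∀ x ∈ S, ‖((R : ℂ) ^ 2 - (z - (1 / 4 : ℝ)) * ((x : ℂ) - (1 / 4 : ℝ))) / R‖
        = ‖z - (x : ℂ)‖ := by
      intro x _
      rw [norm_div]
      have hRn : ‖(R : ℂ)‖ = R := by rw [Complex.norm_real, Real.norm_of_nonneg hRpos.le]
      rw [hRn, div_eq_iff hRpos.ne']
      obtain ⟨u, v⟩ := z
      have e1 : (u - 1 / 4) ^ 2 + v ^ 2 = R ^ 2 := by
        rw [← hz, Complex.sq_norm, Complex.normSq_apply]
        simp
        ring
      have e2 : ‖(R : ℂ) ^ 2 - ((⟨u, v⟩ : ℂ) - (1 / 4 : ℝ)) * ((x : ℂ) - (1 / 4 : ℝ))‖ ^ 2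
          = (‖(⟨u, v⟩ : ℂ) - (x : ℂ)‖ * R) ^ 2 := by
        rw [mul_pow, Complex.sq_norm, Complex.sq_norm, Complex.normSq_apply, Complex.normSq_apply]
        simp only [Complex.sub_re, Complex.sub_im, Complex.mul_re, Complex.mul_im, Complex.ofReal_re,
          Complex.ofReal_im, pow_two]
        simp only [← pow_two]
        simp only [pow_two]
        have e3 : R * R = (u - 1 / 4) * (u - 1 / 4) + v * v := by nlinarith
        simp only [mul_zero, sub_zero, zero_mul, add_zero]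
        rw [e3]
        ring
      exact (sq_eq_sq₀ (norm_nonneg _) (by positivity)).1 e2
    have hGn : ‖G z‖ = ‖p.eval z‖ * ‖1 - z‖ ^ 2 := by
      rw [hG, hpeval]
      simp only [norm_mul, norm_pow, norm_prod]
      rw [Finset.prod_congr rfl hfac]
      ring
    rw [hGn]
    have h1 := norm_eval_le p hp z hz1
    have h2 : 0 < 1 - ‖z‖ := by linarith
    calc ‖p.eval z‖ * ‖1 - z‖ ^ 2 ≤ (1 / (1 - ‖z‖)) * (6 * (1 - ‖z‖)) :=
          mul_le_mul h1 hz2 (by positivity) (by positivity)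
      _ = 6 := by field_simp
  have h0mem : (0 : ℂ) ∈ closure (Metric.ball (((1 / 4 : ℝ)) : ℂ) R) := by
    rw [closure_ball _ hRpos.ne', Metric.mem_closedBall, dist_eq_norm, zero_sub, norm_neg,
      Complex.norm_real, Real.norm_of_nonneg (by norm_num)]
    rw [hR]; linarith
  have hmax := Complex.norm_le_of_forall_mem_frontier_norm_le Metric.isBounded_ball
    hGd.diffContOnCl hfront h0mem
  have hG0 : (1 + a / 3) ^ S.card ≤ ‖G 0‖ := by
    have h1 : ‖p.eval 0‖ = 1 := by rw [← coeff_zero_eq_eval_zero]; exact hp0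
    rw [hpeval 0, norm_mul, norm_prod] at h1
    have h2 : ‖G 0‖ = ‖g.eval 0‖ * ∏ x ∈ S, ((R ^ 2 + 1 / 4 * (x - 1 / 4)) / R) := by
      rw [hG]
      simp only [norm_mul, norm_prod, sub_zero, one_pow, mul_one]
      congr 1
      refine Finset.prod_congr rfl fun x hx => ?_
      have hx0 := (hS x hx).1
      have e1 : ((R : ℂ) ^ 2 - (0 - (1 / 4 : ℝ)) * ((x : ℂ) - (1 / 4 : ℝ))) / R
          = (((R ^ 2 + 1 / 4 * (x - 1 / 4)) / R : ℝ) : ℂ) := by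
        push_cast; ring
      rw [e1, Complex.norm_real, Real.norm_of_nonneg]
      apply div_nonneg _ hRpos.le
      have : (1 / 4 : ℝ) ≤ R := by rw [hR]; linarith
      nlinarith
    have h3 : ∀ x ∈ S, ‖(0 : ℂ) - (x : ℂ)‖ = x := by
      intro x hx
      rw [zero_sub, norm_neg, Complex.norm_real, Real.norm_of_nonneg (hS x hx).1]
    rw [Finset.prod_congr rfl h3] at h1
    have h4 : ∏ x ∈ S, (x * (1 + a / 3)) ≤ ∏ x ∈ S, ((R ^ 2 + 1 / 4 * (x - 1 / 4)) / R) := by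
      refine Finset.prod_le_prod ?_ ?_
      · intro x hx; have := (hS x hx).1; positivity
      · intro x hx
        obtain ⟨hx0, hx1, _⟩ := hS x hx
        rw [le_div_iff₀ hRpos]
        have e : R ^ 2 + 1 / 4 * (x - 1 / 4) - x * (1 + a / 3) * R
            = ((1 - a) - x) * (1 - a / 2) / 2 + x * a ^ 2 / 6 := by
          rw [hR]; ring
        have e2 : 0 ≤ ((1 - a) - x) * (1 - a / 2) := by
          apply mul_nonneg <;> linarith
        have e3 : 0 ≤ x * a ^ 2 := by positivity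
        linarith
    rw [Finset.prod_mul_distrib, Finset.prod_const] at h4
    rw [h2]
    calc (1 + a / 3) ^ S.card = ((∏ x ∈ S, x) * ‖g.eval 0‖) * (1 + a / 3) ^ S.card := by
          rw [h1, one_mul]
      _ = ‖g.eval 0‖ * ((∏ x ∈ S, x) * (1 + a / 3) ^ S.card) := by ring
      _ ≤ _ := mul_le_mul_of_nonneg_left h4 (norm_nonneg _)
  have hbern : 1 + (S.card : ℝ) * (a / 3) ≤ (1 + a / 3) ^ S.card :=
    one_add_mul_le_pow (by linarith) S.card
  linarith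

end Pool.Agent.H47.DZ
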