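import Mathlib
import Pool.Agent.H47.DZMain
import Pool.Agent.H47.DZUpper

set_option autoImplicit false
set_option maxHeartbeats 4000000

namespace Pool.Agent.H47.DZ

open Polynomial Finset

/-- Real zeros of `p` in `[-1 + a, 1 - a]` (a set: multiplicity is ignored). -/
def zeroSet (p : ℂ[X]) (a : ℝ) : Set ℝ :=
  {x : ℝ | x ∈ Set.Icc (-1 + a) (1 - a) ∧ p.eval (x : ℂ) = 0}

lemma zeroSet_finite (p : ℂ[X]) (hp : p ≠ 0) (a : ℝ) : (zeroSet p a).Finite := by
  have h : zeroSet p a ⊆ (fun x : ℝ => (x : ℂ)) ⁻¹' (p.rootSet ℂ) := by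
    intro x hx
    simp only [Set.mem_preimage, Polynomial.mem_rootSet, hp, ne_eq, not_false_eq_true, true_and]
    simpa using hx.2
  refine Set.Finite.subset (Set.Finite.preimage ?_ (p.rootSet_finite ℂ)) h
  exact Complex.ofReal_injective.injOn

/-- Upper bound for the number of zeros: both signs. -/
lemma upper_card (p : ℂ[X]) (hp0 : ‖p.coeff 0‖ = 1) (hp : ∀ j, ‖p.coeff j‖ ≤ 1) (a : ℝ)
    (ha0 : 0 < a) (ha1 : a < 1) : ((zeroSet p a).ncard : ℝ) ≤ 30 / a := by
  classical
  have hpne : p ≠ 0 := by rintro rfl; simp at hp0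
  have hfin := zeroSet_finite p hpne a
  rw [Set.ncard_eq_toFinset_card _ hfin]
  set T := hfin.toFinset with hT
  have hmem : ∀ x ∈ T, x ∈ zeroSet p a := fun x hx => by simpa [hT] using hx
  have h1 := upper_pos p hp0 hp a ha0 ha1 (T.filter (fun x => 0 ≤ x)) (by
    intro x hx
    rw [Finset.mem_filter] at hx
    have := hmem x hx.1
    exact ⟨hx.2, this.1.2, this.2⟩)
  have hcoeff : ∀ j, (p.comp (-X)).coeff j = (-1) ^ j * p.coeff j := by
    intro j
    have h : (-X : ℂ[X]) = C (-1) * X := by simp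
    rw [h, comp_C_mul_X_coeff, mul_comm]
  have h2 := upper_pos (p.comp (-X)) (by rw [hcoeff]; simpa using hp0)
    (by intro j; rw [hcoeff, norm_mul, norm_pow, norm_neg, norm_one, one_pow, one_mul]; exact hp j)
    a ha0 ha1 ((T.filter (fun x => ¬ 0 ≤ x)).image (fun x => -x)) (by
    intro x hx
    rw [Finset.mem_image] at hx
    obtain ⟨y, hy, rfl⟩ := hx
    rw [Finset.mem_filter] at hy
    have h3 := hmem y hy.1
    have h4 := h3.1.1
    refine ⟨by linarith [not_le.1 hy.2], by linarith, ?_⟩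
    rw [eval_comp]
    simpa using h3.2)
  rw [Finset.card_image_of_injective _ neg_injective] at h2
  have h3 := Finset.card_filter_add_card_filter_not (s := T) (fun x => 0 ≤ x)
  have h4 : (T.card : ℝ) = ((T.filter (fun x => 0 ≤ x)).card : ℝ) +
      ((T.filter (fun x => ¬ 0 ≤ x)).card : ℝ) := by exact_mod_cast h3.symm
  rw [le_div_iff₀ ha0, h4]
  linarith

/-- Removing a power of `X` from a ternary polynomial. -/
lemma remove_X (E : ℝ[X]) (hE : E ≠ 0)
    (hc : ∀ i, E.coeff i = -1 ∨ E.coeff i = 0 ∨ E.coeff i = 1) (n : ℕ)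
    (hn : ∀ i, n ≤ i → E.coeff i = 0) :
    ∃ E' : ℝ[X], (E'.coeff 0 = 1 ∨ E'.coeff 0 = -1) ∧
      (∀ i, E'.coeff i = -1 ∨ E'.coeff i = 0 ∨ E'.coeff i = 1) ∧
      (∀ i, n ≤ i → E'.coeff i = 0) ∧ ∀ z : ℝ, 0 < z → E.eval z = 0 → E'.eval z = 0 := by
  have hdvd : X ^ E.natTrailingDegree ∣ E := by
    rw [X_pow_dvd_iff]
    intro d hd
    exact coeff_eq_zero_of_lt_natTrailingDegree hd
  obtain ⟨E', hE'⟩ := hdvd
  have hcoef : ∀ i, E'.coeff i = E.coeff (i + E.natTrailingDegree) := by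
    intro i
    have h := coeff_X_pow_mul E' E.natTrailingDegree i
    rw [← hE'] at h
    exact h.symm
  refine ⟨E', ?_, ?_, ?_, ?_⟩
  · rw [hcoef 0, zero_add]
    have h1 : E.coeff E.natTrailingDegree ≠ 0 := by
      have := (trailingCoeff_nonzero_iff_nonzero (p := E)).2 hE
      exact this
    rcases hc E.natTrailingDegree with h | h | h
    · exact Or.inr h
    · exact absurd h h1
    · exact Or.inl h
  · intro i; rw [hcoef]; exact hc _
  · intro i hi; rw [hcoef]; exact hn _ (by omega)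
  · intro z hz h0
    rw [hE', eval_mul, eval_pow, eval_X] at h0
    rcases mul_eq_zero.1 h0 with h | h
    · exact absurd h (pow_ne_zero _ hz.ne')
    · exact h

/-- Real polynomial with coefficients in `{-1, 0, 1}` and constant coefficient `±1`. -/
lemma lower_real (n : ℕ) (hn : 1 ≤ n) (a : ℝ) (ha : 1 / Real.sqrt n ≤ a) (ha1 : a ≤ 2 / 5) :
    ∃ E : ℝ[X], (E.coeff 0 = 1 ∨ E.coeff 0 = -1) ∧
      (∀ i, E.coeff i = -1 ∨ E.coeff i = 0 ∨ E.coeff i = 1) ∧ (∀ i, n < i → E.coeff i = 0) ∧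
      ∃ S : Finset ℝ, 1 / (288 * a) ≤ S.card ∧ 1 ≤ S.card ∧
        ∀ z ∈ S, 0 < z ∧ z ≤ 1 - a ∧ E.eval z = 0 := by
  have hn' : (1 : ℝ) ≤ n := by exact_mod_cast hn
  have hsq : 0 < Real.sqrt n := Real.sqrt_pos.2 (by linarith)
  have ha0 : 0 < a := lt_of_lt_of_le (by positivity) ha
  have hna : 1 ≤ a ^ 2 * n := by
    have h1 : 1 ≤ a * Real.sqrt n := by
      rw [div_le_iff₀ hsq] at ha; exact ha
    have h2 : (a * Real.sqrt n) ^ 2 = a ^ 2 * n := by
      rw [mul_pow, Real.sq_sqrt (by linarith)]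
    nlinarith
  rcases le_or_gt a (1 / 72) with hsmall | hbig
  · -- many zeros
    set m : ℕ := ⌊1 / (36 * a)⌋₊ with hm
    have hm1 : (m : ℝ) ≤ 1 / (36 * a) := Nat.floor_le (by positivity)
    have hm2 : 1 / (36 * a) < m + 1 := Nat.lt_floor_add_one _
    have h36 : 2 ≤ 1 / (36 * a) := by
      rw [le_div_iff₀ (by positivity)]; linarith
    have hm3 : 2 ≤ m := Nat.le_floor (by exact_mod_cast h36)
    have hm3' : (2 : ℝ) ≤ m := by exact_mod_cast hm3
    have hma : (m : ℝ) * (36 * a) ≤ 1 := by rwa [le_div_iff₀ (by positivity)] at hm1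
    obtain ⟨E, hE, hc, hdeg, S, hS, hSz⟩ := main_zeros m (by omega) (m / 2) (by omega) (by omega) n
      (by
        have h1 : (360 : ℝ) * m ^ 2 ≤ n := by
          have h2 : ((m : ℝ) * (36 * a)) ^ 2 ≤ 1 := by
            have : 0 ≤ (m : ℝ) * (36 * a) := by positivity
            nlinarith
          have h3 : (m : ℝ) ^ 2 * 1296 * a ^ 2 ≤ a ^ 2 * n := by nlinarith
          have h4 : 0 < a ^ 2 := by positivity
          have h5 : (m : ℝ) ^ 2 * 1296 ≤ n := by
            by_contra hcon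
            push Not at hcon
            nlinarith
          nlinarith [sq_nonneg (m : ℝ)]
        exact_mod_cast h1)
    obtain ⟨E', h0, hc', hdeg', hroot⟩ := remove_X E hE hc n hdeg
    refine ⟨E', h0, hc', fun i hi => hdeg' i (by omega), S, ?_, ?_, ?_⟩
    · rw [hS]
      have h1 : (m : ℝ) ≤ 2 * ((m / 2 : ℕ) : ℝ) + 1 := by
        exact_mod_cast (show m ≤ 2 * (m / 2) + 1 by omega)
      have h2 : 1 / (288 * a) = (1 / (36 * a)) / 8 := by field_simp; norm_num
      rw [h2]
      linarith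
    · rw [hS]; omega
    · intro z hz
      obtain ⟨hz1, hz2, hz3⟩ := hSz z hz
      refine ⟨hz1, hz2.trans ?_, hroot z hz1 hz3⟩
      -- exp(-(1/(18m))) ≤ 1 - a
      have h1 : 2 * a ≤ 1 / (18 * (m : ℝ)) := by
        rw [le_div_iff₀ (by positivity)]
        nlinarith
      have h2 : Real.exp (-(1 / (18 * (m : ℝ)))) ≤ Real.exp (-(2 * a)) :=
        Real.exp_le_exp.2 (by linarith)
      refine h2.trans ?_
      have h3 := Real.add_one_le_exp (2 * a)
      have h4 : Real.exp (-(2 * a)) * Real.exp (2 * a) = 1 := by rw [← Real.exp_add]; simp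
      have h5 := Real.exp_pos (-(2 * a))
      have h6 : Real.exp (-(2 * a)) * (1 + 2 * a) ≤ 1 := by nlinarith
      nlinarith
  · -- a single zero
    have hn3 : 3 ≤ n := by
      have h1 : (3 : ℝ) < n := by nlinarith
      exact_mod_cast h1.le
    set E : ℝ[X] := 1 - X - X ^ 2 - X ^ 3 with hE
    have hco : ∀ i, E.coeff i = (if i = 0 then 1 else 0) - (if 1 = i then 1 else 0) -
        (if i = 2 then 1 else 0) - (if i = 3 then 1 else 0) := by
      intro i
      rw [hE, coeff_sub, coeff_sub, coeff_sub, coeff_one, coeff_X, coeff_X_pow, coeff_X_pow]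
    have hcont : ContinuousOn (fun t => E.eval t) (Set.Icc 0 (3 / 5)) := E.continuous.continuousOn
    have h4 := intermediate_value_Ioo' (show (0 : ℝ) ≤ 3 / 5 by norm_num) hcont
    have h5 : (0 : ℝ) ∈ Set.Ioo (E.eval (3 / 5)) (E.eval 0) := by
      rw [hE]; simp only [eval_sub, eval_one, eval_X, eval_pow]
      constructor <;> norm_num
    obtain ⟨z, hz, hz0⟩ := h4 h5
    refine ⟨E, ?_, ?_, ?_, {z}, ?_, by simp, ?_⟩
    · left; rw [hco]; norm_num
    · intro i
      rw [hco]
      rcases Nat.lt_or_ge i 4 with h | h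
      · interval_cases i <;> norm_num
      · right; left
        rw [if_neg (by omega), if_neg (by omega), if_neg (by omega), if_neg (by omega)]
        norm_num
    · intro i hi
      rw [hco, if_neg (by omega), if_neg (by omega), if_neg (by omega), if_neg (by omega)]
      norm_num
    · rw [div_le_iff₀ (by positivity)]
      simp
      linarith
    · intro t ht
      rw [Finset.mem_singleton] at ht
      subst ht
      exact ⟨hz.1, by linarith [hz.2], hz0⟩

end Pool.Agent.H47.DZ
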