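import Mathlib

set_option autoImplicit false
set_option maxHeartbeats 4000000

namespace Pool.Agent.H47.NI

open RCLike

variable {𝕜 : Type*} [RCLike 𝕜]

/-- Refined weighted AM-GM inequality. -/
lemma refined_amgm_aux (a b w : ℝ) (ha : 0 ≤ a) (hb : 0 ≤ b) (hw0 : 0 < w) (hw1 : w ≤ 1 / 2) :
    a ^ (1 - w) * b ^ w + w * (Real.sqrt a - Real.sqrt b) ^ 2 ≤ (1 - w) * a + w * b := by
  have h1 := Real.geom_mean_le_arith_mean2_weighted (w₁ := 1 - 2 * w) (w₂ := 2 * w)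
    (p₁ := a) (p₂ := Real.sqrt a * Real.sqrt b) (by linarith) (by linarith) ha (by positivity)
    (by ring)
  have h2 : a ^ (1 - 2 * w) * (Real.sqrt a * Real.sqrt b) ^ (2 * w) = a ^ (1 - w) * b ^ w := by
    rw [Real.mul_rpow (Real.sqrt_nonneg _) (Real.sqrt_nonneg _), Real.sqrt_eq_rpow,
      Real.sqrt_eq_rpow, ← Real.rpow_mul ha, ← Real.rpow_mul hb, ← mul_assoc,
      ← Real.rpow_add_of_nonneg ha (by linarith) (by linarith)]
    congr 2 <;> ring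
  rw [h2] at h1
  have h3 : (Real.sqrt a - Real.sqrt b) ^ 2 = a + b - 2 * (Real.sqrt a * Real.sqrt b) := by
    have e1 := Real.sq_sqrt ha
    have e2 := Real.sq_sqrt hb
    ring_nf
    rw [e1, e2]
  rw [h3]
  linarith

lemma refined_amgm (a b w : ℝ) (ha : 0 ≤ a) (hb : 0 ≤ b) (hw0 : 0 < w) (hw1 : w < 1) :
    a ^ (1 - w) * b ^ w + min w (1 - w) * (Real.sqrt a - Real.sqrt b) ^ 2 ≤ (1 - w) * a + w * b := by
  rcases le_total w (1 / 2) with h | h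
  · rw [min_eq_left (by linarith)]
    exact refined_amgm_aux a b w ha hb hw0 h
  · rw [min_eq_right (by linarith)]
    have := refined_amgm_aux b a (1 - w) hb ha (by linarith) (by linarith)
    rw [sub_sub_cancel] at this
    have e : (Real.sqrt a - Real.sqrt b) ^ 2 = (Real.sqrt b - Real.sqrt a) ^ 2 := by ring
    rw [e]
    linarith

/-- The duality map `z ↦ |z|^(p-2) conj z`. -/
noncomputable def J (p : ℝ) (z : 𝕜) : 𝕜 := ((‖z‖ ^ (p - 2) : ℝ) : 𝕜) * (starRingEnd 𝕜) z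

lemma J_zero (p : ℝ) : J p (0 : 𝕜) = 0 := by simp [J]

lemma norm_J {p : ℝ} (hp : 1 < p) (z : 𝕜) : ‖J p z‖ = ‖z‖ ^ (p - 1) := by
  unfold J
  rcases eq_or_ne z 0 with h | h
  · subst h
    simp [Real.zero_rpow (show p - 1 ≠ 0 by linarith)]
  · have hz : 0 < ‖z‖ := norm_pos_iff.2 h
    rw [norm_mul, RCLike.norm_conj, norm_ofReal, abs_of_nonneg (Real.rpow_nonneg (norm_nonneg _) _)]
    have : ‖z‖ ^ (p - 1) = ‖z‖ ^ (p - 2 + 1) := by congr 1; ring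
    rw [this, Real.rpow_add_one hz.ne']

lemma re_J (p : ℝ) (z : 𝕜) : re (J p z) = ‖z‖ ^ (p - 2) * re z := by
  unfold J
  rw [re_ofReal_mul, conj_re]

/-- Young deficit of the first kind. -/
noncomputable def f1 (p : ℝ) (z : 𝕜) : ℝ := (1 - 1 / p) * ‖z‖ ^ p + 1 / p - re (J p z)

/-- Young deficit of the second kind. -/
noncomputable def f2 (p : ℝ) (z : 𝕜) : ℝ := 1 / p * ‖z‖ ^ p + (1 - 1 / p) - re z

lemma f1_lower {p : ℝ} (hp : 1 < p) (z : 𝕜) :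
    min (1 / p) (1 - 1 / p) * (Real.sqrt ‖z‖ - 1) ^ 2 + ‖z‖ ^ (p - 2) * (‖z‖ - re z) ≤ f1 p z := by
  have hp0 : 0 < p := by linarith
  have hip : 1 / p < 1 := by rw [div_lt_one hp0]; exact hp
  have hr0 : 0 ≤ ‖z‖ := norm_nonneg z
  have h1 := refined_amgm (‖z‖ ^ p) 1 (1 / p) (Real.rpow_nonneg hr0 _) zero_le_one
    (by positivity) hip
  rw [Real.one_rpow, mul_one, ← Real.rpow_mul hr0, Real.sqrt_one] at h1
  have h2 : p * (1 - 1 / p) = p - 1 := by field_simp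
  rw [h2] at h1
  have h3 : (Real.sqrt ‖z‖ - 1) ^ 2 ≤ (Real.sqrt (‖z‖ ^ p) - 1) ^ 2 := by
    rw [Real.sqrt_eq_rpow, Real.sqrt_eq_rpow, ← Real.rpow_mul hr0]
    have hpp : (1 / 2 : ℝ) ≤ p * (1 / 2) := by linarith
    rcases le_total 1 ‖z‖ with h | h
    · have h4 : ‖z‖ ^ (1 / 2 : ℝ) ≤ ‖z‖ ^ (p * (1 / 2)) := Real.rpow_le_rpow_of_exponent_le h hpp
      have h5 : 1 ≤ ‖z‖ ^ (1 / 2 : ℝ) := Real.one_le_rpow h (by norm_num)
      nlinarith
    · rcases eq_or_lt_of_le hr0 with h0 | h0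
      · rw [← h0, Real.zero_rpow (by norm_num), Real.zero_rpow (by linarith)]
      · have h4 : ‖z‖ ^ (p * (1 / 2)) ≤ ‖z‖ ^ (1 / 2 : ℝ) :=
          Real.rpow_le_rpow_of_exponent_ge h0 h hpp
        have h5 : ‖z‖ ^ (1 / 2 : ℝ) ≤ 1 := Real.rpow_le_one hr0 h (by norm_num)
        nlinarith
  have hc0 : 0 ≤ min (1 / p) (1 - 1 / p) := le_min (by positivity) (by linarith)
  have h4 : ‖z‖ ^ (p - 1) = ‖z‖ ^ (p - 2) * ‖z‖ := by
    rcases eq_or_lt_of_le hr0 with h0 | h0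
    · rw [← h0, Real.zero_rpow (by linarith), mul_zero]
    · have : ‖z‖ ^ (p - 1) = ‖z‖ ^ (p - 2 + 1) := by congr 1; ring
      rw [this, Real.rpow_add_one h0.ne']
  unfold f1
  rw [re_J]
  have h5 := mul_le_mul_of_nonneg_left h3 hc0
  linarith

lemma f1_nonneg {p : ℝ} (hp : 1 < p) (z : 𝕜) : 0 ≤ f1 p z := by
  have hp0 : 0 < p := by linarith
  have hip : 1 / p < 1 := by rw [div_lt_one hp0]; exact hp
  have h := f1_lower hp z
  have hc0 : 0 ≤ min (1 / p) (1 - 1 / p) := le_min (by positivity) (by linarith)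
  have h2 : 0 ≤ ‖z‖ ^ (p - 2) := Real.rpow_nonneg (norm_nonneg z) _
  have h3 : re z ≤ ‖z‖ := re_le_norm z
  have h4 : 0 ≤ min (1 / p) (1 - 1 / p) * (Real.sqrt ‖z‖ - 1) ^ 2 := by positivity
  have h5 : 0 ≤ ‖z‖ ^ (p - 2) * (‖z‖ - re z) := mul_nonneg h2 (by linarith)
  linarith

/-- `‖z - 1‖ ≤ ε + C f1(z) / ε`. -/
lemma norm_sub_one_le {p : ℝ} (hp : 1 < p) : ∃ C : ℝ, 0 < C ∧ ∀ z : 𝕜, ∀ ε : ℝ, 0 < ε → ε ≤ 1 →
    ‖z - 1‖ ≤ ε + C * f1 p z / ε := by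
  have hp0 : 0 < p := by linarith
  have hip : 1 / p < 1 := by rw [div_lt_one hp0]; exact hp
  obtain ⟨c0, hc0⟩ : ∃ c0 : ℝ, c0 = min (1 / p) (1 - 1 / p) := ⟨_, rfl⟩
  have hc0pos : 0 < c0 := by rw [hc0]; exact lt_min (by positivity) (by linarith)
  obtain ⟨K, hK⟩ : ∃ K : ℝ, K = 4 ^ |p - 2| := ⟨_, rfl⟩
  have hKpos : 0 < K := by rw [hK]; positivity
  refine ⟨4 / c0 + (K + 8 / c0), by positivity, fun z ε hε hε1 => ?_⟩
  obtain ⟨r, hr⟩ : ∃ r : ℝ, r = ‖z‖ := ⟨_, rfl⟩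
  obtain ⟨ρ, hρ⟩ : ∃ ρ : ℝ, ρ = r - re z := ⟨_, rfl⟩
  have hr0 : 0 ≤ r := by rw [hr]; exact norm_nonneg z
  have habs := abs_re_le_norm z
  rw [← hr, abs_le] at habs
  have hρ0 : 0 ≤ ρ := by rw [hρ]; linarith
  have hρ2 : ρ ≤ 2 * r := by rw [hρ]; linarith
  have hlow := f1_lower hp z
  rw [← hr, ← hρ, ← hc0] at hlow
  have hrp : 0 ≤ r ^ (p - 2) := Real.rpow_nonneg hr0 _
  obtain ⟨F, hF⟩ : ∃ F : ℝ, F = f1 p z := ⟨_, rfl⟩
  rw [← hF] at hlow ⊢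
  have hδ : c0 * (Real.sqrt r - 1) ^ 2 ≤ F := by nlinarith [mul_nonneg hrp hρ0]
  have hF0 : 0 ≤ F := le_trans (by positivity) hδ
  have hδ' : (Real.sqrt r - 1) ^ 2 ≤ F / c0 := by
    rw [le_div_iff₀ hc0pos]; linarith
  have hsr := Real.sqrt_nonneg r
  have hsr2 := Real.sq_sqrt hr0
  -- bound for ρ
  have hρF : ρ ≤ (K + 8 / c0) * F := by
    have h8 : 0 ≤ 8 / c0 := by positivity
    rcases le_or_gt r 4 with h4 | h4
    · rcases le_or_gt (1 / 4) r with h4' | h4'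
      · have h1 : 1 ≤ K * r ^ (p - 2) := by
          have hrpos : 0 < r := by linarith
          rw [hK]
          rcases le_total 0 (p - 2) with h | h
          · rw [abs_of_nonneg h, ← Real.mul_rpow (by norm_num) hr0]
            exact Real.one_le_rpow (by linarith) h
          · rw [abs_of_nonpos h]
            have : (4 : ℝ) ^ (-(p - 2)) * r ^ (p - 2) = (r / 4) ^ (p - 2) := by
              rw [Real.div_rpow hr0 (by norm_num), Real.rpow_neg (by norm_num)]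
              ring
            rw [this]
            exact Real.one_le_rpow_of_pos_of_le_one_of_nonpos (by positivity) (by linarith) h
        have h2 : r ^ (p - 2) * ρ ≤ F := by nlinarith [mul_nonneg hc0pos.le (sq_nonneg (Real.sqrt r - 1))]
        calc ρ = 1 * ρ := (one_mul _).symm
          _ ≤ (K * r ^ (p - 2)) * ρ := mul_le_mul_of_nonneg_right h1 hρ0
          _ = K * (r ^ (p - 2) * ρ) := by ring
          _ ≤ K * F := mul_le_mul_of_nonneg_left h2 hKpos.le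
          _ ≤ (K + 8 / c0) * F := by nlinarith
      · -- r < 1/4
        have h1 : Real.sqrt r ≤ 1 / 2 := by
          rw [Real.sqrt_le_left (by norm_num)]; linarith
        have h2 : 1 / 4 ≤ F / c0 := by nlinarith
        have h3 : ρ ≤ 1 / 2 := by linarith
        have h4 : 8 / c0 * F = 8 * (F / c0) := by ring
        nlinarith [mul_nonneg hKpos.le hF0]
    · -- r > 4
      have h1 : 2 ≤ Real.sqrt r := by
        rw [Real.le_sqrt' (by norm_num)]; linarith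
      have h2 : r / 4 ≤ F / c0 := by nlinarith
      have h4 : 8 / c0 * F = 8 * (F / c0) := by ring
      nlinarith [mul_nonneg hKpos.le hF0]
  -- norm of z - 1
  have hz : ‖z - 1‖ ^ 2 = (r - 1) ^ 2 + 2 * ρ := by
    have h1 : ‖z - 1‖ ^ 2 = ‖z‖ ^ 2 - 2 * re z + 1 := by
      rw [← RCLike.normSq_eq_def', ← RCLike.normSq_eq_def', RCLike.normSq_apply, RCLike.normSq_apply]
      simp only [map_sub, RCLike.one_re, RCLike.one_im]
      ring
    rw [h1, ← hr, hρ]; ring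
  have hδ2 : |r - 1| ≤ (Real.sqrt r - 1) ^ 2 + 2 * |Real.sqrt r - 1| := by
    have e : r - 1 = (Real.sqrt r - 1) ^ 2 + 2 * (Real.sqrt r - 1) := by
      nlinarith
    rw [e]
    refine (abs_add_le _ _).trans ?_
    rw [abs_of_nonneg (sq_nonneg _), abs_mul, abs_of_pos (by norm_num : (0 : ℝ) < 2)]
  have hsq : ‖z - 1‖ ≤ |r - 1| + Real.sqrt (2 * ρ) := by
    have h1 : 0 ≤ Real.sqrt (2 * ρ) := Real.sqrt_nonneg _
    have h2 : Real.sqrt (2 * ρ) ^ 2 = 2 * ρ := Real.sq_sqrt (by positivity)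
    have h3 : ‖z - 1‖ ^ 2 ≤ (|r - 1| + Real.sqrt (2 * ρ)) ^ 2 := by
      rw [hz]
      have : |r - 1| ^ 2 = (r - 1) ^ 2 := sq_abs _
      nlinarith [mul_nonneg (abs_nonneg (r - 1)) h1]
    exact (sq_le_sq₀ (norm_nonneg _) (by positivity)).1 h3
  have hsq2 : Real.sqrt (2 * ρ) ≤ ε / 2 + ρ / ε := by
    have h1 : 0 ≤ Real.sqrt (2 * ρ) := Real.sqrt_nonneg _
    have h2 : Real.sqrt (2 * ρ) ^ 2 = 2 * ρ := Real.sq_sqrt (by positivity)
    have h3 : ρ / ε = (Real.sqrt (2 * ρ) ^ 2) / (2 * ε) := by rw [h2]; field_simp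
    rw [h3, ← sub_nonneg]
    have h4 : ε / 2 + Real.sqrt (2 * ρ) ^ 2 / (2 * ε) - Real.sqrt (2 * ρ)
        = (Real.sqrt (2 * ρ) - ε) ^ 2 / (2 * ε) := by field_simp; ring
    rw [h4]; positivity
  have hd2 : 2 * |Real.sqrt r - 1| ≤ ε / 2 + 2 * (Real.sqrt r - 1) ^ 2 / ε := by
    rw [← sub_nonneg]
    have h4 : ε / 2 + 2 * (Real.sqrt r - 1) ^ 2 / ε - 2 * |Real.sqrt r - 1|
        = (2 * |Real.sqrt r - 1| - ε) ^ 2 / (2 * ε) := by
      rw [← sq_abs (Real.sqrt r - 1)]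
      field_simp; ring
    rw [h4]; positivity
  have hd3 : (Real.sqrt r - 1) ^ 2 ≤ (Real.sqrt r - 1) ^ 2 / ε := by
    rw [le_div_iff₀ hε]
    nlinarith [sq_nonneg (Real.sqrt r - 1)]
  have hfin : (4 / c0 + (K + 8 / c0)) * F / ε = 4 * (F / c0) / ε + ((K + 8 / c0) * F) / ε := by
    field_simp
  have h6 : 4 * (Real.sqrt r - 1) ^ 2 / ε ≤ 4 * (F / c0) / ε :=
    div_le_div_of_nonneg_right (by linarith) hε.le
  have h7 : ρ / ε ≤ ((K + 8 / c0) * F) / ε := div_le_div_of_nonneg_right hρF hε.le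
  have h8 : 2 * (Real.sqrt r - 1) ^ 2 / ε + (Real.sqrt r - 1) ^ 2 / ε ≤ 4 * (Real.sqrt r - 1) ^ 2 / ε := by
    rw [← add_div]
    exact div_le_div_of_nonneg_right (by nlinarith [sq_nonneg (Real.sqrt r - 1)]) hε.le
  rw [hfin]
  linarith

/-- The duality map for the conjugate exponent inverts `J p`. -/
lemma J_J {p : ℝ} (hp : 1 < p) (z : 𝕜) : J (p / (p - 1)) (J p z) = z := by
  rcases eq_or_ne z 0 with h | h
  · subst h; rw [J_zero, J_zero]
  · have hz : 0 < ‖z‖ := norm_pos_iff.2 h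
    have hp1 : p - 1 ≠ 0 := by linarith
    conv_lhs => rw [J]
    rw [norm_J hp, ← Real.rpow_mul hz.le]
    unfold J
    rw [map_mul, RCLike.conj_ofReal, RCLike.conj_conj, ← mul_assoc, ← RCLike.ofReal_mul,
      ← Real.rpow_add hz]
    have : (p - 1) * (p / (p - 1) - 2) + (p - 2) = 0 := by field_simp; ring
    rw [this, Real.rpow_zero]
    simp

lemma f2_eq_f1 {p : ℝ} (hp : 1 < p) (z : 𝕜) : f2 p z = f1 (p / (p - 1)) (J p z) := by
  unfold f1 f2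
  rw [J_J hp, norm_J hp, ← Real.rpow_mul (norm_nonneg z)]
  have hp1 : p - 1 ≠ 0 := by linarith
  have hp0 : p ≠ 0 := by linarith
  have h1 : (p - 1) * (p / (p - 1)) = p := by field_simp
  have h2 : 1 / (p / (p - 1)) = 1 - 1 / p := by field_simp
  rw [h1, h2]
  ring

lemma f2_nonneg {p : ℝ} (hp : 1 < p) (z : 𝕜) : 0 ≤ f2 p z := by
  rw [f2_eq_f1 hp]
  apply f1_nonneg
  rw [lt_div_iff₀ (by linarith)]; linarith

lemma norm_J_sub_one_le {p : ℝ} (hp : 1 < p) : ∃ C : ℝ, 0 < C ∧ ∀ z : 𝕜, ∀ ε : ℝ, 0 < ε → ε ≤ 1 →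
    ‖J p z - 1‖ ≤ ε + C * f2 p z / ε := by
  have hq : 1 < p / (p - 1) := by rw [lt_div_iff₀ (by linarith)]; linarith
  obtain ⟨C, hC, h⟩ := norm_sub_one_le (𝕜 := 𝕜) hq
  refine ⟨C, hC, fun z ε hε hε1 => ?_⟩
  rw [f2_eq_f1 hp]
  exact h _ ε hε hε1

end Pool.Agent.H47.NI
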