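import Mathlib
import Pool.Agent.H47.NIPoint

set_option autoImplicit false
set_option maxHeartbeats 4000000

namespace Pool.Agent.H47.NI

open RCLike MeasureTheory

variable {𝕜 : Type*} [RCLike 𝕜] {Ω : Type*} [MeasurableSpace Ω]

/-- Averaging a pointwise stability inequality. -/
lemma avg_stability (μ : Measure Ω) [IsFiniteMeasure μ] {M : ℝ} (hM : M = μ.real Set.univ)
    (hMpos : 0 < M) {g : Ω → 𝕜} {D : Ω → ℝ} {C ρ : ℝ} (hC : 0 < C) (hg : Integrable g μ)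
    (hD : Integrable D μ) (hDint : ∫ ω, D ω ∂μ = M * (1 - ρ)) (hρ1 : ρ ≤ 1)
    (hρ0 : 0 ≤ ρ)
    (hpt : ∀ ω, ∀ ε : ℝ, 0 < ε → ε ≤ 1 → ‖g ω - 1‖ ≤ ε + C * D ω / ε) :
    ‖1 - (M : 𝕜)⁻¹ * ∫ ω, g ω ∂μ‖ ≤ (1 + C) * Real.sqrt (1 - ρ) := by
  have hMne : (M : 𝕜) ≠ 0 := by exact_mod_cast hMpos.ne'
  have h1 : 1 - (M : 𝕜)⁻¹ * ∫ ω, g ω ∂μ = - ((M : 𝕜)⁻¹ * ∫ ω, (g ω - 1) ∂μ) := by
    rw [integral_sub hg (integrable_const _), integral_const, ← hM, mul_sub,
      RCLike.real_smul_eq_coe_mul, mul_one, inv_mul_cancel₀ hMne]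
    ring
  have h2 : ∀ ε : ℝ, 0 < ε → ε ≤ 1 → ‖1 - (M : 𝕜)⁻¹ * ∫ ω, g ω ∂μ‖ ≤ ε + C * (1 - ρ) / ε := by
    intro ε hε hε1
    rw [h1, norm_neg, norm_mul, norm_inv, norm_ofReal, abs_of_pos hMpos, inv_mul_le_iff₀ hMpos]
    refine (norm_integral_le_integral_norm _).trans ?_
    have h3 : ∫ ω, ‖g ω - 1‖ ∂μ ≤ ∫ ω, (ε + C * D ω / ε) ∂μ := by
      refine integral_mono ((hg.sub (integrable_const _)).norm) ?_ (fun ω => hpt ω ε hε hε1)
      exact (integrable_const _).add ((hD.const_mul C).div_const ε)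
    refine h3.trans (le_of_eq ?_)
    rw [integral_add (integrable_const _) ((hD.const_mul C).div_const ε), integral_const,
      integral_div, integral_const_mul, hDint, ← hM, smul_eq_mul]
    field_simp
  rcases eq_or_lt_of_le hρ1 with h | h
  · subst h
    simp only [sub_self, Real.sqrt_zero, mul_zero]
    refine le_of_forall_pos_le_add fun ε hε => ?_
    have := h2 (min ε 1) (lt_min hε one_pos) (min_le_right _ _)
    simp only [sub_self, mul_zero, zero_div, add_zero] at this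
    linarith [min_le_left ε 1]
  · have hd : 0 < 1 - ρ := by linarith
    have hs : 0 < Real.sqrt (1 - ρ) := Real.sqrt_pos.2 hd
    have hs1 : Real.sqrt (1 - ρ) ≤ 1 := Real.sqrt_le_one.2 (by linarith)
    have h3 := h2 _ hs hs1
    have h4 : C * (1 - ρ) / Real.sqrt (1 - ρ) = C * Real.sqrt (1 - ρ) := by
      rw [mul_div_assoc, Real.div_sqrt]
    rw [h4] at h3
    linarith

lemma stab_mul {m ρ : 𝕜} {r C : ℝ} (hρ : ρ = (r : 𝕜)) (hr0 : 0 ≤ r) (hr1 : r ≤ 1)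
    (h : ‖1 - m‖ ≤ (1 + C) * Real.sqrt (1 - r)) (hC : 0 < C) :
    ‖1 - m * ρ‖ ≤ (2 + C) * Real.sqrt (1 - r) := by
  have hs0 : 0 ≤ Real.sqrt (1 - r) := Real.sqrt_nonneg _
  have hs1 : Real.sqrt (1 - r) ≤ 1 := Real.sqrt_le_one.2 (by linarith)
  have hs2 : Real.sqrt (1 - r) ^ 2 = 1 - r := Real.sq_sqrt (by linarith)
  have e : 1 - m * ρ = (1 - m) * ρ + (1 - ρ) := by ring
  have h1 : ‖(1 - m) * ρ‖ ≤ (1 + C) * Real.sqrt (1 - r) := by
    rw [norm_mul, hρ, norm_ofReal, abs_of_nonneg hr0]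
    have : 0 ≤ ‖1 - m‖ := norm_nonneg _
    nlinarith
  have h2 : ‖1 - ρ‖ ≤ Real.sqrt (1 - r) := by
    rw [hρ]
    have : (1 : 𝕜) - (r : 𝕜) = ((1 - r : ℝ) : 𝕜) := by push_cast; ring
    rw [this, norm_ofReal, abs_of_nonneg (by linarith)]
    nlinarith
  rw [e]
  refine (norm_add_le _ _).trans ?_
  linarith

lemma exists_unimodular (n : 𝕜) : ∃ u : 𝕜, ‖u‖ = 1 ∧ u * n = (‖n‖ : 𝕜) := by
  rcases eq_or_ne n 0 with h | h
  · exact ⟨1, by simp, by simp [h]⟩
  · have hn : (‖n‖ : 𝕜) ≠ 0 := by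
      have := norm_pos_iff.2 h
      exact_mod_cast this.ne'
    refine ⟨(starRingEnd 𝕜) n / (‖n‖ : 𝕜), ?_, ?_⟩
    · rw [norm_div, RCLike.norm_conj, norm_ofReal, abs_of_nonneg (norm_nonneg _), div_self]
      exact (norm_pos_iff.2 h).ne'
    · rw [div_mul_eq_mul_div, RCLike.conj_mul, pow_two, mul_div_assoc, div_self hn, mul_one]

lemma J_unimodular {p : ℝ} {u : 𝕜} (hu : ‖u‖ = 1) (z : 𝕜) : J p (u * z) = (starRingEnd 𝕜) u * J p z := by
  unfold J
  rw [norm_mul, hu, one_mul, map_mul]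
  ring

lemma J_real_mul {p : ℝ} {c : ℝ} (hc : 0 < c) (z : 𝕜) :
    J p ((c : 𝕜) * z) = ((c ^ (p - 1) : ℝ) : 𝕜) * J p z := by
  unfold J
  rw [norm_mul, norm_ofReal, abs_of_pos hc, Real.mul_rpow hc.le (norm_nonneg _), map_mul,
    RCLike.conj_ofReal]
  have : c ^ (p - 1) = c ^ (p - 2) * c := by
    rw [← Real.rpow_add_one hc.ne']; congr 1; ring
  rw [this]
  push_cast
  ring

lemma measurable_J (p : ℝ) : Measurable (J p : 𝕜 → 𝕜) := by
  unfold J
  have h1 : Measurable (fun z : 𝕜 => ‖z‖ ^ (p - 2)) := measurable_norm.pow_const _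
  have h2 : Measurable (fun z : 𝕜 => ((‖z‖ ^ (p - 2) : ℝ) : 𝕜)) :=
    RCLike.continuous_ofReal.measurable.comp h1
  exact h2.mul RCLike.continuous_conj.measurable

lemma le_one_add_rpow {a b t : ℝ} (ht : 0 ≤ t) (ha : 0 ≤ a) (hab : a ≤ b) :
    t ^ a ≤ 1 + t ^ b := by
  rcases le_total t 1 with h | h
  · have := Real.rpow_le_one ht h ha
    have h2 := Real.rpow_nonneg ht b
    linarith
  · have := Real.rpow_le_rpow_of_exponent_le h hab
    linarith

lemma integrable_of_rpow (μ : Measure Ω) [IsFiniteMeasure μ] {p : ℝ} (hp : 1 < p) {x : Ω → 𝕜}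
    (hx : AEStronglyMeasurable x μ) (hxp : Integrable (fun ω => ‖x ω‖ ^ p) μ) :
    Integrable x μ ∧ Integrable (fun ω => J p (x ω)) μ := by
  constructor
  · refine Integrable.mono' ((integrable_const (1 : ℝ)).add hxp) hx ?_
    refine Filter.Eventually.of_forall fun ω => ?_
    have := le_one_add_rpow (norm_nonneg (x ω)) zero_le_one hp.le
    rwa [Real.rpow_one] at this
  · have hm : AEStronglyMeasurable (fun ω => J p (x ω)) μ :=
      ((measurable_J p).comp_aemeasurable hx.aemeasurable).aestronglyMeasurable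
    refine Integrable.mono' ((integrable_const (1 : ℝ)).add hxp) hm ?_
    refine Filter.Eventually.of_forall fun ω => ?_
    rw [norm_J hp]
    exact le_one_add_rpow (norm_nonneg (x ω)) (by linarith) (by linarith)

/-- Normalised version. -/
lemma normalised {p : ℝ} (hp : 1 < p) : ∃ C : ℝ, 0 < C ∧ ∀ (μ : Measure Ω) [IsFiniteMeasure μ]
    (M : ℝ) (_ : M = μ.real Set.univ) (_ : 0 < M) (X : Ω → 𝕜) (_ : AEStronglyMeasurable X μ)
    (_ : Integrable (fun ω => ‖X ω‖ ^ p) μ) (_ : ∫ ω, ‖X ω‖ ^ p ∂μ = M),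
    ‖(M : 𝕜)⁻¹ * ∫ ω, X ω ∂μ‖ ≤ 1 ∧ ‖(M : 𝕜)⁻¹ * ∫ ω, J p (X ω) ∂μ‖ ≤ 1 ∧
    ‖1 - ((M : 𝕜)⁻¹ * ∫ ω, X ω ∂μ) * ((M : 𝕜)⁻¹ * ∫ ω, J p (X ω) ∂μ)‖
      ≤ C * Real.sqrt (1 - ‖(M : 𝕜)⁻¹ * ∫ ω, J p (X ω) ∂μ‖) ∧
    ‖1 - ((M : 𝕜)⁻¹ * ∫ ω, X ω ∂μ) * ((M : 𝕜)⁻¹ * ∫ ω, J p (X ω) ∂μ)‖
      ≤ C * Real.sqrt (1 - ‖(M : 𝕜)⁻¹ * ∫ ω, X ω ∂μ‖) := by
  obtain ⟨C1, hC1, h1⟩ := norm_sub_one_le (𝕜 := 𝕜) hp
  obtain ⟨C2, hC2, h2⟩ := norm_J_sub_one_le (𝕜 := 𝕜) hp
  refine ⟨2 + C1 + C2, by positivity, ?_⟩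
  intro μ _ M hM hMpos X hX hXp hXM
  have hp0 : 0 < p := by linarith
  have hMne : (M : 𝕜) ≠ 0 := by exact_mod_cast hMpos.ne'
  obtain ⟨hXi, hJi⟩ := integrable_of_rpow μ hp hX hXp
  obtain ⟨m, hm⟩ : ∃ m : 𝕜, m = (M : 𝕜)⁻¹ * ∫ ω, X ω ∂μ := ⟨_, rfl⟩
  obtain ⟨n, hn⟩ : ∃ n : 𝕜, n = (M : 𝕜)⁻¹ * ∫ ω, J p (X ω) ∂μ := ⟨_, rfl⟩
  rw [← hm, ← hn]
  -- first kind : rotate so that n becomes real
  have key1 : ‖n‖ ≤ 1 ∧ ‖1 - m * n‖ ≤ (2 + C1) * Real.sqrt (1 - ‖n‖) := by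
    obtain ⟨u, hu, hun⟩ := exists_unimodular n
    have hv : ‖(starRingEnd 𝕜) u‖ = 1 := by rw [RCLike.norm_conj, hu]
    have hvu : (starRingEnd 𝕜) u * u = 1 := by rw [RCLike.conj_mul, hu]; simp
    set X' : Ω → 𝕜 := fun ω => (starRingEnd 𝕜) u * X ω with hX'
    have hX'i : Integrable X' μ := hXi.const_mul _
    have hnX' : ∀ ω, ‖X' ω‖ = ‖X ω‖ := fun ω => by rw [hX']; simp only; rw [norm_mul, hv, one_mul]
    have hJX' : ∀ ω, J p (X' ω) = u * J p (X ω) := fun ω => by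
      rw [hX']; simp only; rw [J_unimodular hv, RCLike.conj_conj]
    have hJre : Integrable (fun ω => re (J p (X' ω))) μ := by
      simp only [hJX']
      exact (hJi.const_mul u).re
    have hDi : Integrable (fun ω => f1 p (X' ω)) μ := by
      unfold f1
      simp only [hnX']
      exact ((hXp.const_mul _).add (integrable_const _)).sub hJre
    have hintJ : ∫ ω, J p (X' ω) ∂μ = (M * ‖n‖ : ℝ) := by
      simp only [hJX']
      rw [integral_const_mul]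
      have : ∫ ω, J p (X ω) ∂μ = (M : 𝕜) * n := by rw [hn, ← mul_assoc, mul_inv_cancel₀ hMne, one_mul]
      rw [this, mul_left_comm, hun]; push_cast; ring
    have hDint : ∫ ω, f1 p (X' ω) ∂μ = M * (1 - ‖n‖) := by
      unfold f1
      simp only [hnX']
      have hadd : Integrable (fun ω => (1 - 1 / p) * ‖X ω‖ ^ p + 1 / p) μ :=
        (hXp.const_mul _).add (integrable_const _)
      rw [integral_sub hadd hJre,
        integral_add (hXp.const_mul _) (integrable_const _), integral_const_mul, hXM,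
        integral_const, ← hM, smul_eq_mul]
      have : ∫ ω, re (J p (X' ω)) ∂μ = re (∫ ω, J p (X' ω) ∂μ) := by
        refine integral_re ?_
        simp only [hJX']
        exact hJi.const_mul u
      rw [this, hintJ, ofReal_re]
      ring
    have hnle : ‖n‖ ≤ 1 := by
      have h0 : 0 ≤ ∫ ω, f1 p (X' ω) ∂μ := integral_nonneg fun ω => f1_nonneg hp _
      rw [hDint] at h0
      by_contra hcon
      push Not at hcon
      nlinarith
    have hst := avg_stability μ hM hMpos hC1 hX'i hDi hDint hnle (norm_nonneg _)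
      (fun ω ε hε hε1 => h1 (X' ω) ε hε hε1)
    refine ⟨hnle, ?_⟩
    have hm' : (M : 𝕜)⁻¹ * ∫ ω, X' ω ∂μ = (starRingEnd 𝕜) u * m := by
      rw [hX']; simp only; rw [integral_const_mul, hm]; ring
    rw [hm'] at hst
    have := stab_mul (ρ := u * n) (r := ‖n‖) hun (norm_nonneg _) hnle hst hC1
    have e : (starRingEnd 𝕜) u * m * (u * n) = m * n := by
      calc (starRingEnd 𝕜) u * m * (u * n) = ((starRingEnd 𝕜) u * u) * (m * n) := by ring
        _ = m * n := by rw [hvu, one_mul]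
    rwa [e] at this
  have key2 : ‖m‖ ≤ 1 ∧ ‖1 - m * n‖ ≤ (2 + C2) * Real.sqrt (1 - ‖m‖) := by
    obtain ⟨u, hu, hum⟩ := exists_unimodular m
    have huv : u * (starRingEnd 𝕜) u = 1 := by rw [RCLike.mul_conj, hu]; simp
    set X' : Ω → 𝕜 := fun ω => u * X ω with hX'
    have hX'i : Integrable X' μ := hXi.const_mul _
    have hnX' : ∀ ω, ‖X' ω‖ = ‖X ω‖ := fun ω => by rw [hX']; simp only; rw [norm_mul, hu, one_mul]
    have hJX' : ∀ ω, J p (X' ω) = (starRingEnd 𝕜) u * J p (X ω) := fun ω => by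
      rw [hX']; simp only; rw [J_unimodular hu]
    have hJ'i : Integrable (fun ω => J p (X' ω)) μ := by
      simp only [hJX']
      exact hJi.const_mul _
    have hDi : Integrable (fun ω => f2 p (X' ω)) μ := by
      unfold f2
      simp only [hnX']
      exact ((hXp.const_mul _).add (integrable_const _)).sub hX'i.re
    have hintX : ∫ ω, X' ω ∂μ = (M * ‖m‖ : ℝ) := by
      rw [hX']; simp only; rw [integral_const_mul]
      have : ∫ ω, X ω ∂μ = (M : 𝕜) * m := by rw [hm, ← mul_assoc, mul_inv_cancel₀ hMne, one_mul]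
      rw [this, mul_left_comm, hum]; push_cast; ring
    have hDint : ∫ ω, f2 p (X' ω) ∂μ = M * (1 - ‖m‖) := by
      unfold f2
      simp only [hnX']
      have hadd : Integrable (fun ω => 1 / p * ‖X ω‖ ^ p + (1 - 1 / p)) μ :=
        (hXp.const_mul _).add (integrable_const _)
      rw [integral_sub hadd hX'i.re,
        integral_add (hXp.const_mul _) (integrable_const _), integral_const_mul, hXM,
        integral_const, ← hM, smul_eq_mul]
      have : ∫ ω, re (X' ω) ∂μ = re (∫ ω, X' ω ∂μ) := integral_re hX'i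
      rw [this, hintX, ofReal_re]
      ring
    have hmle : ‖m‖ ≤ 1 := by
      have h0 : 0 ≤ ∫ ω, f2 p (X' ω) ∂μ := integral_nonneg fun ω => f2_nonneg hp _
      rw [hDint] at h0
      by_contra hcon
      push Not at hcon
      nlinarith
    have hst := avg_stability μ hM hMpos hC2 hJ'i hDi hDint hmle (norm_nonneg _)
      (fun ω ε hε hε1 => h2 (X' ω) ε hε hε1)
    refine ⟨hmle, ?_⟩
    have hn' : (M : 𝕜)⁻¹ * ∫ ω, J p (X' ω) ∂μ = (starRingEnd 𝕜) u * n := by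
      simp only [hJX']; rw [integral_const_mul, hn]; ring
    rw [hn'] at hst
    have := stab_mul (ρ := u * m) (r := ‖m‖) hum (norm_nonneg _) hmle hst hC2
    have e : (starRingEnd 𝕜) u * n * (u * m) = m * n := by
      calc (starRingEnd 𝕜) u * n * (u * m) = (u * (starRingEnd 𝕜) u) * (m * n) := by ring
        _ = m * n := by rw [huv, one_mul]
    rwa [e] at this
  refine ⟨key2.1, key1.1, ?_, ?_⟩
  · refine key1.2.trans (mul_le_mul_of_nonneg_right (by linarith) (Real.sqrt_nonneg _))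
  · refine key2.2.trans (mul_le_mul_of_nonneg_right (by linarith) (Real.sqrt_nonneg _))

end Pool.Agent.H47.NI
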