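import Mathlib

set_option autoImplicit false
set_option maxHeartbeats 4000000

namespace Pool.Agent.H47.NI

open RCLike MeasureTheory
open scoped ENNReal

variable {𝕜 : Type*} [RCLike 𝕜] {Ω : Type*} [MeasurableSpace Ω] {μ : Measure Ω}
variable {p : ℝ≥0∞} [Fact (1 ≤ p)]

/-- A nonzero `L_p` function is bounded below on a set of finite positive measure. -/
lemma exists_set_pos (hp0 : p ≠ 0) (hp : p ≠ ∞) (x : Lp 𝕜 p μ) (S : Set Ω) (hS : MeasurableSet S)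
    (hx : ¬ (∀ᵐ ω ∂μ, ω ∈ S → x ω = 0)) :
    ∃ E : Set Ω, MeasurableSet E ∧ E ⊆ S ∧ μ E ≠ 0 ∧ μ E ≠ ∞ := by
  have hmeas : Measurable (x : Ω → 𝕜) := (Lp.stronglyMeasurable x).measurable
  have hset : {ω | ¬ (ω ∈ S → x ω = 0)} ⊆ ⋃ n : ℕ, (S ∩ {ω | 1 / ((n : ℝ) + 1) ≤ ‖x ω‖}) := by
    intro ω hω
    simp only [Set.mem_ofPred_eq, Classical.not_imp] at hω
    obtain ⟨n, hn⟩ := exists_nat_one_div_lt (norm_pos_iff.2 hω.2)
    exact Set.mem_iUnion.2 ⟨n, hω.1, hn.le⟩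
  have hpos : ∃ n : ℕ, μ (S ∩ {ω | 1 / ((n : ℝ) + 1) ≤ ‖x ω‖}) ≠ 0 := by
    by_contra hcon
    push Not at hcon
    have h0 : μ (⋃ n : ℕ, (S ∩ {ω | 1 / ((n : ℝ) + 1) ≤ ‖x ω‖})) = 0 := measure_iUnion_null hcon
    exact hx (measure_mono_null hset h0)
  obtain ⟨n, hn⟩ := hpos
  refine ⟨_, hS.inter (measurableSet_le measurable_const hmeas.norm), Set.inter_subset_left, hn, ?_⟩
  have hfin := (Lp.memLp x).meas_ge_lt_top (ε := Real.toNNReal (1 / ((n : ℝ) + 1))) hp0 hp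
    (by rw [ne_eq, Real.toNNReal_eq_zero, not_le]; positivity)
  refine ne_of_lt (lt_of_le_of_lt (measure_mono ?_) hfin)
  intro ω hω
  have h2 := hω.2
  simp only [Set.mem_ofPred_eq] at h2 ⊢
  rw [Real.toNNReal_le_iff_le_coe]
  simpa using h2

/-- If `dim L_p(μ) > 1` there are two disjoint sets of finite positive measure. -/
lemma exists_disjoint (hp0 : p ≠ 0) (hp : p ≠ ∞) (hdim : 1 < Module.rank 𝕜 (Lp 𝕜 p μ)) :
    ∃ A B : Set Ω, MeasurableSet A ∧ MeasurableSet B ∧ Disjoint A B ∧ μ A ≠ 0 ∧ μ A ≠ ∞ ∧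
      μ B ≠ 0 ∧ μ B ≠ ∞ := by
  by_contra hcon
  push Not at hcon
  apply absurd hdim
  rw [not_lt, rank_le_one_iff]
  by_cases hall : ∀ x : Lp 𝕜 p μ, x = 0
  · exact ⟨0, fun v => ⟨0, by rw [hall v, smul_zero]⟩⟩
  push Not at hall
  obtain ⟨x0, hx0⟩ := hall
  obtain ⟨E, hE, _, hE0, hEt⟩ := exists_set_pos hp0 hp x0 Set.univ MeasurableSet.univ (by
    intro h
    apply hx0
    rw [Lp.eq_zero_iff_ae_eq_zero]
    filter_upwards [h] with ω hω
    exact hω (Set.mem_univ _))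
  refine ⟨indicatorConstLp p hE hEt (1 : 𝕜), fun v => ?_⟩
  -- v vanishes off E
  have hoff : ∀ᵐ ω ∂μ, ω ∈ Eᶜ → v ω = 0 := by
    by_contra hv
    obtain ⟨B, hB, hBE, hB0, hBt⟩ := exists_set_pos hp0 hp v Eᶜ hE.compl hv
    exact hBt (hcon E B hE hB (Set.disjoint_left.2 fun ω h1 h2 => hBE h2 h1) hE0 hEt hB0)
  -- v is constant on E
  have hconst : ∃ c : 𝕜, (v : Ω → 𝕜) =ᵐ[μ.restrict E] Function.const Ω c := by
    refine Filter.exists_eventuallyEq_const_of_forall_separating MeasurableSet (fun U hU => ?_)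
    have hmeas : Measurable (v : Ω → 𝕜) := (Lp.stronglyMeasurable v).measurable
    have hpre : MeasurableSet ((v : Ω → 𝕜) ⁻¹' U) := hmeas hU
    by_cases h0 : μ (E ∩ (v : Ω → 𝕜) ⁻¹' U) = 0
    · right
      rw [ae_restrict_iff' hE]
      have : ∀ᵐ ω ∂μ, ω ∉ E ∩ (v : Ω → 𝕜) ⁻¹' U := measure_eq_zero_iff_ae_notMem.1 h0
      filter_upwards [this] with ω hω h1 h2
      exact hω ⟨h1, h2⟩
    · left
      have h1 : μ (E \ (v : Ω → 𝕜) ⁻¹' U) = 0 := by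
        by_contra h1
        have ht1 : μ (E ∩ (v : Ω → 𝕜) ⁻¹' U) ≠ ∞ :=
          ne_top_of_le_ne_top hEt (measure_mono Set.inter_subset_left)
        have ht2 : μ (E \ (v : Ω → 𝕜) ⁻¹' U) ≠ ∞ :=
          ne_top_of_le_ne_top hEt (measure_mono Set.sdiff_subset)
        exact ht2 (hcon _ _ (hE.inter hpre) (hE.diff hpre)
          (Set.disjoint_left.2 fun ω h2 h3 => h3.2 h2.2) h0 ht1 h1)
      rw [ae_restrict_iff' hE]
      have : ∀ᵐ ω ∂μ, ω ∉ E \ (v : Ω → 𝕜) ⁻¹' U := measure_eq_zero_iff_ae_notMem.1 h1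
      filter_upwards [this] with ω hω h2
      by_contra h3
      exact hω ⟨h2, h3⟩
  obtain ⟨c, hc⟩ := hconst
  refine ⟨c, ?_⟩
  rw [Filter.EventuallyEq, ae_restrict_iff' hE] at hc
  refine Lp.ext ?_
  filter_upwards [Lp.coeFn_smul c (indicatorConstLp p hE hEt (1 : 𝕜)),
    indicatorConstLp_coeFn (p := p) (hs := hE) (hμs := hEt) (c := (1 : 𝕜)), hoff, hc]
    with ω h1 h2 h3 h4
  rw [h1, Pi.smul_apply, h2]
  by_cases hω : ω ∈ E
  · rw [Set.indicator_of_mem hω, h4 hω]; simp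
  · rw [Set.indicator_of_notMem hω, h3 hω, smul_zero]

end Pool.Agent.H47.NI
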