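import Mathlib
import Pool.Agent.H47.NIPoint
import Pool.Agent.H47.NIAvg

set_option autoImplicit false
set_option maxHeartbeats 4000000

namespace Pool.Agent.H47.NI

open RCLike MeasureTheory
open scoped ENNReal

variable {𝕜 : Type*} [RCLike 𝕜] {Ω : Type*} [MeasurableSpace Ω] {μ : Measure Ω}

lemma hasDerivAt_norm_rpow_line {r : ℝ} (hr : 1 < r) (z w : 𝕜) (t : ℝ) :
    HasDerivAt (fun t : ℝ => ‖z + (t : 𝕜) * w‖ ^ r) (r * re (J r (z + (t : 𝕜) * w) * w)) t := by
  have hline : HasDerivAt (fun t : ℝ => z + (t : 𝕜) * w) w t := by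
    have h1 : HasDerivAt (fun t : ℝ => t • w) ((1 : ℝ) • w) t := (hasDerivAt_id t).smul_const w
    have h2 := h1.const_add z
    rw [one_smul] at h2
    refine h2.congr_of_eventuallyEq (Filter.Eventually.of_forall fun s => ?_)
    simp only [RCLike.real_smul_eq_coe_mul]
  have h1 := (hasFDerivAt_norm_rpow (E := 𝕜) (z + (t : 𝕜) * w) hr).comp_hasDerivAt t hline
  refine h1.congr_deriv ?_
  have h2 : inner ℝ (z + (t : 𝕜) * w) w = re (w * (starRingEnd 𝕜) (z + (t : 𝕜) * w)) := rfl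
  simp only [smul_apply, innerSL_apply_apply, smul_eq_mul]
  rw [h2]
  unfold J
  rw [mul_assoc (((‖z + (t : 𝕜) * w‖ ^ (r - 2) : ℝ) : 𝕜)), re_ofReal_mul, mul_assoc, mul_comm w]

variable {p : ℝ≥0∞} [Fact (1 ≤ p)]

lemma one_lt_toReal (hp1 : 1 < p) (hp : p ≠ ∞) : 1 < p.toReal := by
  rw [← ENNReal.toReal_one]
  exact (ENNReal.toReal_lt_toReal ENNReal.one_ne_top hp).2 hp1

lemma Lp_integrable_rpow (hp1 : 1 < p) (hp : p ≠ ∞) (x : Lp 𝕜 p μ) :
    Integrable (fun ω => ‖x ω‖ ^ p.toReal) μ :=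
  (Lp.memLp x).integrable_norm_rpow (by positivity) hp

lemma Lp_norm_rpow (hp1 : 1 < p) (hp : p ≠ ∞) (x : Lp 𝕜 p μ) :
    ‖x‖ ^ p.toReal = ∫ ω, ‖x ω‖ ^ p.toReal ∂μ := by
  have hr := one_lt_toReal hp1 hp
  have h0 : 0 ≤ ∫ ω, ‖x ω‖ ^ p.toReal ∂μ :=
    integral_nonneg fun ω => Real.rpow_nonneg (norm_nonneg _) _
  rw [Lp.norm_def, (Lp.memLp x).eLpNorm_eq_integral_rpow_norm (by positivity) hp,
    ENNReal.toReal_ofReal (Real.rpow_nonneg h0 _), ← Real.rpow_mul h0,
    inv_mul_cancel₀ (by linarith), Real.rpow_one]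

/-- Derivative of the `p`-th power of the norm along a line. -/
lemma Lp_hasDerivAt (hp1 : 1 < p) (hp : p ≠ ∞) (x h : Lp 𝕜 p μ) :
    Integrable (fun ω => J p.toReal (x ω) * h ω) μ ∧
    HasDerivAt (fun t : ℝ => ‖x + (t : 𝕜) • h‖ ^ p.toReal)
      (p.toReal * re (∫ ω, J p.toReal (x ω) * h ω ∂μ)) 0 := by
  have hr := one_lt_toReal hp1 hp
  obtain ⟨r, hrdef⟩ : ∃ r : ℝ, r = p.toReal := ⟨_, rfl⟩
  rw [← hrdef] at hr ⊢
  have hr0 : 0 < r := by linarith
  -- integrable bound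
  have hsum : MemLp (fun ω => ‖x ω‖ + ‖h ω‖) p μ := (Lp.memLp x).norm.add (Lp.memLp h).norm
  have hbint : Integrable (fun ω => (‖x ω‖ + ‖h ω‖) ^ r) μ := by
    have := hsum.integrable_norm_rpow (by positivity) hp
    rw [← hrdef] at this
    refine this.congr (Filter.Eventually.of_forall fun ω => ?_)
    simp only
    rw [Real.norm_of_nonneg (by positivity)]
  have hxm := Lp.aestronglyMeasurable x
  have hhm := Lp.aestronglyMeasurable h
  have hJm : AEStronglyMeasurable (fun ω => J r (x ω)) μ :=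
    ((measurable_J r).comp_aemeasurable hxm.aemeasurable).aestronglyMeasurable
  have hJh : Integrable (fun ω => J r (x ω) * h ω) μ := by
    refine Integrable.mono' hbint (hJm.mul hhm) ?_
    refine Filter.Eventually.of_forall fun ω => ?_
    rw [norm_mul, norm_J hr]
    have h1 : ‖x ω‖ ^ (r - 1) ≤ (‖x ω‖ + ‖h ω‖) ^ (r - 1) :=
      Real.rpow_le_rpow (norm_nonneg _) (by linarith [norm_nonneg (h ω)]) (by linarith)
    have h2 : (‖x ω‖ + ‖h ω‖) ^ r = (‖x ω‖ + ‖h ω‖) ^ (r - 1) * (‖x ω‖ + ‖h ω‖) := by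
      rcases eq_or_lt_of_le (show 0 ≤ ‖x ω‖ + ‖h ω‖ by positivity) with h0 | h0
      · rw [← h0, Real.zero_rpow hr0.ne', mul_zero]
      · rw [← Real.rpow_add_one h0.ne']; congr 1; ring
    rw [h2]
    exact mul_le_mul h1 (by linarith [norm_nonneg (x ω)]) (norm_nonneg _) (by positivity)
  refine ⟨hJh, ?_⟩
  -- the integral function
  have hder : HasDerivAt (fun t : ℝ => ∫ ω, ‖x ω + (t : 𝕜) * h ω‖ ^ r ∂μ)
      (∫ ω, r * re (J r (x ω + ((0 : ℝ) : 𝕜) * h ω) * h ω) ∂μ) 0 := by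
    refine (hasDerivAt_integral_of_dominated_loc_of_deriv_le (𝕜 := ℝ) (s := Metric.ball 0 1)
      (F := fun t ω => ‖x ω + (t : 𝕜) * h ω‖ ^ r)
      (F' := fun t ω => r * re (J r (x ω + (t : 𝕜) * h ω) * h ω))
      (bound := fun ω => r * (‖x ω‖ + ‖h ω‖) ^ r)
      (Metric.ball_mem_nhds _ one_pos) ?_ ?_ ?_ ?_ (hbint.const_mul r) ?_).2
    · refine Filter.Eventually.of_forall fun t => ?_
      have : AEStronglyMeasurable (fun ω => x ω + (t : 𝕜) * h ω) μ := hxm.add (hhm.const_mul _)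
      exact (this.norm.aemeasurable.pow_const _).aestronglyMeasurable
    · have := Lp_integrable_rpow hp1 hp x
      rw [← hrdef] at this
      refine this.congr (Filter.Eventually.of_forall fun ω => ?_)
      simp
    · have h1 : AEStronglyMeasurable (fun ω => x ω + ((0 : ℝ) : 𝕜) * h ω) μ :=
        hxm.add (hhm.const_mul _)
      have h2 : AEStronglyMeasurable (fun ω => J r (x ω + ((0 : ℝ) : 𝕜) * h ω)) μ :=
        ((measurable_J r).comp_aemeasurable h1.aemeasurable).aestronglyMeasurable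
      have h3 : AEStronglyMeasurable (fun ω => re (J r (x ω + ((0 : ℝ) : 𝕜) * h ω) * h ω)) μ :=
        RCLike.continuous_re.comp_aestronglyMeasurable (h2.mul hhm)
      exact h3.const_mul r
    · refine Filter.Eventually.of_forall fun ω t ht => ?_
      rw [Metric.mem_ball, dist_zero_right, Real.norm_eq_abs] at ht
      rw [norm_mul, Real.norm_of_nonneg hr0.le]
      refine mul_le_mul_of_nonneg_left ?_ hr0.le
      have h1 : ‖re (J r (x ω + (t : 𝕜) * h ω) * h ω)‖ ≤ ‖J r (x ω + (t : 𝕜) * h ω) * h ω‖ := by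
        rw [Real.norm_eq_abs]; exact RCLike.abs_re_le_norm _
      refine h1.trans ?_
      rw [norm_mul, norm_J hr]
      have h0 : ‖x ω + (t : 𝕜) * h ω‖ ≤ ‖x ω‖ + ‖h ω‖ := by
        refine (norm_add_le _ _).trans ?_
        rw [norm_mul, norm_ofReal]
        nlinarith [norm_nonneg (h ω), abs_nonneg t]
      have h1 : ‖x ω + (t : 𝕜) * h ω‖ ^ (r - 1) ≤ (‖x ω‖ + ‖h ω‖) ^ (r - 1) :=
        Real.rpow_le_rpow (norm_nonneg _) h0 (by linarith)
      have h2 : (‖x ω‖ + ‖h ω‖) ^ r = (‖x ω‖ + ‖h ω‖) ^ (r - 1) * (‖x ω‖ + ‖h ω‖) := by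
        rcases eq_or_lt_of_le (show 0 ≤ ‖x ω‖ + ‖h ω‖ by positivity) with h0 | h0
        · rw [← h0, Real.zero_rpow hr0.ne', mul_zero]
        · rw [← Real.rpow_add_one h0.ne']; congr 1; ring
      rw [h2]
      exact mul_le_mul h1 (by linarith [norm_nonneg (x ω)]) (norm_nonneg _) (by positivity)
    · exact Filter.Eventually.of_forall fun ω t _ => hasDerivAt_norm_rpow_line hr (x ω) (h ω) t
  have hval : (∫ ω, r * re (J r (x ω + ((0 : ℝ) : 𝕜) * h ω) * h ω) ∂μ)
      = r * re (∫ ω, J r (x ω) * h ω ∂μ) := by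
    rw [integral_const_mul]
    congr 1
    simp only [RCLike.ofReal_zero, zero_mul, add_zero]
    exact integral_re hJh
  rw [hval] at hder
  refine hder.congr_of_eventuallyEq (Filter.Eventually.of_forall fun t => ?_)
  simp only
  have h1 := Lp_norm_rpow hp1 hp (x + (t : 𝕜) • h)
  rw [← hrdef] at h1
  rw [h1]
  refine integral_congr_ae ?_
  filter_upwards [Lp.coeFn_add x ((t : 𝕜) • h), Lp.coeFn_smul (t : 𝕜) h] with ω h2 h3
  rw [h2, Pi.add_apply, h3, Pi.smul_apply, smul_eq_mul]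

/-- A norming functional of a unit vector of `L_p` is given by the duality map. -/
lemma norming_eq (hp1 : 1 < p) (hp : p ≠ ∞) (x : Lp 𝕜 p μ) (f : Lp 𝕜 p μ →L[𝕜] 𝕜) (hx : ‖x‖ = 1)
    (hf : ‖f‖ = 1) (hfx : f x = 1) (h : Lp 𝕜 p μ) :
    f h = ∫ ω, J p.toReal (x ω) * h ω ∂μ := by
  have hr := one_lt_toReal hp1 hp
  have hre : ∀ h : Lp 𝕜 p μ, re (f h) = re (∫ ω, J p.toReal (x ω) * h ω ∂μ) := by
    intro h
    have hd := (Lp_hasDerivAt hp1 hp x h).2
    have hG : HasDerivAt (fun t : ℝ => (1 + t * re (f h)) ^ p.toReal) (p.toReal * re (f h)) 0 := by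
      have h1 : HasDerivAt (fun t : ℝ => 1 + t * re (f h)) (re (f h)) 0 := by
        have := ((hasDerivAt_id (0 : ℝ)).mul_const (re (f h))).const_add 1
        simpa using this
      have h2 := h1.rpow_const (p := p.toReal) (Or.inl (by simp))
      refine h2.congr_deriv ?_
      simp
      ring
    have hsub := hd.fun_sub hG
    have hmin : IsLocalMin (fun t : ℝ => ‖x + (t : 𝕜) • h‖ ^ p.toReal
        - (1 + t * re (f h)) ^ p.toReal) 0 := by
      have hcont : ContinuousAt (fun t : ℝ => 1 + t * re (f h)) 0 := by fun_prop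
      have hpos : ∀ᶠ t : ℝ in nhds 0, 0 < 1 + t * re (f h) := by
        exact hcont.tendsto.eventually_const_lt (by simp)
      filter_upwards [hpos] with t ht
      simp only [RCLike.ofReal_zero, zero_smul, add_zero, zero_mul, hx, Real.one_rpow, sub_self]
      have h1 : 1 + t * re (f h) ≤ ‖x + (t : 𝕜) • h‖ := by
        have h2 : re (f (x + (t : 𝕜) • h)) = 1 + t * re (f h) := by
          rw [map_add, map_smul, hfx, map_add, RCLike.one_re, smul_eq_mul, RCLike.re_ofReal_mul]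
        rw [← h2]
        refine (RCLike.re_le_norm _).trans ?_
        refine (f.le_opNorm _).trans ?_
        rw [hf, one_mul]
      have := Real.rpow_le_rpow ht.le h1 (by linarith : (0 : ℝ) ≤ p.toReal)
      linarith
    have h0 := hmin.hasDerivAt_eq_zero hsub
    have h3 : p.toReal * (re (∫ ω, J p.toReal (x ω) * h ω ∂μ) - re (f h)) = 0 := by linarith
    rcases mul_eq_zero.1 h3 with h4 | h4
    · linarith
    · linarith
  -- now the imaginary part, via multiplication by I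
  refine RCLike.ext (hre h) ?_
  have h1 := hre ((RCLike.I : 𝕜) • h)
  have h2 : ∫ ω, J p.toReal (x ω) * ((RCLike.I : 𝕜) • h : Lp 𝕜 p μ) ω ∂μ
      = (RCLike.I : 𝕜) * ∫ ω, J p.toReal (x ω) * h ω ∂μ := by
    rw [← integral_const_mul]
    refine integral_congr_ae ?_
    filter_upwards [Lp.coeFn_smul (RCLike.I : 𝕜) h] with ω hω
    rw [hω, Pi.smul_apply, smul_eq_mul]
    ring
  rw [h2, map_smul, smul_eq_mul, RCLike.I_mul_re, RCLike.I_mul_re] at h1
  linarith

end Pool.Agent.H47.NI
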