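import Mathlib
import Pool.Agent.H47.NIPoint

set_option autoImplicit false
set_option maxHeartbeats 4000000

namespace Pool.Agent.H47.NI

open RCLike

variable {𝕜 : Type*} [RCLike 𝕜]

/-- The constant `κ_p = 1 / (p^(1/p) q^(1/q))`, `q = p / (p - 1)`. -/
noncomputable def kappa (p : ℝ) : ℝ :=
  1 / (p ^ (1 / p) * (p / (p - 1)) ^ (1 - 1 / p))

lemma kappa_pos {p : ℝ} (hp : 1 < p) : 0 < kappa p := by
  have h1 : 0 < p := by linarith
  have h2 : 0 < p / (p - 1) := div_pos h1 (by linarith)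
  unfold kappa
  positivity

/-- Scalar stability: `s t^(p-1) ≤ κ - c (t^p - (p-1) s^p)^2` when `s^p + t^p ≤ 1`. -/
lemma scalar_stability {p : ℝ} (hp : 1 < p) : ∃ C : ℝ, 0 < C ∧ ∀ s t : ℝ, 0 ≤ s → 0 ≤ t →
    s ^ p + t ^ p ≤ 1 →
    (t ^ p - (p - 1) * s ^ p) ^ 2 ≤ C * (kappa p - s * t ^ (p - 1)) := by
  have hp0 : 0 < p := by linarith
  have hp1 : 0 < p - 1 := by linarith
  obtain ⟨q, hq⟩ : ∃ q : ℝ, q = p / (p - 1) := ⟨_, rfl⟩
  have hqpos : 0 < q := by rw [hq]; positivity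
  have hip : 1 / p < 1 := by rw [div_lt_one hp0]; exact hp
  have hqi : 1 - 1 / p = 1 / q := by rw [hq]; field_simp
  have hpq : (p - 1) * q = p := by rw [hq]; field_simp
  obtain ⟨c0, hc0⟩ : ∃ c0 : ℝ, c0 = min (1 / p) (1 - 1 / p) := ⟨_, rfl⟩
  have hc0pos : 0 < c0 := by rw [hc0]; exact lt_min (by positivity) (by linarith)
  obtain ⟨κ, hκ⟩ : ∃ κ : ℝ, κ = kappa p := ⟨_, rfl⟩
  have hκpos : 0 < κ := by rw [hκ]; exact kappa_pos hp
  refine ⟨2 * (p + q) / (κ * c0), by positivity, ?_⟩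
  intro s t hs ht hst
  have hsp : 0 ≤ s ^ p := Real.rpow_nonneg hs _
  have htp : 0 ≤ t ^ p := Real.rpow_nonneg ht _
  obtain ⟨U, hU⟩ : ∃ U : ℝ, U = p * s ^ p := ⟨_, rfl⟩
  obtain ⟨V, hV⟩ : ∃ V : ℝ, V = q * t ^ p := ⟨_, rfl⟩
  have hU0 : 0 ≤ U := by rw [hU]; positivity
  have hV0 : 0 ≤ V := by rw [hV]; positivity
  have h1 := refined_amgm V U (1 / p) hV0 hU0 (by positivity) hip
  rw [← hc0] at h1
  have h2 : V ^ (1 - 1 / p) * U ^ (1 / p) = s * t ^ (p - 1) / κ := by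
    rw [hU, hV, hκ, Real.mul_rpow hqpos.le htp, Real.mul_rpow hp0.le hsp, ← Real.rpow_mul hs,
      ← Real.rpow_mul ht, mul_one_div_cancel hp0.ne', Real.rpow_one]
    have e : p * (1 - 1 / p) = p - 1 := by field_simp
    rw [e]
    unfold kappa
    rw [← hq]
    have h3 : 0 < p ^ (1 / p) := by positivity
    have h4 : 0 < q ^ (1 - 1 / p) := by positivity
    field_simp
  rw [h2] at h1
  have h3 : (1 - 1 / p) * V + 1 / p * U ≤ 1 := by
    rw [hU, hV, hqi]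
    have : 1 / q * (q * t ^ p) + 1 / p * (p * s ^ p) = t ^ p + s ^ p := by field_simp
    linarith
  have h4 : (V - U) ^ 2 ≤ 2 * (p + q) * (Real.sqrt V - Real.sqrt U) ^ 2 := by
    have e1 := Real.sq_sqrt hU0
    have e2 := Real.sq_sqrt hV0
    have e3 : (V - U) ^ 2 = (Real.sqrt V - Real.sqrt U) ^ 2 * (Real.sqrt V + Real.sqrt U) ^ 2 := by
      have : V - U = (Real.sqrt V - Real.sqrt U) * (Real.sqrt V + Real.sqrt U) := by nlinarith
      rw [this]; ring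
    have e4 : (Real.sqrt V + Real.sqrt U) ^ 2 ≤ 2 * (V + U) := by
      nlinarith [sq_nonneg (Real.sqrt V - Real.sqrt U)]
    have e5 : V + U ≤ p + q := by
      rw [hU, hV]
      nlinarith
    rw [e3, mul_comm]
    exact mul_le_mul_of_nonneg_right (by linarith) (sq_nonneg _)
  have h5 : t ^ p - (p - 1) * s ^ p = (V - U) / q := by
    rw [hU, hV]
    have : (p - 1) * s ^ p = p * s ^ p / q := by
      rw [eq_div_iff hqpos.ne']
      calc (p - 1) * s ^ p * q = ((p - 1) * q) * s ^ p := by ring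
        _ = p * s ^ p := by rw [hpq]
    rw [this]
    field_simp
  have hq1 : 1 ≤ q := by rw [hq, le_div_iff₀ hp1]; linarith
  rw [h5, div_pow, ← hκ]
  have h6 : (Real.sqrt V - Real.sqrt U) ^ 2 ≤ (κ - s * t ^ (p - 1)) / (κ * c0) := by
    rw [le_div_iff₀ (by positivity)]
    have : s * t ^ (p - 1) / κ * κ = s * t ^ (p - 1) := by field_simp
    nlinarith
  calc (V - U) ^ 2 / q ^ 2 ≤ (V - U) ^ 2 / 1 :=
        div_le_div_of_nonneg_left (sq_nonneg _) one_pos (by nlinarith)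
    _ = (V - U) ^ 2 := by rw [div_one]
    _ ≤ 2 * (p + q) * (Real.sqrt V - Real.sqrt U) ^ 2 := h4
    _ ≤ 2 * (p + q) * ((κ - s * t ^ (p - 1)) / (κ * c0)) :=
        mul_le_mul_of_nonneg_left h6 (by positivity)
    _ = 2 * (p + q) / (κ * c0) * (κ - s * t ^ (p - 1)) := by ring

/-- The main scalar estimate. -/
lemma main_scalar {p : ℝ} (hp : 1 < p) {C : ℝ} (hC : 0 < C) : ∃ K : ℝ, 0 < K ∧
    ∀ (m1 n1 m2 n2 : 𝕜) (s t : ℝ), 0 ≤ s → 0 ≤ t → s ^ p + t ^ p ≤ 1 →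
    ‖m1‖ ≤ s → ‖n1‖ ≤ s ^ (p - 1) → ‖m2‖ ≤ t → ‖n2‖ ≤ t ^ (p - 1) →
    ‖((s ^ p : ℝ) : 𝕜) - m1 * n1‖ ≤ C * s ^ p * Real.sqrt (1 - ‖m1‖ / s) →
    ‖((t ^ p : ℝ) : 𝕜) - m2 * n2‖ ≤ C * t ^ p * Real.sqrt (1 - ‖n2‖ / t ^ (p - 1)) →
    ∀ b : ℝ, 0 ≤ b →
    ‖(m1 + (b : 𝕜) * m2) * (n2 - (((p - 1) * b : ℝ) : 𝕜) * n1)‖ ≤ kappa p + K * b ^ 2 := by
  have hp0 : 0 < p := by linarith
  have hp1 : 0 < p - 1 := by linarith
  obtain ⟨C4, hC4, hsc⟩ := scalar_stability hp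
  obtain ⟨κ, hκ⟩ : ∃ κ : ℝ, κ = kappa p := ⟨_, rfl⟩
  have hκpos : 0 < κ := by rw [hκ]; exact kappa_pos hp
  obtain ⟨K1, hK1⟩ : ∃ K1 : ℝ, K1 = (Real.sqrt C4 + p * C * Real.sqrt (2 / κ)) ^ 2
    + 2 * p ^ 2 / κ := ⟨_, rfl⟩
  have hK1pos : 0 < K1 := by rw [hK1]; positivity
  refine ⟨K1 / 4 + (p - 1), by positivity, ?_⟩
  intro m1 n1 m2 n2 s t hs ht hst hm1 hn1 hm2 hn2 hA hB b hb
  rw [← hκ]
  have hsp : 0 ≤ s ^ p := Real.rpow_nonneg hs _
  have htp : 0 ≤ t ^ p := Real.rpow_nonneg ht _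
  have hsp1 : 0 ≤ s ^ (p - 1) := Real.rpow_nonneg hs _
  have htp1 : 0 ≤ t ^ (p - 1) := Real.rpow_nonneg ht _
  have hs1 : s ≤ 1 := by
    by_contra hcon
    push Not at hcon
    have := Real.one_lt_rpow hcon hp0
    linarith
  have ht1 : t ≤ 1 := by
    by_contra hcon
    push Not at hcon
    have := Real.one_lt_rpow hcon hp0
    linarith
  have hspp : s ^ p = s * s ^ (p - 1) := by
    rcases eq_or_lt_of_le hs with h | h
    · rw [← h, Real.zero_rpow hp0.ne', zero_mul]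
    · rw [mul_comm, ← Real.rpow_add_one h.ne']; congr 1; ring
  have htpp : t ^ p = t * t ^ (p - 1) := by
    rcases eq_or_lt_of_le ht with h | h
    · rw [← h, Real.zero_rpow hp0.ne', zero_mul]
    · rw [mul_comm, ← Real.rpow_add_one h.ne']; congr 1; ring
  obtain ⟨w, hw⟩ : ∃ w : 𝕜, w = m2 * n2 - ((p - 1 : ℝ) : 𝕜) * (m1 * n1) := ⟨_, rfl⟩
  obtain ⟨P, hP⟩ : ∃ P : ℝ, P = ‖m1‖ * ‖n2‖ := ⟨_, rfl⟩
  have hPst : P ≤ s * t ^ (p - 1) := by
    rw [hP]; exact mul_le_mul hm1 hn2 (norm_nonneg _) hs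
  have hstκ : s * t ^ (p - 1) ≤ κ := by
    have := hsc s t hs ht hst
    rw [← hκ] at this
    by_contra hcon
    push Not at hcon
    have h2 := sq_nonneg (t ^ p - (p - 1) * s ^ p)
    nlinarith
  have hD0 : 0 ≤ κ - P := by linarith
  -- key claim
  have hkey : ‖w‖ ^ 2 ≤ K1 * (κ - P) := by
    rcases le_or_gt P (κ / 2) with hcase | hcase
    · have h1 : ‖w‖ ≤ p := by
        rw [hw]
        refine (norm_sub_le _ _).trans ?_
        rw [norm_mul, norm_mul, norm_mul, norm_ofReal, abs_of_pos hp1]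
        have e1 : ‖m2‖ * ‖n2‖ ≤ t ^ p := by
          rw [htpp]; exact mul_le_mul hm2 hn2 (norm_nonneg _) ht
        have e2 : ‖m1‖ * ‖n1‖ ≤ s ^ p := by
          rw [hspp]; exact mul_le_mul hm1 hn1 (norm_nonneg _) hs
        nlinarith
      have h2 : ‖w‖ ^ 2 ≤ p ^ 2 := by
        have := norm_nonneg w
        nlinarith
      have h3 : 2 * p ^ 2 / κ * (κ - P) ≥ p ^ 2 := by
        have : 2 * p ^ 2 / κ * (κ - P) = 2 * p ^ 2 * ((κ - P) / κ) := by ring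
        rw [this]
        have h4 : 1 / 2 ≤ (κ - P) / κ := by
          rw [le_div_iff₀ hκpos]; linarith
        nlinarith [sq_nonneg p]
      have h5 : 0 ≤ (Real.sqrt C4 + p * C * Real.sqrt (2 / κ)) ^ 2 * (κ - P) :=
        mul_nonneg (sq_nonneg _) hD0
      rw [hK1]
      linarith
    · have hst0 : 0 < s * t ^ (p - 1) := by linarith [half_pos hκpos]
      have hspos : 0 < s := by
        rcases eq_or_lt_of_le hs with h | h
        · rw [← h, zero_mul] at hst0; exact absurd hst0 (lt_irrefl _)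
        · exact h
      have htp1pos : 0 < t ^ (p - 1) := by
        rcases eq_or_lt_of_le htp1 with h | h
        · rw [← h, mul_zero] at hst0; exact absurd hst0 (lt_irrefl _)
        · exact h
      obtain ⟨α, hα⟩ : ∃ α : ℝ, α = ‖m1‖ / s := ⟨_, rfl⟩
      obtain ⟨β, hβ⟩ : ∃ β : ℝ, β = ‖n2‖ / t ^ (p - 1) := ⟨_, rfl⟩
      have hα0 : 0 ≤ α := by rw [hα]; positivity
      have hβ0 : 0 ≤ β := by rw [hβ]; positivity
      have hα1 : α ≤ 1 := by rw [hα, div_le_one hspos]; exact hm1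
      have hβ1 : β ≤ 1 := by rw [hβ, div_le_one htp1pos]; exact hn2
      have hPαβ : P = s * t ^ (p - 1) * (α * β) := by
        rw [hP, hα, hβ]; field_simp
      have hab : s * t ^ (p - 1) * (1 - α * β) ≤ κ - P := by rw [hPαβ]; linarith
      have hαβ : 1 - α * β ≤ 2 / κ * (κ - P) := by
        have h0 : 0 ≤ 1 - α * β := by nlinarith
        have h1 : κ / 2 * (1 - α * β) ≤ κ - P := by nlinarith
        have h2 : 2 / κ * (κ - P) ≥ 2 / κ * (κ / 2 * (1 - α * β)) :=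
          mul_le_mul_of_nonneg_left h1 (by positivity)
        have h3 : 2 / κ * (κ / 2 * (1 - α * β)) = 1 - α * β := by field_simp
        linarith
      have hsα : Real.sqrt (1 - α) ≤ Real.sqrt (2 / κ) * Real.sqrt (κ - P) := by
        rw [← Real.sqrt_mul (by positivity)]
        exact Real.sqrt_le_sqrt (by nlinarith)
      have hsβ : Real.sqrt (1 - β) ≤ Real.sqrt (2 / κ) * Real.sqrt (κ - P) := by
        rw [← Real.sqrt_mul (by positivity)]
        exact Real.sqrt_le_sqrt (by nlinarith)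
      have hlead : |t ^ p - (p - 1) * s ^ p| ≤ Real.sqrt C4 * Real.sqrt (κ - P) := by
        rw [← Real.sqrt_mul hC4.le]
        apply Real.le_sqrt_of_sq_le
        rw [sq_abs]
        have := hsc s t hs ht hst
        rw [← hκ] at this
        nlinarith
      rw [← hα] at hA
      rw [← hβ] at hB
      have hwdec : w = ((t ^ p - (p - 1) * s ^ p : ℝ) : 𝕜) - (((t ^ p : ℝ) : 𝕜) - m2 * n2)
          + ((p - 1 : ℝ) : 𝕜) * (((s ^ p : ℝ) : 𝕜) - m1 * n1) := by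
        rw [hw]; push_cast; ring
      have hsp' : s ^ p ≤ 1 := by linarith
      have htp' : t ^ p ≤ 1 := by linarith
      have hA' : ‖((s ^ p : ℝ) : 𝕜) - m1 * n1‖ ≤ C * (Real.sqrt (2 / κ) * Real.sqrt (κ - P)) := by
        refine hA.trans ?_
        have h0 : 0 ≤ Real.sqrt (1 - α) := Real.sqrt_nonneg _
        calc C * s ^ p * Real.sqrt (1 - α) ≤ C * 1 * Real.sqrt (1 - α) := by gcongr
          _ ≤ C * (Real.sqrt (2 / κ) * Real.sqrt (κ - P)) := by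
            rw [mul_one]; exact mul_le_mul_of_nonneg_left hsα hC.le
      have hB' : ‖((t ^ p : ℝ) : 𝕜) - m2 * n2‖ ≤ C * (Real.sqrt (2 / κ) * Real.sqrt (κ - P)) := by
        refine hB.trans ?_
        have h0 : 0 ≤ Real.sqrt (1 - β) := Real.sqrt_nonneg _
        calc C * t ^ p * Real.sqrt (1 - β) ≤ C * 1 * Real.sqrt (1 - β) := by gcongr
          _ ≤ C * (Real.sqrt (2 / κ) * Real.sqrt (κ - P)) := by
            rw [mul_one]; exact mul_le_mul_of_nonneg_left hsβ hC.le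
      have hwn : ‖w‖ ≤ (Real.sqrt C4 + p * C * Real.sqrt (2 / κ)) * Real.sqrt (κ - P) := by
        rw [hwdec]
        refine (norm_add_le _ _).trans ?_
        have e1 := norm_sub_le ((t ^ p - (p - 1) * s ^ p : ℝ) : 𝕜) (((t ^ p : ℝ) : 𝕜) - m2 * n2)
        rw [norm_ofReal] at e1
        have e2 : ‖((p - 1 : ℝ) : 𝕜) * (((s ^ p : ℝ) : 𝕜) - m1 * n1)‖
            ≤ (p - 1) * (C * (Real.sqrt (2 / κ) * Real.sqrt (κ - P))) := by
          rw [norm_mul, norm_ofReal, abs_of_pos hp1]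
          exact mul_le_mul_of_nonneg_left hA' hp1.le
        nlinarith
      have h7 : ‖w‖ ^ 2 ≤ (Real.sqrt C4 + p * C * Real.sqrt (2 / κ)) ^ 2 * (κ - P) := by
        calc ‖w‖ ^ 2 ≤ ((Real.sqrt C4 + p * C * Real.sqrt (2 / κ)) * Real.sqrt (κ - P)) ^ 2 :=
              pow_le_pow_left₀ (norm_nonneg _) hwn 2
          _ = (Real.sqrt C4 + p * C * Real.sqrt (2 / κ)) ^ 2 * (κ - P) := by
              rw [mul_pow, Real.sq_sqrt hD0]
      have h8 : 0 ≤ 2 * p ^ 2 / κ * (κ - P) := by positivity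
      rw [hK1]
      linarith
  -- conclusion
  have hdec : (m1 + (b : 𝕜) * m2) * (n2 - (((p - 1) * b : ℝ) : 𝕜) * n1)
      = m1 * n2 + (b : 𝕜) * w - (((p - 1) * b ^ 2 : ℝ) : 𝕜) * (m2 * n1) := by
    rw [hw]; push_cast; ring
  rw [hdec]
  have h1 : ‖m1 * n2 + (b : 𝕜) * w - (((p - 1) * b ^ 2 : ℝ) : 𝕜) * (m2 * n1)‖
      ≤ P + b * ‖w‖ + (p - 1) * b ^ 2 := by
    refine (norm_sub_le _ _).trans ?_
    have e1 := norm_add_le (m1 * n2) ((b : 𝕜) * w)
    rw [norm_mul, norm_mul, norm_ofReal, abs_of_nonneg hb, ← hP] at e1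
    have e2 : ‖(((p - 1) * b ^ 2 : ℝ) : 𝕜) * (m2 * n1)‖ ≤ (p - 1) * b ^ 2 := by
      rw [norm_mul, norm_mul, norm_ofReal, abs_of_nonneg (by positivity)]
      have h3 : s ^ (p - 1) ≤ 1 := Real.rpow_le_one hs hs1 hp1.le
      have h4 : ‖m2‖ * ‖n1‖ ≤ 1 := by
        calc ‖m2‖ * ‖n1‖ ≤ 1 * 1 := mul_le_mul (hm2.trans ht1) (hn1.trans h3) (norm_nonneg _)
              zero_le_one
          _ = 1 := one_mul 1
      have h5 : 0 ≤ (p - 1) * b ^ 2 := by positivity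
      nlinarith
    linarith
  refine h1.trans ?_
  have h2 : b * ‖w‖ ≤ ‖w‖ ^ 2 / K1 + K1 / 4 * b ^ 2 := by
    rw [← sub_nonneg]
    have : ‖w‖ ^ 2 / K1 + K1 / 4 * b ^ 2 - b * ‖w‖ = (2 * ‖w‖ - K1 * b) ^ 2 / (4 * K1) := by
      field_simp; ring
    rw [this]; positivity
  have h3 : ‖w‖ ^ 2 / K1 ≤ κ - P := by
    rw [div_le_iff₀ hK1pos]; linarith
  linarith

end Pool.Agent.H47.NI
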