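import Mathlib
import Pool.Agent.H47.NIAvg

set_option autoImplicit false
set_option maxHeartbeats 4000000

namespace Pool.Agent.H47.NI

open RCLike MeasureTheory

variable {𝕜 : Type*} [RCLike 𝕜] {Ω : Type*} [MeasurableSpace Ω]

/-- The functional `x ↦ M^(-1/q) ∫_A x`. -/
noncomputable def mA (p : ℝ) (μ : Measure Ω) (A : Set Ω) (x : Ω → 𝕜) : 𝕜 :=
  ((μ.real A ^ (-(1 - 1 / p)) : ℝ) : 𝕜) * ∫ ω in A, x ω ∂μ

/-- The functional `x ↦ M^(-1/p) ∫_A |x|^(p-2) conj x`. -/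
noncomputable def nA (p : ℝ) (μ : Measure Ω) (A : Set Ω) (x : Ω → 𝕜) : 𝕜 :=
  ((μ.real A ^ (-(1 / p)) : ℝ) : 𝕜) * ∫ ω in A, J p (x ω) ∂μ

/-- The local `p`-norm. -/
noncomputable def sA (p : ℝ) (μ : Measure Ω) (A : Set Ω) (x : Ω → 𝕜) : ℝ :=
  (∫ ω in A, ‖x ω‖ ^ p ∂μ) ^ (1 / p)

lemma sA_nonneg (p : ℝ) (μ : Measure Ω) (A : Set Ω) (x : Ω → 𝕜) : 0 ≤ sA p μ A x :=
  Real.rpow_nonneg (integral_nonneg fun _ => Real.rpow_nonneg (norm_nonneg _) _) _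

lemma sA_rpow {p : ℝ} (hp : 1 < p) (μ : Measure Ω) (A : Set Ω) (x : Ω → 𝕜) :
    sA p μ A x ^ p = ∫ ω in A, ‖x ω‖ ^ p ∂μ := by
  unfold sA
  rw [← Real.rpow_mul (integral_nonneg fun _ => Real.rpow_nonneg (norm_nonneg _) _)]
  rw [one_div_mul_cancel (by linarith), Real.rpow_one]

/-- Stability of the local functionals. -/
lemma set_version {p : ℝ} (hp : 1 < p) : ∃ C : ℝ, 0 < C ∧ ∀ (μ : Measure Ω) (A : Set Ω)
    (_ : 0 < μ.real A) (x : Ω → 𝕜) (_ : AEStronglyMeasurable x μ)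
    (_ : Integrable (fun ω => ‖x ω‖ ^ p) μ),
    ‖mA p μ A x‖ ≤ sA p μ A x ∧ ‖nA p μ A x‖ ≤ sA p μ A x ^ (p - 1) ∧
    ‖((sA p μ A x ^ p : ℝ) : 𝕜) - mA p μ A x * nA p μ A x‖
      ≤ C * sA p μ A x ^ p * Real.sqrt (1 - ‖nA p μ A x‖ / sA p μ A x ^ (p - 1)) ∧
    ‖((sA p μ A x ^ p : ℝ) : 𝕜) - mA p μ A x * nA p μ A x‖
      ≤ C * sA p μ A x ^ p * Real.sqrt (1 - ‖mA p μ A x‖ / sA p μ A x) := by
  obtain ⟨C, hC, hnorm⟩ := normalised (𝕜 := 𝕜) (Ω := Ω) hp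
  refine ⟨C, hC, ?_⟩
  intro μ A hM x hx hxp
  have hp0 : 0 < p := by linarith
  obtain ⟨M, hMdef⟩ : ∃ M : ℝ, M = μ.real A := ⟨_, rfl⟩
  have hMpos : 0 < M := by rw [hMdef]; exact hM
  have hfin : IsFiniteMeasure (μ.restrict A) := by
    refine ⟨?_⟩
    rw [Measure.restrict_apply_univ]
    rw [Measure.real, ENNReal.toReal_pos_iff] at hM
    exact hM.2
  have hMuniv : M = (μ.restrict A).real Set.univ := by
    rw [hMdef]; simp [Measure.real]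
  obtain ⟨s, hs⟩ : ∃ s : ℝ, s = sA p μ A x := ⟨_, rfl⟩
  have hs0 : 0 ≤ s := by rw [hs]; exact sA_nonneg _ _ _ _
  have hsp : s ^ p = ∫ ω in A, ‖x ω‖ ^ p ∂μ := by rw [hs]; exact sA_rpow hp _ _ _
  have hxpA : Integrable (fun ω => ‖x ω‖ ^ p) (μ.restrict A) := hxp.restrict
  have hxA : AEStronglyMeasurable x (μ.restrict A) := hx.restrict
  rcases eq_or_lt_of_le hs0 with h0 | h0
  · -- degenerate case
    have hz : ∀ᵐ ω ∂(μ.restrict A), ‖x ω‖ ^ p = 0 := by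
      have h1 : ∫ ω in A, ‖x ω‖ ^ p ∂μ = 0 := by
        rw [← hsp, ← h0, Real.zero_rpow hp0.ne']
      exact (integral_eq_zero_iff_of_nonneg (fun ω => Real.rpow_nonneg (norm_nonneg _) _) hxpA).1 h1
    have hz' : ∀ᵐ ω ∂(μ.restrict A), x ω = 0 := by
      filter_upwards [hz] with ω hω
      rw [Real.rpow_eq_zero (norm_nonneg _) hp0.ne'] at hω
      exact norm_eq_zero.1 hω
    have hm : mA p μ A x = 0 := by
      unfold mA
      rw [integral_congr_ae (g := fun _ => (0 : 𝕜)) hz', integral_zero, mul_zero]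
    have hn : nA p μ A x = 0 := by
      unfold nA
      have : ∀ᵐ ω ∂(μ.restrict A), J p (x ω) = 0 := by
        filter_upwards [hz'] with ω hω
        rw [hω, J_zero]
      rw [integral_congr_ae (g := fun _ => (0 : 𝕜)) this, integral_zero, mul_zero]
    rw [hm, hn, ← hs, ← h0]
    rw [Real.zero_rpow hp0.ne', Real.zero_rpow (by linarith : p - 1 ≠ 0)]
    simp
  · -- main case
    obtain ⟨c, hc⟩ : ∃ c : ℝ, c = M ^ (1 / p) / s := ⟨_, rfl⟩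
    have hcpos : 0 < c := by rw [hc]; positivity
    have hX := hnorm (μ.restrict A) M hMuniv hMpos (fun ω => (c : 𝕜) * x ω) (hxA.const_mul _)
    have hnX : ∀ ω, ‖(c : 𝕜) * x ω‖ ^ p = c ^ p * ‖x ω‖ ^ p := by
      intro ω
      rw [norm_mul, norm_ofReal, abs_of_pos hcpos, Real.mul_rpow hcpos.le (norm_nonneg _)]
    have hcp : c ^ p * s ^ p = M := by
      rw [hc, Real.div_rpow (by positivity) hs0, ← Real.rpow_mul hMpos.le, one_div_mul_cancel hp0.ne',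
        Real.rpow_one, div_mul_cancel₀]
      exact (Real.rpow_pos_of_pos h0 p).ne'
    have hX2 := hX (by simp only [hnX]; exact hxpA.const_mul _)
      (by simp only [hnX]; rw [integral_const_mul, ← hsp, hcp])
    have e1 : (M : 𝕜)⁻¹ * ∫ ω in A, (c : 𝕜) * x ω ∂μ = ((s⁻¹ : ℝ) : 𝕜) * mA p μ A x := by
      rw [integral_const_mul]
      unfold mA
      rw [← hMdef, ← mul_assoc, ← mul_assoc, ← RCLike.ofReal_inv, ← RCLike.ofReal_mul,
        ← RCLike.ofReal_mul]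
      congr 2
      rw [hc, neg_sub, Real.rpow_sub hMpos, Real.rpow_one]
      field_simp
    have e2 : (M : 𝕜)⁻¹ * ∫ ω in A, J p ((c : 𝕜) * x ω) ∂μ
        = (((s ^ (p - 1))⁻¹ : ℝ) : 𝕜) * nA p μ A x := by
      simp only [J_real_mul hcpos]
      rw [integral_const_mul]
      unfold nA
      rw [← hMdef, ← mul_assoc, ← mul_assoc, ← RCLike.ofReal_inv, ← RCLike.ofReal_mul,
        ← RCLike.ofReal_mul]
      congr 2
      rw [hc, Real.div_rpow (by positivity) hs0, ← Real.rpow_mul hMpos.le]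
      have : 1 / p * (p - 1) = 1 + -(1 / p) := by field_simp; ring
      rw [this, Real.rpow_add hMpos, Real.rpow_one]
      field_simp
    rw [e1, e2] at hX2
    rw [← hs]
    obtain ⟨m, hm⟩ : ∃ m : 𝕜, m = mA p μ A x := ⟨_, rfl⟩
    obtain ⟨n, hn⟩ : ∃ n : 𝕜, n = nA p μ A x := ⟨_, rfl⟩
    rw [← hm, ← hn] at hX2 ⊢
    have hsp1 : 0 < s ^ (p - 1) := Real.rpow_pos_of_pos h0 _
    have n1 : ‖((s⁻¹ : ℝ) : 𝕜) * m‖ = ‖m‖ / s := by
      rw [norm_mul, norm_ofReal, abs_of_pos (by positivity)]; ring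
    have n2 : ‖(((s ^ (p - 1))⁻¹ : ℝ) : 𝕜) * n‖ = ‖n‖ / s ^ (p - 1) := by
      rw [norm_mul, norm_ofReal, abs_of_pos (by positivity)]; ring
    have hspp : s ^ p = s * s ^ (p - 1) := by
      rw [mul_comm, ← Real.rpow_add_one h0.ne']; congr 1; ring
    have n3 : ‖1 - ((s⁻¹ : ℝ) : 𝕜) * m * ((((s ^ (p - 1))⁻¹ : ℝ) : 𝕜) * n)‖
        = ‖((s ^ p : ℝ) : 𝕜) - m * n‖ / s ^ p := by
      have hspne : ((s ^ p : ℝ) : 𝕜) ≠ 0 := by
        exact_mod_cast (Real.rpow_pos_of_pos h0 p).ne'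
      have : 1 - ((s⁻¹ : ℝ) : 𝕜) * m * ((((s ^ (p - 1))⁻¹ : ℝ) : 𝕜) * n)
          = (((s ^ p)⁻¹ : ℝ) : 𝕜) * (((s ^ p : ℝ) : 𝕜) - m * n) := by
        have e : (((s ^ p)⁻¹ : ℝ) : 𝕜) = ((s⁻¹ : ℝ) : 𝕜) * (((s ^ (p - 1))⁻¹ : ℝ) : 𝕜) := by
          rw [← RCLike.ofReal_mul, hspp, mul_inv]
        have e' : (((s ^ p)⁻¹ : ℝ) : 𝕜) * ((s ^ p : ℝ) : 𝕜) = 1 := by
          rw [← RCLike.ofReal_mul, inv_mul_cancel₀ (Real.rpow_pos_of_pos h0 p).ne', RCLike.ofReal_one]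
        rw [mul_sub, e', e]
        ring
      rw [this, norm_mul, norm_ofReal, abs_of_pos (by positivity)]
      ring
    rw [n1, n2, n3] at hX2
    obtain ⟨h1, h2, h3, h4⟩ := hX2
    have hspos : 0 < s ^ p := Real.rpow_pos_of_pos h0 p
    refine ⟨?_, ?_, ?_, ?_⟩
    · rwa [div_le_one h0] at h1
    · rwa [div_le_one hsp1] at h2
    · rw [div_le_iff₀ hspos] at h3
      linarith
    · rw [div_le_iff₀ hspos] at h4
      linarith

end Pool.Agent.H47.NI
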