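import Mathlib
import Pool.Agent.H47.NISet
import Pool.Agent.H47.NIScalar
import Pool.Agent.H47.NINorming

set_option autoImplicit false
set_option maxHeartbeats 4000000

namespace Pool.Agent.H47.NI

open RCLike MeasureTheory
open scoped ENNReal

variable {𝕜 : Type*} [RCLike 𝕜] {Ω : Type*} [MeasurableSpace Ω] {μ : Measure Ω}
variable {p : ℝ≥0∞} [Fact (1 ≤ p)]

lemma isFinite_restrict {A : Set Ω} (hμA : μ A ≠ ∞) : IsFiniteMeasure (μ.restrict A) :=
  ⟨by rw [Measure.restrict_apply_univ]; exact hμA.lt_top⟩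

lemma Lp_integrableOn (hp1 : 1 < p) (hp : p ≠ ∞) {A : Set Ω} (hμA : μ A ≠ ∞) (x : Lp 𝕜 p μ) :
    Integrable x (μ.restrict A) := by
  have := isFinite_restrict hμA
  exact (integrable_of_rpow (μ.restrict A) (one_lt_toReal hp1 hp) (Lp.aestronglyMeasurable x).restrict
    (Lp_integrable_rpow hp1 hp x).restrict).1

lemma sA_le (hp1 : 1 < p) (hp : p ≠ ∞) {A : Set Ω} (x : Lp 𝕜 p μ) :
    sA p.toReal μ A x ≤ ‖x‖ := by
  have hr := one_lt_toReal hp1 hp
  have h1 : sA p.toReal μ A x ^ p.toReal ≤ ‖x‖ ^ p.toReal := by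
    rw [sA_rpow hr, Lp_norm_rpow hp1 hp]
    exact setIntegral_le_integral (Lp_integrable_rpow hp1 hp x)
      (Filter.Eventually.of_forall fun _ => Real.rpow_nonneg (norm_nonneg _) _)
  exact (Real.rpow_le_rpow_iff (sA_nonneg _ _ _ _) (norm_nonneg _) (by linarith)).1 h1

/-- The averaging functional as a continuous linear functional. -/
noncomputable def phi (hp1 : 1 < p) (hp : p ≠ ∞) {A : Set Ω} (hM : 0 < μ.real A) (hμA : μ A ≠ ∞) :
    Lp 𝕜 p μ →L[𝕜] 𝕜 :=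
  LinearMap.mkContinuous
    { toFun := fun x => mA p.toReal μ A x
      map_add' := by
        intro x y
        unfold mA
        rw [← mul_add]
        congr 1
        rw [← integral_add (Lp_integrableOn hp1 hp hμA x) (Lp_integrableOn hp1 hp hμA y)]
        refine integral_congr_ae ?_
        exact ae_restrict_of_ae (Lp.coeFn_add x y)
      map_smul' := by
        intro c x
        unfold mA
        simp only [RingHom.id_apply, smul_eq_mul]
        have h : ∫ ω in A, (c • x : Lp 𝕜 p μ) ω ∂μ = c * ∫ ω in A, (x : Ω → 𝕜) ω ∂μ := by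
          rw [← integral_const_mul c (fun ω => (x : Ω → 𝕜) ω)]
          exact integral_congr_ae (ae_restrict_of_ae (Lp.coeFn_smul c x))
        rw [h]
        ring }
    1 (by
      intro x
      obtain ⟨C, _, h⟩ := set_version (𝕜 := 𝕜) (Ω := Ω) (one_lt_toReal hp1 hp)
      have h1 := (h μ A hM x (Lp.aestronglyMeasurable x) (Lp_integrable_rpow hp1 hp x)).1
      rw [one_mul]
      exact h1.trans (sA_le hp1 hp x))

lemma phi_apply (hp1 : 1 < p) (hp : p ≠ ∞) {A : Set Ω} (hM : 0 < μ.real A) (hμA : μ A ≠ ∞)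
    (x : Lp 𝕜 p μ) : phi hp1 hp hM hμA x = mA p.toReal μ A x := rfl

/-- The normalised indicator. -/
noncomputable def eA (𝕜 : Type*) [RCLike 𝕜] (p : ℝ≥0∞) {A : Set Ω} (hA : MeasurableSet A)
    (hμA : μ A ≠ ∞) : Lp 𝕜 p μ :=
  indicatorConstLp p hA hμA ((μ.real A ^ (-(1 / p.toReal)) : ℝ) : 𝕜)

lemma eA_coe {A : Set Ω} (hA : MeasurableSet A) (hμA : μ A ≠ ∞) :
    eA 𝕜 p hA hμA =ᵐ[μ] A.indicator fun _ => ((μ.real A ^ (-(1 / p.toReal)) : ℝ) : 𝕜) :=
  indicatorConstLp_coeFn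

/-- Value of a norming functional on `e_A`. -/
lemma norming_eA (hp1 : 1 < p) (hp : p ≠ ∞) (x : Lp 𝕜 p μ) (f : Lp 𝕜 p μ →L[𝕜] 𝕜) (hx : ‖x‖ = 1)
    (hf : ‖f‖ = 1) (hfx : f x = 1) {A : Set Ω} (hA : MeasurableSet A) (hμA : μ A ≠ ∞) :
    f (eA 𝕜 p hA hμA) = nA p.toReal μ A x := by
  rw [norming_eq hp1 hp x f hx hf hfx]
  unfold nA
  have h1 : ∫ ω, J p.toReal (x ω) * (eA 𝕜 p hA hμA : Lp 𝕜 p μ) ω ∂μ
      = ∫ ω, A.indicator (fun ω => J p.toReal (x ω) * ((μ.real A ^ (-(1 / p.toReal)) : ℝ) : 𝕜)) ω ∂μ := by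
    refine integral_congr_ae ?_
    filter_upwards [eA_coe (𝕜 := 𝕜) (p := p) hA hμA] with ω hω
    rw [hω]
    by_cases h : ω ∈ A
    · rw [Set.indicator_of_mem h, Set.indicator_of_mem h]
    · rw [Set.indicator_of_notMem h, Set.indicator_of_notMem h, mul_zero]
  rw [h1, integral_indicator hA, integral_mul_const, mul_comm]

/-- Norm of a combination of two disjoint normalised indicators. -/
lemma norm_comb (hp1 : 1 < p) (hp : p ≠ ∞) {A B : Set Ω} (hA : MeasurableSet A)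
    (hB : MeasurableSet B) (hAB : Disjoint A B) (hMA : 0 < μ.real A) (hMB : 0 < μ.real B)
    (hμA : μ A ≠ ∞) (hμB : μ B ≠ ∞) (α β : 𝕜) :
    ‖α • eA 𝕜 p hA hμA + β • eA 𝕜 p hB hμB‖ ^ p.toReal = ‖α‖ ^ p.toReal + ‖β‖ ^ p.toReal := by
  have hr := one_lt_toReal hp1 hp
  obtain ⟨r, hrdef⟩ : ∃ r : ℝ, r = p.toReal := ⟨_, rfl⟩
  have hr0 : 0 < r := by rw [hrdef]; linarith
  rw [Lp_norm_rpow hp1 hp]
  have key : ∀ (M : ℝ) (hM : 0 < M) (γ : 𝕜),
      ‖γ * ((M ^ (-(1 / r)) : ℝ) : 𝕜)‖ ^ r = ‖γ‖ ^ r * M⁻¹ := by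
    intro M hM γ
    rw [norm_mul, norm_ofReal, abs_of_pos (by positivity), Real.mul_rpow (norm_nonneg _) (by positivity),
      ← Real.rpow_mul hM.le]
    congr 1
    have : -(1 / r) * r = -1 := by field_simp
    rw [this, Real.rpow_neg_one]
  have h1 : ∫ ω, ‖(α • eA 𝕜 p hA hμA + β • eA 𝕜 p hB hμB : Lp 𝕜 p μ) ω‖ ^ p.toReal ∂μ
      = ∫ ω, (A.indicator (fun _ => ‖α‖ ^ r * (μ.real A)⁻¹) ω
        + B.indicator (fun _ => ‖β‖ ^ r * (μ.real B)⁻¹) ω) ∂μ := by
    refine integral_congr_ae ?_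
    filter_upwards [Lp.coeFn_add (α • eA 𝕜 p hA hμA) (β • eA 𝕜 p hB hμB),
      Lp.coeFn_smul α (eA 𝕜 p hA hμA), Lp.coeFn_smul β (eA 𝕜 p hB hμB),
      eA_coe (𝕜 := 𝕜) (p := p) hA hμA, eA_coe (𝕜 := 𝕜) (p := p) hB hμB] with ω h1 h2 h3 h4 h5
    rw [h1, Pi.add_apply, h2, h3, Pi.smul_apply, Pi.smul_apply, h4, h5, ← hrdef, smul_eq_mul,
      smul_eq_mul]
    by_cases hωA : ω ∈ A
    · have hωB : ω ∉ B := fun h => Set.disjoint_left.1 hAB hωA h
      rw [Set.indicator_of_mem hωA, Set.indicator_of_notMem hωB, Set.indicator_of_mem hωA,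
        Set.indicator_of_notMem hωB, mul_zero, add_zero, add_zero]
      exact key _ hMA α
    · by_cases hωB : ω ∈ B
      · rw [Set.indicator_of_notMem hωA, Set.indicator_of_mem hωB, Set.indicator_of_notMem hωA,
          Set.indicator_of_mem hωB, mul_zero, zero_add, zero_add]
        exact key _ hMB β
      · rw [Set.indicator_of_notMem hωA, Set.indicator_of_notMem hωB, Set.indicator_of_notMem hωA,
          Set.indicator_of_notMem hωB, mul_zero, mul_zero, add_zero, add_zero, norm_zero,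
          Real.zero_rpow hr0.ne']
  rw [h1, integral_add ((integrable_indicator_iff hA).2 (integrableOn_const hμA))
    ((integrable_indicator_iff hB).2 (integrableOn_const hμB)),
    integral_indicator hA, integral_indicator hB, setIntegral_const, setIntegral_const, smul_eq_mul,
    smul_eq_mul, ← hrdef]
  field_simp

lemma mA_eA (hp1 : 1 < p) (hp : p ≠ ∞) {A : Set Ω} (hA : MeasurableSet A)
    (hMA : 0 < μ.real A) (hμA : μ A ≠ ∞) :
    mA p.toReal μ A (eA 𝕜 p hA hμA : Lp 𝕜 p μ) = 1 := by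
  unfold mA
  have h1 : ∫ ω in A, (eA 𝕜 p hA hμA : Lp 𝕜 p μ) ω ∂μ
      = ∫ ω in A, ((μ.real A ^ (-(1 / p.toReal)) : ℝ) : 𝕜) ∂μ := by
    refine setIntegral_congr_ae hA ?_
    filter_upwards [eA_coe (𝕜 := 𝕜) (p := p) hA hμA] with ω hω h
    rw [hω, Set.indicator_of_mem h]
  rw [h1, setIntegral_const, RCLike.real_smul_eq_coe_mul, ← RCLike.ofReal_mul, ← RCLike.ofReal_mul]
  have : μ.real A ^ (-(1 - 1 / p.toReal)) * (μ.real A * μ.real A ^ (-(1 / p.toReal))) = 1 := by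
    rw [← mul_assoc, ← Real.rpow_add_one hMA.ne', ← Real.rpow_add hMA]
    have : -(1 - 1 / p.toReal) + 1 + -(1 / p.toReal) = 0 := by ring
    rw [this, Real.rpow_zero]
  rw [this, RCLike.ofReal_one]

lemma mA_eB (hp1 : 1 < p) (hp : p ≠ ∞) {A B : Set Ω} (hA : MeasurableSet A)
    (hB : MeasurableSet B) (hAB : Disjoint A B) (hμB : μ B ≠ ∞) :
    mA p.toReal μ A (eA 𝕜 p hB hμB : Lp 𝕜 p μ) = 0 := by
  unfold mA
  have h1 : ∫ ω in A, (eA 𝕜 p hB hμB : Lp 𝕜 p μ) ω ∂μ = ∫ ω in A, (0 : 𝕜) ∂μ := by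
    refine setIntegral_congr_ae hA ?_
    filter_upwards [eA_coe (𝕜 := 𝕜) (p := p) hB hμB] with ω hω h
    rw [hω, Set.indicator_of_notMem (fun h' => Set.disjoint_left.1 hAB h h')]
  rw [h1, integral_zero, mul_zero]

/-- For small `b` the power gain beats the quadratic loss. -/
lemma gain {e K lam : ℝ} (he1 : 1 < e) (he2 : e < 2) (hK : 0 < K) (hlam : 0 < lam)
    (hlam1 : lam ≤ 1) : ∃ b : ℝ, 0 < b ∧ b ≤ 1 ∧ 1 + K * b ^ 2 < (1 + (lam * b) ^ e) ^ (1 / e) := by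
  have he0 : 0 < e := by linarith
  have hc : 0 < (2 : ℝ) ^ (1 / e) - 1 := by
    have := Real.one_lt_rpow (x := 2) (by norm_num) (show 0 < 1 / e by positivity)
    linarith
  obtain ⟨c, hcdef⟩ : ∃ c : ℝ, c = (2 : ℝ) ^ (1 / e) - 1 := ⟨_, rfl⟩
  rw [← hcdef] at hc
  -- lower bound of (1+y)^(1/e)
  have hlow : ∀ y : ℝ, 0 ≤ y → y ≤ 1 → 1 + c * y ≤ (1 + y) ^ (1 / e) := by
    intro y hy0 hy1
    have hconv := convexOn_rpow he1.le
    have h1 := hconv.2 (show (1 : ℝ) ∈ Set.Ici 0 from Set.mem_Ici.2 zero_le_one)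
      (show (1 + c : ℝ) ∈ Set.Ici 0 from Set.mem_Ici.2 (by linarith))
      (show (0 : ℝ) ≤ 1 - y by linarith) hy0 (by ring)
    simp only [smul_eq_mul, Real.one_rpow, mul_one] at h1
    have h2 : (1 + c) ^ e = 2 := by
      rw [hcdef]
      have : (1 : ℝ) + (2 ^ (1 / e) - 1) = 2 ^ (1 / e) := by ring
      rw [this, ← Real.rpow_mul (by norm_num), one_div_mul_cancel he0.ne', Real.rpow_one]
    rw [h2] at h1
    have h3 : (1 + c * y) ^ e ≤ 1 + y := by
      have : 1 - y + y * (1 + c) = 1 + c * y := by ring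
      rw [this] at h1
      linarith
    have h4 : 0 ≤ 1 + c * y := by positivity
    calc 1 + c * y = ((1 + c * y) ^ e) ^ (1 / e) := by
          rw [← Real.rpow_mul h4, mul_one_div_cancel he0.ne', Real.rpow_one]
      _ ≤ (1 + y) ^ (1 / e) := Real.rpow_le_rpow (by positivity) h3 (by positivity)
  -- choose b
  obtain ⟨D, hD⟩ : ∃ D : ℝ, D = c * lam ^ e / (2 * K) := ⟨_, rfl⟩
  have hDpos : 0 < D := by rw [hD]; positivity
  obtain ⟨b, hb⟩ : ∃ b : ℝ, b = min 1 (D ^ (1 / (2 - e))) := ⟨_, rfl⟩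
  have hbpos : 0 < b := by rw [hb]; exact lt_min one_pos (by positivity)
  have hb1 : b ≤ 1 := by rw [hb]; exact min_le_left _ _
  have hbD : b ^ (2 - e) ≤ D := by
    calc b ^ (2 - e) ≤ (D ^ (1 / (2 - e))) ^ (2 - e) :=
          Real.rpow_le_rpow hbpos.le (by rw [hb]; exact min_le_right _ _) (by linarith)
      _ = D := by
          rw [← Real.rpow_mul hDpos.le, one_div_mul_cancel (by linarith), Real.rpow_one]
  refine ⟨b, hbpos, hb1, ?_⟩
  have hy0 : 0 ≤ (lam * b) ^ e := by positivity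
  have hy1 : (lam * b) ^ e ≤ 1 := by
    apply Real.rpow_le_one (by positivity) _ he0.le
    nlinarith
  refine lt_of_lt_of_le ?_ (hlow _ hy0 hy1)
  have h1 : b ^ 2 = b ^ (2 - e) * b ^ e := by
    rw [← Real.rpow_add hbpos]
    have : 2 - e + e = (2 : ℝ) := by ring
    rw [this]; norm_num
  have h2 : (lam * b) ^ e = lam ^ e * b ^ e := Real.mul_rpow hlam.le hbpos.le
  rw [h1, h2]
  have h3 : 0 < b ^ e := by positivity
  have h4 : K * (b ^ (2 - e)) < c * lam ^ e := by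
    have : K * D = c * lam ^ e / 2 := by rw [hD]; field_simp
    have h5 : 0 < c * lam ^ e := by positivity
    nlinarith
  nlinarith

end Pool.Agent.H47.NI
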