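import Mathlib
import Pool.Agent.H47.NIOper
import Pool.Agent.H47.NIDisjoint

set_option autoImplicit false

namespace Pool.Agent.H47.NI

open RCLike MeasureTheory
open scoped ENNReal

variable {𝕜 : Type*} [RCLike 𝕜] {Ω : Type*} [MeasurableSpace Ω] {μ : Measure Ω}
variable {p : ℝ≥0∞} [Fact (1 ≤ p)]

/-- The rank-one operators `T_b = (φ_A + b φ_B) ⊗ (e_B - (p-1) b e_A)`: the numerical-radius
functional is at most `κ_p + K b^2` and the norm has the two displayed lower bounds. -/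
lemma exists_operator (hp1 : 1 < p) (hp : p ≠ ∞) {A B : Set Ω} (hA : MeasurableSet A)
    (hB : MeasurableSet B) (hAB : Disjoint A B) (hμA0 : μ A ≠ 0) (hμA : μ A ≠ ∞)
    (hμB0 : μ B ≠ 0) (hμB : μ B ≠ ∞) : ∃ K : ℝ, 0 < K ∧ ∀ b : ℝ, 0 ≤ b →
    ∃ (φ : Lp 𝕜 p μ →L[𝕜] 𝕜) (u : Lp 𝕜 p μ), φ ≠ 0 ∧ u ≠ 0 ∧
      1 ≤ ‖φ‖ ∧ 1 ≤ ‖u‖ ∧
      (1 + b ^ (p.toReal / (p.toReal - 1))) ^ (1 / (p.toReal / (p.toReal - 1))) ≤ ‖φ‖ ∧
      (1 + ((p.toReal - 1) * b) ^ p.toReal) ^ (1 / p.toReal) ≤ ‖u‖ ∧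
      ∀ (x : Lp 𝕜 p μ) (f : Lp 𝕜 p μ →L[𝕜] 𝕜), ‖x‖ = 1 → ‖f‖ = 1 → f x = 1 →
        ‖φ x * f u‖ ≤ kappa p.toReal + K * b ^ 2 := by
  have hr := one_lt_toReal hp1 hp
  have hMA : 0 < μ.real A := ENNReal.toReal_pos hμA0 hμA
  have hMB : 0 < μ.real B := ENNReal.toReal_pos hμB0 hμB
  obtain ⟨C, hC, hset⟩ := set_version (𝕜 := 𝕜) (Ω := Ω) hr
  obtain ⟨K, hK, hmain⟩ := main_scalar (𝕜 := 𝕜) hr hC
  refine ⟨K, hK, fun b hb => ?_⟩
  obtain ⟨r, hrdef⟩ : ∃ r : ℝ, r = p.toReal := ⟨_, rfl⟩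
  have hr1 : 1 < r := by rw [hrdef]; exact hr
  have hr0 : 0 < r := by linarith
  have hrm : 0 < r - 1 := by linarith
  obtain ⟨φ, hφ⟩ : ∃ φ : Lp 𝕜 p μ →L[𝕜] 𝕜,
      φ = phi hp1 hp hMA hμA + (b : 𝕜) • phi hp1 hp hMB hμB := ⟨_, rfl⟩
  obtain ⟨u, hu⟩ : ∃ u : Lp 𝕜 p μ,
      u = (-(((r - 1) * b : ℝ) : 𝕜)) • eA 𝕜 p hA hμA + (1 : 𝕜) • eA 𝕜 p hB hμB := ⟨_, rfl⟩
  have hφx : ∀ x : Lp 𝕜 p μ, φ x = mA r μ A x + (b : 𝕜) * mA r μ B x := by
    intro x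
    rw [hφ, hrdef]
    rfl
  -- norm of u
  have hun : ‖u‖ ^ r = 1 + ((r - 1) * b) ^ r := by
    have := norm_comb hp1 hp hA hB hAB hMA hMB hμA hμB (-(((r - 1) * b : ℝ) : 𝕜)) (1 : 𝕜)
    rw [← hu, ← hrdef] at this
    rw [this, norm_neg, norm_ofReal, abs_of_nonneg (by positivity), norm_one, Real.one_rpow]
    ring
  have hun' : ‖u‖ = (1 + ((r - 1) * b) ^ r) ^ (1 / r) := by
    rw [← hun, ← Real.rpow_mul (norm_nonneg _), mul_one_div_cancel hr0.ne', Real.rpow_one]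
  have hu1 : 1 ≤ ‖u‖ := by
    rw [hun']
    exact Real.one_le_rpow (by have : 0 ≤ ((r - 1) * b) ^ r := by positivity
                               linarith) (by positivity)
  -- norm of φ
  obtain ⟨q, hq⟩ : ∃ q : ℝ, q = r / (r - 1) := ⟨_, rfl⟩
  have hq0 : 0 < q := by rw [hq]; positivity
  have hq1 : 1 < q := by rw [hq, lt_div_iff₀ hrm]; linarith
  have hqr : (q - 1) * r = q := by rw [hq]; field_simp; ring
  obtain ⟨y, hy⟩ : ∃ y : Lp 𝕜 p μ,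
      y = (1 : 𝕜) • eA 𝕜 p hA hμA + ((b ^ (q - 1) : ℝ) : 𝕜) • eA 𝕜 p hB hμB := ⟨_, rfl⟩
  have hbq : 0 ≤ b ^ (q - 1) := by positivity
  have hyn : ‖y‖ ^ r = 1 + b ^ q := by
    have := norm_comb hp1 hp hA hB hAB hMA hMB hμA hμB (1 : 𝕜) ((b ^ (q - 1) : ℝ) : 𝕜)
    rw [← hy, ← hrdef] at this
    rw [this, norm_ofReal, abs_of_nonneg hbq, norm_one, Real.one_rpow, ← Real.rpow_mul hb, hqr]
  have hbq0 : 0 ≤ b ^ q := by positivity
  have hφy : φ y = ((1 + b ^ q : ℝ) : 𝕜) := by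
    have e1 : phi hp1 hp hMA hμA (eA 𝕜 p hA hμA) = 1 := mA_eA hp1 hp hA hMA hμA
    have e2 : phi hp1 hp hMA hμA (eA 𝕜 p hB hμB) = 0 := mA_eB hp1 hp hA hB hAB hμB
    have e3 : phi hp1 hp hMB hμB (eA 𝕜 p hB hμB) = 1 := mA_eA hp1 hp hB hMB hμB
    have e4 : phi hp1 hp hMB hμB (eA 𝕜 p hA hμA) = 0 := mA_eB hp1 hp hB hA hAB.symm hμA
    have e5 : b ^ q = b * b ^ (q - 1) := by
      rcases eq_or_lt_of_le hb with h | h
      · rw [← h, Real.zero_rpow hq0.ne', zero_mul]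
      · rw [mul_comm, ← Real.rpow_add_one h.ne']; congr 1; ring
    have e6 : φ y = 1 + (b : 𝕜) * ((b ^ (q - 1) : ℝ) : 𝕜) := by
      rw [hφ, hy, map_add, map_smul, map_smul]
      simp only [add_apply, smul_apply, e1, e2, e3, e4, smul_eq_mul]
      ring
    rw [e6, e5, RCLike.ofReal_add, RCLike.ofReal_mul, RCLike.ofReal_one]
  have hyr : ‖y‖ = (1 + b ^ q) ^ (1 / r) := by
    rw [← hyn, ← Real.rpow_mul (norm_nonneg _), mul_one_div_cancel hr0.ne', Real.rpow_one]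
  have hφn : (1 + b ^ q) ^ (1 / q) ≤ ‖φ‖ := by
    have h1 := φ.le_opNorm y
    rw [hφy, norm_ofReal, abs_of_nonneg (by positivity), hyr] at h1
    have h2 : 0 < (1 + b ^ q) ^ (1 / r) := by positivity
    have h3 : (1 + b ^ q) ^ (1 / q) * (1 + b ^ q) ^ (1 / r) = 1 + b ^ q := by
      rw [← Real.rpow_add (by positivity)]
      have : 1 / q + 1 / r = 1 := by rw [hq]; field_simp; ring
      rw [this, Real.rpow_one]
    have h4 : (1 + b ^ q) ^ (1 / q) * (1 + b ^ q) ^ (1 / r) ≤ ‖φ‖ * (1 + b ^ q) ^ (1 / r) := by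
      rw [h3]; exact h1
    exact le_of_mul_le_mul_right h4 h2
  have hφ1 : 1 ≤ ‖φ‖ := by
    refine le_trans ?_ hφn
    exact Real.one_le_rpow (by linarith) (by positivity)
  refine ⟨φ, u, ?_, ?_, hφ1, hu1, ?_, ?_, ?_⟩
  · rintro rfl; rw [norm_zero] at hφ1; linarith
  · rintro rfl; rw [norm_zero] at hu1; linarith
  · rw [← hrdef, ← hq]; exact hφn
  · rw [← hrdef]; exact hun'.ge
  · intro x f hx hf hfx
    have hfu : f u = nA r μ B x - (((r - 1) * b : ℝ) : 𝕜) * nA r μ A x := by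
      rw [hu, map_add, map_smul, map_smul, norming_eA hp1 hp x f hx hf hfx hA hμA,
        norming_eA hp1 hp x f hx hf hfx hB hμB, hrdef]
      simp only [smul_eq_mul]
      ring
    rw [hφx, hfu]
    obtain ⟨a1, a2, _, a4⟩ := hset μ A hMA x (Lp.aestronglyMeasurable x)
      (Lp_integrable_rpow hp1 hp x)
    obtain ⟨b1, b2, b3, _⟩ := hset μ B hMB x (Lp.aestronglyMeasurable x)
      (Lp_integrable_rpow hp1 hp x)
    have hsum : sA p.toReal μ A x ^ p.toReal + sA p.toReal μ B x ^ p.toReal ≤ 1 := by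
      rw [sA_rpow hr, sA_rpow hr, ← setIntegral_union hAB hB
        (Lp_integrable_rpow hp1 hp x).integrableOn (Lp_integrable_rpow hp1 hp x).integrableOn]
      have h1 : ∫ ω, ‖x ω‖ ^ p.toReal ∂μ = 1 := by
        rw [← Lp_norm_rpow hp1 hp, hx, Real.one_rpow]
      rw [← h1]
      exact setIntegral_le_integral (Lp_integrable_rpow hp1 hp x)
        (Filter.Eventually.of_forall fun _ => Real.rpow_nonneg (norm_nonneg _) _)
    have := hmain _ _ _ _ _ _ (sA_nonneg _ _ _ _) (sA_nonneg _ _ _ _) hsum a1 a2 b1 b2 a4 b3 b hb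
    rw [hrdef]
    exact this

end Pool.Agent.H47.NI
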