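import Pool.Agent.H47.PIOne

/-!
# The adjoint representation of a Lie group
-/

open scoped Manifold ContDiff Topology
open Set Filter

namespace PI

variable {E : Type*} [NormedAddCommGroup E] [NormedSpace ℝ E]
  {G : Type*} [TopologicalSpace G] [ChartedSpace E G] [Group G]

variable [LieGroup 𝓘(ℝ, E) ∞ G]

lemma mdiff_conj (g h : G) :
    MDifferentiableAt 𝓘(ℝ, E) 𝓘(ℝ, E) (fun x : G => g * x * g⁻¹) h := by
  have : ContMDiff 𝓘(ℝ, E) 𝓘(ℝ, E) ∞ (fun x : G => g * x * g⁻¹) :=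
    (contMDiff_mul_right (I := 𝓘(ℝ, E)) (n := ∞) (a := g⁻¹)).comp
      (contMDiff_mul_left (I := 𝓘(ℝ, E)) (n := ∞) (a := g))
  exact this.contMDiffAt.mdifferentiableAt (by simp)

lemma hasMFDerivAt_conj (g : G) :
    HasMFDerivAt 𝓘(ℝ, E) 𝓘(ℝ, E) (fun x : G => g * x * g⁻¹) 1 (Adj g : E →L[ℝ] E) :=
  (mdiff_conj (E := E) g 1).hasMFDerivAt

lemma Adj_one : (Adj (1 : G) : E →L[ℝ] E) = ContinuousLinearMap.id ℝ E := by
  have h : HasMFDerivAt 𝓘(ℝ, E) 𝓘(ℝ, E) (fun x : G => (1 : G) * x * (1 : G)⁻¹) 1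
      (ContinuousLinearMap.id ℝ E) := by
    have : (fun x : G => (1 : G) * x * (1 : G)⁻¹) = id := by ext; simp
    rw [this]
    exact hasMFDerivAt_id _
  exact hasMFDerivAt_unique (hasMFDerivAt_conj (E := E) (1 : G)) h

lemma Adj_mul (g h : G) : (Adj (g * h) : E →L[ℝ] E) = (Adj g).comp (Adj h) := by
  have h1 : (fun x : G => g * h * x * (g * h)⁻¹) =
      (fun x => g * x * g⁻¹) ∘ (fun x => h * x * h⁻¹) := by
    ext x; simp [mul_assoc]
  have h2 : HasMFDerivAt 𝓘(ℝ, E) 𝓘(ℝ, E) (fun x : G => g * x * g⁻¹) (h * 1 * h⁻¹)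
      (Adj g : E →L[ℝ] E) := by
    have : h * 1 * h⁻¹ = 1 := by simp
    rw [this]
    exact hasMFDerivAt_conj g
  have h3 := HasMFDerivAt.comp (f := fun x : G => h * x * h⁻¹) (1 : G) h2
    (hasMFDerivAt_conj (E := E) h)
  rw [← h1] at h3
  exact hasMFDerivAt_unique (hasMFDerivAt_conj (E := E) (g * h)) h3

lemma Adj_mul_apply (g h : G) (v : E) : Adj (g * h) v = Adj g (Adj h v) := by
  rw [Adj_mul]; rfl

lemma Adj_inv_apply (g : G) (v : E) : Adj g⁻¹ (Adj g v) = v := by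
  rw [← Adj_mul_apply, inv_mul_cancel, Adj_one]; rfl

lemma Adj_apply_inv (g : G) (v : E) : Adj g (Adj g⁻¹ v) = v := by
  rw [← Adj_mul_apply, mul_inv_cancel, Adj_one]; rfl

/-- The adjoint representation is smooth. -/
lemma contMDiff_Adj : ContMDiff 𝓘(ℝ, E) 𝓘(ℝ, E →L[ℝ] E) ∞ (Adj : G → E →L[ℝ] E) := by
  intro x₀
  have h1 : ContMDiffAt (𝓘(ℝ, E).prod 𝓘(ℝ, E)) 𝓘(ℝ, E) ∞
      (Function.uncurry fun (x y : G) => x * y * x⁻¹) (x₀, (fun _ : G => (1 : G)) x₀) := by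
    have h2 : ContMDiff (𝓘(ℝ, E).prod 𝓘(ℝ, E)) 𝓘(ℝ, E) ∞
        (fun p : G × G => p.1 * p.2 * p.1⁻¹) :=
      ((contMDiff_fst.mul contMDiff_snd).mul (contMDiff_fst.inv))
    exact h2.contMDiffAt
  have h3 := ContMDiffAt.mfderiv (m := ∞) (fun (x y : G) => x * y * x⁻¹) (fun _ : G => (1 : G)) h1
    contMDiffAt_const (by norm_num)
  have h4 : (fun x : G => x * 1 * x⁻¹) = fun _ => 1 := by ext; simp
  simp only [h4] at h3
  have h5 : ContMDiffAt 𝓘(ℝ, E) 𝓘(ℝ, E →L[ℝ] E) ∞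
      (inTangentCoordinates 𝓘(ℝ, E) 𝓘(ℝ, E) (fun _ : G => (1 : G)) (fun _ : G => (1 : G))
        (fun x : G => (Adj x : E →L[ℝ] E)) x₀) x₀ := h3
  refine h5.congr_of_eventuallyEq (Eventually.of_forall fun x => ?_)
  have h6 := inTangentCoordinates_eq (I := 𝓘(ℝ, E)) (I' := 𝓘(ℝ, E)) (fun _ : G => (1 : G))
    (fun _ : G => (1 : G)) (fun x : G => (Adj x : E →L[ℝ] E)) (x₀ := x₀) (x := x)
    (mem_chart_source E (1 : G)) (mem_chart_source E (1 : G))
  rw [h6]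
  have h7 : ∀ v : E, (tangentBundleCore 𝓘(ℝ, E) G).coordChange (achart E (1 : G))
      (achart E (1 : G)) 1 v = v := fun v =>
    (tangentBundleCore 𝓘(ℝ, E) G).coordChange_self (achart E (1 : G)) 1
      (mem_chart_source E (1 : G)) v
  ext v
  simp only [ContinuousLinearMap.comp_apply, h7]

lemma continuous_Adj : Continuous (Adj : G → E →L[ℝ] E) := contMDiff_Adj.continuous

lemma continuous_Adj_apply (v : E) : Continuous (fun g : G => (Adj g v : E)) :=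
  (ContinuousLinearMap.apply ℝ E v).continuous.comp continuous_Adj

variable [FiniteDimensional ℝ E] [T2Space G]

/-- Conjugation of one-parameter subgroups. -/
lemma conj_ex (g : G) (v : E) (t : ℝ) : g * ex v t * g⁻¹ = ex (Adj g v) t := by
  have h : (fun t => g * ex v t * g⁻¹) = (ex (Adj g v) : ℝ → G) := by
    refine eq_ex_of_hom (fun s t => ?_) ?_
    · rw [ex_add]; group
    · have h1 := hasMFDerivAt_ex_zero (G := G) v
      have h2 : HasMFDerivAt 𝓘(ℝ, E) 𝓘(ℝ, E) (fun x : G => g * x * g⁻¹) (ex v 0 : G)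
          (Adj g : E →L[ℝ] E) := by
        rw [ex_zero]
        exact hasMFDerivAt_conj g
      have h3 := HasMFDerivAt.comp (f := (ex v : ℝ → G)) (0 : ℝ) h2 h1
      have h4 : (Adj g : E →L[ℝ] E).comp ((1 : ℝ →L[ℝ] ℝ).smulRight (v : E)) =
          (1 : ℝ →L[ℝ] ℝ).smulRight (Adj g v : E) := by
        ext
        simp
      rw [← h4]
      exact h3
  exact congrFun h t

/-- The curve `t ↦ Ad (exp (t v))` is a differentiable one-parameter group. -/
lemma differentiable_Adj_ex (v : E) : DifferentiableAt ℝ (fun t : ℝ => (Adj (ex v t : G) : E →L[ℝ] E)) 0 := by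
  have h1 := (hasMFDerivAt_ex_zero (G := G) v).mdifferentiableAt
  have h2 : MDifferentiableAt 𝓘(ℝ, E) 𝓘(ℝ, E →L[ℝ] E) (Adj : G → E →L[ℝ] E) (ex v 0 : G) :=
    contMDiff_Adj.contMDiffAt.mdifferentiableAt (by simp)
  have h3 := MDifferentiableAt.comp (0 : ℝ) h2 h1
  exact mdifferentiableAt_iff_differentiableAt.1 h3

/-- The derivative of `t ↦ Ad (exp (t v))` at `0`. -/
noncomputable def adj (G : Type*) [TopologicalSpace G] [ChartedSpace E G] [Group G]
    [LieGroup 𝓘(ℝ, E) ∞ G] [T2Space G] (v : E) : E →L[ℝ] E :=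
  deriv (fun t : ℝ => (Adj (ex v t : G) : E →L[ℝ] E)) 0

lemma hasDerivAt_Adj_ex_zero (v : E) :
    HasDerivAt (fun t : ℝ => (Adj (ex v t : G) : E →L[ℝ] E)) (adj G v) 0 :=
  (differentiable_Adj_ex v).hasDerivAt

lemma hasDerivAt_Adj_ex (v : E) (t : ℝ) :
    HasDerivAt (fun t : ℝ => (Adj (ex v t : G) : E →L[ℝ] E))
      ((Adj (ex v t : G) : E →L[ℝ] E).comp (adj G v)) t := by
  have h1 : (fun s : ℝ => (Adj (ex v s : G) : E →L[ℝ] E)) =
      fun s => (Adj (ex v t : G) : E →L[ℝ] E).comp (Adj (ex v (s - t) : G)) := by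
    ext s w
    rw [← Adj_mul, ← ex_add]
    congr 4
    ring
  rw [h1]
  have h2 : HasDerivAt (fun s : ℝ => (Adj (ex v (s - t) : G) : E →L[ℝ] E)) (adj G v) t := by
    have h3 : HasDerivAt (fun t : ℝ => (Adj (ex v t : G) : E →L[ℝ] E)) (adj G v) (t - t) := by
      rw [sub_self]; exact hasDerivAt_Adj_ex_zero v
    exact HasDerivAt.comp_sub_const t t h3
  have h4 := (ContinuousLinearMap.compL ℝ E E E (Adj (ex v t : G))).hasFDerivAt
    (x := (Adj (ex v (t - t) : G) : E →L[ℝ] E))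
  exact h4.comp_hasDerivAt t h2

end PI
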