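import Pool.Agent.H47.PIDefs

/-!
# Real-diagonalisable elements of Lie algebras and parabolic subalgebras
-/

open Module Submodule

universe u

namespace PI

section Alg

variable {L : Type u} [LieRing L] [LieAlgebra ℝ L]

/-- The sum of the eigenspaces of `ad H` with positive eigenvalues. -/
def nilp (H : L) : Submodule ℝ L :=
  ⨆ (c : ℝ) (_ : 0 < c), Module.End.eigenspace (LieAlgebra.ad ℝ L H) c

lemma mem_eig {H x : L} {c : ℝ} :
    x ∈ Module.End.eigenspace (LieAlgebra.ad ℝ L H) c ↔ ⁅H, x⁆ = c • x := by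
  rw [Module.End.mem_eigenspace_iff, LieAlgebra.ad_apply]

variable [FiniteDimensional ℝ L]

/-- Eigenbases. -/
lemma exists_eigenbasis {H : L} (hH : IsRealDiag H) :
    ∃ (ι : Type u) (_ : Fintype ι) (b : Basis ι ℝ L) (c : ι → ℝ), ∀ i, ⁅H, b i⁆ = c i • b i := by
  classical
  let A : Set L := {x | ∃ c : ℝ, ⁅H, x⁆ = c • x}
  have hA : span ℝ A = ⊤ := by
    rw [eq_top_iff, ← hH]
    refine iSup_le fun c x hx => ?_
    exact subset_span ⟨c, mem_eig.1 hx⟩
  obtain ⟨s, hsA, hspan, hli⟩ := exists_linearIndependent ℝ A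
  rw [hA] at hspan
  let B : Basis s ℝ L := Basis.mk hli (by rw [Subtype.range_coe, hspan])
  have hfin : Finite s := Module.Finite.finite_basis B
  refine ⟨s, Fintype.ofFinite s, B, fun i => (hsA i.2).choose, fun i => ?_⟩
  have h1 := (hsA i.2).choose_spec
  simp only [B, Basis.mk_apply]
  exact h1

section eb

variable {H : L} {ι : Type*} [Fintype ι] {b : Basis ι ℝ L} {c : ι → ℝ}

omit [FiniteDimensional ℝ L] in
lemma repr_lie (hb : ∀ i, ⁅H, b i⁆ = c i • b i) (x : L) (i : ι) :
    b.repr ⁅H, x⁆ i = c i * b.repr x i := by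
  classical
  have h1 : ⁅H, x⁆ = ∑ j, (b.repr x j * c j) • b j := by
    conv_lhs => rw [← b.sum_repr x]
    rw [lie_sum]
    refine Finset.sum_congr rfl fun j _ => ?_
    rw [lie_smul, hb, smul_smul]
  rw [h1, Basis.repr_sum_self, mul_comm]

omit [FiniteDimensional ℝ L] in
lemma eig_iff (hb : ∀ i, ⁅H, b i⁆ = c i • b i) {x : L} {μ : ℝ} :
    ⁅H, x⁆ = μ • x ↔ ∀ i, b.repr x i ≠ 0 → c i = μ := by
  constructor
  · intro h i hi
    have h1 := repr_lie hb x i
    rw [h, map_smul, Finsupp.smul_apply, smul_eq_mul] at h1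
    exact (mul_right_cancel₀ hi h1).symm
  · intro h
    refine b.ext_elem fun i => ?_
    rw [repr_lie hb, map_smul, Finsupp.smul_apply, smul_eq_mul]
    by_cases hi : b.repr x i = 0
    · rw [hi, mul_zero, mul_zero]
    · rw [h i hi]

omit [FiniteDimensional ℝ L] in
lemma mem_parab_iff (hb : ∀ i, ⁅H, b i⁆ = c i • b i) {x : L} :
    x ∈ parab H ↔ ∀ i, c i < 0 → b.repr x i = 0 := by
  constructor
  · intro hx i hi
    have : parab H ≤ LinearMap.ker (b.coord i) := by
      refine iSup₂_le fun μ hμ y hy => ?_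
      rw [LinearMap.mem_ker, Basis.coord_apply]
      by_contra h
      have := (eig_iff hb).1 (mem_eig.1 hy) i h
      linarith
    exact this hx
  · intro h
    rw [← b.sum_repr x]
    refine Submodule.sum_mem _ fun i _ => ?_
    rcases lt_or_ge (c i) 0 with hi | hi
    · rw [h i hi, zero_smul]; exact Submodule.zero_mem _
    · refine Submodule.smul_mem _ _ ?_
      exact Submodule.mem_iSup_of_mem (c i) (Submodule.mem_iSup_of_mem hi (mem_eig.2 (hb i)))

omit [FiniteDimensional ℝ L] in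
lemma mem_nilp_iff (hb : ∀ i, ⁅H, b i⁆ = c i • b i) {x : L} :
    x ∈ nilp H ↔ ∀ i, c i ≤ 0 → b.repr x i = 0 := by
  constructor
  · intro hx i hi
    have : nilp H ≤ LinearMap.ker (b.coord i) := by
      refine iSup₂_le fun μ hμ y hy => ?_
      rw [LinearMap.mem_ker, Basis.coord_apply]
      by_contra h
      have := (eig_iff hb).1 (mem_eig.1 hy) i h
      linarith
    exact this hx
  · intro h
    rw [← b.sum_repr x]
    refine Submodule.sum_mem _ fun i _ => ?_
    rcases le_or_gt (c i) 0 with hi | hi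
    · rw [h i hi, zero_smul]; exact Submodule.zero_mem _
    · refine Submodule.smul_mem _ _ ?_
      exact Submodule.mem_iSup_of_mem (c i) (Submodule.mem_iSup_of_mem hi (mem_eig.2 (hb i)))

end eb

omit [FiniteDimensional ℝ L] in
/-- Brackets of eigenvectors. -/
lemma lie_eig {H x y : L} {μ ν : ℝ} (hx : ⁅H, x⁆ = μ • x) (hy : ⁅H, y⁆ = ν • y) :
    ⁅H, ⁅x, y⁆⁆ = (μ + ν) • ⁅x, y⁆ := by
  rw [leibniz_lie, hx, hy, smul_lie, lie_smul, add_smul]

omit [FiniteDimensional ℝ L] in
lemma self_mem_parab (H : L) : H ∈ parab H := by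
  refine Submodule.mem_iSup_of_mem 0 (Submodule.mem_iSup_of_mem le_rfl (mem_eig.2 ?_))
  rw [lie_self, zero_smul]

omit [FiniteDimensional ℝ L] in
/-- `parab H` is a subalgebra. -/
lemma parab_lie {H x y : L} (hx : x ∈ parab H) (hy : y ∈ parab H) : ⁅x, y⁆ ∈ parab H := by
  have h1 : ∀ (x : L) (μ : ℝ), 0 ≤ μ → ⁅H, x⁆ = μ • x → parab H ≤ (parab H).comap
      (LieAlgebra.ad ℝ L x) := by
    intro x μ hμ hx
    refine iSup₂_le fun ν hν y hy => ?_
    rw [Submodule.mem_comap, LieAlgebra.ad_apply]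
    exact Submodule.mem_iSup_of_mem (μ + ν) (Submodule.mem_iSup_of_mem (by linarith)
      (mem_eig.2 (lie_eig hx (mem_eig.1 hy))))
  have h2 : parab H ≤ (parab H).comap (-(LieAlgebra.ad ℝ L y)) := by
    refine iSup₂_le fun μ hμ z hz => ?_
    rw [Submodule.mem_comap, LinearMap.neg_apply, LieAlgebra.ad_apply, lie_skew]
    exact h1 z μ hμ (mem_eig.1 hz) hy
  have h3 := h2 hx
  rwa [Submodule.mem_comap, LinearMap.neg_apply, LieAlgebra.ad_apply, lie_skew] at h3

/-- `parab H` is self-normalising. -/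
lemma mem_parab_of_normalises {H x : L} (hH : IsRealDiag H) (h : ∀ y ∈ parab H, ⁅x, y⁆ ∈ parab H) :
    x ∈ parab H := by
  obtain ⟨ι, _, b, c, hb⟩ := exists_eigenbasis hH
  have h1 := h H (self_mem_parab H)
  rw [← lie_skew] at h1
  have h2 : ⁅H, x⁆ ∈ parab H := by
    have := (parab H).neg_mem h1
    rwa [neg_neg] at this
  rw [mem_parab_iff hb] at h2 ⊢
  intro i hi
  have h3 := h2 i hi
  rw [repr_lie hb] at h3
  exact (mul_eq_zero.1 h3).resolve_left hi.ne

/-! ### The Killing form -/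

section killing

variable [LieAlgebra.IsKilling ℝ L]

omit [FiniteDimensional ℝ L] [LieAlgebra.IsKilling ℝ L] in
lemma killing_eig {H x y : L} {μ ν : ℝ} (hx : ⁅H, x⁆ = μ • x) (hy : ⁅H, y⁆ = ν • y)
    (h : μ + ν ≠ 0) : killingForm ℝ L x y = 0 := by
  have h1 := LieModule.traceForm_apply_lie_apply ℝ L L x H y
  have h2 : killingForm ℝ L ⁅x, H⁆ y = killingForm ℝ L x ⁅H, y⁆ := h1
  rw [← lie_skew, hx, hy, map_neg, map_smul, map_smul, LinearMap.neg_apply, LinearMap.smul_apply,
    smul_eq_mul, smul_eq_mul] at h2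
  have h3 : (μ + ν) * killingForm ℝ L x y = 0 := by linarith
  exact (mul_eq_zero.1 h3).resolve_left h

omit [FiniteDimensional ℝ L] [LieAlgebra.IsKilling ℝ L] in
lemma killing_parab_nilp {H x y : L} (hx : x ∈ parab H) (hy : y ∈ nilp H) :
    killingForm ℝ L x y = 0 := by
  have h1 : ∀ (x : L) (μ : ℝ), 0 ≤ μ → ⁅H, x⁆ = μ • x →
      nilp H ≤ LinearMap.ker (killingForm ℝ L x) := by
    intro x μ hμ hx
    refine iSup₂_le fun ν hν y hy => ?_
    rw [LinearMap.mem_ker]
    exact killing_eig hx (mem_eig.1 hy) (by linarith)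
  have h2 : parab H ≤ LinearMap.ker ((killingForm ℝ L).flip y) := by
    refine iSup₂_le fun μ hμ z hz => ?_
    rw [LinearMap.mem_ker]
    exact h1 z μ hμ (mem_eig.1 hz) hy
  exact LinearMap.mem_ker.1 (h2 hx)

omit [FiniteDimensional ℝ L] in
/-- If `y` is orthogonal to the `(-μ)`-eigenspace, then its `μ`-component vanishes. -/
lemma repr_eq_zero_of_orthogonal {H y : L} {ι : Type*} [Fintype ι] {b : Basis ι ℝ L} {c : ι → ℝ}
    (hb : ∀ i, ⁅H, b i⁆ = c i • b i) {μ : ℝ}
    (h : ∀ z, ⁅H, z⁆ = (-μ) • z → killingForm ℝ L z y = 0) (i : ι) (hi : c i = μ) :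
    b.repr y i = 0 := by
  classical
  have key : ∑ j, (if c j = μ then b.repr y j • b j else 0) = 0 := by
    set yμ := ∑ j, (if c j = μ then b.repr y j • b j else 0) with hyμ
    have hyμe : ⁅H, yμ⁆ = μ • yμ := by
      rw [hyμ, lie_sum, Finset.smul_sum]
      refine Finset.sum_congr rfl fun j _ => ?_
      split_ifs with hj
      · rw [lie_smul, hb, hj, smul_comm]
      · rw [lie_zero, smul_zero]
    have hrest : ∀ z, ⁅H, z⁆ = (-μ) • z → killingForm ℝ L z yμ = killingForm ℝ L z y := by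
      intro z hz
      have h1 : y = yμ + ∑ j, (if c j = μ then 0 else b.repr y j • b j) := by
        rw [hyμ, ← Finset.sum_add_distrib]
        conv_lhs => rw [← b.sum_repr y]
        refine Finset.sum_congr rfl fun j _ => ?_
        split_ifs <;> simp
      have h2 : killingForm ℝ L z (∑ j, (if c j = μ then 0 else b.repr y j • b j)) = 0 := by
        rw [map_sum (killingForm ℝ L z) _ Finset.univ]
        refine Finset.sum_eq_zero fun j _ => ?_
        split_ifs with hj
        · rw [map_zero]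
        · rw [map_smul, killing_eig hz (hb j) (by
            intro h; apply hj; linarith), smul_zero]
      have h3 := congrArg (killingForm ℝ L z) h1
      rw [map_add, h2, add_zero] at h3
      exact h3.symm
    have hker : yμ ∈ LinearMap.ker (killingForm ℝ L).flip := by
      rw [LinearMap.mem_ker]
      refine b.ext fun i => ?_
      show killingForm ℝ L (b i) yμ = 0
      by_cases hi : c i = -μ
      · rw [hrest (b i) (by rw [hb, hi])]
        exact h (b i) (by rw [hb, hi])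
      · exact killing_eig (hb i) hyμe (by intro h'; apply hi; linarith)
    have hflip : (killingForm ℝ L).flip = killingForm ℝ L := LieModule.traceForm_flip ℝ L L
    rw [hflip, LieAlgebra.IsKilling.ker_killingForm_eq_bot] at hker
    exact hker
  have h1 := congrArg (fun z => b.repr z i) key
  simp only [map_sum, map_zero, Finsupp.zero_apply, Finsupp.finsetSum_apply] at h1
  rw [Finset.sum_eq_single i] at h1
  · rw [if_pos hi, map_smul, Finsupp.smul_apply, Basis.repr_self, Finsupp.single_eq_same,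
      smul_eq_mul, mul_one] at h1
    exact h1
  · intro j _ hj
    split_ifs
    · rw [map_smul, Finsupp.smul_apply, Basis.repr_self, Finsupp.single_eq_of_ne (Ne.symm hj),
        smul_zero]
    · simp
  · intro h; exact absurd (Finset.mem_univ i) h

/-- The orthogonal complement of `parab H` is `nilp H`. -/
lemma mem_nilp_of_orthogonal {H y : L} (hH : IsRealDiag H)
    (h : ∀ x ∈ parab H, killingForm ℝ L x y = 0) : y ∈ nilp H := by
  obtain ⟨ι, _, b, c, hb⟩ := exists_eigenbasis hH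
  rw [mem_nilp_iff hb]
  intro i hi
  refine repr_eq_zero_of_orthogonal hb (μ := c i) (fun z hz => h z ?_) i rfl
  exact Submodule.mem_iSup_of_mem (-c i) (Submodule.mem_iSup_of_mem (by linarith) (mem_eig.2 hz))

/-- The orthogonal complement of `nilp H` is `parab H`. -/
lemma mem_parab_of_orthogonal {H y : L} (hH : IsRealDiag H)
    (h : ∀ x ∈ nilp H, killingForm ℝ L x y = 0) : y ∈ parab H := by
  obtain ⟨ι, _, b, c, hb⟩ := exists_eigenbasis hH
  rw [mem_parab_iff hb]
  intro i hi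
  refine repr_eq_zero_of_orthogonal hb (μ := c i) (fun z hz => h z ?_) i rfl
  exact Submodule.mem_iSup_of_mem (-c i) (Submodule.mem_iSup_of_mem (by linarith) (mem_eig.2 hz))

omit [LieAlgebra.IsKilling ℝ L] in
/-- Eigenvectors with positive eigenvalue are ad-nilpotent. -/
lemma isNilpotent_ad_eig {H y : L} {μ : ℝ} (hH : IsRealDiag H) (hμ : 0 < μ)
    (hy : ⁅H, y⁆ = μ • y) : IsNilpotent (LieAlgebra.ad ℝ L y) := by
  classical
  obtain ⟨ι, _, b, c, hb⟩ := exists_eigenbasis hH
  obtain ⟨K, hK⟩ : ∃ K : ℝ, ∀ i, |c i| ≤ K :=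
    ⟨∑ i, |c i|, fun i => Finset.single_le_sum (f := fun i => |c i|) (fun _ _ => abs_nonneg _)
      (Finset.mem_univ i)⟩
  obtain ⟨N, hN⟩ := exists_nat_gt (2 * K / μ)
  refine ⟨N, b.ext fun i => ?_⟩
  have h1 : ∀ n : ℕ, ⁅H, ((LieAlgebra.ad ℝ L y) ^ n) (b i)⁆ =
      (c i + n * μ) • ((LieAlgebra.ad ℝ L y) ^ n) (b i) := by
    intro n
    induction n with
    | zero => simp [hb]
    | succ n ih =>
      rw [pow_succ', Module.End.mul_apply, LieAlgebra.ad_apply, lie_eig hy ih]
      congr 1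
      push_cast
      ring
  have h2 := (eig_iff hb).1 (h1 N)
  refine b.ext_elem fun j => ?_
  rw [LinearMap.zero_apply, map_zero, Finsupp.zero_apply]
  by_contra h
  have h3 := h2 j h
  have h4 := abs_le.1 (hK i)
  have h5 := abs_le.1 (hK j)
  rw [div_lt_iff₀ hμ] at hN
  linarith

/-- The sum of the eigenspaces with eigenvalue bigger than `ν`. -/
def up (H : L) (ν : ℝ) : Submodule ℝ L :=
  ⨆ (c : ℝ) (_ : ν < c), Module.End.eigenspace (LieAlgebra.ad ℝ L H) c

omit [FiniteDimensional ℝ L] [LieAlgebra.IsKilling ℝ L] in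
lemma parab_up {H x y : L} {ν : ℝ} (hx : x ∈ parab H) (hy : y ∈ up H ν) : ⁅x, y⁆ ∈ up H ν := by
  have h1 : ∀ (x : L) (μ : ℝ), 0 ≤ μ → ⁅H, x⁆ = μ • x → up H ν ≤ (up H ν).comap
      (LieAlgebra.ad ℝ L x) := by
    intro x μ hμ hx
    refine iSup₂_le fun c hc y hy => ?_
    rw [Submodule.mem_comap, LieAlgebra.ad_apply]
    exact Submodule.mem_iSup_of_mem (μ + c) (Submodule.mem_iSup_of_mem (by linarith)
      (mem_eig.2 (lie_eig hx (mem_eig.1 hy))))
  have h2 : parab H ≤ (up H ν).comap (-(LieAlgebra.ad ℝ L y)) := by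
    refine iSup₂_le fun μ hμ z hz => ?_
    rw [Submodule.mem_comap, LinearMap.neg_apply, LieAlgebra.ad_apply, lie_skew]
    exact h1 z μ hμ (mem_eig.1 hz) hy
  have h3 := h2 hx
  rwa [Submodule.mem_comap, LinearMap.neg_apply, LieAlgebra.ad_apply, lie_skew] at h3

omit [FiniteDimensional ℝ L] [LieAlgebra.IsKilling ℝ L] in
lemma nilp_eig_up {H x y : L} {ν : ℝ} (hx : x ∈ nilp H) (hy : ⁅H, y⁆ = ν • y) :
    ⁅x, y⁆ ∈ up H ν := by
  have h2 : nilp H ≤ (up H ν).comap (-(LieAlgebra.ad ℝ L y)) := by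
    refine iSup₂_le fun μ hμ z hz => ?_
    rw [Submodule.mem_comap, LinearMap.neg_apply, LieAlgebra.ad_apply, lie_skew]
    exact Submodule.mem_iSup_of_mem (μ + ν) (Submodule.mem_iSup_of_mem (by linarith)
      (mem_eig.2 (lie_eig (mem_eig.1 hz) hy)))
  have h3 := h2 hx
  rwa [Submodule.mem_comap, LinearMap.neg_apply, LieAlgebra.ad_apply, lie_skew] at h3

omit [LieAlgebra.IsKilling ℝ L] in
lemma eq_zero_of_mem_up {H x : L} {ν : ℝ} (hH : IsRealDiag H) (hx : x ∈ up H ν)
    (hx' : ⁅H, x⁆ = ν • x) : x = 0 := by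
  obtain ⟨ι, _, b, c, hb⟩ := exists_eigenbasis hH
  refine b.ext_elem fun i => ?_
  rw [map_zero, Finsupp.zero_apply]
  by_contra h
  have h1 := (eig_iff hb).1 hx' i h
  have : up H ν ≤ LinearMap.ker (b.coord i) := by
    refine iSup₂_le fun μ hμ y hy => ?_
    rw [LinearMap.mem_ker, Basis.coord_apply]
    by_contra h
    have := (eig_iff hb).1 (mem_eig.1 hy) i h
    linarith
  exact h (this hx)

omit [FiniteDimensional ℝ L] [LieAlgebra.IsKilling ℝ L] in
lemma nilp_eq_up (H : L) : nilp H = up H 0 := rfl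

omit [FiniteDimensional ℝ L] [LieAlgebra.IsKilling ℝ L] in
lemma nilp_le_parab (H : L) : nilp H ≤ parab H := by
  refine iSup₂_le fun μ hμ => ?_
  intro x hx
  exact Submodule.mem_iSup_of_mem μ (Submodule.mem_iSup_of_mem hμ.le hx)

omit [FiniteDimensional ℝ L] [LieAlgebra.IsKilling ℝ L] in
lemma mem_parab_of_eig {H x : L} {μ : ℝ} (hμ : 0 ≤ μ) (hx : ⁅H, x⁆ = μ • x) : x ∈ parab H :=
  Submodule.mem_iSup_of_mem μ (Submodule.mem_iSup_of_mem hμ (mem_eig.2 hx))

omit [LieAlgebra.IsKilling ℝ L] in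
/-- Elements of `parab H` split into a `0`-component and a component in `nilp H`. -/
lemma exists_split {H x : L} (hH : IsRealDiag H) (hx : x ∈ parab H) :
    ∃ x0 x1, x = x0 + x1 ∧ ⁅H, x0⁆ = (0 : ℝ) • x0 ∧ x1 ∈ nilp H := by
  classical
  obtain ⟨ι, _, b, c, hb⟩ := exists_eigenbasis hH
  rw [mem_parab_iff hb] at hx
  refine ⟨∑ j, (if c j = 0 then b.repr x j • b j else 0),
    ∑ j, (if c j = 0 then 0 else b.repr x j • b j), ?_, ?_, ?_⟩
  · rw [← Finset.sum_add_distrib]
    conv_lhs => rw [← b.sum_repr x]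
    refine Finset.sum_congr rfl fun j _ => ?_
    split_ifs <;> simp
  · rw [lie_sum, Finset.smul_sum]
    refine Finset.sum_congr rfl fun j _ => ?_
    split_ifs with hj
    · rw [lie_smul, hb, hj, smul_comm]
    · rw [lie_zero, smul_zero]
  · refine Submodule.sum_mem _ fun j _ => ?_
    split_ifs with hj
    · exact Submodule.zero_mem _
    · rcases lt_or_ge (c j) 0 with h | h
      · rw [hx j h, zero_smul]; exact Submodule.zero_mem _
      · refine Submodule.smul_mem _ _ ?_
        exact Submodule.mem_iSup_of_mem (c j) (Submodule.mem_iSup_of_mem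
          (lt_of_le_of_ne h (Ne.symm hj)) (mem_eig.2 (hb j)))

/-- Key algebraic step: an ad-nilpotent `Y` with `[Y, parab H] ⊆ nilp H` lies in `nilp H`. -/
lemma mem_nilp_of_lie_parab {H Y : L} (hH : IsRealDiag H)
    (hnil : IsNilpotent (LieAlgebra.ad ℝ L Y)) (h : ∀ a ∈ parab H, ⁅Y, a⁆ ∈ nilp H) :
    Y ∈ nilp H := by
  classical
  have hYp : Y ∈ parab H := mem_parab_of_normalises hH fun y hy => nilp_le_parab H (h y hy)
  obtain ⟨Y0, Y1, hY, hY0, hY1⟩ := exists_split hH hYp
  have hY0p : Y0 ∈ parab H := mem_parab_of_eig le_rfl hY0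
  -- `[Y0, a] = 0` for `a` in the centraliser of `H`
  have hcomm : ∀ a : L, ⁅H, a⁆ = (0 : ℝ) • a → ⁅Y0, a⁆ = 0 := by
    intro a ha
    have h1 : ⁅Y, a⁆ ∈ nilp H := h a (mem_parab_of_eig le_rfl ha)
    have h2 : ⁅Y1, a⁆ ∈ nilp H := nilp_eig_up hY1 ha
    have h3 : ⁅Y0, a⁆ ∈ nilp H := by
      have : ⁅Y0, a⁆ = ⁅Y, a⁆ - ⁅Y1, a⁆ := by rw [hY, add_lie]; abel
      rw [this]
      exact Submodule.sub_mem _ h1 h2
    refine eq_zero_of_mem_up hH h3 ?_
    have := lie_eig hY0 ha
    rwa [add_zero] at this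
  -- `ad Y0` is nilpotent
  have hnil0 : IsNilpotent (LieAlgebra.ad ℝ L Y0) := by
    obtain ⟨N, hN⟩ := hnil
    refine ⟨N, ?_⟩
    obtain ⟨ι, _, b, c, hb⟩ := exists_eigenbasis hH
    refine b.ext fun i => ?_
    have h1 : ∀ n : ℕ, ⁅H, ((LieAlgebra.ad ℝ L Y0) ^ n) (b i)⁆ =
        (c i) • ((LieAlgebra.ad ℝ L Y0) ^ n) (b i) := by
      intro n
      induction n with
      | zero => simp [hb]
      | succ n ih =>
        rw [pow_succ', Module.End.mul_apply, LieAlgebra.ad_apply, lie_eig hY0 ih, zero_add]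
    have h2 : ∀ n : ℕ, ((LieAlgebra.ad ℝ L Y) ^ n) (b i) - ((LieAlgebra.ad ℝ L Y0) ^ n) (b i) ∈
        up H (c i) := by
      intro n
      induction n with
      | zero => simp
      | succ n ih =>
        have h3 : ((LieAlgebra.ad ℝ L Y) ^ (n + 1)) (b i) -
            ((LieAlgebra.ad ℝ L Y0) ^ (n + 1)) (b i) =
            ⁅Y, ((LieAlgebra.ad ℝ L Y) ^ n) (b i) - ((LieAlgebra.ad ℝ L Y0) ^ n) (b i)⁆ +
            ⁅Y1, ((LieAlgebra.ad ℝ L Y0) ^ n) (b i)⁆ := by
          rw [pow_succ', Module.End.mul_apply, LieAlgebra.ad_apply, pow_succ', Module.End.mul_apply,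
            LieAlgebra.ad_apply, lie_sub]
          have h4 : ⁅Y, ((LieAlgebra.ad ℝ L Y0) ^ n) (b i)⁆ =
              ⁅Y0, ((LieAlgebra.ad ℝ L Y0) ^ n) (b i)⁆ +
              ⁅Y1, ((LieAlgebra.ad ℝ L Y0) ^ n) (b i)⁆ := by
            rw [hY, add_lie]
          rw [h4]
          abel
        rw [h3]
        exact Submodule.add_mem _ (parab_up hYp ih) (nilp_eig_up hY1 (h1 n))
    have h5 := h2 N
    rw [hN, LinearMap.zero_apply, zero_sub] at h5
    have h6 : ((LieAlgebra.ad ℝ L Y0) ^ N) (b i) ∈ up H (c i) := by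
      have := (up H (c i)).neg_mem h5
      rwa [neg_neg] at this
    rw [LinearMap.zero_apply]
    exact eq_zero_of_mem_up hH h6 (h1 N)
  -- hence `Y0` is in the kernel of the Killing form
  have hY0z : Y0 = 0 := by
    have hker : Y0 ∈ LinearMap.ker (killingForm ℝ L) := by
      rw [LinearMap.mem_ker]
      obtain ⟨ι, _, b, c, hb⟩ := exists_eigenbasis hH
      refine b.ext fun i => ?_
      rw [LinearMap.zero_apply]
      by_cases hi : c i = 0
      · have h1 : ⁅Y0, b i⁆ = 0 := hcomm (b i) (by rw [hb, hi])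
        have h2 : Commute (LieAlgebra.ad ℝ L Y0) (LieAlgebra.ad ℝ L (b i)) := by
          refine LinearMap.ext fun z => ?_
          rw [Module.End.mul_apply, Module.End.mul_apply]
          simp only [LieAlgebra.ad_apply]
          rw [leibniz_lie, h1, zero_lie, zero_add]
        have h3 : IsNilpotent ((LieAlgebra.ad ℝ L Y0) * (LieAlgebra.ad ℝ L (b i))) :=
          h2.isNilpotent_mul_right hnil0
        rw [killingForm_apply_apply]
        exact (LinearMap.isNilpotent_trace_of_isNilpotent h3).eq_zero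
      · exact killing_eig hY0 (hb i) (by rw [zero_add]; exact hi)
    rw [LieAlgebra.IsKilling.ker_killingForm_eq_bot] at hker
    exact hker
  have h9 : Y = Y1 := by rw [hY, hY0z, zero_add]
  exact h9 ▸ hY1

/-- Two parabolic subalgebras of the same dimension, one containing the derived algebra of the
other, coincide. -/
theorem parab_eq_of_lie_le {H H' : L} (hH : IsRealDiag H) (hH' : IsRealDiag H')
    (hdim : finrank ℝ (parab H) = finrank ℝ (parab H'))
    (h : ∀ x ∈ parab H, ∀ y ∈ parab H, ⁅x, y⁆ ∈ parab H') : parab H = parab H' := by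
  have h1 : nilp H' ≤ nilp H := by
    refine iSup₂_le fun μ hμ Y hY => ?_
    have hYn : Y ∈ nilp H' := Submodule.mem_iSup_of_mem μ (Submodule.mem_iSup_of_mem hμ hY)
    refine mem_nilp_of_lie_parab hH (isNilpotent_ad_eig hH' hμ (mem_eig.1 hY)) fun a ha => ?_
    refine mem_nilp_of_orthogonal hH fun x hx => ?_
    have h2 : killingForm ℝ L ⁅a, x⁆ Y = 0 := killing_parab_nilp (h a ha x hx) hYn
    have h3 : killingForm ℝ L ⁅x, a⁆ Y = killingForm ℝ L x ⁅a, Y⁆ :=
      LieModule.traceForm_apply_lie_apply ℝ L L x a Y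
    rw [← lie_skew, map_neg, LinearMap.neg_apply, h2, neg_zero] at h3
    rw [← lie_skew, map_neg, ← h3, neg_zero]
  refine Submodule.eq_of_le_of_finrank_eq (fun x hx => ?_) hdim
  refine mem_parab_of_orthogonal hH' fun y hy => ?_
  have h2 := killing_parab_nilp hx (h1 hy)
  have hflip : (killingForm ℝ L).flip = killingForm ℝ L := LieModule.traceForm_flip ℝ L L
  have h3 : (killingForm ℝ L).flip y x = killingForm ℝ L y x := by rw [hflip]
  rw [← h3]
  exact h2

end killing

end Alg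

end PI
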