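import Pool.Agent.H47.PIAlg

/-!
# Generation of simple Lie algebras; recurrence for diagonalisable maps
-/

open Module Submodule Filter Topology

universe u

namespace PI

section Simple

variable {L : Type u} [LieRing L] [LieAlgebra ℝ L] [FiniteDimensional ℝ L]

omit [FiniteDimensional ℝ L] in
/-- The centre of a simple Lie algebra is trivial. -/
lemma eq_zero_of_central [LieAlgebra.IsSimple ℝ L] {H : L} (h : ∀ x : L, ⁅H, x⁆ = 0) : H = 0 := by
  have h1 : LieAlgebra.center ℝ L = ⊥ := by
    rcases LieAlgebra.IsSimple.eq_bot_or_eq_top (R := ℝ) (L := L) (LieAlgebra.center ℝ L) with h | h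
    · exact h
    · exfalso
      apply LieAlgebra.IsSimple.non_abelian ℝ (L := L)
      exact (LieAlgebra.isLieAbelian_iff_center_eq_top ℝ L).2 h
  have h2 : H ∈ LieAlgebra.center ℝ L := by
    rw [LieModule.mem_maxTrivSubmodule]
    intro x
    rw [← lie_skew, h, neg_zero]
  rw [h1] at h2
  exact (LieSubmodule.mem_bot H).1 h2

/-- Lemma C: a subspace containing and normalised by the eigenvectors of `ad H` with nonzero
eigenvalue is everything. -/
theorem eq_top_of_normalised [LieAlgebra.IsSimple ℝ L] {H : L} (hH : IsRealDiag H) (hne : H ≠ 0)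
    (V : Submodule ℝ L)
    (hV : ∀ (x : L) (μ : ℝ), μ ≠ 0 → ⁅H, x⁆ = μ • x → x ∈ V ∧ ∀ v ∈ V, ⁅x, v⁆ ∈ V) : V = ⊤ := by
  classical
  let A : Set L := {x | ∃ μ : ℝ, μ ≠ 0 ∧ ⁅H, x⁆ = μ • x}
  let K : LieSubalgebra ℝ L := LieSubalgebra.lieSpan ℝ L A
  -- the subalgebra of elements of `V` normalising `V`
  let N : LieSubalgebra ℝ L :=
    { carrier := {x | x ∈ V ∧ ∀ v ∈ V, ⁅x, v⁆ ∈ V}
      add_mem' := by
        rintro x y ⟨hx, hx'⟩ ⟨hy, hy'⟩
        refine ⟨V.add_mem hx hy, fun v hv => ?_⟩
        rw [add_lie]
        exact V.add_mem (hx' v hv) (hy' v hv)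
      zero_mem' := ⟨V.zero_mem, fun v _ => by rw [zero_lie]; exact V.zero_mem⟩
      smul_mem' := by
        rintro c x ⟨hx, hx'⟩
        refine ⟨V.smul_mem c hx, fun v hv => ?_⟩
        rw [smul_lie]
        exact V.smul_mem c (hx' v hv)
      lie_mem' := by
        rintro x y ⟨hx, hx'⟩ ⟨hy, hy'⟩
        refine ⟨hx' y hy, fun v hv => ?_⟩
        rw [lie_lie]
        exact V.sub_mem (hx' _ (hy' v hv)) (hy' _ (hx' v hv)) }
  have hKN : K ≤ N := by
    rw [LieSubalgebra.lieSpan_le]
    rintro x ⟨μ, hμ, hx⟩
    exact hV x μ hμ hx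
  -- `K` is normalised by eigenvectors with eigenvalue `0`
  have hK0 : ∀ z : L, ⁅H, z⁆ = (0 : ℝ) • z → ∀ x ∈ K, ⁅z, x⁆ ∈ K := by
    intro z hz
    let J : LieSubalgebra ℝ L :=
      { carrier := {x | x ∈ K ∧ ⁅z, x⁆ ∈ K}
        add_mem' := by
          rintro x y ⟨hx, hx'⟩ ⟨hy, hy'⟩
          refine ⟨K.add_mem hx hy, ?_⟩
          rw [lie_add]
          exact K.add_mem hx' hy'
        zero_mem' := ⟨K.zero_mem, by rw [lie_zero]; exact K.zero_mem⟩
        smul_mem' := by
          rintro c x ⟨hx, hx'⟩
          refine ⟨K.smul_mem c hx, ?_⟩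
          rw [lie_smul]
          exact K.smul_mem c hx'
        lie_mem' := by
          rintro x y ⟨hx, hx'⟩ ⟨hy, hy'⟩
          refine ⟨K.lie_mem hx hy, ?_⟩
          rw [leibniz_lie]
          exact K.add_mem (K.lie_mem hx' hy) (K.lie_mem hx hy') }
    have hKJ : K ≤ J := by
      rw [LieSubalgebra.lieSpan_le]
      rintro x ⟨μ, hμ, hx⟩
      refine ⟨LieSubalgebra.subset_lieSpan ⟨μ, hμ, hx⟩, LieSubalgebra.subset_lieSpan ⟨μ, hμ, ?_⟩⟩
      have := lie_eig hz hx
      rwa [zero_add] at this
    intro x hx
    exact (hKJ hx).2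
  obtain ⟨ι, _, b, c, hb⟩ := exists_eigenbasis hH
  have hKz : ∀ z : L, ∀ x ∈ K, ⁅z, x⁆ ∈ K := by
    intro z x hx
    rw [← b.sum_repr z, sum_lie]
    refine K.sum_mem fun i _ => ?_
    rw [smul_lie]
    refine K.smul_mem _ ?_
    by_cases hi : c i = 0
    · exact hK0 (b i) (by rw [hb, hi]) x hx
    · exact K.lie_mem (LieSubalgebra.subset_lieSpan ⟨c i, hi, hb i⟩) hx
  let I : LieIdeal ℝ L := { K.toSubmodule with lie_mem := fun {z x} hx => hKz z x hx }
  have hI : I = ⊤ := by
    refine (LieAlgebra.IsSimple.eq_bot_or_eq_top (R := ℝ) (L := L) I).resolve_left fun h => ?_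
    apply hne
    have hA : ∀ i, c i ≠ 0 → b i = 0 := by
      intro i hi
      have h1 : b i ∈ I := LieSubalgebra.subset_lieSpan (R := ℝ) (L := L) (s := A)
        ⟨c i, hi, hb i⟩
      rw [h] at h1
      exact (LieSubmodule.mem_bot _).1 h1
    refine eq_zero_of_central fun x => ?_
    rw [← b.sum_repr x, lie_sum]
    refine Finset.sum_eq_zero fun i _ => ?_
    rw [lie_smul, hb]
    by_cases hi : c i = 0
    · rw [hi, zero_smul, smul_zero]
    · exact absurd (hA i hi) (b.ne_zero i)
  rw [eq_top_iff]
  intro x _
  have h1 : x ∈ I := by rw [hI]; exact LieSubmodule.mem_top x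
  exact (hKN h1).1

end Simple

section Rec

variable {V : Type u} [AddCommGroup V] [Module ℝ V] [TopologicalSpace V] [ContinuousAdd V]
  [ContinuousSMul ℝ V]

/-- The recurrence lemma: a subspace `W` which contains the limits `v` of `c⁻ⁿ Tⁿ w` along a
sequence of times is invariant under the diagonalisable map `T` with positive eigenvalues. -/
theorem map_mem_of_recurrent {ι : Type*} [Fintype ι] (b : Basis ι ℝ V) (c : ι → ℝ)
    (hc : ∀ i, 0 < c i) (T : V →ₗ[ℝ] V) (hT : ∀ i, T (b i) = c i • b i) (W : Submodule ℝ V)
    (n : ℕ → ℕ) (hn : Tendsto n atTop atTop)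
    (hW : ∀ w ∈ W, ∀ (r : ℝ) (v : V), 0 < r →
      Tendsto (fun k => (r⁻¹) ^ (n k) • (T ^ (n k)) w) atTop (𝓝 v) → v ∈ W) :
    ∀ w ∈ W, T w ∈ W := by
  classical
  have hTn : ∀ (m : ℕ) (w : V), (T ^ m) w = ∑ i, (b.repr w i * (c i) ^ m) • b i := by
    intro m w
    have h1 : ∀ i, (T ^ m) (b i) = (c i) ^ m • b i := by
      intro i
      induction m with
      | zero => simp
      | succ m ih =>
        rw [pow_succ', Module.End.mul_apply, ih, map_smul, hT, smul_smul, pow_succ]
    conv_lhs => rw [← b.sum_repr w]
    rw [map_sum]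
    refine Finset.sum_congr rfl fun i _ => ?_
    rw [map_smul, h1, smul_smul]
  -- induction on the number of eigenvalues appearing in `w`
  have key : ∀ (s : Finset ℝ) (w : V), w ∈ W → (∀ i, b.repr w i ≠ 0 → c i ∈ s) → T w ∈ W := by
    intro s
    induction s using Finset.induction_on_max with
    | empty =>
      intro w _ h
      have : w = 0 := by
        refine b.ext_elem fun i => ?_
        rw [map_zero, Finsupp.zero_apply]
        by_contra hi
        exact absurd (h i hi) (Finset.notMem_empty _)
      rw [this, map_zero]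
      exact W.zero_mem
    | insert r s hr ih =>
      intro w hw h
      by_cases hex : ∃ i, b.repr w i ≠ 0 ∧ c i = r
      · obtain ⟨i0, hi0, hci0⟩ := hex
        have hr0 : 0 < r := hci0 ▸ hc i0
        -- top component
        set v := ∑ i, (if c i = r then b.repr w i else 0) • b i with hv
        have hvW : v ∈ W := by
          refine hW w hw r v hr0 ?_
          have h2 : ∀ k, (r⁻¹) ^ (n k) • (T ^ (n k)) w =
              ∑ i, (b.repr w i * (c i / r) ^ (n k)) • b i := by
            intro k
            rw [hTn, Finset.smul_sum]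
            refine Finset.sum_congr rfl fun i _ => ?_
            rw [smul_smul]
            congr 1
            rw [div_pow, inv_pow]
            ring
          simp only [h2]
          rw [hv]
          refine tendsto_finsetSum _ fun i _ => ?_
          refine Tendsto.smul_const ?_ _
          by_cases hi : b.repr w i = 0
          · simp [hi]
          · by_cases hcr : c i = r
            · rw [if_pos hcr, hcr, div_self hr0.ne']
              simp
            · rw [if_neg hcr]
              have h3 : c i < r := by
                rcases Finset.mem_insert.1 (h i hi) with h4 | h4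
                · exact absurd h4 hcr
                · exact hr _ h4
              have h4 : Tendsto (fun k => (c i / r) ^ (n k)) atTop (𝓝 0) :=
                (tendsto_pow_atTop_nhds_zero_of_lt_one (div_nonneg (hc i).le hr0.le)
                  ((div_lt_one hr0).2 h3)).comp hn
              have h5 := h4.const_mul (b.repr w i)
              rwa [mul_zero] at h5
        have hTv : T v = r • v := by
          rw [hv, map_sum, Finset.smul_sum]
          refine Finset.sum_congr rfl fun i _ => ?_
          rw [map_smul, hT]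
          split_ifs with h6
          · rw [h6, smul_comm]
          · simp
        have h7 : T (w - v) ∈ W := by
          refine ih (w - v) (W.sub_mem hw hvW) fun i hi => ?_
          have h8 : b.repr v i = if c i = r then b.repr w i else 0 := by
            rw [hv, Basis.repr_sum_self]
          rw [map_sub, Finsupp.sub_apply, h8] at hi
          by_cases h9 : c i = r
          · rw [if_pos h9, sub_self] at hi
            exact absurd rfl hi
          · rw [if_neg h9, sub_zero] at hi
            rcases Finset.mem_insert.1 (h i hi) with h4 | h4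
            · exact absurd h4 h9
            · exact h4
        have h10 : T w = T (w - v) + T v := by rw [← map_add, sub_add_cancel]
        rw [h10, hTv]
        exact W.add_mem h7 (W.smul_mem _ hvW)
      · push Not at hex
        refine ih w hw fun i hi => ?_
        rcases Finset.mem_insert.1 (h i hi) with h4 | h4
        · exact absurd h4 (hex i hi)
        · exact h4
  intro w hw
  exact key (Finset.univ.image c) w hw fun i _ => Finset.mem_image_of_mem c (Finset.mem_univ i)

end Rec

end PI
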