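import Pool.Agent.H47.PIAdj

/-!
# The derivative of the adjoint representation is the Lie bracket
-/

open scoped Manifold ContDiff Topology
open Set Filter VectorField

namespace PI

variable {E : Type*} [NormedAddCommGroup E] [NormedSpace ℝ E] [FiniteDimensional ℝ E]
  {G : Type*} [TopologicalSpace G] [ChartedSpace E G] [Group G] [LieGroup 𝓘(ℝ, E) ∞ G] [T2Space G]

/-- The chart at `1`. -/
noncomputable abbrev ch (G : Type*) [TopologicalSpace G] [ChartedSpace E G] [Group G] :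
    PartialEquiv G E := extChartAt 𝓘(ℝ, E) (1 : G)

/-- The group law in the chart at `1`. -/
noncomputable def mu (G : Type*) [TopologicalSpace G] [ChartedSpace E G] [Group G] (p : E × E) : E :=
  ch G ((ch G).symm p.1 * (ch G).symm p.2)

omit [FiniteDimensional ℝ E] [LieGroup 𝓘(ℝ, E) ∞ G] [T2Space G] in
lemma ch_symm_one : (ch (E := E) G).symm (ch G (1 : G)) = 1 :=
  (ch G).left_inv (mem_extChartAt_source (1 : G))

omit [FiniteDimensional ℝ E] [T2Space G] in
lemma contDiffAt_mu : ContDiffAt ℝ ∞ (mu (E := E) G) (ch G (1 : G), ch G (1 : G)) := by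
  have h1 : ContMDiffAt 𝓘(ℝ, E) 𝓘(ℝ, E) ∞ (ch (E := E) G).symm (ch G (1 : G)) :=
    contMDiffOn_extChartAt_symm (1 : G) |>.contMDiffAt
      (extChartAt_target_mem_nhds (I := 𝓘(ℝ, E)) (1 : G))
  have h2 : ContMDiffAt (𝓘(ℝ, E).prod 𝓘(ℝ, E)) 𝓘(ℝ, E) ∞ (mu (E := E) G)
      (ch G (1 : G), ch G (1 : G)) := by
    have h3 : ContMDiffAt (𝓘(ℝ, E).prod 𝓘(ℝ, E)) 𝓘(ℝ, E) ∞
        (fun p : E × E => (ch (E := E) G).symm p.1 * (ch (E := E) G).symm p.2)
        (ch G (1 : G), ch G (1 : G)) := by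
      refine ContMDiffAt.mul ?_ ?_
      · exact ContMDiffAt.comp (g := (ch (E := E) G).symm) (f := Prod.fst) _ h1 contMDiffAt_fst
      · exact ContMDiffAt.comp (g := (ch (E := E) G).symm) (f := Prod.snd) _ h1 contMDiffAt_snd
    have h4 : ContMDiffAt 𝓘(ℝ, E) 𝓘(ℝ, E) ∞ (ch (E := E) G)
        ((ch (E := E) G).symm (ch G (1 : G)) * (ch (E := E) G).symm (ch G (1 : G))) := by
      rw [ch_symm_one, mul_one]
      exact contMDiffAt_extChartAt
    exact ContMDiffAt.comp (g := ch (E := E) G)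
      (f := fun p : E × E => (ch (E := E) G).symm p.1 * (ch (E := E) G).symm p.2) _ h4 h3
  rw [← modelWithCornersSelf_prod, chartedSpaceSelf_prod] at h2
  exact h2.contDiffAt

omit [FiniteDimensional ℝ E] [LieGroup 𝓘(ℝ, E) ∞ G] [T2Space G] in
lemma hasFDerivAt_of_hasMFDerivAt {f : G → E} {L : E →L[ℝ] E}
    (h : HasMFDerivAt 𝓘(ℝ, E) 𝓘(ℝ, E) f (1 : G) L) :
    HasFDerivAt (fun y => f ((ch (E := E) G).symm y)) L (ch G (1 : G)) := by
  have h2 := h.2
  simp only [writtenInExtChartAt, extChartAt_model_space_eq_id, PartialEquiv.refl_coe,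
    modelWithCornersSelf_coe, range_id, Function.id_comp] at h2
  exact h2.hasFDerivAt univ_mem

omit [FiniteDimensional ℝ E] [LieGroup 𝓘(ℝ, E) ∞ G] [T2Space G] in
lemma hasMFDerivAt_ch [IsManifold 𝓘(ℝ, E) 1 G] {g : G} (hg : g ∈ (ch (E := E) G).source) :
    HasMFDerivAt 𝓘(ℝ, E) 𝓘(ℝ, E) (ch (E := E) G) g (mfderiv 𝓘(ℝ, E) 𝓘(ℝ, E) (ch (E := E) G) g) := by
  refine (mdifferentiableAt_extChartAt ?_).hasMFDerivAt
  rwa [← extChartAt_source (I := 𝓘(ℝ, E))]

omit [FiniteDimensional ℝ E] [T2Space G] in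
lemma mu_diff_eventually :
    ∀ᶠ p in 𝓝 ((ch G (1 : G), ch G (1 : G)) : E × E), DifferentiableAt ℝ (mu (E := E) G) p := by
  have h : ContDiffAt ℝ 1 (mu (E := E) G) (ch G (1 : G), ch G (1 : G)) :=
    (contDiffAt_mu (E := E) (G := G)).of_le (by norm_num)
  filter_upwards [h.eventually (by norm_num)] with p hp
  exact hp.differentiableAt (by norm_num)

omit [FiniteDimensional ℝ E] [T2Space G] in
lemma left_in_chart {g : G} (hg : g ∈ (ch (E := E) G).source)
    (hd : DifferentiableAt ℝ (mu (E := E) G) (ch G g, ch G (1 : G))) (w : E) :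
    (mfderiv 𝓘(ℝ, E) 𝓘(ℝ, E) (ch (E := E) G) g (lvf w g) : E) =
      fderiv ℝ (mu (E := E) G) (ch G g, ch G (1 : G)) (0, w) := by
  have h1 : HasMFDerivAt 𝓘(ℝ, E) 𝓘(ℝ, E) (fun x : G => g * x) 1
      (mfderiv 𝓘(ℝ, E) 𝓘(ℝ, E) (fun x : G => g * x) 1) := (mdiff_mul_left (E := E) g 1).hasMFDerivAt
  have h2 : HasMFDerivAt 𝓘(ℝ, E) 𝓘(ℝ, E) (ch (E := E) G) (g * 1)
      (mfderiv 𝓘(ℝ, E) 𝓘(ℝ, E) (ch (E := E) G) g) := by
    rw [mul_one]; exact hasMFDerivAt_ch hg
  have h3 := HasMFDerivAt.comp (f := fun x : G => g * x) (1 : G) h2 h1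
  have h4 := hasFDerivAt_of_hasMFDerivAt h3
  have h5 : HasFDerivAt (fun y => mu (E := E) G (ch G g, y))
      ((fderiv ℝ (mu (E := E) G) (ch G g, ch G (1 : G))).comp (ContinuousLinearMap.inr ℝ E E))
      (ch G (1 : G)) :=
    HasFDerivAt.comp (f := fun y : E => (ch G g, y)) (ch G (1 : G)) hd.hasFDerivAt
      (hasFDerivAt_prodMk_right _ _)
  have h6 : (fun y => ((ch (E := E) G) ∘ fun x : G => g * x) ((ch (E := E) G).symm y)) =
      fun y => mu (E := E) G (ch G g, y) := by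
    ext y
    simp only [Function.comp_apply, mu]
    rw [(ch (E := E) G).left_inv hg]
  rw [h6] at h4
  have h7 := h4.unique h5
  exact congrArg (fun L : E →L[ℝ] E => L w) h7

omit [FiniteDimensional ℝ E] [T2Space G] in
lemma right_in_chart {g : G} (hg : g ∈ (ch (E := E) G).source)
    (hd : DifferentiableAt ℝ (mu (E := E) G) (ch G (1 : G), ch G g)) (w : E) :
    (mfderiv 𝓘(ℝ, E) 𝓘(ℝ, E) (ch (E := E) G) g
      (mfderiv 𝓘(ℝ, E) 𝓘(ℝ, E) (fun x : G => x * g) 1 w) : E) =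
      fderiv ℝ (mu (E := E) G) (ch G (1 : G), ch G g) (w, 0) := by
  have h1 : HasMFDerivAt 𝓘(ℝ, E) 𝓘(ℝ, E) (fun x : G => x * g) 1
      (mfderiv 𝓘(ℝ, E) 𝓘(ℝ, E) (fun x : G => x * g) 1) := (mdiff_mul_right (E := E) g 1).hasMFDerivAt
  have h2 : HasMFDerivAt 𝓘(ℝ, E) 𝓘(ℝ, E) (ch (E := E) G) (1 * g)
      (mfderiv 𝓘(ℝ, E) 𝓘(ℝ, E) (ch (E := E) G) g) := by
    rw [one_mul]; exact hasMFDerivAt_ch hg
  have h3 := HasMFDerivAt.comp (f := fun x : G => x * g) (1 : G) h2 h1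
  have h4 := hasFDerivAt_of_hasMFDerivAt h3
  have h5 : HasFDerivAt (fun y => mu (E := E) G (y, ch G g))
      ((fderiv ℝ (mu (E := E) G) (ch G (1 : G), ch G g)).comp (ContinuousLinearMap.inl ℝ E E))
      (ch G (1 : G)) :=
    HasFDerivAt.comp (f := fun y : E => (y, ch G g)) (ch G (1 : G)) hd.hasFDerivAt
      (hasFDerivAt_prodMk_left _ _)
  have h6 : (fun y => ((ch (E := E) G) ∘ fun x : G => x * g) ((ch (E := E) G).symm y)) =
      fun y => mu (E := E) G (y, ch G g) := by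
    ext y
    simp only [Function.comp_apply, mu]
    rw [(ch (E := E) G).left_inv hg]
  rw [h6] at h4
  have h7 := h4.unique h5
  exact congrArg (fun L : E →L[ℝ] E => L w) h7

omit [FiniteDimensional ℝ E] [T2Space G] in
/-- The left-invariant field in terms of the right translation. -/
lemma lvf_eq_right (g : G) (w : E) :
    lvf w g = mfderiv 𝓘(ℝ, E) 𝓘(ℝ, E) (fun x : G => x * g) 1 (Adj g w : E) := by
  have h1 : (fun x : G => g * x) = (fun x => x * g) ∘ (fun x => g * x * g⁻¹) := by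
    ext x; simp
  have h2 : HasMFDerivAt 𝓘(ℝ, E) 𝓘(ℝ, E) (fun x : G => x * g) (g * 1 * g⁻¹)
      (mfderiv 𝓘(ℝ, E) 𝓘(ℝ, E) (fun x : G => x * g) 1) := by
    have : g * 1 * g⁻¹ = 1 := by simp
    rw [this]
    exact (mdiff_mul_right (E := E) g 1).hasMFDerivAt
  have h3 := HasMFDerivAt.comp (f := fun x : G => g * x * g⁻¹) (1 : G) h2
    (hasMFDerivAt_conj (E := E) g)
  rw [← h1] at h3
  have h4 := h3.mfderiv
  unfold lvf mulInvariantVectorField
  rw [h4]
  rfl

/-- The mixed second derivative of the group law in the chart. -/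
noncomputable def Bm (G : Type*) [TopologicalSpace G] [ChartedSpace E G] [Group G] (a b : E) : E :=
  fderiv ℝ (fderiv ℝ (mu (E := E) G)) (ch G (1 : G), ch G (1 : G)) (a, 0) (0, b)

omit [FiniteDimensional ℝ E] [T2Space G] in
lemma hasFDerivAt_Dmu :
    HasFDerivAt (fderiv ℝ (mu (E := E) G))
      (fderiv ℝ (fderiv ℝ (mu (E := E) G)) (ch G (1 : G), ch G (1 : G)))
      (ch G (1 : G), ch G (1 : G)) := by
  have h : ContDiffAt ℝ ∞ (fderiv ℝ (mu (E := E) G)) (ch G (1 : G), ch G (1 : G)) :=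
    (contDiffAt_mu (E := E) (G := G)).fderiv_right (by norm_num)
  exact (h.differentiableAt (by simp)).hasFDerivAt

omit [FiniteDimensional ℝ E] [T2Space G] in
lemma Dmu_right (w : E) :
    fderiv ℝ (mu (E := E) G) (ch G (1 : G), ch G (1 : G)) (0, w) = w := by
  have hd := (contDiffAt_mu (E := E) (G := G)).differentiableAt (by simp)
  have h5 : HasFDerivAt (fun y => mu (E := E) G (ch G (1 : G), y))
      ((fderiv ℝ (mu (E := E) G) (ch G (1 : G), ch G (1 : G))).comp (ContinuousLinearMap.inr ℝ E E))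
      (ch G (1 : G)) :=
    HasFDerivAt.comp (f := fun y : E => ((ch G (1 : G) : E), y)) (ch G (1 : G)) hd.hasFDerivAt
      (hasFDerivAt_prodMk_right _ _)
  have h6 : (fun y => mu (E := E) G (ch G (1 : G), y)) =ᶠ[𝓝 (ch G (1 : G) : E)] id := by
    have h1 : ∀ᶠ x in 𝓝 (ch G (1 : G) : E), x ∈ (ch (E := E) G).target :=
      extChartAt_target_mem_nhds (I := 𝓘(ℝ, E)) (1 : G)
    filter_upwards [h1] with y hy
    simp only [mu, id]
    rw [ch_symm_one, one_mul, (ch (E := E) G).right_inv hy]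
  have h7 := (h5.congr_of_eventuallyEq h6.symm).unique (hasFDerivAt_id _)
  exact congrArg (fun L : E →L[ℝ] E => L w) h7

omit [FiniteDimensional ℝ E] [T2Space G] in
lemma Dmu_left (w : E) :
    fderiv ℝ (mu (E := E) G) (ch G (1 : G), ch G (1 : G)) (w, 0) = w := by
  have hd := (contDiffAt_mu (E := E) (G := G)).differentiableAt (by simp)
  have h5 : HasFDerivAt (fun y => mu (E := E) G (y, ch G (1 : G)))
      ((fderiv ℝ (mu (E := E) G) (ch G (1 : G), ch G (1 : G))).comp (ContinuousLinearMap.inl ℝ E E))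
      (ch G (1 : G)) :=
    HasFDerivAt.comp (f := fun y : E => (y, (ch G (1 : G) : E))) (ch G (1 : G)) hd.hasFDerivAt
      (hasFDerivAt_prodMk_left _ _)
  have h6 : (fun y => mu (E := E) G (y, ch G (1 : G))) =ᶠ[𝓝 (ch G (1 : G) : E)] id := by
    have h1 : ∀ᶠ x in 𝓝 (ch G (1 : G) : E), x ∈ (ch (E := E) G).target :=
      extChartAt_target_mem_nhds (I := 𝓘(ℝ, E)) (1 : G)
    filter_upwards [h1] with y hy
    simp only [mu, id]
    rw [ch_symm_one, mul_one, (ch (E := E) G).right_inv hy]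
  have h7 := (h5.congr_of_eventuallyEq h6.symm).unique (hasFDerivAt_id _)
  exact congrArg (fun L : E →L[ℝ] E => L w) h7

omit [FiniteDimensional ℝ E] [T2Space G] in
/-- The left-invariant fields in the chart. -/
lemma pullback_eventually (w : E) :
    ∀ᶠ x in 𝓝 (ch G (1 : G) : E),
      (mpullbackWithin 𝓘(ℝ, E) 𝓘(ℝ, E) (ch (E := E) G).symm (lvf w) (range 𝓘(ℝ, E)) x : E) =
        fderiv ℝ (mu (E := E) G) (x, ch G (1 : G)) (0, w) := by
  have h1 : ∀ᶠ x in 𝓝 (ch G (1 : G) : E), x ∈ (ch (E := E) G).target :=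
    extChartAt_target_mem_nhds (I := 𝓘(ℝ, E)) (1 : G)
  have h2 : ∀ᶠ x in 𝓝 (ch G (1 : G) : E),
      DifferentiableAt ℝ (mu (E := E) G) (x, ch G (1 : G)) := by
    have hc : Continuous fun x : E => (x, (ch G (1 : G) : E)) := by fun_prop
    exact hc.continuousAt.eventually (mu_diff_eventually (E := E) (G := G))
  filter_upwards [h1, h2] with x hx hd
  have hg : (ch (E := E) G).symm x ∈ (ch (E := E) G).source := (ch (E := E) G).map_target hx
  have hxx : ch (E := E) G ((ch (E := E) G).symm x) = x := (ch (E := E) G).right_inv hx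
  rw [mpullbackWithin_apply]
  have h3 : (mfderivWithin 𝓘(ℝ, E) 𝓘(ℝ, E) (ch (E := E) G).symm (range 𝓘(ℝ, E)) x).inverse =
      mfderiv 𝓘(ℝ, E) 𝓘(ℝ, E) (ch (E := E) G) ((ch (E := E) G).symm x) :=
    ContinuousLinearMap.inverse_eq
      (mfderivWithin_extChartAt_symm_comp_mfderiv_extChartAt hx)
      (mfderiv_extChartAt_comp_mfderivWithin_extChartAt_symm hx)
  rw [h3]
  have h4 := left_in_chart (E := E) hg (by rw [hxx]; exact hd) w
  rw [hxx] at h4
  exact h4

omit [FiniteDimensional ℝ E] [T2Space G] in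
lemma pullback_at (w : E) :
    (mpullbackWithin 𝓘(ℝ, E) 𝓘(ℝ, E) (ch (E := E) G).symm (lvf w) (range 𝓘(ℝ, E))
      (ch G (1 : G)) : E) = w := by
  have h := (pullback_eventually (E := E) (G := G) w).self_of_nhds
  rw [h, Dmu_right]

omit [FiniteDimensional ℝ E] [T2Space G] in
lemma fderiv_pullback (w a : E) :
    fderiv ℝ (fun x => (mpullbackWithin 𝓘(ℝ, E) 𝓘(ℝ, E) (ch (E := E) G).symm (lvf w)
      (range 𝓘(ℝ, E)) x : E)) (ch G (1 : G)) a = Bm G a w := by
  have h1 : (fun x => (mpullbackWithin 𝓘(ℝ, E) 𝓘(ℝ, E) (ch (E := E) G).symm (lvf w)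
      (range 𝓘(ℝ, E)) x : E)) =ᶠ[𝓝 (ch G (1 : G) : E)]
      fun x => fderiv ℝ (mu (E := E) G) (x, ch G (1 : G)) (0, w) := pullback_eventually w
  rw [h1.fderiv_eq]
  have h2 : HasFDerivAt (fun x : E => fderiv ℝ (mu (E := E) G) (x, ch G (1 : G)))
      ((fderiv ℝ (fderiv ℝ (mu (E := E) G)) (ch G (1 : G), ch G (1 : G))).comp
        (ContinuousLinearMap.inl ℝ E E)) (ch G (1 : G)) :=
    HasFDerivAt.comp (f := fun x : E => (x, (ch G (1 : G) : E))) (ch G (1 : G))
      (hasFDerivAt_Dmu (E := E) (G := G)) (hasFDerivAt_prodMk_left _ _)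
  have h3 := h2.clm_apply (hasFDerivAt_const ((0, w) : E × E) (ch G (1 : G) : E))
  rw [h3.fderiv]
  simp [Bm]

/-- The left-invariant fields in the chart. -/
noncomputable def Vh (G : Type*) [TopologicalSpace G] [ChartedSpace E G] [Group G] (w x : E) : E :=
  (mpullbackWithin 𝓘(ℝ, E) 𝓘(ℝ, E) (ch (E := E) G).symm (lvf w) (range 𝓘(ℝ, E)) x : E)

omit [FiniteDimensional ℝ E] [T2Space G] in
lemma lieBracketWithin_Vh (v w : E) :
    lieBracketWithin ℝ (Vh G v) (Vh G w) univ (ch G (1 : G)) = Bm G v w - Bm G w v := by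
  rw [lieBracketWithin_univ]
  unfold lieBracket
  have h1 : Vh G v (ch G (1 : G)) = v := pullback_at v
  have h2 : Vh G w (ch G (1 : G)) = w := pullback_at w
  have h3 : fderiv ℝ (Vh G w) (ch G (1 : G)) v = Bm G v w := fderiv_pullback w v
  have h4 : fderiv ℝ (Vh G v) (ch G (1 : G)) w = Bm G w v := fderiv_pullback v w
  rw [h1, h2, h3, h4]

omit [FiniteDimensional ℝ E] [T2Space G] in
/-- Mathlib's Lie bracket in terms of the second derivative of the group law. -/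
lemma bracket_eq_Bm (v w : GroupLieAlgebra 𝓘(ℝ, E) G) :
    (⁅v, w⁆ : GroupLieAlgebra 𝓘(ℝ, E) G) = (Bm (E := E) G v w - Bm (E := E) G w v : E) := by
  rw [GroupLieAlgebra.bracket_def]
  have h1 : ∀ u : TangentSpace 𝓘(ℝ, E) (1 : G),
      (mfderiv 𝓘(ℝ, E) 𝓘(ℝ, E) (ch (E := E) G) (1 : G)).inverse u = u := by
    intro u
    have h3 : (mfderiv 𝓘(ℝ, E) 𝓘(ℝ, E) (ch (E := E) G) (1 : G)) =
        ContinuousLinearMap.id ℝ E := mfderiv_extChartAt_self
    rw [h3]
    exact congrArg (fun L : E →L[ℝ] E => L u) (ContinuousLinearMap.inverse_id (R := ℝ) (M := E))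
  show mlieBracketWithin 𝓘(ℝ, E) (lvf (E := E) (G := G) v) (lvf (E := E) (G := G) w) univ
    (1 : G) = _
  rw [mlieBracketWithin_apply]
  refine (h1 _).trans ?_
  have h2 : ((ch (E := E) G).symm ⁻¹' univ ∩ range 𝓘(ℝ, E)) = univ := by simp
  rw [h2]
  exact lieBracketWithin_Vh (E := E) (G := G) v w

lemma hasDerivAt_ch_ex (v : E) : HasDerivAt (fun t : ℝ => ch (E := E) G (ex v t)) v 0 := by
  have h1 := hasMFDerivAt_ex_zero (G := G) v
  have h2 : HasMFDerivAt 𝓘(ℝ, E) 𝓘(ℝ, E) (ch (E := E) G) (ex v 0 : G)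
      (ContinuousLinearMap.id ℝ E) := by
    rw [ex_zero]
    have h3 := hasMFDerivAt_ch (E := E) (g := (1 : G)) (mem_extChartAt_source (1 : G))
    have h4 : (mfderiv 𝓘(ℝ, E) 𝓘(ℝ, E) (ch (E := E) G) (1 : G)) =
        ContinuousLinearMap.id ℝ E := mfderiv_extChartAt_self
    rw [← h4]
    exact h3
  have h5 := HasMFDerivAt.comp (f := (ex v : ℝ → G)) (0 : ℝ) h2 h1
  have h5' : HasMFDerivAt 𝓘(ℝ, ℝ) 𝓘(ℝ, E) (fun t : ℝ => (ch (E := E) G (ex v t) : E)) 0
      ((1 : ℝ →L[ℝ] ℝ).smulRight (v : E) : ℝ →L[ℝ] E) := h5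
  have h6 : HasFDerivAt (fun t : ℝ => (ch (E := E) G (ex v t) : E))
      ((1 : ℝ →L[ℝ] ℝ).smulRight (v : E) : ℝ →L[ℝ] E) 0 := hasMFDerivAt_iff_hasFDerivAt.1 h5'
  have h7 := h6.hasDerivAt
  simpa using h7

lemma ex_eventually_source (v : E) :
    ∀ᶠ t in 𝓝 (0 : ℝ), (ex v t : G) ∈ (ch (E := E) G).source := by
  have h1 : (ch (E := E) G).source ∈ 𝓝 (ex v 0 : G) := by
    rw [ex_zero]; exact extChartAt_source_mem_nhds (1 : G)
  exact (ex_continuous (G := G) v).continuousAt.eventually h1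

lemma ex_ch_tendsto (v : E) : Tendsto (fun t : ℝ => ch (E := E) G (ex v t)) (𝓝 0)
    (𝓝 (ch G (1 : G))) := by
  have := (hasDerivAt_ch_ex (G := G) v).continuousAt.tendsto
  simpa [ex_zero] using this

/-- The derivative of the adjoint representation in terms of the second derivative of the group
law. -/
lemma adj_eq_Bm (v w : E) : adj G v w = Bm G v w - Bm G w v := by
  have hx0 : (ch (E := E) G (ex v 0 : G)) = ch G (1 : G) := by rw [ex_zero]
  -- the two sides of the identity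
  have heq : (fun t : ℝ => fderiv ℝ (mu (E := E) G) (ch G (ex v t), ch G (1 : G)) (0, w)) =ᶠ[𝓝 0]
      fun t => fderiv ℝ (mu (E := E) G) (ch G (1 : G), ch G (ex v t)) (Adj (ex v t : G) w, 0) := by
    have h1 : ∀ᶠ t in 𝓝 (0 : ℝ),
        DifferentiableAt ℝ (mu (E := E) G) (ch G (ex v t), ch G (1 : G)) := by
      have h := (ex_ch_tendsto (G := G) v).prodMk_nhds
        (tendsto_const_nhds (x := (ch G (1 : G) : E)) (f := 𝓝 (0 : ℝ)))
      exact h.eventually (mu_diff_eventually (E := E) (G := G))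
    have h2 : ∀ᶠ t in 𝓝 (0 : ℝ),
        DifferentiableAt ℝ (mu (E := E) G) (ch G (1 : G), ch G (ex v t)) := by
      have h := (tendsto_const_nhds (x := (ch G (1 : G) : E)) (f := 𝓝 (0 : ℝ))).prodMk_nhds
        (ex_ch_tendsto (G := G) v)
      exact h.eventually (mu_diff_eventually (E := E) (G := G))
    filter_upwards [h1, h2, ex_eventually_source (G := G) v] with t ht1 ht2 ht3
    rw [← left_in_chart ht3 ht1 w, ← right_in_chart ht3 ht2, lvf_eq_right]
  have hL : HasDerivAt (fun t : ℝ => fderiv ℝ (mu (E := E) G) (ch G (ex v t), ch G (1 : G)) (0, w))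
      (Bm G v w) 0 := by
    have h1 : HasDerivAt (fun t : ℝ => ((ch G (ex v t) : E), (ch G (1 : G) : E))) (v, 0) 0 :=
      (hasDerivAt_ch_ex (G := G) v).prodMk (hasDerivAt_const _ _)
    have h2 : HasFDerivAt (fderiv ℝ (mu (E := E) G))
      (fderiv ℝ (fderiv ℝ (mu (E := E) G)) (ch G (1 : G), ch G (1 : G)))
      ((ch G (ex v 0) : E), (ch G (1 : G) : E)) := by
      rw [hx0]; exact hasFDerivAt_Dmu
    have h3 := h2.comp_hasDerivAt (0 : ℝ) h1
    have h4 := h3.clm_apply (hasDerivAt_const (0 : ℝ) ((0, w) : E × E))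
    refine h4.congr_deriv ?_
    simp [Bm]
  have hR : HasDerivAt (fun t : ℝ => fderiv ℝ (mu (E := E) G) (ch G (1 : G), ch G (ex v t))
      (Adj (ex v t : G) w, 0)) (Bm G w v + adj G v w) 0 := by
    have h1 : HasDerivAt (fun t : ℝ => ((ch G (1 : G) : E), (ch G (ex v t) : E))) (0, v) 0 :=
      (hasDerivAt_const _ _).prodMk (hasDerivAt_ch_ex (G := G) v)
    have h2 : HasFDerivAt (fderiv ℝ (mu (E := E) G))
      (fderiv ℝ (fderiv ℝ (mu (E := E) G)) (ch G (1 : G), ch G (1 : G)))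
      ((ch G (1 : G) : E), (ch G (ex v 0) : E)) := by
      rw [hx0]; exact hasFDerivAt_Dmu
    have h3 := h2.comp_hasDerivAt (0 : ℝ) h1
    have h5 : HasDerivAt (fun t : ℝ => ((Adj (ex v t : G) w : E), (0 : E))) (adj G v w, 0) 0 := by
      refine HasDerivAt.prodMk ?_ (hasDerivAt_const _ _)
      have h6 := (hasDerivAt_Adj_ex_zero (G := G) v).clm_apply (hasDerivAt_const (0 : ℝ) w)
      refine h6.congr_deriv ?_
      simp
    have h4 := h3.clm_apply h5
    refine h4.congr_deriv ?_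
    have hsymm : IsSymmSndFDerivAt ℝ (mu (E := E) G) (ch G (1 : G), ch G (1 : G)) := by
      refine (contDiffAt_mu (E := E) (G := G)).isSymmSndFDerivAt ?_
      rw [minSmoothness_of_isRCLikeNormedField]
      exact ENat.LEInfty.out
    simp only [Function.comp_apply, ex_zero, Adj_one, Dmu_left]
    rw [hsymm.eq]
    rfl
  have h := hL.unique (hR.congr_of_eventuallyEq heq)
  rw [h]
  abel

/-- The derivative of the adjoint representation is Mathlib's Lie bracket. -/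
theorem adj_eq_bracket (v w : GroupLieAlgebra 𝓘(ℝ, E) G) :
    adj (E := E) G v w = (⁅v, w⁆ : GroupLieAlgebra 𝓘(ℝ, E) G) := by
  exact (adj_eq_Bm (E := E) (G := G) v w).trans (bracket_eq_Bm v w).symm

end PI
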