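import Pool.Agent.H47.PISmooth

/-!
# Characters of parabolic subgroups are restrictions of smooth functions
-/

open scoped Manifold ContDiff Topology
open Set Filter Module

universe u v

namespace PI

variable {E : Type u} [NormedAddCommGroup E] [NormedSpace ℝ E] [FiniteDimensional ℝ E]
  {G : Type v} [TopologicalSpace G] [ChartedSpace E G] [Group G] [LieGroup 𝓘(ℝ, E) ∞ G] [T2Space G]

/-- Products of one-parameter subgroups contained in `Q`. -/
lemma extChar_prodEx {Q : Subgroup G} {φ : Q → ℝ} (hφ : IsChar Q φ)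
    (r : E × (E →L[ℝ] ℝ) → ℝ) (L : List (E × (E →L[ℝ] ℝ))) (x : E)
    (hL : ∀ p ∈ L, p.2 x = 0 ∨ ∀ t, (ex p.1 t : G) ∈ Q ∧ extChar φ (ex p.1 t : G) = r p * t) :
    prodEx G L x ∈ Q ∧ extChar φ (prodEx G L x) = (L.map fun p => r p * p.2 x).sum := by
  induction L with
  | nil => exact ⟨Q.one_mem, extChar_one hφ⟩
  | cons p L ih =>
    have ih' := ih fun q hq => hL q (List.mem_cons_of_mem _ hq)
    have h1 : (ex p.1 (p.2 x) : G) ∈ Q ∧ extChar φ (ex p.1 (p.2 x) : G) = r p * p.2 x := by
      rcases hL p List.mem_cons_self with h | h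
      · rw [h, ex_zero, mul_zero]
        exact ⟨Q.one_mem, extChar_one hφ⟩
      · exact h _
    refine ⟨Q.mul_mem h1.1 ih'.1, ?_⟩
    simp only [prodEx, List.map_cons, List.sum_cons]
    rw [extChar_mul hφ h1.1 ih'.1, h1.2, ih'.2]

section Q

variable {Q : Subgroup G} {H : GroupLieAlgebra 𝓘(ℝ, E) G}

/-- Near the identity, `prodEx x ∈ Q` forces `x` to be in the parabolic subalgebra. -/
lemma eventually_proj_eq (hQ : ParabolicOf Q H) {ι : Type u} [Fintype ι]
    (b : Basis ι ℝ (GroupLieAlgebra 𝓘(ℝ, E) G)) (c : ι → ℝ) (hb : ∀ i, ⁅H, b i⁆ = c i • b i)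
    [DecidablePred fun i => 0 ≤ c i] :
    ∀ᶠ x in 𝓝 (0 : E), prodEx G (lst (E := E) b) x ∈ Q →
      proj (E := E) b (fun i => 0 ≤ c i) x = x := by
  have : CompleteSpace E := FiniteDimensional.complete ℝ E
  let B : Basis ι ℝ E := b
  let R : E →L[ℝ] E := proj B (fun i => 0 ≤ c i)
  have hRrepr : ∀ (x : E) (i : ι), B.repr (R x) i = if 0 ≤ c i then B.repr x i else 0 :=
    fun x i => repr_proj B (fun i => 0 ≤ c i) x i
  -- `R` projects onto `parab H`
  have hRmem : ∀ x : GroupLieAlgebra 𝓘(ℝ, E) G, (R x : GroupLieAlgebra 𝓘(ℝ, E) G) ∈ parab H := by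
    intro x
    refine (mem_parab_iff (L := GroupLieAlgebra 𝓘(ℝ, E) G) hb).2 fun i hi => ?_
    exact (hRrepr x i).trans (if_neg (not_le.2 hi))
  have hRfix' : ∀ x : E, (∀ i, c i < 0 → B.repr x i = 0) → R x = x := by
    intro x hx
    refine B.ext_elem fun i => ?_
    rw [hRrepr]
    split_ifs with h
    · rfl
    · exact (hx i (not_le.1 h)).symm
  have hRfix : ∀ x : GroupLieAlgebra 𝓘(ℝ, E) G, x ∈ parab H → R x = x := by
    intro x hx
    exact hRfix' x ((mem_parab_iff (L := GroupLieAlgebra 𝓘(ℝ, E) G) hb).1 hx)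
  have hRR : ∀ x : E, R (R x) = R x := fun x => hRfix (R x) (hRmem x)
  have hfix_iff : ∀ x : E, R x = x → (x : GroupLieAlgebra 𝓘(ℝ, E) G) ∈ parab H := by
    intro x hx
    have := hRmem x
    rwa [hx] at this
  -- `prodEx x ∈ Q` for `x` in the parabolic subalgebra
  have hprodR : ∀ x : E, prodEx G (lst B) (R x) ∈ Q := by
    intro x
    have key : ∀ L : List (E × (E →L[ℝ] ℝ)), (∀ p ∈ L, p.2 (R x) = 0 ∨ ∀ t, (ex p.1 t : G) ∈ Q) →
        prodEx G L (R x) ∈ Q := by
      intro L
      induction L with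
      | nil => intro _; exact Q.one_mem
      | cons p L ih =>
        intro hL
        refine Q.mul_mem ?_ (ih fun q hq => hL q (List.mem_cons_of_mem _ hq))
        rcases hL p List.mem_cons_self with h | h
        · rw [h, ex_zero]; exact Q.one_mem
        · exact h _
    refine key _ fun p hp => ?_
    obtain ⟨i, _, rfl⟩ := List.mem_map.1 hp
    by_cases hi : 0 ≤ c i
    · right
      intro t
      exact hQ.ex_mem (X := b i) (mem_parab_of_eig hi (hb i)) t
    · left
      show B.coord i (R x) = 0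
      rw [Basis.coord_apply, hRrepr, if_neg hi]
  -- the auxiliary map
  let C : (E →L[ℝ] E) →L[ℝ] (E →L[ℝ] E) :=
    (ContinuousLinearMap.compL ℝ E E E (ContinuousLinearMap.id ℝ E - R)).comp
      ((ContinuousLinearMap.compL ℝ E E E).flip R)
  have hC : ∀ (y : E →L[ℝ] E) (z : E), C y z = y (R z) - R (y (R z)) := fun y z => rfl
  let D : E →L[ℝ] (E →L[ℝ] E) := fderiv ℝ (Adjc (E := E) G) (ch G (1 : G))
  let A : E → E × (E →L[ℝ] E) := fun x => (R x, C (Adj (prodEx G (lst B) x)))
  have hA : HasStrictFDerivAt A (R.prod (C.comp D)) 0 := by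
    have h1 := hasStrictFDerivAt_Adj_prodEx (G := G) (sum_lst B)
    exact (R.hasStrictFDerivAt).prodMk (C.hasStrictFDerivAt.comp (0 : E) h1)
  -- the derivative is injective
  have hinj : LinearMap.ker (R.prod (C.comp D) : E →L[ℝ] E × (E →L[ℝ] E)).toLinearMap = ⊥ := by
    rw [LinearMap.ker_eq_bot']
    intro x hx
    have hx1 : R x = 0 := congrArg Prod.fst hx
    have hx2 : C (D x) = 0 := congrArg Prod.snd hx
    have hxp : (x : GroupLieAlgebra 𝓘(ℝ, E) G) ∈ parab H := by
      have h0 : ∀ z : E, R z = z → R (D x z) = D x z := by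
        intro z hz
        have h1 : C (D x) z = 0 := by rw [hx2]; rfl
        rw [hC, hz] at h1
        exact (sub_eq_zero.1 h1).symm
      have h3 : D x = adj G x := fderiv_Adjc x
      rw [h3] at h0
      refine mem_parab_of_normalises (L := GroupLieAlgebra 𝓘(ℝ, E) G) hQ.1 fun z hz => ?_
      have h5 := hfix_iff _ (h0 z (hRfix z hz))
      have h2 := adj_eq_bracket (E := E) (G := G) x z
      exact Eq.subst (motive := fun w : GroupLieAlgebra 𝓘(ℝ, E) G => w ∈ parab H) h2 h5
    have h6 := hRfix x hxp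
    rw [hx1] at h6
    exact h6.symm
  obtain ⟨S, hS⟩ := LinearMap.exists_leftInverse_of_injective _ hinj
  let S' : (E × (E →L[ℝ] E)) →L[ℝ] E := LinearMap.toContinuousLinearMap S
  have hSA : HasStrictFDerivAt (fun x => S' (A x))
      ((ContinuousLinearEquiv.refl ℝ E : E ≃L[ℝ] E) : E →L[ℝ] E) 0 := by
    refine (S'.hasStrictFDerivAt.comp (0 : E) hA).congr_fderiv ?_
    refine ContinuousLinearMap.ext fun x => ?_
    exact congrArg (fun T : E →ₗ[ℝ] E => T x) hS
  have h1 := hSA.eventually_left_inverse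
  have h2 : Tendsto (fun x : E => R x) (𝓝 0) (𝓝 0) := by
    have := R.continuous.tendsto (0 : E)
    rwa [map_zero] at this
  filter_upwards [h1, h2.eventually h1] with x hx1 hx2 hxQ
  have h3 : A x = A (R x) := by
    have h4 : C (Adj (prodEx G (lst B) x)) = 0 := by
      refine ContinuousLinearMap.ext fun z => ?_
      rw [hC]
      have h5 := (hQ.mem_iff _).1 hxQ (R z) (hRmem z)
      have h6 := hRfix _ h5
      show Adj (prodEx G (lst B) x) (R z) - R (Adj (prodEx G (lst B) x) (R z)) = 0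
      rw [sub_eq_zero]
      exact h6.symm
    have h7 : C (Adj (prodEx G (lst B) (R x))) = 0 := by
      refine ContinuousLinearMap.ext fun z => ?_
      rw [hC]
      have h5 := (hQ.mem_iff _).1 (hprodR x) (R z) (hRmem z)
      have h6 := hRfix _ h5
      show Adj (prodEx G (lst B) (R x)) (R z) - R (Adj (prodEx G (lst B) (R x)) (R z)) = 0
      rw [sub_eq_zero]
      exact h6.symm
    show (R x, C (Adj (prodEx G (lst B) x))) = (R (R x), C (Adj (prodEx G (lst B) (R x))))
    rw [h4, h7, hRR]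
  rw [h3, hx2] at hx1
  exact hx1

/-- Characters of `Q` are, near the identity, restrictions of smooth functions. -/
theorem exists_smooth_extension (hQ : ParabolicOf Q H) {φ : Q → ℝ} (hφ : IsChar Q φ) :
    ∃ ψ : G → ℝ, ContMDiffAt 𝓘(ℝ, E) 𝓘(ℝ, ℝ) ∞ ψ 1 ∧ ∀ᶠ g in 𝓝 (1 : G), g ∈ Q →
      extChar φ g = ψ g := by
  classical
  have : CompleteSpace E := FiniteDimensional.complete ℝ E
  obtain ⟨ι, _, b, c, hb⟩ := exists_eigenbasis hQ.1
  let B : Basis ι ℝ E := b
  let L : List (E × (E →L[ℝ] ℝ)) := lst B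
  have hproj := eventually_proj_eq hQ b c hb
  -- slopes
  let r : E × (E →L[ℝ] ℝ) → ℝ := fun p => extChar φ (ex p.1 1 : G)
  have hr : ∀ p : E × (E →L[ℝ] ℝ), (∀ t, (ex p.1 t : G) ∈ Q) →
      ∀ t, (ex p.1 t : G) ∈ Q ∧ extChar φ (ex p.1 t : G) = r p * t := by
    intro p hp t
    refine ⟨hp t, ?_⟩
    obtain ⟨s, hs⟩ := hφ.exists_slope (X := p.1) hp
    have h1 : ∀ t, extChar φ (ex p.1 t : G) = s * t := by
      intro t
      rw [extChar_of_mem (hp t)]
      exact hs t
    show _ = extChar φ (ex p.1 1 : G) * t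
    rw [h1, h1, mul_one]
  -- the local inverse of the chart
  have hc := chain_contDiffAt (G := G) L
  have hd : HasFDerivAt (chain G L) ((ContinuousLinearEquiv.refl ℝ E : E ≃L[ℝ] E) : E →L[ℝ] E) 0 := by
    have := (chain_strict (G := G) L).hasFDerivAt
    rw [sum_lst B] at this
    exact this
  have hn : (∞ : WithTop ℕ∞) ≠ 0 := by simp
  let inv : E → E := hc.localInverse hd hn
  have hinv : ContDiffAt ℝ ∞ inv (ch G (1 : G)) := by
    have := hc.to_localInverse hd hn
    rwa [chain_zero] at this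
  have hinv0 : inv (ch G (1 : G)) = 0 := by
    have := hc.localInverse_apply_image hd hn
    rwa [chain_zero] at this
  have hright : ∀ᶠ y in 𝓝 (ch G (1 : G) : E), chain G L (inv y) = y := by
    have := (hc.hasStrictFDerivAt' hd hn).eventually_right_inverse
    rwa [chain_zero] at this
  let ℓ : E → ℝ := fun x => (L.map fun p => r p * p.2 x).sum
  have hℓ : ContDiff ℝ ∞ ℓ := by
    have : ∀ L : List (E × (E →L[ℝ] ℝ)), ContDiff ℝ ∞ fun x => (L.map fun p => r p * p.2 x).sum := by
      intro L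
      induction L with
      | nil => exact contDiff_const
      | cons p L ih =>
        simp only [List.map_cons, List.sum_cons]
        exact (contDiff_const.mul p.2.contDiff).add ih
    exact this L
  refine ⟨fun g => ℓ (inv (ch G g)), ?_, ?_⟩
  · have h1 : ContDiffAt ℝ ∞ (fun y : E => ℓ (inv y)) (ch G (1 : G)) :=
      hℓ.contDiffAt.comp _ hinv
    have h2 : ContMDiffAt 𝓘(ℝ, E) 𝓘(ℝ, E) ∞ (ch (E := E) G) (1 : G) := contMDiffAt_extChartAt
    exact h1.contMDiffAt.comp (1 : G) h2
  · have h1 : Tendsto (ch (E := E) G) (𝓝 (1 : G)) (𝓝 (ch G (1 : G))) :=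
      (continuousAt_extChartAt (I := 𝓘(ℝ, E)) (1 : G)).tendsto
    have h2 : Tendsto (fun g : G => inv (ch G g)) (𝓝 (1 : G)) (𝓝 0) := by
      have := hinv.continuousAt.tendsto.comp h1
      rwa [hinv0] at this
    have h3 : ∀ᶠ x in 𝓝 (0 : E), prodEx G L x ∈ (ch (E := E) G).source := by
      have h3 := (continuous_prodEx (G := G) L).tendsto (0 : E)
      rw [prodEx_zero] at h3
      exact h3.eventually (extChartAt_source_mem_nhds (I := 𝓘(ℝ, E)) (1 : G))
    filter_upwards [h2.eventually h3, h2.eventually hproj, h2.eventually (chain_eq_prodEx (G := G) L),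
      h1.eventually hright, extChartAt_source_mem_nhds (I := 𝓘(ℝ, E)) (1 : G)]
      with g hg1 hg2 hg3 hg4 hg5 hgQ
    have h4 : prodEx G L (inv (ch G g)) = g := by
      rw [hg3] at hg4
      exact (ch (E := E) G).injOn hg1 hg5 hg4
    have h5 : proj B (fun i => 0 ≤ c i) (inv (ch G g)) = inv (ch G g) := by
      refine hg2 ?_
      show prodEx G L (inv (ch G g)) ∈ Q
      rw [h4]
      exact hgQ
    have h6 := (extChar_prodEx hφ r L (inv (ch G g)) ?_).2
    · rw [h4] at h6
      exact h6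
    · intro p hp
      obtain ⟨i, _, rfl⟩ := List.mem_map.1 hp
      by_cases hi : 0 ≤ c i
      · right
        exact hr _ fun t => hQ.ex_mem (X := b i) (mem_parab_of_eig hi (hb i)) t
      · left
        show B.coord i (inv (ch G g)) = 0
        rw [← h5, Basis.coord_apply, repr_proj, if_neg hi]

end Q

end PI
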