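import Mathlib

/-!
# Parabolically induced actions: definitions

* real-diagonalisable elements, parabolic subalgebras and the real rank of a real Lie algebra;
* the adjoint action, parabolic subgroups and lattices of a Lie group;
* smooth flows and the manifold `(G × M) / Q` induced from a flow.
-/

open scoped Manifold ContDiff
open MeasureTheory Set

namespace PI

section Algebra

variable {L : Type*} [LieRing L] [LieAlgebra ℝ L]

/-- `ad H` is diagonalisable over `ℝ`. -/
def IsRealDiag (H : L) : Prop :=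
  ⨆ c : ℝ, Module.End.eigenspace (LieAlgebra.ad ℝ L H) c = ⊤

/-- The parabolic subalgebra of `H`: the sum of the eigenspaces of `ad H` with non-negative
eigenvalues. -/
def parab (H : L) : Submodule ℝ L :=
  ⨆ (c : ℝ) (_ : 0 ≤ c), Module.End.eigenspace (LieAlgebra.ad ℝ L H) c

/-- A split toral subspace: a commutative subspace of real-diagonalisable elements. -/
def IsSplitToral (A : Submodule ℝ L) : Prop :=
  (∀ x ∈ A, ∀ y ∈ A, ⁅x, y⁆ = 0) ∧ ∀ x ∈ A, IsRealDiag x

variable (L) in
/-- The real rank is at least two: every maximal split toral subspace has dimension at least two. -/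
def RealRankGeTwo : Prop :=
  ∀ A : Submodule ℝ L, Maximal IsSplitToral A → 2 ≤ Module.finrank ℝ A

end Algebra

section Group

/-- `Γ` has finite covolume: there is a finite nonzero `G`-invariant Borel measure on `G ⧸ Γ`. -/
def FiniteCovolume {G : Type*} [Group G] [TopologicalSpace G] (Γ : Subgroup G) : Prop :=
  ∃ μ : @Measure (G ⧸ Γ) (borel (G ⧸ Γ)), μ univ ≠ 0 ∧ μ univ ≠ ⊤ ∧
    ∀ (g : G) (s : Set (G ⧸ Γ)), MeasurableSet[borel (G ⧸ Γ)] s → μ ((fun x => g • x) ⁻¹' s) = μ s

/-- A lattice: a discrete subgroup of finite covolume. -/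
def IsLattice {G : Type*} [Group G] [TopologicalSpace G] (Γ : Subgroup G) : Prop :=
  DiscreteTopology Γ ∧ FiniteCovolume Γ

/-- A continuous homomorphism from `Q` to the additive group of the reals. -/
structure IsChar {G : Type*} [TopologicalSpace G] [Group G] (Q : Subgroup G) (φ : Q → ℝ) :
    Prop where
  cont : Continuous φ
  map_mul : ∀ p q : Q, φ (p * q) = φ p + φ q

end Group

section LieGroup

variable {E : Type*} [NormedAddCommGroup E] [NormedSpace ℝ E]
  {G : Type*} [TopologicalSpace G] [ChartedSpace E G] [Group G]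

/-- A `C^∞` Lie group is a Lie group in the smoothness class used for its Lie algebra. -/
instance instMinSmoothness [LieGroup 𝓘(ℝ, E) ∞ G] : LieGroup 𝓘(ℝ, E) (minSmoothness ℝ 3) G := by
  rw [minSmoothness_of_isRCLikeNormedField]
  infer_instance

/-- The derivative at `1` of the conjugation with `g`, as a map of the model space `E` (which is
the tangent space of `G` at `1`). -/
noncomputable def Adj (g : G) : E →L[ℝ] E :=
  (mfderiv 𝓘(ℝ, E) 𝓘(ℝ, E) (fun x : G => g * x * g⁻¹) (1 : G) :)

/-- The adjoint action of the Lie group `G` on its Lie algebra. -/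
noncomputable def Ad (g : G) : GroupLieAlgebra 𝓘(ℝ, E) G →ₗ[ℝ] GroupLieAlgebra 𝓘(ℝ, E) G :=
  ((Adj (E := E) g : E →L[ℝ] E) : E →ₗ[ℝ] E)

/-- `Q` is the normaliser in `G` of the parabolic subalgebra `parab H`, where `ad H` is
diagonalisable over `ℝ`. -/
def ParabolicOf [LieGroup 𝓘(ℝ, E) ∞ G] [FiniteDimensional ℝ E] (Q : Subgroup G)
    (H : GroupLieAlgebra 𝓘(ℝ, E) G) : Prop :=
  IsRealDiag H ∧ ∀ g : G, g ∈ Q ↔ (parab H).map (Ad g) = parab H

/-- A parabolic subgroup: the normaliser in `G` of a parabolic subalgebra. -/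
def IsParabolic (E : Type*) [NormedAddCommGroup E] [NormedSpace ℝ E] [FiniteDimensional ℝ E]
    {G : Type*} [TopologicalSpace G] [ChartedSpace E G] [Group G] [LieGroup 𝓘(ℝ, E) ∞ G]
    (Q : Subgroup G) : Prop :=
  ∃ H : GroupLieAlgebra 𝓘(ℝ, E) G, ParabolicOf Q H

end LieGroup

section Induced

/-- A smooth flow on the manifold `M`: a smooth action of the additive group of the reals. -/
structure IsSmoothFlow (EM : Type*) [NormedAddCommGroup EM] [NormedSpace ℝ EM] {M : Type*}
    [TopologicalSpace M] [ChartedSpace EM M] (ρ : ℝ → M → M) : Prop where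
  smooth : ContMDiff (𝓘(ℝ, ℝ).prod 𝓘(ℝ, EM)) 𝓘(ℝ, EM) ∞ (fun p : ℝ × M => ρ p.1 p.2)
  zero : ∀ m, ρ 0 m = m
  add : ∀ s t m, ρ (s + t) m = ρ s (ρ t m)

/-- `π : G × M → N` exhibits the `G`-space `N` as the quotient of `G × M` by the action
`q · (g, m) = (g q⁻¹, ρ (φ q) m)` of `Q`, with `G` acting by left multiplication: `π` is a
surjective smooth submersion, its fibres are the `Q`-orbits, and it is `G`-equivariant. -/
structure IsInduced (E : Type*) [NormedAddCommGroup E] [NormedSpace ℝ E]
    (EM : Type*) [NormedAddCommGroup EM] [NormedSpace ℝ EM]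
    (EN : Type*) [NormedAddCommGroup EN] [NormedSpace ℝ EN]
    {G : Type*} [TopologicalSpace G] [ChartedSpace E G] [Group G]
    {M : Type*} [TopologicalSpace M] [ChartedSpace EM M]
    {N : Type*} [TopologicalSpace N] [ChartedSpace EN N] [MulAction G N]
    {Q : Subgroup G} (φ : Q → ℝ) (ρ : ℝ → M → M) (π : G × M → N) : Prop where
  submersion : Manifold.IsSubmersion (𝓘(ℝ, E).prod 𝓘(ℝ, EM)) 𝓘(ℝ, EN) ∞ π
  surjective : Function.Surjective π
  eq_iff : ∀ p p' : G × M, π p = π p' ↔ ∃ q : Q, p' = (p.1 * (q : G)⁻¹, ρ (φ q) p.2)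
  smul : ∀ (g : G) (p : G × M), g • π p = π (g * p.1, p.2)

end Induced

end PI
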