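import Pool.Agent.H47.PIDefs

/-!
# Recurrence and the Mautner phenomenon for continuous maps on `G / Γ`
-/

open MeasureTheory Filter Topology Set

namespace PI

section Erg

variable {G : Type*} [Group G] [TopologicalSpace G]

variable [IsTopologicalGroup G] [SecondCountableTopology G] {Γ : Subgroup G}

/-- Poincaré recurrence: the recurrent points are dense. -/
theorem dense_recurrent (hΓ : FiniteCovolume Γ) (a : G) :
    Dense {x : G ⧸ Γ | ∀ s ∈ 𝓝 x, ∃ᶠ n : ℕ in atTop, a ^ n • x ∈ s} := by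
  obtain ⟨μ, h0, htop, hinv⟩ := hΓ
  let _ : MeasurableSpace (G ⧸ Γ) := borel (G ⧸ Γ)
  have : BorelSpace (G ⧸ Γ) := ⟨rfl⟩
  have hfin : IsFiniteMeasure μ := ⟨lt_of_le_of_ne le_top htop⟩
  have hmp : MeasurePreserving (fun x : G ⧸ Γ => a • x) μ μ := by
    have hm : Measurable (fun x : G ⧸ Γ => a • x) := (continuous_const_smul a).measurable
    refine ⟨hm, ?_⟩
    ext s hs
    rw [Measure.map_apply hm hs, hinv a s hs]
  have hcons := hmp.conservative.ae_frequently_mem_of_mem_nhds
  have hopen : μ.IsOpenPosMeasure := by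
    refine ⟨fun U hU hUne hμU => h0 ?_⟩
    obtain ⟨x, hx⟩ := hUne
    have hcover : ⋃ g : G, (fun y : G ⧸ Γ => g • y) ⁻¹' U = univ := by
      refine eq_univ_of_forall fun y => ?_
      obtain ⟨g, hg⟩ := MulAction.exists_smul_eq G y x
      exact mem_iUnion.2 ⟨g, by rw [mem_preimage, hg]; exact hx⟩
    obtain ⟨T, hT, hTU⟩ := TopologicalSpace.isOpen_iUnion_countable
      (fun g : G => (fun y : G ⧸ Γ => g • y) ⁻¹' U)
      (fun g => hU.preimage (continuous_const_smul g))
    rw [hcover] at hTU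
    rw [← hTU]
    refine (measure_biUnion_null_iff hT).2 fun g _ => ?_
    rw [hinv g U hU.measurableSet]
    exact hμU
  have hd := Measure.dense_of_ae hcons
  refine hd.mono fun x hx s hs => ?_
  have := hx s hs
  simpa only [smul_iterate] using this

/-- The Mautner phenomenon for continuous maps. -/
theorem mautner {Z : Type*} [TopologicalSpace Z] [T2Space Z] (hΓ : FiniteCovolume Γ)
    {f : G ⧸ Γ → Z} (hf : Continuous f) {a : G} (hfa : ∀ x, f (a • x) = f x) {u : G}
    (hu : Tendsto (fun n : ℕ => a ^ n * u * (a ^ n)⁻¹) atTop (𝓝 1)) (x : G ⧸ Γ) :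
    f (u • x) = f x := by
  have hfan : ∀ (n : ℕ) (x : G ⧸ Γ), f (a ^ n • x) = f x := by
    intro n
    induction n with
    | zero => intro x; rw [pow_zero, one_smul]
    | succ n ih => intro x; rw [pow_succ', mul_smul, hfa, ih]
  have hcl : IsClosed {x : G ⧸ Γ | f (u • x) = f x} :=
    isClosed_eq (hf.comp (continuous_const_smul u)) hf
  have hsub : {x : G ⧸ Γ | ∀ s ∈ 𝓝 x, ∃ᶠ n : ℕ in atTop, a ^ n • x ∈ s} ⊆
      {x : G ⧸ Γ | f (u • x) = f x} := by
    intro x hx
    rw [mem_ofPred_eq]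
    by_contra hne
    obtain ⟨V, W, hV, hW, hxV, hxW, hVW⟩ := t2_separation hne
    have hcont : Continuous (fun p : G × (G ⧸ Γ) => f (p.1 • p.2)) :=
      hf.comp continuous_smul
    have h1 : (fun p : G × (G ⧸ Γ) => f (p.1 • p.2)) ⁻¹' W ∈ 𝓝 ((1 : G), x) := by
      refine hcont.continuousAt.preimage_mem_nhds ?_
      simp only [one_smul]
      exact hW.mem_nhds hxW
    rw [nhds_prod_eq, mem_prod_iff] at h1
    obtain ⟨O, hO, U, hU, hOU⟩ := h1
    have h2 := (hx U hU).and_eventually (hu.eventually hO)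
    obtain ⟨n, hn1, hn2⟩ := h2.exists
    have h3 : ((a ^ n * u * (a ^ n)⁻¹, a ^ n • x) : G × (G ⧸ Γ)) ∈ O ×ˢ U := ⟨hn2, hn1⟩
    have h4 := hOU h3
    rw [mem_preimage] at h4
    simp only at h4
    rw [← mul_smul, inv_mul_cancel_right, mul_smul, hfan] at h4
    exact (Set.disjoint_left.1 hVW) hxV h4
  have := closure_minimal hsub hcl
  rw [(dense_recurrent hΓ a).closure_eq] at this
  exact this (mem_univ x)

end Erg

end PI
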