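import Pool.Agent.H47.PIGen
import Pool.Agent.H47.PIAlgC

/-!
# The exponential formula for the adjoint representation
-/

open scoped Manifold ContDiff Topology
open Set Filter

universe u v

namespace PI

variable {E : Type u} [NormedAddCommGroup E] [NormedSpace ℝ E] [FiniteDimensional ℝ E]
  {G : Type v} [TopologicalSpace G] [ChartedSpace E G] [Group G] [LieGroup 𝓘(ℝ, E) ∞ G] [T2Space G]

instance instFinGLA (E : Type*) [NormedAddCommGroup E] [NormedSpace ℝ E] [FiniteDimensional ℝ E]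
    (G : Type*) [TopologicalSpace G] [ChartedSpace E G] [Group G] :
    FiniteDimensional ℝ (GroupLieAlgebra 𝓘(ℝ, E) G) :=
  (inferInstance : FiniteDimensional ℝ E)

theorem Adj_ex_eq_exp (v : E) (t : ℝ) :
    (Adj (ex v t : G) : E →L[ℝ] E) = NormedSpace.exp (t • adj G v) := by
  have : CompleteSpace E := FiniteDimensional.complete ℝ E
  set T : E →L[ℝ] E := adj G v with hT
  have hd : ∀ t : ℝ, HasDerivAt (fun t : ℝ => (Adj (ex v t : G) : E →L[ℝ] E) *
      NormedSpace.exp ((-t) • T)) 0 t := by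
    intro t
    have h1 : HasDerivAt (fun t : ℝ => (Adj (ex v t : G) : E →L[ℝ] E))
      ((Adj (ex v t : G) : E →L[ℝ] E) * T) t := hasDerivAt_Adj_ex v t
    have h2 : HasDerivAt (fun t : ℝ => NormedSpace.exp ((-t) • T))
        ((-1 : ℝ) • (T * NormedSpace.exp ((-t) • T))) t :=
      (hasDerivAt_exp_smul_const' (𝕂 := ℝ) T (-t)).scomp t (hasDerivAt_neg t)
    have h3 := h1.mul h2
    refine h3.congr_deriv ?_
    rw [neg_one_smul, mul_neg, ← mul_assoc, add_neg_cancel]
  have hc : (Adj (ex v t : G) : E →L[ℝ] E) * NormedSpace.exp ((-t) • T) = 1 := by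
    have h1 := is_const_of_deriv_eq_zero (𝕜 := ℝ) (fun t => (hd t).differentiableAt)
      (fun t => (hd t).deriv) t 0
    simp only [ex_zero, neg_zero, zero_smul, NormedSpace.exp_zero, Adj_one] at h1
    rw [h1]
    rfl
  let _ : NormedAlgebra ℚ (E →L[ℝ] E) := NormedAlgebra.restrictScalars ℚ ℝ (E →L[ℝ] E)
  have he : NormedSpace.exp ((-t) • T) * NormedSpace.exp (t • T) = 1 := by
    rw [← NormedSpace.exp_add_of_commute, ← add_smul, neg_add_cancel, zero_smul,
      NormedSpace.exp_zero]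
    exact ((Commute.refl T).smul_left _).smul_right _
  calc (Adj (ex v t : G) : E →L[ℝ] E) = (Adj (ex v t : G) : E →L[ℝ] E) *
      (NormedSpace.exp ((-t) • T) * NormedSpace.exp (t • T)) := by rw [he, mul_one]
    _ = NormedSpace.exp (t • T) := by rw [← mul_assoc, hc, one_mul]

/-- Submodules invariant under `adj v` are invariant under `Adj (ex v t)`. -/
lemma Adj_ex_mem {v : E} {W : Submodule ℝ E} (h : ∀ w ∈ W, adj G v w ∈ W) (t : ℝ) {w : E}
    (hw : w ∈ W) : Adj (ex v t : G) w ∈ W := by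
  have : CompleteSpace E := FiniteDimensional.complete ℝ E
  rw [Adj_ex_eq_exp]
  have h1 := NormedSpace.exp_series_hasSum_exp' (𝕂 := ℝ) (t • adj G v)
  have h2 := h1.mapL (ContinuousLinearMap.apply ℝ E w)
  have h3 : ∀ n : ℕ, ((adj G v) ^ n) w ∈ W := by
    intro n
    induction n with
    | zero => simpa using hw
    | succ n ih =>
      rw [pow_succ']
      exact h _ ih
  refine W.closed_of_finiteDimensional.mem_of_tendsto h2 (Eventually.of_forall fun s => ?_)
  refine W.sum_mem fun n _ => ?_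
  simp only [ContinuousLinearMap.apply_apply, _root_.smul_apply, smul_pow]
  exact W.smul_mem _ (W.smul_mem _ (h3 n))

/-- The action on eigenvectors. -/
lemma Adj_ex_eig {v x : E} {μ : ℝ} (h : adj G v x = μ • x) (t : ℝ) :
    Adj (ex v t : G) x = Real.exp (μ * t) • x := by
  have hd : ∀ t : ℝ, HasDerivAt (fun t : ℝ => Real.exp (-(μ * t)) • (Adj (ex v t : G) x : E))
      0 t := by
    intro t
    have h1 : HasDerivAt (fun t : ℝ => (Adj (ex v t : G) x : E)) (μ • (Adj (ex v t : G) x : E)) t := by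
      have h2 := (hasDerivAt_Adj_ex (G := G) v t).clm_apply (hasDerivAt_const t x)
      refine h2.congr_deriv ?_
      rw [map_zero, add_zero, ContinuousLinearMap.comp_apply, h, map_smul]
    have h3 : HasDerivAt (fun t : ℝ => Real.exp (-(μ * t))) (Real.exp (-(μ * t)) * (-μ)) t := by
      have h4 : HasDerivAt (fun t : ℝ => -(μ * t)) (-μ) t := by
        have h5 := ((hasDerivAt_id t).const_mul μ).neg
        rw [mul_one] at h5
        exact h5
      exact h4.exp
    refine (h3.smul h1).congr_deriv ?_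
    rw [smul_smul, ← add_smul]
    have : Real.exp (-(μ * t)) * μ + Real.exp (-(μ * t)) * -μ = 0 := by ring
    rw [this, zero_smul]
  have h1 := is_const_of_deriv_eq_zero (𝕜 := ℝ) (fun t => (hd t).differentiableAt)
    (fun t => (hd t).deriv) t 0
  simp only [mul_zero, neg_zero, Real.exp_zero, one_smul, ex_zero, Adj_one,
    ContinuousLinearMap.id_apply] at h1
  conv_rhs => rw [← h1]
  rw [smul_smul, ← Real.exp_add, add_neg_cancel, Real.exp_zero, one_smul]

/-- Rescaling one-parameter subgroups. -/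
lemma ex_smul (v : E) (c t : ℝ) : (ex (c • v) t : G) = ex v (c * t) := by
  have h : (fun t => (ex v (c * t) : G)) = ex (c • v) := by
    refine eq_ex_of_hom (fun s t => by rw [mul_add, ex_add]) ?_
    have h1 : HasMFDerivAt 𝓘(ℝ, ℝ) 𝓘(ℝ, ℝ) (fun t : ℝ => c * t) 0
        (c • ContinuousLinearMap.id ℝ ℝ) := by
      have : HasFDerivAt (fun t : ℝ => c * t) (c • ContinuousLinearMap.id ℝ ℝ) 0 :=
        (hasFDerivAt_id (0 : ℝ)).const_mul c
      exact this.hasMFDerivAt
    have h2 : HasMFDerivAt 𝓘(ℝ, ℝ) 𝓘(ℝ, E) (ex v : ℝ → G) ((fun t : ℝ => c * t) 0)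
        ((1 : ℝ →L[ℝ] ℝ).smulRight (v : E) : ℝ →L[ℝ] E) := by
      have h0 : (fun t : ℝ => c * t) 0 = 0 := mul_zero c
      rw [h0]
      exact hasMFDerivAt_ex_zero (G := G) v
    have h3 := HasMFDerivAt.comp (f := fun t : ℝ => c * t) (0 : ℝ) h2 h1
    have h4 : (((1 : ℝ →L[ℝ] ℝ).smulRight (v : E) : ℝ →L[ℝ] E)).comp
        (c • ContinuousLinearMap.id ℝ ℝ) = (1 : ℝ →L[ℝ] ℝ).smulRight (c • v : E) := by
      ext
      simp
    rw [← h4]
    exact h3
  exact (congrFun h t).symm

lemma ex_neg (v : E) (t : ℝ) : (ex v (-t) : G) = (ex v t)⁻¹ := by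
  rw [eq_inv_iff_mul_eq_one, ← ex_add, neg_add_cancel, ex_zero]

/-- The adjoint representation is by Lie algebra automorphisms. -/
lemma adj_Adj (g : G) (v w : E) : adj G (Adj g v) (Adj g w) = (Adj g (adj G v w) : E) := by
  have h1 : HasDerivAt (fun t : ℝ => (Adj (ex (Adj g v : E) t : G) : E →L[ℝ] E)
      (Adj g w)) (adj G (Adj g v) (Adj g w)) 0 := by
    have := (hasDerivAt_Adj_ex_zero (G := G) (Adj g v : E)).clm_apply
      (hasDerivAt_const (0 : ℝ) (Adj g w : E))
    simpa using this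
  have h2 : HasDerivAt (fun t : ℝ => (Adj g (Adj (ex v t : G) w : E) : E))
      (Adj g (adj G v w)) 0 := by
    have h3 : HasDerivAt (fun t : ℝ => (Adj (ex v t : G) w : E)) (adj G v w) 0 := by
      have := (hasDerivAt_Adj_ex_zero (G := G) v).clm_apply (hasDerivAt_const (0 : ℝ) w)
      simpa using this
    exact (Adj g : E →L[ℝ] E).hasFDerivAt.comp_hasDerivAt (0 : ℝ) h3
  have h4 : (fun t : ℝ => (Adj (ex (Adj g v : E) t : G) : E →L[ℝ] E) (Adj g w)) =
      fun t : ℝ => (Adj g (Adj (ex v t : G) w : E) : E) := by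
    ext t
    rw [← conj_ex, Adj_mul_apply, Adj_mul_apply, Adj_inv_apply]
  rw [h4] at h1
  exact h1.unique h2

end PI
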