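import Pool.Agent.H47.PIBracket

/-!
# Generation of a connected Lie group by one-parameter subgroups
-/

open scoped Manifold ContDiff Topology
open Set Filter

namespace PI

variable {E : Type*} [NormedAddCommGroup E] [NormedSpace ℝ E] [FiniteDimensional ℝ E]
  {G : Type*} [TopologicalSpace G] [ChartedSpace E G] [Group G] [LieGroup 𝓘(ℝ, E) ∞ G] [T2Space G]

lemma hasDerivAt_ch_ex_of_mem (v : E) {t : ℝ} (ht : (ex v t : G) ∈ (ch (E := E) G).source)
    (hd : DifferentiableAt ℝ (mu (E := E) G) (ch G (ex v t), ch G (1 : G))) :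
    HasDerivAt (fun t : ℝ => ch (E := E) G (ex v t))
      (fderiv ℝ (mu (E := E) G) (ch G (ex v t), ch G (1 : G)) (0, v)) t := by
  have h1 := ex_integral (G := G) v t
  have h2 := hasMFDerivAt_ch (E := E) ht
  have h5 := HasMFDerivAt.comp (f := (ex v : ℝ → G)) t h2 h1
  have h3 := left_in_chart ht hd v
  have h4 : (mfderiv 𝓘(ℝ, E) 𝓘(ℝ, E) (ch (E := E) G) (ex v t : G)).comp
      ((1 : ℝ →L[ℝ] ℝ).smulRight (lvf v (ex v t : G))) =
      ((1 : ℝ →L[ℝ] ℝ).smulRight
        (fderiv ℝ (mu (E := E) G) (ch G (ex v t), ch G (1 : G)) (0, v)) : ℝ →L[ℝ] E) := by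
    refine ContinuousLinearMap.ext fun r => ?_
    refine (ContinuousLinearMap.map_smul (mfderiv 𝓘(ℝ, E) 𝓘(ℝ, E) (ch (E := E) G) (ex v t : G)) r
      (lvf v (ex v t : G))).trans ?_
    exact congrArg (fun z : E => r • z) h3
  have h5' : HasMFDerivAt 𝓘(ℝ, ℝ) 𝓘(ℝ, E) (fun t : ℝ => (ch (E := E) G (ex v t) : E)) t
      ((1 : ℝ →L[ℝ] ℝ).smulRight
        (fderiv ℝ (mu (E := E) G) (ch G (ex v t), ch G (1 : G)) (0, v)) : ℝ →L[ℝ] E) := by
    rw [← h4]
    exact h5
  have h6 : HasFDerivAt (fun t : ℝ => (ch (E := E) G (ex v t) : E))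
      ((1 : ℝ →L[ℝ] ℝ).smulRight
        (fderiv ℝ (mu (E := E) G) (ch G (ex v t), ch G (1 : G)) (0, v)) : ℝ →L[ℝ] E) t :=
    hasMFDerivAt_iff_hasFDerivAt.1 h5'
  have h7 := h6.hasDerivAt
  simpa using h7

lemma hasStrictDerivAt_ch_ex (v : E) :
    HasStrictDerivAt (fun t : ℝ => ch (E := E) G (ex v t)) v 0 := by
  have h1 : ∀ᶠ t in 𝓝 (0 : ℝ), HasDerivAt (fun t : ℝ => ch (E := E) G (ex v t))
      (fderiv ℝ (mu (E := E) G) (ch G (ex v t), ch G (1 : G)) (0, v)) t := by
    have h := (ex_ch_tendsto (G := G) v).prodMk_nhds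
        (tendsto_const_nhds (x := (ch G (1 : G) : E)) (f := 𝓝 (0 : ℝ)))
    have h2 := h.eventually (mu_diff_eventually (E := E) (G := G))
    filter_upwards [h2, ex_eventually_source (G := G) v] with t ht1 ht2
    exact hasDerivAt_ch_ex_of_mem v ht2 ht1
  have h2 : ContinuousAt (fun t : ℝ => fderiv ℝ (mu (E := E) G)
      (ch G (ex v t), ch G (1 : G)) (0, v)) 0 := by
    have hc : ContinuousAt (fderiv ℝ (mu (E := E) G))
        ((fun t : ℝ => ((ch G (ex v t) : E), (ch G (1 : G) : E))) 0) := by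
      simp only [ex_zero]
      exact (hasFDerivAt_Dmu (E := E) (G := G)).continuousAt
    have hc2 : ContinuousAt (fun t : ℝ => ((ch G (ex v t) : E), (ch G (1 : G) : E))) 0 := by
      refine ContinuousAt.prodMk ?_ continuousAt_const
      exact (hasDerivAt_ch_ex (G := G) v).continuousAt
    have hc3 := ContinuousAt.comp (f := fun t : ℝ => ((ch G (ex v t) : E), (ch G (1 : G) : E)))
      hc hc2
    exact hc3.clm_apply continuousAt_const
  have h3 := hasStrictDerivAt_of_hasDerivAt_of_continuousAt h1 h2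
  rw [ex_zero, Dmu_right] at h3
  exact h3

/-- Products of one-parameter subgroups in the chart. -/
noncomputable def chain (G : Type*) [TopologicalSpace G] [ChartedSpace E G] [Group G]
    [LieGroup 𝓘(ℝ, E) ∞ G] [T2Space G] : List (E × (E →L[ℝ] ℝ)) → E → E
  | [], _ => ch G (1 : G)
  | p :: L, x => mu G (ch G (ex p.1 (p.2 x) : G), chain G L x)

omit [FiniteDimensional ℝ E] [LieGroup 𝓘(ℝ, E) ∞ G] [T2Space G] in
lemma mu_one_one : mu (E := E) G (ch G (1 : G), ch G (1 : G)) = ch G (1 : G) := by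
  simp only [mu]
  rw [ch_symm_one, mul_one]

lemma chain_zero (L : List (E × (E →L[ℝ] ℝ))) : chain G L 0 = ch G (1 : G) := by
  induction L with
  | nil => rfl
  | cons p L ih =>
    simp only [chain, map_zero, ex_zero, ih]
    exact mu_one_one

lemma chain_strict (L : List (E × (E →L[ℝ] ℝ))) :
    HasStrictFDerivAt (chain G L) (L.map (fun p => p.2.smulRight p.1)).sum 0 := by
  induction L with
  | nil =>
    simp only [List.map_nil, List.sum_nil]
    exact hasStrictFDerivAt_const _ _
  | cons p L ih =>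
    have h1 : HasStrictFDerivAt (mu (E := E) G)
        (fderiv ℝ (mu (E := E) G) (ch G (1 : G), ch G (1 : G))) (ch G (1 : G), ch G (1 : G)) :=
      (contDiffAt_mu (E := E) (G := G)).hasStrictFDerivAt (by simp)
    have h2 : HasStrictFDerivAt (fun x : E => (ch G (ex p.1 (p.2 x) : G) : E))
        (p.2.smulRight p.1) 0 := by
      have h3 : HasStrictDerivAt (fun t : ℝ => (ch G (ex p.1 t : G) : E)) p.1 (p.2 0) := by
        rw [map_zero]; exact hasStrictDerivAt_ch_ex p.1
      have h3' := HasStrictFDerivAt.comp (0 : E) h3.hasStrictFDerivAt p.2.hasStrictFDerivAt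
      refine h3'.congr_fderiv ?_
      refine ContinuousLinearMap.ext fun x => ?_
      simp
    have h4 := h2.prodMk ih
    have h5 : HasStrictFDerivAt (mu (E := E) G)
        (fderiv ℝ (mu (E := E) G) (ch G (1 : G), ch G (1 : G)))
        ((fun x : E => ((ch G (ex p.1 (p.2 x) : G) : E), chain G L x)) 0) := by
      simp only [map_zero, ex_zero, chain_zero]
      exact h1
    have h6 := HasStrictFDerivAt.comp
      (f := fun x : E => ((ch G (ex p.1 (p.2 x) : G) : E), chain G L x)) (0 : E) h5 h4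
    refine h6.congr_fderiv ?_
    refine ContinuousLinearMap.ext fun x => ?_
    have h7 : ∀ a b : E, fderiv ℝ (mu (E := E) G) (ch G (1 : G), ch G (1 : G)) (a, b) = a + b := by
      intro a b
      have : ((a, b) : E × E) = (a, 0) + (0, b) := by simp
      rw [this, map_add, Dmu_left, Dmu_right]
    simp only [ContinuousLinearMap.comp_apply, ContinuousLinearMap.prod_apply, h7,
      List.map_cons, List.sum_cons]
    rfl

lemma chain_mem (S : Subgroup G) (L : List (E × (E →L[ℝ] ℝ)))
    (hS : ∀ p ∈ L, ∀ t, (ex p.1 t : G) ∈ S) :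
    ∀ᶠ x in 𝓝 (0 : E), (ch (E := E) G).symm (chain G L x) ∈ S := by
  induction L with
  | nil =>
    refine Eventually.of_forall fun x => ?_
    simp only [chain]
    rw [ch_symm_one]
    exact S.one_mem
  | cons p L ih =>
    have ih' := ih fun q hq => hS q (List.mem_cons_of_mem _ hq)
    have hsymm : ContinuousAt (ch (E := E) G).symm (ch G (1 : G)) :=
      continuousAt_extChartAt_symm (1 : G)
    have hc1 : Tendsto (fun x : E => (ch G (ex p.1 (p.2 x) : G) : E)) (𝓝 0) (𝓝 (ch G (1 : G))) := by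
      have h1 : Tendsto (fun x : E => p.2 x) (𝓝 0) (𝓝 0) := by
        have := p.2.continuous.tendsto (0 : E)
        rwa [map_zero] at this
      exact (ex_ch_tendsto (G := G) p.1).comp h1
    have hc2 : Tendsto (chain G L) (𝓝 0) (𝓝 (ch G (1 : G))) := by
      have := (chain_strict (G := G) L).hasFDerivAt.continuousAt.tendsto
      rwa [chain_zero] at this
    have hs1 : Tendsto (fun x : E => (ch (E := E) G).symm (ch G (ex p.1 (p.2 x) : G))) (𝓝 0)
        (𝓝 (1 : G)) := by
      have := hsymm.tendsto.comp hc1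
      rwa [ch_symm_one] at this
    have hs2 : Tendsto (fun x : E => (ch (E := E) G).symm (chain G L x)) (𝓝 0) (𝓝 (1 : G)) := by
      have := hsymm.tendsto.comp hc2
      rwa [ch_symm_one] at this
    have : ContinuousMul G := continuousMul_of_contMDiffMul 𝓘(ℝ, E) ∞
    have hprod := hs1.mul hs2
    rw [mul_one] at hprod
    have hsrc : ∀ᶠ x in 𝓝 (0 : E), (ch (E := E) G).symm (ch G (ex p.1 (p.2 x) : G)) *
        (ch (E := E) G).symm (chain G L x) ∈ (ch (E := E) G).source :=
      hprod.eventually (extChartAt_source_mem_nhds (I := 𝓘(ℝ, E)) (1 : G))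
    have hsrc2 : ∀ᶠ x in 𝓝 (0 : E), (ex p.1 (p.2 x) : G) ∈ (ch (E := E) G).source := by
      have h1 : Tendsto (fun x : E => p.2 x) (𝓝 0) (𝓝 0) := by
        have := p.2.continuous.tendsto (0 : E)
        rwa [map_zero] at this
      exact h1.eventually (ex_eventually_source (G := G) p.1)
    filter_upwards [ih', hsrc, hsrc2] with x hx1 hx2 hx3
    simp only [chain, mu]
    rw [(ch (E := E) G).left_inv hx2, (ch (E := E) G).left_inv hx3]
    exact S.mul_mem (hS p List.mem_cons_self _) hx1

/-- A subgroup which contains the one-parameter subgroups of a spanning set of directions is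
everything, if `G` is connected. -/
theorem subgroup_eq_top [ConnectedSpace G] (S : Subgroup G)
    (hS : Submodule.span ℝ {v : E | ∀ t, (ex v t : G) ∈ S} = ⊤) : S = ⊤ := by
  have : CompleteSpace E := FiniteDimensional.complete ℝ E
  have : ContinuousMul G := continuousMul_of_contMDiffMul 𝓘(ℝ, E) ∞
  obtain ⟨b, hbS, hbspan, hbli⟩ := exists_linearIndependent ℝ {v : E | ∀ t, (ex v t : G) ∈ S}
  rw [hS] at hbspan
  let B : Module.Basis b ℝ E := Module.Basis.mk hbli (by rw [Subtype.range_coe, hbspan])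
  have hfin : Finite b := Module.Finite.finite_basis B
  let _ : Fintype b := Fintype.ofFinite b
  let L : List (E × (E →L[ℝ] ℝ)) :=
    (Finset.univ : Finset b).toList.map
      fun i : b => ((i : E), LinearMap.toContinuousLinearMap (B.coord i))
  have hL : ∀ p ∈ L, ∀ t, (ex p.1 t : G) ∈ S := by
    intro p hp t
    obtain ⟨i, _, rfl⟩ := List.mem_map.1 hp
    exact hbS i.2 t
  have hsum : (L.map (fun p => p.2.smulRight p.1)).sum = ContinuousLinearMap.id ℝ E := by
    refine ContinuousLinearMap.ext fun x => ?_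
    simp only [L, List.map_map]
    rw [Finset.sum_map_toList]
    simp only [Function.comp_apply, ContinuousLinearMap.sum_apply,
      ContinuousLinearMap.smulRight_apply, LinearMap.coe_toContinuousLinearMap',
      Module.Basis.coord_apply, ContinuousLinearMap.id_apply]
    have := B.sum_repr x
    simpa [B, Module.Basis.mk_apply] using this
  have h1 := chain_strict (G := G) L
  rw [hsum] at h1
  have h2 := h1.map_nhds_eq_of_surj (by simp)
  rw [chain_zero] at h2
  have h3 := chain_mem S L hL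
  have h4 : ∀ᶠ y in 𝓝 (ch G (1 : G) : E), (ch (E := E) G).symm y ∈ S := by
    rw [← h2]
    exact h3
  have h5 : ∀ᶠ g in 𝓝 (1 : G), g ∈ S := by
    have h6 : Tendsto (ch (E := E) G) (𝓝 (1 : G)) (𝓝 (ch G (1 : G))) :=
      (continuousAt_extChartAt (I := 𝓘(ℝ, E)) (1 : G)).tendsto
    filter_upwards [h6.eventually h4, extChartAt_source_mem_nhds (I := 𝓘(ℝ, E)) (1 : G)] with g hg1 hg2
    rwa [(ch (E := E) G).left_inv hg2] at hg1
  have h6 : IsOpen (S : Set G) := Subgroup.isOpen_of_mem_nhds S h5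
  have h7 : IsClopen (S : Set G) := ⟨Subgroup.isClosed_of_isOpen S h6, h6⟩
  have h8 := h7.eq_univ ⟨1, S.one_mem⟩
  exact SetLike.coe_injective (by rw [h8]; rfl)

end PI
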