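import Mathlib

/-!
# Local sections of submersions
-/

open scoped Manifold ContDiff Topology
open Set Filter

universe u

namespace PI

variable {EX : Type u} [NormedAddCommGroup EX] [NormedSpace ℝ EX]
  {HX : Type*} [TopologicalSpace HX] {I : ModelWithCorners ℝ EX HX} [I.Boundaryless]
  {X : Type*} [TopologicalSpace X] [ChartedSpace HX X]
  {EN : Type*} [NormedAddCommGroup EN] [NormedSpace ℝ EN]
  {HN : Type*} [TopologicalSpace HN] {J : ModelWithCorners ℝ EN HN} [J.Boundaryless]
  {N : Type*} [TopologicalSpace N] [ChartedSpace HN N]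

/-- Local sections of submersions. -/
theorem exists_local_section {f : X → N} {p : X} (h : Manifold.IsSubmersionAt I J ∞ f p) :
    ∃ s : N → X, s (f p) = p ∧ ContMDiffAt J I ∞ s (f p) ∧ ∀ᶠ y in 𝓝 (f p), f (s y) = y := by
  obtain ⟨F, _, _, h⟩ := h
  set dom := h.domChart with hdom
  set cod := h.codChart with hcod
  set e := h.equiv with he
  have hw : ∀ z ∈ (dom.extend I).target, cod.extend J (f ((dom.extend I).symm z)) = (e z).1 :=
    fun z hz => h.writtenInCharts hz
  have hp : p ∈ (dom.extend I).source := by
    rw [OpenPartialHomeomorph.extend_source]; exact h.mem_domChart_source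
  have hfp : f p ∈ (cod.extend J).source := by
    rw [OpenPartialHomeomorph.extend_source]; exact h.mem_codChart_source
  set k := (e (dom.extend I p)).2 with hk
  have hzp : (e.symm ((cod.extend J (f p)), k)) = dom.extend I p := by
    have h1 := hw _ ((dom.extend I).map_source hp)
    rw [(dom.extend I).left_inv hp] at h1
    rw [h1, hk]
    exact e.symm_apply_apply _
  refine ⟨fun y => (dom.extend I).symm (e.symm (cod.extend J y, k)), ?_, ?_, ?_⟩
  · show (dom.extend I).symm (e.symm (cod.extend J (f p), k)) = p
    rw [hzp, (dom.extend I).left_inv hp]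
  · have h1 : ContMDiffAt J 𝓘(ℝ, EN) ∞ (cod.extend J) (f p) :=
      cod.contMDiffAt_extend h.codChart_mem_maximalAtlas h.mem_codChart_source
    have h2 : ContMDiffAt J 𝓘(ℝ, EN × F) ∞ (fun y => (cod.extend J y, k)) (f p) :=
      h1.prodMk_space contMDiffAt_const
    have h3 : ContMDiffAt J 𝓘(ℝ, EX) ∞ (fun y => e.symm (cod.extend J y, k)) (f p) :=
      ContMDiffAt.comp (f p) (e.symm.contDiff.contDiffAt.contMDiffAt) h2
    have h4 : ContMDiffAt 𝓘(ℝ, EX) I ∞ (dom.extend I).symm (e.symm (cod.extend J (f p), k)) := by
      rw [hzp]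
      have h5 : (I '' dom.target) = (dom.extend I).target := by
        rw [OpenPartialHomeomorph.extend_target']
      refine (contMDiffOn_extend_symm h.domChart_mem_maximalAtlas).contMDiffAt ?_
      rw [← hdom, h5]
      exact (dom.isOpen_extend_target).mem_nhds ((dom.extend I).map_source hp)
    exact ContMDiffAt.comp (f p) h4 h3
  · have hc1 : ContinuousAt (cod.extend J) (f p) := cod.continuousAt_extend h.mem_codChart_source
    have hc2 : Tendsto (fun y => e.symm (cod.extend J y, k)) (𝓝 (f p)) (𝓝 (dom.extend I p)) := by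
      rw [← hzp]
      exact (e.symm.continuous.tendsto _).comp
        (hc1.tendsto.prodMk_nhds (tendsto_const_nhds (x := k)))
    have ht : ∀ᶠ y in 𝓝 (f p), e.symm (cod.extend J y, k) ∈ (dom.extend I).target :=
      hc2.eventually ((dom.isOpen_extend_target).mem_nhds ((dom.extend I).map_source hp))
    have hs : ∀ᶠ y in 𝓝 (f p), y ∈ cod.source :=
      cod.open_source.mem_nhds h.mem_codChart_source
    filter_upwards [ht, hs] with y hy1 hy2
    have h1 := hw _ hy1
    rw [ContinuousLinearEquiv.apply_symm_apply] at h1
    have h2 : (dom.extend I).symm (e.symm (cod.extend J y, k)) ∈ dom.source := by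
      have := (dom.extend I).map_target hy1
      rwa [OpenPartialHomeomorph.extend_source] at this
    have h3 := h.source_subset_preimage_source h2
    refine (cod.extend J).injOn ?_ ?_ h1
    · rw [OpenPartialHomeomorph.extend_source]; exact h3
    · rw [OpenPartialHomeomorph.extend_source]; exact hy2

/-- Submersions are open. -/
theorem isOpenMap_of_submersion {f : X → N} (h : Manifold.IsSubmersion I J ∞ f) : IsOpenMap f := by
  refine isOpenMap_iff_nhds_le.2 fun p => ?_
  obtain ⟨s, hs1, hs2, hs3⟩ := exists_local_section (h.isSubmersionAt p)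
  intro U hU
  have h1 : s ⁻¹' (f ⁻¹' U) ∈ 𝓝 (f p) := by
    refine hs2.continuousAt.preimage_mem_nhds ?_
    rw [hs1]
    exact hU
  filter_upwards [h1, hs3] with y hy1 hy2
  rw [mem_preimage, mem_preimage, hy2] at hy1
  exact hy1

end PI
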