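import Pool.Agent.H47.PIChar
import Pool.Agent.H47.PISub

/-!
# Parabolically induced actions
-/

open scoped Manifold ContDiff Topology
open Set Filter Module

universe u v

namespace PI


variable {E : Type*} [NormedAddCommGroup E] [NormedSpace ℝ E]
  {EM : Type*} [NormedAddCommGroup EM] [NormedSpace ℝ EM]
  {EN : Type*} [NormedAddCommGroup EN] [NormedSpace ℝ EN]
  {G : Type*} [TopologicalSpace G] [ChartedSpace E G] [Group G]
  {M : Type*} [TopologicalSpace M] [ChartedSpace EM M]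
  {N : Type*} [TopologicalSpace N] [ChartedSpace EN N] [MulAction G N]
  {Q : Subgroup G} {φ : Q → ℝ} {ρ : ℝ → M → M} {π : G × M → N}

namespace IsInduced

lemma isOpenQuotientMap (hπ : IsInduced E EM EN φ ρ π) : IsOpenQuotientMap π :=
  ⟨hπ.surjective, hπ.submersion.contMDiff.continuous, isOpenMap_of_submersion hπ.submersion⟩

lemma continuousSMul [ContinuousMul G] (hπ : IsInduced E EM EN φ ρ π) : ContinuousSMul G N := by
  refine ⟨?_⟩
  have h1 : IsOpenQuotientMap (Prod.map (id : G → G) π) :=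
    IsOpenQuotientMap.id.prodMap hπ.isOpenQuotientMap
  rw [h1.isQuotientMap.continuous_iff]
  have h2 : (fun p : G × N => p.1 • p.2) ∘ Prod.map (id : G → G) π =
      fun p : G × (G × M) => π (p.1 * p.2.1, p.2.2) := by
    ext p
    exact hπ.smul p.1 p.2
  rw [h2]
  refine hπ.isOpenQuotientMap.continuous.comp ?_
  fun_prop

/-- Moving along an element of `Q`. -/
lemma move (hπ : IsInduced E EM EN φ ρ π) (q : Q) (m : M) : π ((q : G), m) = π (1, ρ (φ q) m) := by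
  rw [hπ.eq_iff]
  exact ⟨q, by simp⟩

lemma inj (hπ : IsInduced E EM EN φ ρ π) (hφ : IsChar Q φ) (hρ : ∀ m, ρ 0 m = m) {m m' : M}
    (h : π (1, m) = π (1, m')) : m = m' := by
  obtain ⟨q, hq⟩ := (hπ.eq_iff _ _).1 h
  have h1 : (1 : G) = 1 * (q : G)⁻¹ := congrArg Prod.fst hq
  have h2 : m' = ρ (φ q) m := congrArg Prod.snd hq
  have h3 : q = 1 := by
    apply Subtype.ext
    rw [one_mul, eq_comm, inv_eq_one] at h1
    exact h1
  rw [h3, hφ.map_one, hρ] at h2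
  exact h2.symm

/-- The projection to `G ⧸ Q`. -/
noncomputable def proj (hπ : IsInduced E EM EN φ ρ π) (y : N) : G ⧸ Q :=
  QuotientGroup.mk (hπ.surjective y).choose.1

lemma proj_apply (hπ : IsInduced E EM EN φ ρ π) (g : G) (m : M) :
    hπ.proj (π (g, m)) = QuotientGroup.mk g := by
  unfold proj
  have h1 := (hπ.surjective (π (g, m))).choose_spec
  obtain ⟨q, hq⟩ := (hπ.eq_iff _ _).1 h1
  have h2 : g = (hπ.surjective (π (g, m))).choose.1 * (q : G)⁻¹ := congrArg Prod.fst hq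
  rw [QuotientGroup.eq]
  have h3 : (hπ.surjective (π (g, m))).choose.1⁻¹ * g = (q : G)⁻¹ := by
    have h4 : ∀ a b c : G, c = a * b → a⁻¹ * c = b := by
      rintro a b c rfl
      rw [inv_mul_cancel_left]
    exact h4 _ _ _ h2
  rw [h3]
  exact Q.inv_mem q.2

lemma continuous_proj (hπ : IsInduced E EM EN φ ρ π) : Continuous hπ.proj := by
  rw [hπ.isOpenQuotientMap.isQuotientMap.continuous_iff]
  have h2 : hπ.proj ∘ π = fun p : G × M => (QuotientGroup.mk p.1 : G ⧸ Q) := by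
    ext p
    exact hπ.proj_apply p.1 p.2
  rw [h2]
  exact QuotientGroup.continuous_mk.comp continuous_fst

lemma proj_smul (hπ : IsInduced E EM EN φ ρ π) (g : G) (y : N) :
    hπ.proj (g • y) = g • hπ.proj y := by
  obtain ⟨⟨x, m⟩, rfl⟩ := hπ.surjective y
  rw [hπ.smul, hπ.proj_apply, hπ.proj_apply]
  rfl

lemma exists_of_proj (hπ : IsInduced E EM EN φ ρ π) {y : N}
    (hy : hπ.proj y = QuotientGroup.mk 1) : ∃ m, y = π (1, m) := by
  obtain ⟨⟨x, m⟩, rfl⟩ := hπ.surjective y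
  rw [hπ.proj_apply, eq_comm, QuotientGroup.eq, inv_one, one_mul] at hy
  exact ⟨_, hπ.move ⟨x, hy⟩ m⟩

lemma smul_ker (hπ : IsInduced E EM EN φ ρ π) (hφ : IsChar Q φ) (hρ : ∀ m, ρ 0 m = m) (m : M)
    {k : G} (hk : k ∈ hφ.ker) : k • π (1, m) = π (1, m) := by
  obtain ⟨hkQ, hk0⟩ := hk
  rw [hπ.smul]
  simp only [mul_one]
  rw [hπ.move ⟨k, hkQ⟩ m, hk0, hρ]

end IsInduced

section Main

variable {E : Type u} [NormedAddCommGroup E] [NormedSpace ℝ E] [FiniteDimensional ℝ E]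
  {G : Type v} [TopologicalSpace G] [ChartedSpace E G] [Group G] [LieGroup 𝓘(ℝ, E) ∞ G]
  [T2Space G] [SecondCountableTopology G] [ConnectedSpace G]
  [LieAlgebra.IsSimple ℝ (GroupLieAlgebra 𝓘(ℝ, E) G)]
  {EM : Type*} [NormedAddCommGroup EM] [NormedSpace ℝ EM]
  {EM' : Type*} [NormedAddCommGroup EM'] [NormedSpace ℝ EM']
  {EN : Type*} [NormedAddCommGroup EN] [NormedSpace ℝ EN]
  {EN' : Type*} [NormedAddCommGroup EN'] [NormedSpace ℝ EN']
  {M : Type*} [TopologicalSpace M] [ChartedSpace EM M]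
  {M' : Type*} [TopologicalSpace M'] [ChartedSpace EM' M']
  {N : Type*} [TopologicalSpace N] [ChartedSpace EN N] [MulAction G N]
  {N' : Type*} [TopologicalSpace N'] [ChartedSpace EN' N'] [T2Space N'] [MulAction G N']
  {Γ Q : Subgroup G} {H : GroupLieAlgebra 𝓘(ℝ, E) G} {φ : Q → ℝ} {ρ : ℝ → M → M}
  {ρ' : ℝ → M' → M'} {π : G × M → N} {π' : G × M' → N'}

/-- The one-sided theorem. -/
theorem exists_factor (hΓ : FiniteCovolume Γ)
    (hr : RealRankGeTwo (GroupLieAlgebra 𝓘(ℝ, E) G)) (hQ : ParabolicOf Q H) (hφ : IsChar Q φ)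
    (hρ : IsSmoothFlow EM ρ) (hρ' : IsSmoothFlow EM' ρ')
    (hπ : IsInduced E EM EN φ ρ π) (hπ' : IsInduced E EM' EN' φ ρ' π')
    {h : N → N'} (hh : ContMDiff 𝓘(ℝ, EN) 𝓘(ℝ, EN') ∞ h) (hhΓ : ∀ γ ∈ Γ, ∀ y, h (γ • y) = γ • h y) :
    (∀ (g : G) (y : N), h (g • y) = g • h y) ∧
    ∃ h₀ : M → M', (∀ m, h (π (1, m)) = π' (1, h₀ m)) ∧
      (∀ (q : Q) (m : M), h₀ (ρ (φ q) m) = ρ' (φ q) (h₀ m)) ∧
      ContMDiff 𝓘(ℝ, EM) 𝓘(ℝ, EM') ∞ h₀ := by
  have : IsTopologicalGroup G := topologicalGroup_of_lieGroup 𝓘(ℝ, E) ∞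
  have hcs : ContinuousSMul G N := hπ.continuousSMul
  have hcs' : ContinuousSMul G N' := hπ'.continuousSMul
  obtain ⟨H0, a, hH0, hne, haK, ha⟩ := exists_diag_ker hQ hφ hr
  have hrigid : ∀ m, (∀ g : G, h (g • π (1, m)) = g • h (π (1, m))) ∧
      hπ'.proj (h (π (1, m))) = QuotientGroup.mk 1 := by
    intro m
    refine rigid (K := hφ.ker) hΓ hQ (fun p hp q hq => hφ.comm_mem_ker hp hq) hH0 hne ha haK
      hπ'.continuous_proj hπ'.proj_smul ?_ hh.continuous hhΓ ?_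
    · intro y hy k hk
      obtain ⟨m', rfl⟩ := hπ'.exists_of_proj hy
      exact hπ'.smul_ker hφ hρ'.zero m' hk
    · intro k hk
      exact hπ.smul_ker hφ hρ.zero m hk
  have hex : ∀ m, ∃ m', h (π (1, m)) = π' (1, m') := fun m => hπ'.exists_of_proj (hrigid m).2
  choose h₀ hh₀ using hex
  refine ⟨?_, h₀, hh₀, ?_, ?_⟩
  · intro g y
    obtain ⟨⟨x, m⟩, rfl⟩ := hπ.surjective y
    have h1 : π (x, m) = x • π (1, m) := by rw [hπ.smul]; simp
    rw [h1, smul_smul, (hrigid m).1, (hrigid m).1, mul_smul]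
  · intro q m
    apply hπ'.inj hφ hρ'.zero
    have h1 : π ((q : G), m) = (q : G) • π (1, m) := by rw [hπ.smul]; simp
    have h2 : π' ((q : G), h₀ m) = (q : G) • π' (1, h₀ m) := by rw [hπ'.smul]; simp
    rw [← hh₀, ← hπ.move, ← hπ'.move, h1, h2, (hrigid m).1, hh₀]
  · intro m₀
    -- a local section of `π'`
    obtain ⟨s, hs1, hs2, hs3⟩ := exists_local_section
      (hπ'.submersion.isSubmersionAt ((1 : G), h₀ m₀))
    obtain ⟨ψ, hψ, hψ'⟩ := exists_smooth_extension hQ hφ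
    have hf0 : ContMDiffAt 𝓘(ℝ, EM) 𝓘(ℝ, EN') ∞ (fun m : M => h (π ((1 : G), m))) m₀ := by
      have h1 : ContMDiff 𝓘(ℝ, EM) (𝓘(ℝ, E).prod 𝓘(ℝ, EM)) ∞ (fun m : M => ((1 : G), m)) :=
        contMDiff_const.prodMk contMDiff_id
      exact ((hh.comp hπ.submersion.contMDiff).comp h1).contMDiffAt
    have hs2' : ContMDiffAt 𝓘(ℝ, EN') (𝓘(ℝ, E).prod 𝓘(ℝ, EM')) ∞ s (h (π ((1 : G), m₀))) := by
      rw [hh₀]; exact hs2
    have hf : ContMDiffAt 𝓘(ℝ, EM) (𝓘(ℝ, E).prod 𝓘(ℝ, EM')) ∞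
        (fun m : M => s (h (π ((1 : G), m)))) m₀ := hs2'.comp m₀ hf0
    have hf1 : ContMDiffAt 𝓘(ℝ, EM) 𝓘(ℝ, E) ∞ (fun m : M => (s (h (π ((1 : G), m)))).1) m₀ :=
      contMDiffAt_fst.comp m₀ hf
    have hf2 : ContMDiffAt 𝓘(ℝ, EM) 𝓘(ℝ, EM') ∞ (fun m : M => (s (h (π ((1 : G), m)))).2) m₀ :=
      contMDiffAt_snd.comp m₀ hf
    have hs0 : s (h (π ((1 : G), m₀))) = (1, h₀ m₀) := by rw [hh₀, hs1]
    have hψ2 : ContMDiffAt 𝓘(ℝ, E) 𝓘(ℝ, ℝ) ∞ ψ (s (h (π ((1 : G), m₀)))).1 := by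
      rw [hs0]; exact hψ
    have hψ3 : ContMDiffAt 𝓘(ℝ, EM) 𝓘(ℝ, ℝ) ∞ (fun m : M => ψ (s (h (π ((1 : G), m)))).1) m₀ :=
      hψ2.comp m₀ hf1
    have hfin : ContMDiffAt 𝓘(ℝ, EM) 𝓘(ℝ, EM') ∞
        (fun m : M => ρ' (ψ (s (h (π ((1 : G), m)))).1) (s (h (π ((1 : G), m)))).2) m₀ :=
      (hρ'.smooth.contMDiffAt).comp m₀ (hψ3.prodMk hf2)
    refine hfin.congr_of_eventuallyEq ?_
    have ht : Tendsto (fun m : M => h (π ((1 : G), m))) (𝓝 m₀) (𝓝 (π' (1, h₀ m₀))) := by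
      rw [← hh₀]; exact hf0.continuousAt
    have ht1 : Tendsto (fun m : M => (s (h (π ((1 : G), m)))).1) (𝓝 m₀) (𝓝 1) := by
      have := hf1.continuousAt.tendsto
      rwa [hs0] at this
    filter_upwards [ht.eventually hs3, ht1.eventually hψ'] with m hm1 hm2
    have h1 : π' (1, h₀ m) = π' (s (h (π ((1 : G), m)))) := by rw [hm1, hh₀]
    obtain ⟨q, hq⟩ := (hπ'.eq_iff _ _).1 h1
    have hq1 : (s (h (π ((1 : G), m)))).1 = (q : G)⁻¹ := by rw [hq]; simp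
    have hq2 : (s (h (π ((1 : G), m)))).2 = ρ' (φ q) (h₀ m) := by rw [hq]
    rw [hq1] at hm2
    have h3 := hm2 (Q.inv_mem q.2)
    have h4 : extChar φ (q : G)⁻¹ = - φ q := by
      rw [extChar_of_mem (Q.inv_mem q.2), ← hφ.map_inv]
      rfl
    rw [hq1, hq2, ← h3, h4, ← hρ'.add, neg_add_cancel, hρ'.zero]

/-- A character which is nontrivial on the identity component is surjective. -/
lemma IsChar.surjective {G : Type*} [TopologicalSpace G] [Group G] {Q : Subgroup G} {φ : Q → ℝ}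
    (hφ : IsChar Q φ) (h : ∃ q ∈ connectedComponent (1 : Q), φ q ≠ 0) :
    Function.Surjective φ := by
  obtain ⟨q, hq, hq0⟩ := h
  let S : AddSubgroup ℝ :=
    { carrier := Set.range φ
      add_mem' := by
        rintro _ _ ⟨a, rfl⟩ ⟨b, rfl⟩
        exact ⟨a * b, hφ.map_mul a b⟩
      zero_mem' := ⟨1, hφ.map_one⟩
      neg_mem' := by
        rintro _ ⟨a, rfl⟩
        exact ⟨a⁻¹, hφ.map_inv a⟩ }
  have h1 : IsPreconnected (φ '' connectedComponent (1 : Q)) :=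
    isPreconnected_connectedComponent.image φ hφ.cont.continuousOn
  have h2 : Set.uIcc 0 (φ q) ⊆ (S : Set ℝ) := by
    have h3 : Set.uIcc 0 (φ q) ⊆ φ '' connectedComponent (1 : Q) := by
      refine h1.ordConnected.uIcc_subset ⟨1, mem_connectedComponent, hφ.map_one⟩ ⟨q, hq, rfl⟩
    exact h3.trans (image_subset_range _ _)
  have h4 : (S : Set ℝ) ∈ 𝓝 (φ q / 2) := by
    refine Filter.mem_of_superset ?_ h2
    rcases lt_or_gt_of_ne hq0 with h | h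
    · rw [Set.uIcc_of_ge h.le]
      exact Icc_mem_nhds (by linarith) (by linarith)
    · rw [Set.uIcc_of_le h.le]
      exact Icc_mem_nhds (by linarith) (by linarith)
  have h5 : IsOpen (S : Set ℝ) := AddSubgroup.isOpen_of_mem_nhds S h4
  have h6 : IsClopen (S : Set ℝ) := ⟨AddSubgroup.isClosed_of_isOpen S h5, h5⟩
  have h7 := h6.eq_univ ⟨0, S.zero_mem⟩
  intro t
  have : t ∈ (S : Set ℝ) := by rw [h7]; exact mem_univ t
  exact this

/-- The main theorem. -/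
theorem exists_diffeo [T2Space N] [T2Space M'] (hΓ : FiniteCovolume Γ)
    (hr : RealRankGeTwo (GroupLieAlgebra 𝓘(ℝ, E) G)) (hQ : ParabolicOf Q H) (hφ : IsChar Q φ)
    (hρ : IsSmoothFlow EM ρ) (hρ' : IsSmoothFlow EM' ρ')
    (hπ : IsInduced E EM EN φ ρ π) (hπ' : IsInduced E EM' EN' φ ρ' π')
    (h : N ≃ₘ⟮𝓘(ℝ, EN), 𝓘(ℝ, EN')⟯ N') (hhΓ : ∀ γ ∈ Γ, ∀ y, h (γ • y) = γ • h y) :
    (∀ (g : G) (y : N), h (g • y) = g • h y) ∧
    ∃ h₀ : M ≃ₘ⟮𝓘(ℝ, EM), 𝓘(ℝ, EM')⟯ M',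
      (∀ t ∈ closure (Set.range φ), ∀ m, h₀ (ρ t m) = ρ' t (h₀ m)) ∧
      ((∃ q ∈ connectedComponent (1 : Q), φ q ≠ 0) → ∀ t m, h₀ (ρ t m) = ρ' t (h₀ m)) := by
  obtain ⟨hG, f, hf1, hf2, hf3⟩ := exists_factor hΓ hr hQ hφ hρ hρ' hπ hπ' h.contMDiff hhΓ
  obtain ⟨_, g, hg1, hg2, hg3⟩ := exists_factor hΓ hr hQ hφ hρ' hρ hπ' hπ h.symm.contMDiff
    (fun γ hγ y => by
      have key := hhΓ γ hγ (h.symm y)
      rw [h.apply_symm_apply] at key
      rw [← key, h.symm_apply_apply])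
  have hgf : ∀ m, g (f m) = m := by
    intro m
    apply hπ.inj hφ hρ.zero
    rw [← hg1, ← hf1, h.symm_apply_apply]
  have hfg : ∀ m, f (g m) = m := by
    intro m
    apply hπ'.inj hφ hρ'.zero
    rw [← hf1, ← hg1, h.apply_symm_apply]
  let h₀ : M ≃ₘ⟮𝓘(ℝ, EM), 𝓘(ℝ, EM')⟯ M' :=
    { toEquiv := ⟨f, g, hgf, hfg⟩
      contMDiff_toFun := hf3
      contMDiff_invFun := hg3 }
  have hcl : ∀ t ∈ closure (Set.range φ), ∀ m, h₀ (ρ t m) = ρ' t (h₀ m) := by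
    intro t ht m
    have h1 : IsClosed {t : ℝ | f (ρ t m) = ρ' t (f m)} := by
      refine isClosed_eq ?_ ?_
      · exact hf3.continuous.comp
          (hρ.smooth.continuous.comp (continuous_id.prodMk continuous_const))
      · exact hρ'.smooth.continuous.comp (continuous_id.prodMk continuous_const)
    have h2 : Set.range φ ⊆ {t : ℝ | f (ρ t m) = ρ' t (f m)} := by
      rintro _ ⟨q, rfl⟩
      exact hf2 q m
    exact closure_minimal h2 h1 ht
  refine ⟨hG, h₀, hcl, fun hq t m => hcl t ?_ m⟩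
  rw [(hφ.surjective hq).range_eq, closure_univ]
  exact mem_univ t

end Main

end PI
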