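import Pool.Agent.H47.PIPar

/-!
# Mautner phenomenon on simple Lie groups, and self-normalisation of parabolics modulo the kernel
-/

open scoped Manifold ContDiff Topology
open Set Filter Module

universe u v

namespace PI

variable {E : Type u} [NormedAddCommGroup E] [NormedSpace ℝ E] [FiniteDimensional ℝ E]
  {G : Type v} [TopologicalSpace G] [ChartedSpace E G] [Group G] [LieGroup 𝓘(ℝ, E) ∞ G] [T2Space G]

omit [FiniteDimensional ℝ E] in
/-- The derivative of a curve in a closed submodule lies in the submodule. -/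
lemma mem_of_hasDerivAt {W : Submodule ℝ E} (hW : IsClosed (W : Set E)) {f : ℝ → E} {f' : E}
    (hf : ∀ t, f t ∈ W) (h : HasDerivAt f f' 0) : f' ∈ W := by
  have h1 := hasDerivAt_iff_tendsto_slope.1 h
  refine hW.mem_of_tendsto h1 (Eventually.of_forall fun t => ?_)
  rw [slope_def_module]
  exact W.smul_mem _ (W.sub_mem (hf t) (hf 0))

section D

variable {Q : Subgroup G} {H : GroupLieAlgebra 𝓘(ℝ, E) G}

lemma hasDerivAt_comm' (Z Y z : E) :
    HasDerivAt (fun s : ℝ => (Adj (ex Z s * ex Y (-s) : G) z : E))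
      (adj G Z z - adj G Y z) 0 := by
  have h1 := hasDerivAt_Adj_ex_zero (E := E) (G := G) Z
  have h2 : HasDerivAt (fun s : ℝ => (Adj (ex Y (-s) : G) : E →L[ℝ] E)) (-(adj G Y)) 0 := by
    have h3 : HasDerivAt (fun t : ℝ => (Adj (ex Y t : G) : E →L[ℝ] E)) (adj G Y) (-0) := by
      rw [neg_zero]; exact hasDerivAt_Adj_ex_zero (E := E) (G := G) Y
    have h4 := h3.scomp (0 : ℝ) (hasDerivAt_neg (0 : ℝ))
    rw [neg_one_smul] at h4
    exact h4
  have h5 := (h1.clm_comp h2).clm_apply (hasDerivAt_const (0 : ℝ) z)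
  have h6 : (fun s : ℝ => (Adj (ex Z s * ex Y (-s) : G) z : E)) = fun s : ℝ =>
      ((Adj (ex Z s : G) : E →L[ℝ] E).comp (Adj (ex Y (-s) : G) : E →L[ℝ] E)) z := by
    ext s
    exact Adj_mul_apply (E := E) _ _ _
  rw [h6]
  refine h5.congr_deriv ?_
  rw [map_zero, add_zero, neg_zero, ex_zero, ex_zero, Adj_one]
  simp only [_root_.add_apply, ContinuousLinearMap.comp_apply, ContinuousLinearMap.id_apply,
    _root_.neg_apply]
  rw [sub_eq_add_neg]

lemma hasDerivAt_comm (Z Y z : GroupLieAlgebra 𝓘(ℝ, E) G) :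
    HasDerivAt (F := E) (fun s : ℝ => (Ad (exL Z s * exL Y (-s) : G) z : E))
      (⁅Z - Y, z⁆ : GroupLieAlgebra 𝓘(ℝ, E) G) 0 := by
  have h7 : adj (E := E) G Z z = (⁅Z, z⁆ : GroupLieAlgebra 𝓘(ℝ, E) G) := adj_eq_bracket Z z
  have h8 : adj (E := E) G Y z = (⁅Y, z⁆ : GroupLieAlgebra 𝓘(ℝ, E) G) := adj_eq_bracket Y z
  have h9 : adj (E := E) G Z z - adj (E := E) G Y z =
      (⁅Z - Y, z⁆ : GroupLieAlgebra 𝓘(ℝ, E) G) := by
    rw [h7, h8, sub_lie]
    rfl
  exact (hasDerivAt_comm' (E := E) (G := G) Z Y z).congr_deriv h9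

omit [LieGroup 𝓘(ℝ, E) ∞ G] [T2Space G] in
lemma mem_of_hasDerivAt_L {W : Submodule ℝ (GroupLieAlgebra 𝓘(ℝ, E) G)}
    {f : ℝ → GroupLieAlgebra 𝓘(ℝ, E) G} {f' : GroupLieAlgebra 𝓘(ℝ, E) G}
    (hf : ∀ t, f t ∈ W) (h : HasDerivAt (F := E) f f' 0) : f' ∈ W :=
  mem_of_hasDerivAt (E := E) (W := W) (isClosed_submodule W) hf h

/-- If the commutators of `Q` are conjugated into `Q` by `g`, then `g ∈ Q`. -/
theorem ParabolicOf.mem_of_comm [LieAlgebra.IsKilling ℝ (GroupLieAlgebra 𝓘(ℝ, E) G)]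
    (hQ : ParabolicOf Q H) {g : G}
    (h : ∀ p ∈ Q, ∀ q ∈ Q, g⁻¹ * (p * q * p⁻¹ * q⁻¹) * g ∈ Q) : g ∈ Q := by
  have hH' : IsRealDiag (Ad g H) := isRealDiag_Ad g hQ.1
  have hmap := map_Ad_parab g H
  -- elements conjugated into `Q` preserve `parab (Ad g H)`
  have hk : ∀ k : G, g⁻¹ * k * g ∈ Q → ∀ z ∈ parab (Ad g H), Ad k z ∈ parab (Ad g H) := by
    intro k hk z hz
    rw [← hmap] at hz ⊢
    obtain ⟨y, hy, rfl⟩ := hz
    have h1 : Ad k (Ad g y) = Ad g (Ad (g⁻¹ * k * g) y) := by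
      rw [← Ad_mul, ← Ad_mul]
      congr 2
      group
    rw [h1]
    exact Submodule.mem_map_of_mem ((hQ.mem_iff _).1 hk y hy)
  have hbr : ∀ x ∈ parab H, ∀ y ∈ parab H, ⁅x, y⁆ ∈ parab (Ad g H) := by
    intro X hX Y hY
    have h1 : ∀ t : ℝ, Ad (exL X t : G) Y - Y ∈ parab (Ad g H) := by
      intro t
      refine mem_parab_of_normalises hH' fun z hz => ?_
      have h2 := hasDerivAt_comm (G := G) (Ad (exL X t : G) Y) Y z
      refine mem_of_hasDerivAt_L (W := parab (Ad g H)) (fun s => ?_) h2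
      refine hk _ ?_ z hz
      have h3 := h (exL X t) (hQ.ex_mem hX t) (exL Y s) (hQ.ex_mem hY s)
      rwa [conj_exL, ← exL_neg] at h3
    have h4 : HasDerivAt (F := E) (fun t : ℝ => ((Ad (exL X t : G) Y - Y :
        GroupLieAlgebra 𝓘(ℝ, E) G) : E)) (⁅X, Y⁆ : GroupLieAlgebra 𝓘(ℝ, E) G) 0 :=
      (hasDerivAt_Ad_exL X Y).sub_const (F := E) Y
    exact mem_of_hasDerivAt_L (W := parab (Ad g H)) h1 h4
  have hdim : finrank ℝ (parab H) = finrank ℝ (parab (Ad g H)) := by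
    rw [← hmap, finrank_map_Ad]
  have h5 := parab_eq_of_lie_le hQ.1 hH' hdim hbr
  rw [hQ.2, hmap, ← h5]

end D

section M

lemma tendsto_conj {a : G} {y : GroupLieAlgebra 𝓘(ℝ, E) G} {r : ℝ} (hr0 : 0 < r) (hr : r < 1)
    (ha : Ad a y = r • y) (s : ℝ) :
    Tendsto (fun n : ℕ => a ^ n * exL y s * (a ^ n)⁻¹) atTop (𝓝 (1 : G)) := by
  have h1 : ∀ n : ℕ, Ad (a ^ n) y = r ^ n • y := by
    intro n
    induction n with
    | zero => rw [pow_zero, pow_zero, Ad_one, one_smul]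
    | succ n ih => rw [pow_succ', Ad_mul, ih, map_smul, ha, smul_smul, ← pow_succ]
  have h2 : (fun n : ℕ => a ^ n * exL y s * (a ^ n)⁻¹) = fun n : ℕ => (exL y (r ^ n * s) : G) := by
    ext n
    rw [conj_exL, h1, exL_smul]
  rw [h2]
  have h3 : Tendsto (fun n : ℕ => r ^ n * s) atTop (𝓝 0) := by
    have := (tendsto_pow_atTop_nhds_zero_of_lt_one hr0.le hr).mul_const s
    rwa [zero_mul] at this
  have h4 := (exL_continuous (G := G) y).tendsto 0
  rw [exL_zero] at h4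
  exact h4.comp h3

variable [SecondCountableTopology G] [ConnectedSpace G]
  [LieAlgebra.IsSimple ℝ (GroupLieAlgebra 𝓘(ℝ, E) G)] {Γ : Subgroup G}

/-- Continuous maps on `G ⧸ Γ` invariant under a nontrivial real-diagonalisable element are
invariant under `G`. -/
theorem invariant_of_diag {Z : Type*} [TopologicalSpace Z] [T2Space Z] (hΓ : FiniteCovolume Γ)
    {f : G ⧸ Γ → Z} (hf : Continuous f) {H0 : GroupLieAlgebra 𝓘(ℝ, E) G} (hH0 : IsRealDiag H0)
    (hne : H0 ≠ 0) {a : G} (ha : ∀ x : GroupLieAlgebra 𝓘(ℝ, E) G, Ad a x = Ad (exL H0 1 : G) x)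
    (hfa : ∀ x, f (a • x) = f x) (g : G) (x : G ⧸ Γ) : f (g • x) = f x := by
  have : IsTopologicalGroup G := topologicalGroup_of_lieGroup 𝓘(ℝ, E) ∞
  let S : Subgroup G :=
    { carrier := {g | ∀ x : G ⧸ Γ, f (g • x) = f x}
      mul_mem' := by
        intro p q hp hq x
        rw [mul_smul, hp, hq]
      one_mem' := fun x => by rw [one_smul]
      inv_mem' := by
        intro p hp x
        have := hp (p⁻¹ • x)
        rw [smul_inv_smul] at this
        exact this.symm }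
  have hfa' : ∀ x : G ⧸ Γ, f (a⁻¹ • x) = f x := by
    intro x
    have := hfa (a⁻¹ • x)
    rw [smul_inv_smul] at this
    exact this.symm
  have h1 : ∀ (y : GroupLieAlgebra 𝓘(ℝ, E) G) (μ : ℝ), μ ≠ 0 → ⁅H0, y⁆ = μ • y →
      ∀ s, (exL y s : G) ∈ S := by
    intro y μ hμ hy s
    have hay : Ad a y = Real.exp μ • y := by rw [ha, Ad_exL_eig hy, mul_one]
    rcases lt_or_gt_of_ne hμ with hμ | hμ
    · exact fun x => mautner hΓ hf hfa
        (tendsto_conj (Real.exp_pos μ) (Real.exp_lt_one_iff.2 hμ) hay s) x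
    · have hay' : Ad a⁻¹ y = Real.exp (-μ) • y := by
        have h2 : Ad a⁻¹ (Ad a y) = Ad a⁻¹ (Real.exp μ • y) := by rw [hay]
        rw [Ad_inv_apply, map_smul] at h2
        conv_rhs => rw [h2]
        rw [smul_smul, ← Real.exp_add, neg_add_cancel, Real.exp_zero, one_smul]
      exact fun x => mautner hΓ hf hfa'
        (tendsto_conj (Real.exp_pos (-μ)) (Real.exp_lt_one_iff.2 (by linarith)) hay' s) x
  let V : Submodule ℝ (GroupLieAlgebra 𝓘(ℝ, E) G) :=
    Submodule.span ℝ {v : GroupLieAlgebra 𝓘(ℝ, E) G | ∀ t, (exL v t : G) ∈ S}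
  have hV : V = ⊤ := by
    refine eq_top_of_normalised hH0 hne V fun y μ hμ hy => ⟨Submodule.subset_span (h1 y μ hμ hy), ?_⟩
    intro v hv
    have h2 : V ≤ V.comap (LieAlgebra.ad ℝ (GroupLieAlgebra 𝓘(ℝ, E) G) y) := by
      refine Submodule.span_le.2 fun v hv => ?_
      show ⁅y, v⁆ ∈ V
      refine mem_of_hasDerivAt_L (W := V) (fun s => ?_) (hasDerivAt_Ad_exL y v)
      refine Submodule.subset_span fun t => ?_
      rw [← conj_exL]
      exact S.mul_mem (S.mul_mem (h1 y μ hμ hy s) (hv t)) (S.inv_mem (h1 y μ hμ hy s))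
    exact h2 hv
  have hS : S = ⊤ := subgroup_eq_top (E := E) S hV
  have : g ∈ S := by rw [hS]; exact Subgroup.mem_top g
  exact this x

end M

end PI
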