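import Pool.Agent.H47.PIDefs

/-!
# One-parameter subgroups of Lie groups
-/

open scoped Manifold ContDiff Topology
open Set Filter

namespace PI

variable {E : Type*} [NormedAddCommGroup E] [NormedSpace ℝ E]
  {G : Type*} [TopologicalSpace G] [ChartedSpace E G] [Group G]

variable [LieGroup 𝓘(ℝ, E) ∞ G]

/-- The left-invariant vector field. -/
noncomputable abbrev lvf (v : E) : (g : G) → TangentSpace 𝓘(ℝ, E) g :=
  mulInvariantVectorField (I := 𝓘(ℝ, E)) (G := G) (v : GroupLieAlgebra 𝓘(ℝ, E) G)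

lemma contMDiff_lvf (v : E) :
    ContMDiff 𝓘(ℝ, E) 𝓘(ℝ, E).tangent 1
      (fun g : G => (⟨g, lvf v g⟩ : TangentBundle 𝓘(ℝ, E) G)) := by
  have h := contMDiff_mulInvariantVectorField (I := 𝓘(ℝ, E)) (G := G)
    (v : GroupLieAlgebra 𝓘(ℝ, E) G)
  refine h.of_le ?_
  rw [minSmoothness_of_isRCLikeNormedField]
  norm_num

lemma mdiff_mul_left (g h : G) : MDifferentiableAt 𝓘(ℝ, E) 𝓘(ℝ, E) (fun x : G => g * x) h :=
  (contMDiff_mul_left (I := 𝓘(ℝ, E)) (n := ∞)).contMDiffAt.mdifferentiableAt (by simp)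

lemma mdiff_mul_right (g h : G) : MDifferentiableAt 𝓘(ℝ, E) 𝓘(ℝ, E) (fun x : G => x * g) h :=
  (contMDiff_mul_right (I := 𝓘(ℝ, E)) (n := ∞)).contMDiffAt.mdifferentiableAt (by simp)

/-- Left-invariance of the left-invariant vector fields. -/
lemma mfderiv_mul_left_lvf (v : E) (g h : G) :
    mfderiv 𝓘(ℝ, E) 𝓘(ℝ, E) (fun x : G => g * x) h (lvf v h) = lvf v (g * h) := by
  have h1 : (fun x : G => g * h * x) = (fun x => g * x) ∘ (fun x => h * x) := by
    ext x; simp [mul_assoc]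
  have h2 : mfderiv 𝓘(ℝ, E) 𝓘(ℝ, E) (fun x : G => g * h * x) 1 =
      (mfderiv 𝓘(ℝ, E) 𝓘(ℝ, E) (fun x : G => g * x) (h * 1)).comp
        (mfderiv 𝓘(ℝ, E) 𝓘(ℝ, E) (fun x : G => h * x) 1) := by
    rw [h1]
    exact mfderiv_comp _ (mdiff_mul_left g (h * 1)) (mdiff_mul_left h 1)
  unfold lvf mulInvariantVectorField
  rw [h2, mul_one]
  rfl

/-- Left translates of integral curves of a left-invariant field are integral curves. -/
lemma translate_integral {v : E} {γ : ℝ → G} {s : Set ℝ} (hγ : IsMIntegralCurveOn γ (lvf v) s)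
    (g : G) : IsMIntegralCurveOn (fun t => g * γ t) (lvf v) s := by
  intro t ht
  have h1 := hγ t ht
  have h2 := (mdiff_mul_left (E := E) g (γ t)).hasMFDerivAt
  have h3 := HasMFDerivAt.comp_hasMFDerivWithinAt t h2 h1
  have h4 : (mfderiv 𝓘(ℝ, E) 𝓘(ℝ, E) (fun x : G => g * x) (γ t)).comp
      ((1 : ℝ →L[ℝ] ℝ).smulRight (lvf v (γ t))) = (1 : ℝ →L[ℝ] ℝ).smulRight (lvf v (g * γ t)) := by
    ext
    simp only [ContinuousLinearMap.comp_apply, ContinuousLinearMap.smulRight_apply]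
    rw [map_smul, mfderiv_mul_left_lvf]
  show HasMFDerivWithinAt 𝓘(ℝ, ℝ) 𝓘(ℝ, E) (fun t => g * γ t) s t
    ((1 : ℝ →L[ℝ] ℝ).smulRight (lvf v (g * γ t)))
  rw [← h4]
  exact h3

variable [FiniteDimensional ℝ E] [T2Space G]

lemma exists_integral_curve (v : E) :
    ∃ γ : ℝ → G, γ 0 = 1 ∧ IsMIntegralCurve γ (lvf v) := by
  have : CompleteSpace E := FiniteDimensional.complete ℝ E
  obtain ⟨γ, h0, hγ⟩ := exists_isMIntegralCurveAt_of_contMDiffAt_boundaryless (t₀ := 0)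
    ((contMDiff_lvf v).contMDiffAt (x := (1 : G)))
  obtain ⟨ε, hε, hγ'⟩ := isMIntegralCurveAt_iff'.1 hγ
  have hball : Metric.ball (0 : ℝ) ε = Ioo (-ε) ε := by
    rw [Real.ball_eq_Ioo]; simp
  rw [hball] at hγ'
  refine exists_isMIntegralCurve_of_isMIntegralCurveOn (contMDiff_lvf v) hε (fun x => ?_) 1
  exact ⟨fun t => x * γ t, by simp [h0], translate_integral hγ' x⟩

/-- The one-parameter subgroup with initial velocity `v`. -/
noncomputable def ex (v : E) : ℝ → G := (exists_integral_curve (G := G) v).choose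

lemma ex_zero (v : E) : (ex v 0 : G) = 1 := (exists_integral_curve (G := G) v).choose_spec.1

lemma ex_integral (v : E) : IsMIntegralCurve (ex v : ℝ → G) (lvf v) :=
  (exists_integral_curve (G := G) v).choose_spec.2

lemma ex_unique {v : E} {γ : ℝ → G} (h0 : γ 0 = 1) (hγ : IsMIntegralCurve γ (lvf v)) :
    γ = ex v :=
  isMIntegralCurve_Ioo_eq_of_contMDiff_boundaryless (t₀ := 0) (contMDiff_lvf v) hγ (ex_integral v)
    (by rw [h0, ex_zero])

lemma ex_add (v : E) (s t : ℝ) : (ex v (s + t) : G) = ex v s * ex v t := by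
  have h1 : IsMIntegralCurve (fun t => (ex v s : G) * ex v t) (lvf v) := by
    rw [isMIntegralCurve_iff_isMIntegralCurveOn]
    exact translate_integral ((ex_integral v).isMIntegralCurveOn univ) _
  have h2 : IsMIntegralCurve ((ex v : ℝ → G) ∘ (· + s)) (lvf v) := (ex_integral v).comp_add s
  have h3 := isMIntegralCurve_Ioo_eq_of_contMDiff_boundaryless (t₀ := 0) (contMDiff_lvf v) h1 h2
    (by simp [ex_zero])
  have h4 := congrFun h3 t
  simp only [Function.comp_apply] at h4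
  rw [add_comm, ← h4]

lemma ex_continuous (v : E) : Continuous (ex v : ℝ → G) := (ex_integral v).continuous

omit [LieGroup 𝓘(ℝ, E) ∞ G] [FiniteDimensional ℝ E] [T2Space G] in
lemma lvf_one (v : E) : (lvf v (1 : G) : E) = v := by
  unfold lvf mulInvariantVectorField
  have : (fun x : G => (1 : G) * x) = id := by ext; simp
  rw [this, mfderiv_id]
  rfl

lemma hasMFDerivAt_ex_zero (v : E) :
    HasMFDerivAt 𝓘(ℝ, ℝ) 𝓘(ℝ, E) (ex v : ℝ → G) 0
      ((1 : ℝ →L[ℝ] ℝ).smulRight (v : E) : ℝ →L[ℝ] E) := by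
  have h := ex_integral (G := G) v 0
  rw [ex_zero, lvf_one] at h
  exact h

/-- A homomorphism `ℝ → G` differentiable at `0` with derivative `v` is `ex v`. -/
lemma eq_ex_of_hom {c : ℝ → G} (hc : ∀ s t, c (s + t) = c s * c t) {v : E}
    (hd : HasMFDerivAt 𝓘(ℝ, ℝ) 𝓘(ℝ, E) c 0 ((1 : ℝ →L[ℝ] ℝ).smulRight (v : E) : ℝ →L[ℝ] E)) :
    c = ex v := by
  have h0 : c 0 = 1 := by
    have := hc 0 0
    rw [add_zero] at this
    exact (mul_eq_left.1 this.symm)
  refine ex_unique h0 fun t => ?_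
  have h1 : c = (fun x : G => c t * x) ∘ (fun s => c (s - t)) := by
    ext s
    simp only [Function.comp_apply]
    rw [← hc]
    congr 1
    ring
  have h2 : HasMFDerivAt 𝓘(ℝ, ℝ) 𝓘(ℝ, E) (fun s => c (s - t)) t
      ((1 : ℝ →L[ℝ] ℝ).smulRight (v : E) : ℝ →L[ℝ] E) := by
    have h3 : HasMFDerivAt 𝓘(ℝ, ℝ) 𝓘(ℝ, ℝ) (fun s : ℝ => s - t) t (ContinuousLinearMap.id ℝ ℝ) :=
      ((hasFDerivAt_id t).sub_const t).hasMFDerivAt
    have h4 : HasMFDerivAt 𝓘(ℝ, ℝ) 𝓘(ℝ, E) c ((fun s : ℝ => s - t) t)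
        ((1 : ℝ →L[ℝ] ℝ).smulRight (v : E) : ℝ →L[ℝ] E) := by
      have h4' : (fun s : ℝ => s - t) t = 0 := sub_self t
      rw [h4']
      exact hd
    exact HasMFDerivAt.comp (f := fun s : ℝ => s - t) t h4 h3
  have h6 : HasMFDerivAt 𝓘(ℝ, E) 𝓘(ℝ, E) (fun x : G => c t * x) ((fun s => c (s - t)) t)
      (mfderiv 𝓘(ℝ, E) 𝓘(ℝ, E) (fun x : G => c t * x) 1) := by
    have : (fun s => c (s - t)) t = 1 := by simp [h0]
    rw [this]
    exact (mdiff_mul_left (E := E) (c t) 1).hasMFDerivAt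
  have h7 := h6.comp t h2
  rw [← h1] at h7
  have h8 : (mfderiv 𝓘(ℝ, E) 𝓘(ℝ, E) (fun x : G => c t * x) 1).comp
      ((1 : ℝ →L[ℝ] ℝ).smulRight (v : E) : ℝ →L[ℝ] E) =
      (1 : ℝ →L[ℝ] ℝ).smulRight (lvf v (c t)) := by
    refine ContinuousLinearMap.ext fun r => ?_
    exact ContinuousLinearMap.map_smul (mfderiv 𝓘(ℝ, E) 𝓘(ℝ, E) (fun x : G => c t * x) 1) r
      (v : TangentSpace 𝓘(ℝ, E) (1 : G))
  show HasMFDerivAt 𝓘(ℝ, ℝ) 𝓘(ℝ, E) c t ((1 : ℝ →L[ℝ] ℝ).smulRight (lvf v (c t)))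
  rw [← h8]
  exact h7

end PI
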