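import Pool.Agent.H47.PIExp
import Pool.Agent.H47.PIErg

/-!
# Parabolic subgroups
-/

open scoped Manifold ContDiff Topology
open Set Filter Module

universe u v

namespace PI

section Equiv

variable {L : Type u} [LieRing L] [LieAlgebra ℝ L]

lemma map_eigenspace (T : L ≃ₗ[ℝ] L) (hT : ∀ x y : L, T ⁅x, y⁆ = ⁅T x, T y⁆) (H : L) (c : ℝ) :
    (Module.End.eigenspace (LieAlgebra.ad ℝ L H) c).map (T : L →ₗ[ℝ] L) =
      Module.End.eigenspace (LieAlgebra.ad ℝ L (T H)) c := by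
  ext x
  rw [Submodule.mem_map]
  constructor
  · rintro ⟨y, hy, rfl⟩
    rw [mem_eig] at hy ⊢
    show ⁅T H, T y⁆ = c • T y
    rw [← hT, hy, map_smul]
  · intro hx
    refine ⟨T.symm x, ?_, T.apply_symm_apply x⟩
    rw [mem_eig] at hx ⊢
    apply T.injective
    rw [hT, map_smul, T.apply_symm_apply, hx]

lemma isRealDiag_map (T : L ≃ₗ[ℝ] L) (hT : ∀ x y : L, T ⁅x, y⁆ = ⁅T x, T y⁆) {H : L}
    (hH : IsRealDiag H) : IsRealDiag (T H) := by
  unfold IsRealDiag at hH ⊢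
  simp only [← map_eigenspace T hT]
  rw [← Submodule.map_iSup, hH, Submodule.map_top, LinearEquiv.range]

lemma map_parab (T : L ≃ₗ[ℝ] L) (hT : ∀ x y : L, T ⁅x, y⁆ = ⁅T x, T y⁆) (H : L) :
    (parab H).map (T : L →ₗ[ℝ] L) = parab (T H) := by
  unfold parab
  simp only [Submodule.map_iSup, map_eigenspace T hT]

end Equiv

variable {E : Type u} [NormedAddCommGroup E] [NormedSpace ℝ E]
  {G : Type v} [TopologicalSpace G] [ChartedSpace E G] [Group G] [LieGroup 𝓘(ℝ, E) ∞ G]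

lemma Ad_one (v : GroupLieAlgebra 𝓘(ℝ, E) G) : Ad (1 : G) v = v := by
  show Adj (E := E) (1 : G) v = v
  rw [Adj_one]; rfl

lemma Ad_mul (g h : G) (v : GroupLieAlgebra 𝓘(ℝ, E) G) : Ad (g * h) v = Ad g (Ad h v) :=
  Adj_mul_apply (E := E) g h v

lemma Ad_inv_apply (g : G) (v : GroupLieAlgebra 𝓘(ℝ, E) G) : Ad g⁻¹ (Ad g v) = v :=
  Adj_inv_apply (E := E) g v

lemma Ad_apply_inv (g : G) (v : GroupLieAlgebra 𝓘(ℝ, E) G) : Ad g (Ad g⁻¹ v) = v :=
  Adj_apply_inv (E := E) g v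

lemma Ad_pow (g : G) (n : ℕ) (v : GroupLieAlgebra 𝓘(ℝ, E) G) : ((Ad g) ^ n) v = Ad (g ^ n) v := by
  induction n with
  | zero => rw [pow_zero, pow_zero, Ad_one]; rfl
  | succ m ih => rw [pow_succ', pow_succ', Module.End.mul_apply, ih, Ad_mul]

/-- The adjoint action as a linear equivalence. -/
noncomputable def AdE (g : G) : GroupLieAlgebra 𝓘(ℝ, E) G ≃ₗ[ℝ] GroupLieAlgebra 𝓘(ℝ, E) G :=
  LinearEquiv.ofLinearMap (Ad g) (Ad g⁻¹) (LinearMap.ext fun v => Ad_apply_inv g v)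
    (LinearMap.ext fun v => Ad_inv_apply g v)

lemma AdE_apply (g : G) (v : GroupLieAlgebra 𝓘(ℝ, E) G) : AdE g v = Ad g v := rfl

lemma coe_AdE (g : G) : (AdE (E := E) g).toLinearMap = Ad g :=
  LinearMap.ext fun _ => rfl

/-- The topology on the Lie algebra makes the adjoint action continuous. -/
lemma continuous_Ad_apply (v : GroupLieAlgebra 𝓘(ℝ, E) G) : Continuous (fun g : G => Ad g v) :=
  continuous_Adj_apply (E := E) v

lemma tendsto_Ad {ι : Type*} {l : Filter ι} {g : ι → G} {g₀ : G} (hg : Tendsto g l (𝓝 g₀))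
    {w : ι → GroupLieAlgebra 𝓘(ℝ, E) G} {w₀ : GroupLieAlgebra 𝓘(ℝ, E) G}
    (hw : Tendsto w l (𝓝 w₀)) : Tendsto (fun i => Ad (g i) (w i)) l (𝓝 (Ad g₀ w₀)) := by
  have h1 : Tendsto (fun i => (Adj (E := E) (g i) : E →L[ℝ] E)) l (𝓝 (Adj g₀)) :=
    ((continuous_Adj (E := E) (G := G)).tendsto g₀).comp hg
  exact (isBoundedBilinearMap_apply (𝕜 := ℝ) (E := E) (F := E)).continuous.tendsto (Adj g₀, w₀)
    |>.comp (h1.prodMk_nhds hw)

variable [FiniteDimensional ℝ E]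

lemma isClosed_submodule' (W : Submodule ℝ E) : IsClosed (W : Set E) :=
  Submodule.closed_of_finiteDimensional W

omit [LieGroup 𝓘(ℝ, E) ∞ G] in
lemma isClosed_submodule (W : Submodule ℝ (GroupLieAlgebra 𝓘(ℝ, E) G)) :
    IsClosed (W : Set (GroupLieAlgebra 𝓘(ℝ, E) G)) :=
  isClosed_submodule' (E := E) W

variable [T2Space G]

/-- One-parameter subgroups, indexed by the Lie algebra. -/
noncomputable def exL (v : GroupLieAlgebra 𝓘(ℝ, E) G) (t : ℝ) : G := ex (E := E) v t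

lemma Ad_lie (g : G) (x y : GroupLieAlgebra 𝓘(ℝ, E) G) : Ad g ⁅x, y⁆ = ⁅Ad g x, Ad g y⁆ := by
  have h1 := adj_Adj (E := E) g x y
  have h2 := adj_eq_bracket (E := E) (G := G) x y
  have h3 := adj_eq_bracket (E := E) (G := G) (Ad g x) (Ad g y)
  have h4 : (Adj (E := E) g (adj (E := E) G x y : E) : E) = Ad g ⁅x, y⁆ :=
    congrArg (Adj (E := E) g : E →L[ℝ] E) h2
  exact (h3.symm.trans (h1.trans h4)).symm

lemma AdE_lie (g : G) (x y : GroupLieAlgebra 𝓘(ℝ, E) G) :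
    AdE g ⁅x, y⁆ = ⁅AdE g x, AdE g y⁆ := by
  rw [AdE_apply, AdE_apply, AdE_apply]
  exact Ad_lie g x y

lemma Ad_exL_mem {v : GroupLieAlgebra 𝓘(ℝ, E) G} {W : Submodule ℝ (GroupLieAlgebra 𝓘(ℝ, E) G)}
    (h : ∀ w ∈ W, ⁅v, w⁆ ∈ W) (t : ℝ) {w : GroupLieAlgebra 𝓘(ℝ, E) G} (hw : w ∈ W) :
    Ad (exL v t : G) w ∈ W := by
  refine Adj_ex_mem (E := E) (W := W) (fun w hw => ?_) t hw
  have h1 : adj (E := E) G v w = (⁅v, w⁆ : GroupLieAlgebra 𝓘(ℝ, E) G) := adj_eq_bracket v w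
  exact Eq.subst (motive := fun z : E => z ∈ (W : Submodule ℝ E)) h1.symm (h w hw)

lemma Ad_exL_eig {v x : GroupLieAlgebra 𝓘(ℝ, E) G} {μ : ℝ} (h : ⁅v, x⁆ = μ • x) (t : ℝ) :
    Ad (exL v t : G) x = Real.exp (μ * t) • x :=
  Adj_ex_eig (E := E) ((adj_eq_bracket v x).trans h) t

lemma exL_add (v : GroupLieAlgebra 𝓘(ℝ, E) G) (s t : ℝ) : (exL v (s + t) : G) = exL v s * exL v t :=
  ex_add (E := E) v s t

lemma exL_zero (v : GroupLieAlgebra 𝓘(ℝ, E) G) : (exL v 0 : G) = 1 := ex_zero (E := E) v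

lemma exL_neg (v : GroupLieAlgebra 𝓘(ℝ, E) G) (t : ℝ) : (exL v (-t) : G) = (exL v t)⁻¹ :=
  ex_neg (E := E) v t

lemma exL_smul (v : GroupLieAlgebra 𝓘(ℝ, E) G) (c t : ℝ) : (exL (c • v) t : G) = exL v (c * t) :=
  ex_smul (E := E) v c t

lemma exL_continuous (v : GroupLieAlgebra 𝓘(ℝ, E) G) : Continuous (exL v : ℝ → G) :=
  ex_continuous (E := E) v

lemma conj_exL (g : G) (v : GroupLieAlgebra 𝓘(ℝ, E) G) (t : ℝ) :
    g * exL v t * g⁻¹ = exL (Ad g v) t := conj_ex (E := E) g v t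

lemma hasDerivAt_Ad_exL (v w : GroupLieAlgebra 𝓘(ℝ, E) G) :
    HasDerivAt (F := E) (fun t : ℝ => (Ad (exL v t : G) w : E)) (⁅v, w⁆ : GroupLieAlgebra 𝓘(ℝ, E) G)
      0 := by
  have h1 := (hasDerivAt_Adj_ex_zero (E := E) (G := G) v).clm_apply
    (hasDerivAt_const (F := E) (0 : ℝ) w)
  refine h1.congr_deriv ?_
  rw [map_zero, add_zero]
  exact adj_eq_bracket v w

section Q

variable {Q : Subgroup G} {H : GroupLieAlgebra 𝓘(ℝ, E) G}

lemma isRealDiag_Ad (g : G) {H : GroupLieAlgebra 𝓘(ℝ, E) G} (hH : IsRealDiag H) :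
    IsRealDiag (Ad g H) := by
  have h := isRealDiag_map (AdE (E := E) g) (AdE_lie g) hH
  rwa [AdE_apply] at h

lemma map_Ad_parab (g : G) (H : GroupLieAlgebra 𝓘(ℝ, E) G) :
    (parab H).map (Ad g) = parab (Ad g H) := by
  have h := map_parab (AdE (E := E) g) (AdE_lie g) H
  rwa [AdE_apply] at h

omit [FiniteDimensional ℝ E] [T2Space G] in
lemma finrank_map_Ad (g : G) (W : Submodule ℝ (GroupLieAlgebra 𝓘(ℝ, E) G)) :
    finrank ℝ (W.map (Ad g)) = finrank ℝ W := by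
  rw [← coe_AdE]
  exact LinearEquiv.finrank_map_eq (AdE g) W

lemma ParabolicOf.mem_iff (hQ : ParabolicOf Q H) (g : G) :
    g ∈ Q ↔ ∀ x ∈ parab H, Ad g x ∈ parab H := by
  rw [hQ.2]
  constructor
  · intro h x hx
    rw [← h]
    exact Submodule.mem_map_of_mem hx
  · intro h
    refine Submodule.eq_of_le_of_finrank_eq ?_ (finrank_map_Ad g _)
    rintro _ ⟨x, hx, rfl⟩
    exact h x hx

lemma ParabolicOf.ex_mem (hQ : ParabolicOf Q H) {X : GroupLieAlgebra 𝓘(ℝ, E) G}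
    (hX : X ∈ parab H) (t : ℝ) : (exL X t : G) ∈ Q := by
  rw [hQ.mem_iff]
  intro x hx
  exact Ad_exL_mem (fun w hw => parab_lie hX hw) t hx

lemma ParabolicOf.isClosed (hQ : ParabolicOf Q H) : IsClosed (Q : Set G) := by
  have h1 : (Q : Set G) = ⋂ x ∈ parab H, {g : G | Ad g x ∈ parab H} := by
    ext g
    simp only [SetLike.mem_coe, mem_iInter, mem_ofPred_eq]
    exact hQ.mem_iff g
  rw [h1]
  refine isClosed_biInter fun x _ => ?_
  exact (isClosed_submodule (parab H)).preimage (continuous_Ad_apply x)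

/-- Lemma A: recurrent points of `a` in `G ⧸ Q` are fixed by `a`. -/
theorem ParabolicOf.fixed_of_recurrent (hQ : ParabolicOf Q H)
    {H0 : GroupLieAlgebra 𝓘(ℝ, E) G}
    (hH0 : IsRealDiag H0) {a : G} (ha : ∀ x : GroupLieAlgebra 𝓘(ℝ, E) G, Ad a x = Ad (exL H0 1 : G) x)
    {g : G} {n : ℕ → ℕ} (hn : Tendsto n atTop atTop) {w : ℕ → G} (hw : Tendsto w atTop (𝓝 1))
    (h : ∀ k, g⁻¹ * (w k)⁻¹ * a ^ (n k) * g ∈ Q) : g⁻¹ * a * g ∈ Q := by
  obtain ⟨ι, _, b, c, hb⟩ := exists_eigenbasis hH0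
  have hT : ∀ i, Ad a (b i) = Real.exp (c i) • b i := by
    intro i
    rw [ha, Ad_exL_eig (hb i), mul_one]
  have key := map_mem_of_recurrent b (fun i => Real.exp (c i))
    (fun i => Real.exp_pos _) (Ad a) hT ((parab H).map (Ad g)) n hn ?_
  · rw [hQ.mem_iff]
    intro x hx
    have h1 := key (Ad g x) (Submodule.mem_map_of_mem hx)
    obtain ⟨y, hy, hy'⟩ := h1
    have h2 : Ad (g⁻¹ * a * g) x = y := by
      rw [Ad_mul, Ad_mul, ← hy', Ad_inv_apply]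
    rw [h2]
    exact hy
  · rintro _ ⟨x, hx, rfl⟩ r z hr hz
    have hwinv : Tendsto (fun k => (w k)⁻¹) atTop (𝓝 (1 : G)) := by
      have : ContinuousInv G := ⟨(contMDiff_inv (G := G) 𝓘(ℝ, E) ∞).continuous⟩
      have := hw.inv
      rwa [inv_one] at this
    have h3 := tendsto_Ad hwinv hz
    rw [Ad_one] at h3
    refine (isClosed_submodule ((parab H).map (Ad g))).mem_of_tendsto h3
      (Eventually.of_forall fun k => ?_)
    have h4 : Ad (w k)⁻¹ ((r⁻¹) ^ (n k) • ((Ad a) ^ (n k)) (Ad g x)) =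
        (r⁻¹) ^ (n k) • Ad g (Ad (g⁻¹ * (w k)⁻¹ * a ^ (n k) * g) x) := by
      rw [map_smul, Ad_pow, ← Ad_mul, ← Ad_mul, ← Ad_mul]
      congr 3
      group
    rw [h4]
    refine Submodule.smul_mem _ _ (Submodule.mem_map_of_mem ?_)
    exact (hQ.mem_iff _).1 (h k) x hx

end Q

end PI
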