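import Pool.Agent.H47.PITop

/-!
# Real rank at least two
-/

open scoped Manifold ContDiff Topology
open Set Filter Module

universe u v

namespace PI

section Alg

variable {L : Type u} [LieRing L] [LieAlgebra ℝ L]

lemma isRealDiag_smul {H : L} (hH : IsRealDiag H) (c : ℝ) : IsRealDiag (c • H) := by
  unfold IsRealDiag at hH ⊢
  rw [eq_top_iff, ← hH]
  refine iSup_le fun μ => ?_
  refine le_trans ?_ (le_iSup _ (c * μ))
  intro x hx
  rw [mem_eig] at hx ⊢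
  rw [smul_lie, hx, smul_smul]

lemma exists_maximal_toral [FiniteDimensional ℝ L] {H : L} (hH : IsRealDiag H) :
    ∃ A : Submodule ℝ L, Maximal IsSplitToral A ∧ H ∈ A := by
  let S : Set (Submodule ℝ L) := {A | IsSplitToral A ∧ H ∈ A}
  have hS : S.Nonempty := by
    refine ⟨Submodule.span ℝ {H}, ⟨?_, ?_⟩, Submodule.mem_span_singleton_self H⟩
    · intro x hx y hy
      obtain ⟨c, rfl⟩ := Submodule.mem_span_singleton.1 hx
      obtain ⟨d, rfl⟩ := Submodule.mem_span_singleton.1 hy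
      rw [smul_lie, lie_smul, lie_self, smul_zero, smul_zero]
    · intro x hx
      obtain ⟨c, rfl⟩ := Submodule.mem_span_singleton.1 hx
      exact isRealDiag_smul hH c
  obtain ⟨A, hA, hmax⟩ := (wellFounded_gt (α := Submodule ℝ L)).has_min S hS
  refine ⟨A, ⟨hA.1, fun B hB hAB => ?_⟩, hA.2⟩
  have h1 := hmax B ⟨hB, hAB hA.2⟩
  by_contra h2
  exact h1 (lt_of_le_not_ge hAB h2)

lemma exists_pair [FiniteDimensional ℝ L] (hr : RealRankGeTwo L) {H : L} (hH : IsRealDiag H) :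
    ∃ (A : Submodule ℝ L) (H₁ H₂ : L), IsSplitToral A ∧ H ∈ A ∧ H₁ ∈ A ∧ H₂ ∈ A ∧ H₁ ≠ 0 ∧
      ∀ c : ℝ, H₂ + c • H₁ ≠ 0 := by
  obtain ⟨A, hA, hHA⟩ := exists_maximal_toral hH
  have h2 := hr A hA
  have hnt : Nontrivial A := by
    apply Module.nontrivial_of_finrank_pos (R := ℝ)
    omega
  obtain ⟨⟨x, hxA⟩, hx⟩ := exists_ne (0 : A)
  have hx0 : x ≠ 0 := fun h => hx (Subtype.ext h)
  have hex : ∃ y ∈ A, y ∉ Submodule.span ℝ {x} := by
    by_contra h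
    push Not at h
    have h3 : A ≤ Submodule.span ℝ {x} := h
    have h4 := Submodule.finrank_mono h3
    rw [finrank_span_singleton hx0] at h4
    omega
  obtain ⟨y, hyA, hy⟩ := hex
  refine ⟨A, x, y, hA.1, hHA, hxA, hyA, hx0, fun c hc => hy ?_⟩
  rw [Submodule.mem_span_singleton]
  exact ⟨-c, by rw [neg_smul]; exact (eq_neg_of_add_eq_zero_left hc).symm⟩

end Alg

variable {E : Type u} [NormedAddCommGroup E] [NormedSpace ℝ E] [FiniteDimensional ℝ E]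
  {G : Type v} [TopologicalSpace G] [ChartedSpace E G] [Group G] [LieGroup 𝓘(ℝ, E) ∞ G] [T2Space G]

lemma adj_add (v w : E) : adj G (v + w) = adj G v + adj G w := by
  refine ContinuousLinearMap.ext fun x => ?_
  have h1 : adj (E := E) G (v + w) x = _ := adj_eq_bracket (E := E) (G := G) (v + w) x
  have h2 : adj (E := E) G v x = _ := adj_eq_bracket (E := E) (G := G) v x
  have h3 : adj (E := E) G w x = _ := adj_eq_bracket (E := E) (G := G) w x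
  rw [_root_.add_apply, h1, h2, h3]
  have h4 : ∀ a b y : GroupLieAlgebra 𝓘(ℝ, E) G, ⁅a + b, y⁆ = ⁅a, y⁆ + ⁅b, y⁆ := fun a b y =>
    add_lie a b y
  exact h4 v w x

lemma adj_smul (c : ℝ) (v : E) : adj G (c • v) = c • adj G v := by
  refine ContinuousLinearMap.ext fun x => ?_
  have h1 : adj (E := E) G (c • v) x = _ := adj_eq_bracket (E := E) (G := G) (c • v) x
  have h2 : adj (E := E) G v x = _ := adj_eq_bracket (E := E) (G := G) v x
  rw [_root_.smul_apply, h1, h2]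
  have h4 : ∀ a y : GroupLieAlgebra 𝓘(ℝ, E) G, ⁅c • a, y⁆ = c • ⁅a, y⁆ := fun a y =>
    smul_lie c a y
  exact h4 v x

lemma adj_commute {v w : GroupLieAlgebra 𝓘(ℝ, E) G} (h : ⁅v, w⁆ = 0) :
    Commute (adj (E := E) G v) (adj (E := E) G w) := by
  refine ContinuousLinearMap.ext fun x => ?_
  show adj (E := E) G v (adj (E := E) G w x) = adj (E := E) G w (adj (E := E) G v x)
  have h1 : adj (E := E) G w x = _ := adj_eq_bracket (E := E) (G := G) w x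
  have h2 : adj (E := E) G v x = _ := adj_eq_bracket (E := E) (G := G) v x
  rw [h1, h2]
  refine (adj_eq_bracket (E := E) (G := G) v _).trans ?_
  refine Eq.trans ?_ (adj_eq_bracket (E := E) (G := G) w _).symm
  have h5 : ∀ y : GroupLieAlgebra 𝓘(ℝ, E) G, ⁅v, ⁅w, y⁆⁆ = ⁅w, ⁅v, y⁆⁆ := by
    intro y
    rw [leibniz_lie, h, zero_lie, zero_add]
  exact h5 x

lemma Adj_mul_ex' {v w : E} (h : Commute (adj G v) (adj G w)) (c : ℝ) :
    (Adj (ex v 1 * ex w c : G) : E →L[ℝ] E) = Adj (ex (v + c • w) 1 : G) := by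
  have : CompleteSpace E := FiniteDimensional.complete ℝ E
  let _ : NormedAlgebra ℚ (E →L[ℝ] E) := NormedAlgebra.restrictScalars ℚ ℝ (E →L[ℝ] E)
  rw [Adj_mul, Adj_ex_eq_exp, Adj_ex_eq_exp, Adj_ex_eq_exp, one_smul, one_smul, adj_add, adj_smul,
    NormedSpace.exp_add_of_commute (h.smul_right c)]
  rfl

lemma Adj_mul_ex {v w : GroupLieAlgebra 𝓘(ℝ, E) G} (h : ⁅v, w⁆ = 0) (c : ℝ)
    (x : GroupLieAlgebra 𝓘(ℝ, E) G) :
    Ad (exL v 1 * exL w c : G) x = Ad (exL (v + c • w) 1 : G) x :=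
  congrArg (fun T : E →L[ℝ] E => T x) (Adj_mul_ex' (E := E) (adj_commute h) c)

namespace IsChar

variable {Q : Subgroup G} {φ : Q → ℝ}

omit [ChartedSpace E G] [LieGroup 𝓘(ℝ, E) ∞ G] [FiniteDimensional ℝ E] [NormedSpace ℝ E]
  [NormedAddCommGroup E] [T2Space G] in
lemma map_one (h : IsChar Q φ) : φ 1 = 0 := by
  have := h.map_mul 1 1
  rw [mul_one] at this
  linarith

omit [ChartedSpace E G] [LieGroup 𝓘(ℝ, E) ∞ G] [FiniteDimensional ℝ E] [NormedSpace ℝ E]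
  [NormedAddCommGroup E] [T2Space G] in
lemma map_inv (h : IsChar Q φ) (p : Q) : φ p⁻¹ = -φ p := by
  have := h.map_mul p p⁻¹
  rw [mul_inv_cancel, h.map_one] at this
  linarith

/-- The kernel, as a subgroup of `G`. -/
def ker (h : IsChar Q φ) : Subgroup G where
  carrier := {g | ∃ hg : g ∈ Q, φ ⟨g, hg⟩ = 0}
  mul_mem' := by
    rintro p q ⟨hp, hp'⟩ ⟨hq, hq'⟩
    refine ⟨Q.mul_mem hp hq, ?_⟩
    have := h.map_mul ⟨p, hp⟩ ⟨q, hq⟩
    rw [hp', hq', add_zero] at this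
    exact this
  one_mem' := ⟨Q.one_mem, h.map_one⟩
  inv_mem' := by
    rintro p ⟨hp, hp'⟩
    refine ⟨Q.inv_mem hp, ?_⟩
    have := h.map_inv ⟨p, hp⟩
    rw [hp', neg_zero] at this
    exact this

omit [ChartedSpace E G] [LieGroup 𝓘(ℝ, E) ∞ G] [FiniteDimensional ℝ E] [NormedSpace ℝ E]
  [NormedAddCommGroup E] [T2Space G] in
lemma comm_mem_ker (h : IsChar Q φ) {p q : G} (hp : p ∈ Q) (hq : q ∈ Q) :
    p * q * p⁻¹ * q⁻¹ ∈ h.ker := by
  refine ⟨Q.mul_mem (Q.mul_mem (Q.mul_mem hp hq) (Q.inv_mem hp)) (Q.inv_mem hq), ?_⟩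
  have h1 : φ ((⟨p, hp⟩ : Q) * ⟨q, hq⟩ * ⟨p, hp⟩⁻¹ * ⟨q, hq⟩⁻¹) = 0 := by
    rw [h.map_mul, h.map_mul, h.map_mul, h.map_inv, h.map_inv]
    ring
  exact h1

/-- The restriction of the character to one-parameter subgroups. -/
lemma exists_slope (h : IsChar Q φ) {X : GroupLieAlgebra 𝓘(ℝ, E) G}
    (hX : ∀ t, (exL X t : G) ∈ Q) : ∃ r : ℝ, ∀ t, φ ⟨exL X t, hX t⟩ = r * t := by
  let f : ℝ →+ ℝ :=
    { toFun := fun t => φ ⟨exL X t, hX t⟩
      map_zero' := by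
        have : (⟨exL X 0, hX 0⟩ : Q) = 1 := Subtype.ext (exL_zero X)
        rw [this, h.map_one]
      map_add' := by
        intro s t
        have : (⟨exL X (s + t), hX (s + t)⟩ : Q) = ⟨exL X s, hX s⟩ * ⟨exL X t, hX t⟩ :=
          Subtype.ext (exL_add X s t)
        rw [this, h.map_mul] }
  have hf : Continuous f := h.cont.comp ((exL_continuous X).subtype_mk hX)
  refine ⟨f 1, fun t => ?_⟩
  have h1 := map_real_smul f hf t 1
  rw [smul_eq_mul, mul_one, smul_eq_mul] at h1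
  rw [mul_comm]
  exact h1

end IsChar

/-- Existence of a nontrivial real-diagonalisable element in the kernel of a character. -/
theorem exists_diag_ker {Q : Subgroup G} {H : GroupLieAlgebra 𝓘(ℝ, E) G} (hQ : ParabolicOf Q H)
    {φ : Q → ℝ} (hφ : IsChar Q φ) (hr : RealRankGeTwo (GroupLieAlgebra 𝓘(ℝ, E) G)) :
    ∃ (H0 : GroupLieAlgebra 𝓘(ℝ, E) G) (a : G), IsRealDiag H0 ∧ H0 ≠ 0 ∧ a ∈ hφ.ker ∧
      ∀ x : GroupLieAlgebra 𝓘(ℝ, E) G, Ad a x = Ad (exL H0 1 : G) x := by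
  obtain ⟨A, H₁, H₂, hA, hH, hH₁, hH₂, hne₁, hne₂⟩ := exists_pair hr hQ.1
  have hmem : ∀ X ∈ A, ∀ t, (exL X t : G) ∈ Q := by
    intro X hX t
    refine hQ.ex_mem (mem_parab_of_eig le_rfl ?_) t
    rw [hA.1 H hH X hX, zero_smul]
  obtain ⟨r₁, hr₁⟩ := hφ.exists_slope (hmem H₁ hH₁)
  obtain ⟨r₂, hr₂⟩ := hφ.exists_slope (hmem H₂ hH₂)
  by_cases h0 : r₁ = 0
  · refine ⟨H₁, exL H₁ 1, hA.2 H₁ hH₁, hne₁, ⟨hmem H₁ hH₁ 1, ?_⟩, fun x => rfl⟩
    rw [hr₁, h0, zero_mul]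
  · refine ⟨H₂ + (-(r₂ / r₁)) • H₁, exL H₂ 1 * exL H₁ (-(r₂ / r₁)),
      hA.2 _ (A.add_mem hH₂ (A.smul_mem _ hH₁)), hne₂ _,
      ⟨Q.mul_mem (hmem H₂ hH₂ 1) (hmem H₁ hH₁ _), ?_⟩,
      fun x => Adj_mul_ex (hA.1 H₂ hH₂ H₁ hH₁) _ x⟩
    have h1 := hφ.map_mul ⟨exL H₂ 1, hmem H₂ hH₂ 1⟩ ⟨exL H₁ (-(r₂ / r₁)), hmem H₁ hH₁ _⟩
    rw [hr₁, hr₂] at h1
    refine h1.trans ?_
    field_simp
    ring

end PI
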