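import Pool.Agent.H47.PIRank

/-!
# Smoothness of characters of parabolic subgroups
-/

open scoped Manifold ContDiff Topology
open Set Filter Module

universe u v

namespace PI

variable {E : Type u} [NormedAddCommGroup E] [NormedSpace ℝ E] [FiniteDimensional ℝ E]
  {G : Type v} [TopologicalSpace G] [ChartedSpace E G] [Group G] [LieGroup 𝓘(ℝ, E) ∞ G] [T2Space G]

lemma contDiffAt_ch_ex (v : E) : ContDiffAt ℝ ∞ (fun t : ℝ => ch (E := E) G (ex v t)) 0 := by
  have h1 : ∀ᶠ t in 𝓝 (0 : ℝ), HasDerivAt (fun t : ℝ => ch (E := E) G (ex v t))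
      (fderiv ℝ (mu (E := E) G) (ch G (ex v t), ch G (1 : G)) (0, v)) t := by
    have h := (ex_ch_tendsto (G := G) v).prodMk_nhds
        (tendsto_const_nhds (x := (ch G (1 : G) : E)) (f := 𝓝 (0 : ℝ)))
    have h2 := h.eventually (mu_diff_eventually (E := E) (G := G))
    filter_upwards [h2, ex_eventually_source (G := G) v] with t ht1 ht2
    exact hasDerivAt_ch_ex_of_mem v ht2 ht1
  have hD : ContDiffAt ℝ ∞ (fderiv ℝ (mu (E := E) G)) (ch G (1 : G), ch G (1 : G)) :=
    (contDiffAt_mu (E := E) (G := G)).fderiv_right (by norm_num)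
  rw [contDiffAt_infty]
  intro n
  induction n with
  | zero =>
    rw [Nat.cast_zero, contDiffAt_zero]
    refine ⟨_, h1, fun t ht => ?_⟩
    exact ContinuousAt.continuousWithinAt (HasDerivAt.continuousAt ht)
  | succ n ih =>
    rw [Nat.cast_succ, contDiffAt_succ_iff_hasFDerivAt]
    refine ⟨fun t => (1 : ℝ →L[ℝ] ℝ).smulRight
      (fderiv ℝ (mu (E := E) G) (ch G (ex v t), ch G (1 : G)) (0, v)), ⟨_, h1, fun t ht => ?_⟩, ?_⟩
    · exact HasDerivAt.hasFDerivAt ht
    · have h2 : ContDiffAt ℝ n (fun t : ℝ => ((ch G (ex v t) : E), (ch G (1 : G) : E))) 0 :=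
        ih.prodMk contDiffAt_const
      have h3 : ContDiffAt ℝ n (fderiv ℝ (mu (E := E) G))
          ((fun t : ℝ => ((ch G (ex v t) : E), (ch G (1 : G) : E))) 0) := by
        simp only [ex_zero]
        exact hD.of_le (by exact_mod_cast le_top)
      have h4 := (h3.comp (0 : ℝ) h2).clm_apply (contDiffAt_const (c := ((0 : E), v)))
      exact contDiffAt_const.smulRight h4

lemma chain_contDiffAt (L : List (E × (E →L[ℝ] ℝ))) : ContDiffAt ℝ ∞ (chain G L) 0 := by
  induction L with
  | nil => exact contDiffAt_const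
  | cons p L ih =>
    have h1 : ContDiffAt ℝ ∞ (fun x : E => (ch G (ex p.1 (p.2 x) : G) : E)) 0 := by
      have h2 : ContDiffAt ℝ ∞ (fun t : ℝ => (ch G (ex p.1 t : G) : E)) (p.2 0) := by
        rw [map_zero]; exact contDiffAt_ch_ex p.1
      exact h2.comp (0 : E) p.2.contDiff.contDiffAt
    have h3 : ContDiffAt ℝ ∞ (mu (E := E) G)
        ((fun x : E => ((ch G (ex p.1 (p.2 x) : G) : E), chain G L x)) 0) := by
      simp only [map_zero, ex_zero, chain_zero]
      exact contDiffAt_mu
    exact h3.comp (0 : E) (h1.prodMk ih)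

/-- Products of one-parameter subgroups. -/
noncomputable def prodEx (G : Type*) [TopologicalSpace G] [ChartedSpace E G] [Group G]
    [LieGroup 𝓘(ℝ, E) ∞ G] [T2Space G] : List (E × (E →L[ℝ] ℝ)) → E → G
  | [], _ => 1
  | p :: L, x => ex p.1 (p.2 x) * prodEx G L x

lemma prodEx_zero (L : List (E × (E →L[ℝ] ℝ))) : prodEx G L 0 = 1 := by
  induction L with
  | nil => rfl
  | cons p L ih => simp only [prodEx, map_zero, ex_zero, ih, mul_one]

lemma continuous_prodEx (L : List (E × (E →L[ℝ] ℝ))) : Continuous (prodEx G L) := by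
  have : ContinuousMul G := continuousMul_of_contMDiffMul 𝓘(ℝ, E) ∞
  induction L with
  | nil => exact continuous_const
  | cons p L ih => exact ((ex_continuous p.1).comp p.2.continuous).mul ih

lemma chain_eq_prodEx (L : List (E × (E →L[ℝ] ℝ))) :
    ∀ᶠ x in 𝓝 (0 : E), chain G L x = ch G (prodEx G L x) := by
  induction L with
  | nil => exact Eventually.of_forall fun x => rfl
  | cons p L ih =>
    have h1 : ∀ᶠ x in 𝓝 (0 : E), (ex p.1 (p.2 x) : G) ∈ (ch (E := E) G).source := by
      have h1 : Tendsto (fun x : E => p.2 x) (𝓝 0) (𝓝 0) := by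
        have := p.2.continuous.tendsto (0 : E)
        rwa [map_zero] at this
      exact h1.eventually (ex_eventually_source (G := G) p.1)
    have h2 : ∀ᶠ x in 𝓝 (0 : E), prodEx G L x ∈ (ch (E := E) G).source := by
      have h3 := (continuous_prodEx (G := G) L).tendsto (0 : E)
      rw [prodEx_zero] at h3
      exact h3.eventually (extChartAt_source_mem_nhds (I := 𝓘(ℝ, E)) (1 : G))
    filter_upwards [ih, h1, h2] with x hx1 hx2 hx3
    simp only [chain, prodEx, mu]
    rw [hx1, (ch (E := E) G).left_inv hx2, (ch (E := E) G).left_inv hx3]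

/-- The adjoint representation in the chart. -/
noncomputable def Adjc (G : Type*) [TopologicalSpace G] [ChartedSpace E G] [Group G] (y : E) :
    E →L[ℝ] E :=
  Adj ((ch (E := E) G).symm y)

omit [FiniteDimensional ℝ E] [T2Space G] in
lemma contDiffAt_Adjc : ContDiffAt ℝ ∞ (Adjc (E := E) G) (ch G (1 : G)) := by
  have h1 : ContMDiffAt 𝓘(ℝ, E) 𝓘(ℝ, E) ∞ (ch (E := E) G).symm (ch G (1 : G)) :=
    contMDiffOn_extChartAt_symm (1 : G) |>.contMDiffAt
      (extChartAt_target_mem_nhds (I := 𝓘(ℝ, E)) (1 : G))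
  have h2 : ContMDiffAt 𝓘(ℝ, E) 𝓘(ℝ, E →L[ℝ] E) ∞ (Adjc (E := E) G) (ch G (1 : G)) :=
    ContMDiffAt.comp (ch G (1 : G)) (contMDiff_Adj (E := E) (G := G)).contMDiffAt h1
  exact contMDiffAt_iff_contDiffAt.1 h2

lemma fderiv_Adjc (v : E) : fderiv ℝ (Adjc (E := E) G) (ch G (1 : G)) v = adj G v := by
  have h1 : HasFDerivAt (Adjc (E := E) G) (fderiv ℝ (Adjc (E := E) G) (ch G (1 : G)))
      ((fun t : ℝ => (ch G (ex v t : G) : E)) 0) := by
    simp only [ex_zero]
    exact (contDiffAt_Adjc.differentiableAt (by simp)).hasFDerivAt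
  have h2 := h1.comp_hasDerivAt (0 : ℝ) (hasDerivAt_ch_ex (G := G) v)
  have h3 : (Adjc (E := E) G ∘ fun t : ℝ => (ch G (ex v t : G) : E)) =ᶠ[𝓝 0]
      fun t : ℝ => (Adj (ex v t : G) : E →L[ℝ] E) := by
    filter_upwards [ex_eventually_source (G := G) v] with t ht
    simp only [Function.comp_apply, Adjc]
    rw [(ch (E := E) G).left_inv ht]
  have h4 := h2.congr_of_eventuallyEq h3.symm
  exact h4.unique (hasDerivAt_Adj_ex_zero v)

lemma hasStrictFDerivAt_Adj_prodEx {L : List (E × (E →L[ℝ] ℝ))}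
    (hL : (L.map (fun p => p.2.smulRight p.1)).sum = ContinuousLinearMap.id ℝ E) :
    HasStrictFDerivAt (fun x : E => (Adj (prodEx G L x) : E →L[ℝ] E))
      (fderiv ℝ (Adjc (E := E) G) (ch G (1 : G))) 0 := by
  have h1 := chain_strict (G := G) L
  rw [hL] at h1
  have h2 : HasStrictFDerivAt (Adjc (E := E) G) (fderiv ℝ (Adjc (E := E) G) (ch G (1 : G)))
      (chain G L 0) := by
    rw [chain_zero]
    exact contDiffAt_Adjc.hasStrictFDerivAt (by simp)
  have h3 := h2.comp (0 : E) h1
  rw [ContinuousLinearMap.comp_id] at h3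
  refine h3.congr_of_eventuallyEq ?_
  have h4 : ∀ᶠ x in 𝓝 (0 : E), prodEx G L x ∈ (ch (E := E) G).source := by
    have h3 := (continuous_prodEx (G := G) L).tendsto (0 : E)
    rw [prodEx_zero] at h3
    exact h3.eventually (extChartAt_source_mem_nhds (I := 𝓘(ℝ, E)) (1 : G))
  filter_upwards [h4, chain_eq_prodEx (G := G) L] with x hx1 hx2
  simp only [Adjc]
  rw [hx2, (ch (E := E) G).left_inv hx1]

section Coord

variable {ι : Type*} [Fintype ι] (B : Basis ι ℝ E)

/-- The list of coordinate directions. -/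
noncomputable def lst : List (E × (E →L[ℝ] ℝ)) :=
  (Finset.univ : Finset ι).toList.map fun i => (B i, LinearMap.toContinuousLinearMap (B.coord i))

lemma sum_lst : ((lst B).map (fun p => p.2.smulRight p.1)).sum = ContinuousLinearMap.id ℝ E := by
  refine ContinuousLinearMap.ext fun x => ?_
  simp only [lst, List.map_map]
  rw [Finset.sum_map_toList]
  simp only [Function.comp_apply, _root_.sum_apply,
    ContinuousLinearMap.smulRight_apply, LinearMap.coe_toContinuousLinearMap',
    Module.Basis.coord_apply, ContinuousLinearMap.id_apply]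
  exact B.sum_repr x

/-- The projection on the span of the coordinate directions satisfying `P`. -/
noncomputable def proj (P : ι → Prop) [DecidablePred P] : E →L[ℝ] E :=
  LinearMap.toContinuousLinearMap (∑ i, if P i then (B.coord i).smulRight (B i) else 0)

lemma repr_proj (P : ι → Prop) [DecidablePred P] (x : E) (i : ι) :
    B.repr (proj B P x) i = if P i then B.repr x i else 0 := by
  classical
  have h1 : proj B P x = ∑ j, (if P j then B.repr x j else 0) • B j := by
    unfold proj
    rw [LinearMap.coe_toContinuousLinearMap', LinearMap.sum_apply]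
    refine Finset.sum_congr rfl fun j _ => ?_
    split_ifs <;> simp
  rw [h1, Basis.repr_sum_self]

end Coord

/-- Extension of a character by zero. -/
noncomputable def extChar {Q : Subgroup G} (φ : Q → ℝ) (g : G) : ℝ :=
  open Classical in if h : g ∈ Q then φ ⟨g, h⟩ else 0

section ext

variable {Q : Subgroup G} {φ : Q → ℝ}

omit [NormedAddCommGroup E] [NormedSpace ℝ E] [FiniteDimensional ℝ E] [TopologicalSpace G]
  [ChartedSpace E G] [LieGroup 𝓘(ℝ, E) ∞ G] [T2Space G] in
lemma extChar_of_mem {g : G} (h : g ∈ Q) : extChar φ g = φ ⟨g, h⟩ := by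
  unfold extChar
  rw [dif_pos h]

omit [NormedAddCommGroup E] [NormedSpace ℝ E] [FiniteDimensional ℝ E]
  [ChartedSpace E G] [LieGroup 𝓘(ℝ, E) ∞ G] [T2Space G] in
lemma extChar_mul (hφ : IsChar Q φ) {g h : G} (hg : g ∈ Q) (hh : h ∈ Q) :
    extChar φ (g * h) = extChar φ g + extChar φ h := by
  rw [extChar_of_mem hg, extChar_of_mem hh, extChar_of_mem (Q.mul_mem hg hh), ← hφ.map_mul]
  rfl

omit [NormedAddCommGroup E] [NormedSpace ℝ E] [FiniteDimensional ℝ E]
  [ChartedSpace E G] [LieGroup 𝓘(ℝ, E) ∞ G] [T2Space G] in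
lemma extChar_one (hφ : IsChar Q φ) : extChar φ (1 : G) = 0 := by
  rw [extChar_of_mem Q.one_mem]
  exact hφ.map_one

end ext

end PI
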