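import Pool.Agent.H47.PIMaut

/-!
# Topological rigidity of induced actions
-/

open scoped Manifold ContDiff Topology
open Set Filter Module

universe u v

namespace PI

variable {E : Type u} [NormedAddCommGroup E] [NormedSpace ℝ E] [FiniteDimensional ℝ E]
  {G : Type v} [TopologicalSpace G] [ChartedSpace E G] [Group G] [LieGroup 𝓘(ℝ, E) ∞ G] [T2Space G]

/-- Recurrent points in `G ⧸ Q` are fixed. -/
theorem smul_eq_of_recurrent [SecondCountableTopology G] {Q : Subgroup G}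
    {H : GroupLieAlgebra 𝓘(ℝ, E) G} (hQ : ParabolicOf Q H)
    {H0 : GroupLieAlgebra 𝓘(ℝ, E) G} (hH0 : IsRealDiag H0) {a : G}
    (ha : ∀ x : GroupLieAlgebra 𝓘(ℝ, E) G, Ad a x = Ad (exL H0 1 : G) x) {z : G ⧸ Q}
    (hz : ∀ s ∈ 𝓝 z, ∃ᶠ n : ℕ in atTop, a ^ n • z ∈ s) : a • z = z := by
  have : IsTopologicalGroup G := topologicalGroup_of_lieGroup 𝓘(ℝ, E) ∞
  obtain ⟨g, rfl⟩ := QuotientGroup.mk_surjective z
  -- the set of good pairs
  let R : Set (ℕ × G) := {p | g⁻¹ * p.2⁻¹ * a ^ p.1 * g ∈ Q}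
  have hne : ((atTop : Filter ℕ) ×ˢ 𝓝 (1 : G) ⊓ 𝓟 R).NeBot := by
    rw [← Filter.frequently_mem_iff_neBot]
    rw [Filter.frequently_iff]
    intro U hU
    rw [mem_prod_iff] at hU
    obtain ⟨A, hA, B, hB, hAB⟩ := hU
    -- the open neighbourhood of `g Q`
    obtain ⟨O, hOB, hO, h1O⟩ := mem_nhds_iff.1 hB
    have hs : (fun x : G => (QuotientGroup.mk (x * g) : G ⧸ Q)) '' O ∈
        𝓝 (QuotientGroup.mk g : G ⧸ Q) := by
      have hopen : IsOpenMap (fun x : G => (QuotientGroup.mk (x * g) : G ⧸ Q)) :=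
        (QuotientGroup.isOpenMap_coe (N := Q)).comp (isOpenMap_mul_right g)
      have := (hopen O hO).mem_nhds (mem_image_of_mem _ h1O)
      simpa using this
    obtain ⟨n, hn1, hn2⟩ := ((hz _ hs).and_eventually hA).exists
    obtain ⟨x, hxO, hx⟩ := hn1
    refine ⟨(n, x), hAB ⟨hn2, hOB hxO⟩, ?_⟩
    have h1 : (QuotientGroup.mk (x * g) : G ⧸ Q) = QuotientGroup.mk (a ^ n * g) := hx
    rw [QuotientGroup.eq] at h1
    show g⁻¹ * x⁻¹ * a ^ n * g ∈ Q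
    have h2 : g⁻¹ * x⁻¹ * a ^ n * g = (x * g)⁻¹ * (a ^ n * g) := by group
    rw [h2]
    exact h1
  obtain ⟨s, hs⟩ := Filter.exists_seq_tendsto ((atTop : Filter ℕ) ×ˢ 𝓝 (1 : G) ⊓ 𝓟 R)
  have hs1 : Tendsto (fun k => (s k).1) atTop atTop :=
    tendsto_fst.comp (hs.mono_right inf_le_left)
  have hs2 : Tendsto (fun k => (s k).2) atTop (𝓝 1) :=
    tendsto_snd.comp (hs.mono_right inf_le_left)
  have hs3 : ∀ᶠ k in atTop, s k ∈ R := tendsto_principal.1 (hs.mono_right inf_le_right)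
  obtain ⟨K, hK⟩ := eventually_atTop.1 hs3
  have h1 := hQ.fixed_of_recurrent hH0 ha (g := g) (n := fun k => (s (k + K)).1)
    (w := fun k => (s (k + K)).2) (hs1.comp (tendsto_add_atTop_nat K))
    (hs2.comp (tendsto_add_atTop_nat K)) (fun k => hK (k + K) (Nat.le_add_left _ _))
  have h2 : (QuotientGroup.mk (a * g) : G ⧸ Q) = QuotientGroup.mk g := by
    rw [eq_comm, QuotientGroup.eq, ← mul_assoc]
    exact h1
  exact h2

variable [SecondCountableTopology G] [ConnectedSpace G]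
  [LieAlgebra.IsSimple ℝ (GroupLieAlgebra 𝓘(ℝ, E) G)]

/-- The main topological rigidity theorem. -/
theorem rigid {Γ Q K : Subgroup G} {H : GroupLieAlgebra 𝓘(ℝ, E) G} (hΓ : FiniteCovolume Γ)
    (hQ : ParabolicOf Q H) (hKcomm : ∀ p ∈ Q, ∀ q ∈ Q, p * q * p⁻¹ * q⁻¹ ∈ K)
    {H0 : GroupLieAlgebra 𝓘(ℝ, E) G} (hH0 : IsRealDiag H0) (hne : H0 ≠ 0) {a : G}
    (ha : ∀ x : GroupLieAlgebra 𝓘(ℝ, E) G, Ad a x = Ad (exL H0 1 : G) x) (haK : a ∈ K)
    {X Y : Type*} [TopologicalSpace X] [MulAction G X] [ContinuousSMul G X]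
    [TopologicalSpace Y] [T2Space Y] [MulAction G Y] [ContinuousSMul G Y]
    {p : Y → G ⧸ Q} (hp : Continuous p) (hpG : ∀ (g : G) (y : Y), p (g • y) = g • p y)
    (hpK : ∀ y : Y, p y = QuotientGroup.mk 1 → ∀ k ∈ K, k • y = y)
    {h : X → Y} (hh : Continuous h) (hhΓ : ∀ γ ∈ Γ, ∀ x, h (γ • x) = γ • h x)
    {x₀ : X} (hx₀ : ∀ k ∈ K, k • x₀ = x₀) :
    (∀ g : G, h (g • x₀) = g • h x₀) ∧ p (h x₀) = QuotientGroup.mk 1 := by
  have : IsTopologicalGroup G := topologicalGroup_of_lieGroup 𝓘(ℝ, E) ∞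
  have hQcl : IsClosed (Q : Set G) := hQ.isClosed
  -- the map `F`
  let F : G → Y := fun x => x • h (x⁻¹ • x₀)
  have hF : Continuous F := continuous_id.smul (hh.comp (continuous_inv.smul continuous_const))
  have hFΓ : ∀ (x y : G), QuotientGroup.leftRel Γ x y → F x = F y := by
    intro x y hxy
    rw [QuotientGroup.leftRel_apply] at hxy
    have h1 : y = x * (x⁻¹ * y) := by group
    have h2 := hhΓ (x⁻¹ * y) hxy (y⁻¹ • x₀)
    have h3 : (x⁻¹ * y) • y⁻¹ • x₀ = x⁻¹ • x₀ := by rw [smul_smul]; congr 1; group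
    rw [h3] at h2
    show x • h (x⁻¹ • x₀) = y • h (y⁻¹ • x₀)
    rw [h2, smul_smul]
    congr 1
    group
  let F' : G ⧸ Γ → Y := Quotient.lift F hFΓ
  have hF' : Continuous F' := hF.quotient_lift hFΓ
  have hF'mk : ∀ x : G, F' (QuotientGroup.mk x) = F x := fun x => rfl
  have hFK : ∀ k ∈ K, ∀ x : G ⧸ Γ, F' (k • x) = k • F' x := by
    intro k hk x
    obtain ⟨g, rfl⟩ := QuotientGroup.mk_surjective x
    have h1 : (k • (QuotientGroup.mk g : G ⧸ Γ)) = QuotientGroup.mk (k * g) := rfl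
    rw [h1, hF'mk, hF'mk]
    show (k * g) • h ((k * g)⁻¹ • x₀) = k • g • h (g⁻¹ • x₀)
    have h2 : (k * g)⁻¹ • x₀ = g⁻¹ • x₀ := by
      rw [mul_inv_rev, mul_smul, hx₀ k⁻¹ (K.inv_mem hk)]
    rw [h2, mul_smul]
  -- the map `Φ`
  let Φ : G ⧸ Γ → G ⧸ Q := fun x => p (F' x)
  have hΦ : Continuous Φ := hp.comp hF'
  have hΦK : ∀ k ∈ K, ∀ x, Φ (k • x) = k • Φ x := by
    intro k hk x
    show p (F' (k • x)) = k • p (F' x)
    rw [hFK k hk, hpG]
  have hΦn : ∀ (n : ℕ) (x : G ⧸ Γ), Φ (a ^ n • x) = a ^ n • Φ x := fun n x =>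
    hΦK _ (K.pow_mem haK n) x
  have hΦa : ∀ x, a • Φ x = Φ x := by
    have hcl : IsClosed {x : G ⧸ Γ | a • Φ x = Φ x} :=
      isClosed_eq (hΦ.const_smul a) hΦ
    have hsub : {x : G ⧸ Γ | ∀ s ∈ 𝓝 x, ∃ᶠ n : ℕ in atTop, a ^ n • x ∈ s} ⊆
        {x : G ⧸ Γ | a • Φ x = Φ x} := by
      intro x hx
      refine smul_eq_of_recurrent hQ hH0 ha fun s hs => ?_
      have h1 := hx _ (hΦ.continuousAt.preimage_mem_nhds hs)
      refine h1.mono fun n hn => ?_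
      rw [mem_preimage, hΦn] at hn
      exact hn
    intro x
    have := closure_minimal hsub hcl
    rw [(dense_recurrent hΓ a).closure_eq] at this
    exact this (mem_univ x)
  have hΦinv : ∀ (g : G) (x : G ⧸ Γ), Φ (g • x) = Φ x :=
    invariant_of_diag hΓ hΦ hH0 hne ha fun x => by rw [hΦK a haK, hΦa]
  have hΦconst : ∀ x : G ⧸ Γ, Φ x = Φ (QuotientGroup.mk 1) := by
    intro x
    obtain ⟨g, hg⟩ := MulAction.exists_smul_eq G (QuotientGroup.mk 1 : G ⧸ Γ) x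
    rw [← hg, hΦinv]
  obtain ⟨g₀, hg₀⟩ := QuotientGroup.mk_surjective (Φ (QuotientGroup.mk 1))
  have hg₀Q : g₀ ∈ Q := by
    refine hQ.mem_of_comm fun r hr q hq => ?_
    have hk := hKcomm r hr q hq
    have h1 := hΦK _ hk (QuotientGroup.mk 1)
    rw [hΦinv, ← hg₀] at h1
    have h2 : (QuotientGroup.mk g₀ : G ⧸ Q) = QuotientGroup.mk (r * q * r⁻¹ * q⁻¹ * g₀) := h1
    rw [QuotientGroup.eq, ← mul_assoc] at h2
    exact h2
  have hΦ1 : ∀ x : G ⧸ Γ, Φ x = QuotientGroup.mk 1 := by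
    intro x
    rw [hΦconst, ← hg₀, QuotientGroup.eq, mul_one]
    exact Q.inv_mem hg₀Q
  have hF'inv : ∀ (g : G) (x : G ⧸ Γ), F' (g • x) = F' x :=
    invariant_of_diag hΓ hF' hH0 hne ha fun x => by
      rw [hFK a haK]
      exact hpK _ (hΦ1 x) a haK
  have hF1 : F' (QuotientGroup.mk 1) = h x₀ := by
    rw [hF'mk]
    show (1 : G) • h ((1 : G)⁻¹ • x₀) = h x₀
    rw [inv_one, one_smul, one_smul]
  refine ⟨fun g => ?_, ?_⟩
  · have h1 := hF'inv g⁻¹ (QuotientGroup.mk 1)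
    have h2 : (g⁻¹ • (QuotientGroup.mk 1 : G ⧸ Γ)) = QuotientGroup.mk (g⁻¹ * 1) := rfl
    rw [h2, hF1, hF'mk, mul_one] at h1
    have h3 : g⁻¹ • h ((g⁻¹)⁻¹ • x₀) = h x₀ := h1
    rw [inv_inv] at h3
    rw [← h3, smul_inv_smul]
  · have h1 := hΦ1 (QuotientGroup.mk 1)
    have h2 : Φ (QuotientGroup.mk 1) = p (h x₀) := by
      show p (F' (QuotientGroup.mk 1)) = p (h x₀)
      rw [hF1]
    rw [← h2, h1]

end PI
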