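import Pool.Agent.H47.SCOper

open UniformSpace Filter Topology

namespace SC

variable {𝕜 : Type*} [RCLike 𝕜] {n : ℕ} {M : Set ℕ+}

lemma c0_apply_le (f : c0 𝕜) (s : ℕ) : ‖f s‖ ≤ ‖f‖ := by
  rw [← ZeroAtInftyContinuousMap.norm_toBCF_eq_norm]
  exact BoundedContinuousFunction.norm_coe_le_norm f.toBCF s

lemma c0_norm_le {f : c0 𝕜} {C : ℝ} (hC : 0 ≤ C) (h : ∀ s, ‖f s‖ ≤ C) : ‖f‖ ≤ C := by
  rw [← ZeroAtInftyContinuousMap.norm_toBCF_eq_norm, BoundedContinuousFunction.norm_le hC]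
  exact h

/-- Evaluation at `s`. -/
noncomputable def ev (s : ℕ) : c0 𝕜 →L[𝕜] 𝕜 :=
  LinearMap.mkContinuous
    { toFun := fun f => f s
      map_add' := fun _ _ => rfl
      map_smul' := fun _ _ => rfl } 1 (fun f => by rw [one_mul]; exact c0_apply_le f s)

lemma ev_apply (s : ℕ) (f : c0 𝕜) : ev s f = f s := rfl

/-- The unit vectors of `c₀`. -/
noncomputable def dl (𝕜 : Type*) [RCLike 𝕜] (s : ℕ) : c0 𝕜 where
  toFun := fun t => if t = s then 1 else 0
  continuous_toFun := continuous_of_discreteTopology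
  zero_at_infty' := by
    refine tendsto_const_nhds.congr' ?_
    rw [Filter.cocompact_eq_cofinite]
    have : {s}ᶜ ∈ (Filter.cofinite : Filter ℕ) := by
      rw [Filter.mem_cofinite, compl_compl]
      exact Set.finite_singleton s
    filter_upwards [this] with t ht
    have ht' : t ≠ s := fun h => ht h
    rw [if_neg ht']

lemma dl_apply (s t : ℕ) : dl 𝕜 s t = if t = s then 1 else 0 := rfl

lemma c0_eventually (f : c0 𝕜) {ε : ℝ} (hε : 0 < ε) : ∃ S : ℕ, ∀ s, S ≤ s → ‖f s‖ < ε := by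
  have h1 : Tendsto (fun s => f s) atTop (𝓝 0) := by
    have := f.zero_at_infty'
    rw [Filter.cocompact_eq_cofinite, Nat.cofinite_eq_atTop] at this
    exact this
  have h2 := (tendsto_zero_iff_norm_tendsto_zero.1 h1).eventually (gt_mem_nhds hε)
  exact eventually_atTop.1 h2

/-- Truncation. -/
noncomputable def trunc (S : ℕ) (f : c0 𝕜) : c0 𝕜 := ∑ s ∈ Finset.range S, f s • dl 𝕜 s

lemma trunc_apply (S : ℕ) (f : c0 𝕜) (t : ℕ) : trunc S f t = if t < S then f t else 0 := by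
  have h1 : trunc S f t = ∑ s ∈ Finset.range S, f s * (if t = s then 1 else 0) := by
    have h2 : ev t (trunc S f) = ∑ s ∈ Finset.range S, ev t (f s • dl 𝕜 s) := by
      rw [trunc, map_sum]
    exact h2
  rw [h1]
  simp [Finset.mem_range]

lemma tendsto_trunc (f : c0 𝕜) : Tendsto (fun S => trunc S f) atTop (𝓝 f) := by
  rw [Metric.tendsto_atTop]
  intro ε hε
  obtain ⟨S0, hS0⟩ := c0_eventually f (half_pos hε)
  refine ⟨S0, fun S hS => ?_⟩
  rw [dist_eq_norm]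
  refine lt_of_le_of_lt (c0_norm_le (half_pos hε).le fun t => ?_) (half_lt_self hε)
  rw [ZeroAtInftyContinuousMap.sub_apply, trunc_apply]
  by_cases ht : t < S
  · rw [if_pos ht, sub_self, norm_zero]
    exact (half_pos hε).le
  · rw [if_neg ht, zero_sub, norm_neg]
    exact (hS0 t (by omega)).le

/-! ### The embedding of `c₀` -/

lemma J_partial (S : Sys n M) (f : ℕ → 𝕜) (Z : Finset ℕ) {c : ℝ} (hc0 : 0 ≤ c)
    (hc : ∀ s ∈ Z, ‖f s‖ ≤ c) : ‖∑ s ∈ Z, f s • S.blk 𝕜 s 0‖ ≤ 2 * c := by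
  classical
  refine S.norm_sum_le Z f (fun s => (s, 0)) (fun s _ => Nat.zero_le _) fun i => ?_
  simp only
  by_cases hi : i ∈ Z
  · have : Z.filter (fun s => s = i) = {i} := by
      ext s
      simp only [Finset.mem_filter, Finset.mem_singleton]
      exact ⟨fun h => h.2, fun h => ⟨h ▸ hi, h⟩⟩
    rw [this, Finset.sum_singleton]
    exact hc i hi
  · have : Z.filter (fun s => s = i) = ∅ := by
      ext s
      simp only [Finset.mem_filter, Finset.notMem_empty, iff_false]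
      rintro ⟨h1, h2⟩
      exact hi (h2 ▸ h1)
    rw [this, Finset.sum_empty]
    exact hc0

lemma J_summable (S : Sys n M) (f : c0 𝕜) : Summable fun s => f s • S.blk 𝕜 s 0 := by
  classical
  rw [summable_iff_vanishing_norm]
  intro ε hε
  obtain ⟨S0, hS0⟩ := c0_eventually f (show 0 < ε / 4 by linarith)
  refine ⟨Finset.range S0, fun t ht => ?_⟩
  refine lt_of_le_of_lt (J_partial S f t (c := ε / 4) (by linarith) fun s hs => ?_) (by linarith)
  refine (hS0 s ?_).le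
  by_contra h
  exact Finset.disjoint_left.1 ht hs (Finset.mem_range.2 (not_le.1 h))

/-- The embedding of `c₀` into the Schreier space. -/
noncomputable def J (S : Sys n M) : c0 𝕜 →L[𝕜] X 𝕜 (n + 1) :=
  LinearMap.mkContinuous
    { toFun := fun f => ∑' s, f s • S.blk 𝕜 s 0
      map_add' := fun f g => by
        rw [← (J_summable S f).tsum_add (J_summable S g)]
        exact tsum_congr fun s => by rw [ZeroAtInftyContinuousMap.add_apply, add_smul]
      map_smul' := fun c f => by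
        rw [RingHom.id_apply, ← (J_summable S f).tsum_const_smul]
        exact tsum_congr fun s => by
          rw [ZeroAtInftyContinuousMap.smul_apply, smul_eq_mul, mul_smul] } 2
    (fun f => by
      have h1 : HasSum (fun s => f s • S.blk 𝕜 s 0) (∑' s, f s • S.blk 𝕜 s 0) :=
        (J_summable S f).hasSum
      have h2 : Tendsto (fun Z : Finset ℕ => ‖∑ s ∈ Z, f s • S.blk 𝕜 s 0‖) atTop
          (𝓝 ‖∑' s, f s • S.blk 𝕜 s 0‖) := h1.norm
      exact le_of_tendsto' h2 fun Z => J_partial S f Z (norm_nonneg f) fun s _ => c0_apply_le f s)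

lemma J_apply (S : Sys n M) (f : c0 𝕜) : J S f = ∑' s, f s • S.blk 𝕜 s 0 := rfl

/-! ### The projection onto `c₀` -/

/-- The functionals `y ↦ ∑_{s ∈ supp x_{ij}} y_s`: images of the basis vectors. -/
noncomputable def xiv (𝕜 : Type*) [RCLike 𝕜] (S : Sys n M) (i j : ℕ) (s : ℕ+) : 𝕜 :=
  open Classical in if s ∈ (S.x i j).support then 1 else 0

lemma xiv_sum (S : Sys n M) (i j : ℕ) (x : ℕ+ →₀ 𝕜) :
    Finsupp.linearCombination 𝕜 (xiv 𝕜 S i j) x = ∑ s ∈ (S.x i j).support, x s := by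
  classical
  rw [Finsupp.linearCombination_apply, Finsupp.sum]
  have h1 : ∀ s, x s • xiv 𝕜 S i j s = if s ∈ (S.x i j).support then x s else 0 := by
    intro s
    unfold xiv
    split_ifs <;> simp
  simp only [h1]
  rw [← Finset.sum_filter, Finset.filter_mem_eq_inter, Finset.inter_comm]
  refine Finset.sum_subset Finset.inter_subset_left fun s hs hs' => ?_
  by_contra h
  exact hs' (Finset.mem_inter.2 ⟨hs, Finsupp.mem_support_iff.2 h⟩)

/-- The joint bound for the functionals. -/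
lemma xi_joint (S : Sys n M) (i : ℕ) (x : ℕ+ →₀ 𝕜) :
    ∑ j ∈ Finset.range (i + 1), ‖Finsupp.linearCombination 𝕜 (xiv 𝕜 S i j) x‖ ≤
      ‖C00.mk (n + 1) x‖ := by
  classical
  have h1 : ∑ j ∈ Finset.range (i + 1), ‖Finsupp.linearCombination 𝕜 (xiv 𝕜 S i j) x‖ ≤
      ∑ j ∈ Finset.range (i + 1), ∑ s ∈ (S.x i j).support, ‖x s‖ := by
    refine Finset.sum_le_sum fun j _ => ?_
    rw [xiv_sum]
    exact _root_.norm_sum_le _ _
  have h2 : ∑ j ∈ Finset.range (i + 1), ∑ s ∈ (S.x i j).support, ‖x s‖ =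
      ∑ s ∈ (Finset.range (i + 1)).biUnion (fun j => (S.x i j).support), ‖x s‖ := by
    rw [Finset.sum_biUnion]
    intro j _ j' _ hjj
    rw [Function.onFun, Finset.disjoint_left]
    intro s hs hs'
    rcases lt_or_gt_of_ne hjj with h | h
    · exact absurd (S.disj i j j' h s hs s hs') (lt_irrefl _)
    · exact absurd (S.disj i j' j h s hs' s hs) (lt_irrefl _)
  exact h1.trans (h2.le.trans (C00.sum_le_norm (C00.mk (n + 1) x) (S.union_mem i)))

lemma xi_bound (S : Sys n M) {i j : ℕ} (hj : j ≤ i) (x : ℕ+ →₀ 𝕜) :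
    ‖Finsupp.linearCombination 𝕜 (xiv 𝕜 S i j) x‖ ≤ 1 * ‖C00.mk (n + 1) x‖ := by
  rw [one_mul]
  exact (Finset.single_le_sum
    (f := fun j => ‖Finsupp.linearCombination 𝕜 (xiv 𝕜 S i j) x‖) (fun _ _ => norm_nonneg _)
    (Finset.mem_range.2 (Nat.lt_succ_of_le hj))).trans (xi_joint S i x)

/-- The functionals. -/
noncomputable def xi (𝕜 : Type*) [RCLike 𝕜] (S : Sys n M) (i j : ℕ) : X 𝕜 (n + 1) →L[𝕜] 𝕜 :=
  ofBasis (xiv 𝕜 S i j)

lemma xi_ι (S : Sys n M) {i j : ℕ} (hj : j ≤ i) (x : ℕ+ →₀ 𝕜) :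
    xi 𝕜 S i j (ι 𝕜 (n + 1) x) = Finsupp.linearCombination 𝕜 (xiv 𝕜 S i j) x := by
  unfold xi
  exact ofBasis_ι (𝕜 := 𝕜) (n := n + 1) (v := xiv 𝕜 S i j) (C := 1) (xi_bound S hj) x

lemma xi_blk (S : Sys n M) {i j : ℕ} (hj : j ≤ i) : xi 𝕜 S i j (S.blk 𝕜 i j) = 1 := by
  unfold xi
  refine ofBasis_blk (𝕜 := 𝕜) (v := xiv 𝕜 S i j) (C := 1) (xi_bound S hj) S i j 1 fun s hs => ?_
  unfold xiv
  rw [if_pos hs]

lemma xi_joint' (S : Sys n M) (i : ℕ) (y : X 𝕜 (n + 1)) :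
    ∑ j ∈ Finset.range (i + 1), ‖xi 𝕜 S i j y‖ ≤ ‖y‖ := by
  have hc : IsClosed {y : X 𝕜 (n + 1) | ∑ j ∈ Finset.range (i + 1), ‖xi 𝕜 S i j y‖ ≤ ‖y‖} := by
    refine isClosed_le ?_ continuous_norm
    exact continuous_finsetSum _ fun j _ => (xi 𝕜 S i j).continuous.norm
  refine isClosed_property (ι_dense (𝕜 := 𝕜) (n := n + 1)) hc (fun x => ?_) y
  rw [norm_ι]
  refine le_trans (le_of_eq (Finset.sum_congr rfl fun j hj => ?_)) (xi_joint S i x)
  rw [xi_ι S (Nat.lt_succ_iff.1 (Finset.mem_range.1 hj))]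

/-- Images of the basis vectors under the projection onto `c₀`. -/
noncomputable def qv (𝕜 : Type*) [RCLike 𝕜] (S : Sys n M) : ℕ+ → c0 𝕜 :=
  tv S (fun i j => if j = 0 then dl 𝕜 i else 0)

lemma qv_apply (S : Sys n M) (s : ℕ+) (i : ℕ) : qv 𝕜 S s i = xiv 𝕜 S i 0 s := by
  classical
  unfold qv xiv
  by_cases h : S.Has s
  · have h1 := S.idx_spec h
    rw [tv_of_mem S _ h1.1 h1.2]
    by_cases hs : s ∈ (S.x i 0).support
    · have h2 := S.idx_eq (Nat.zero_le i) hs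
      rw [if_pos hs, h2]
      simp [dl_apply]
    · rw [if_neg hs]
      by_cases h0 : (S.idx s).2 = 0
      · rw [if_pos h0, dl_apply, if_neg]
        rintro rfl
        rw [h0] at h1
        exact hs h1.2
      · rw [if_neg h0]
        rfl
  · rw [tv_of_not S _ h]
    rw [if_neg]
    · rfl
    · intro hs
      exact h ⟨(i, 0), Nat.zero_le i, hs⟩

lemma qv_bound (S : Sys n M) (x : ℕ+ →₀ 𝕜) :
    ‖Finsupp.linearCombination 𝕜 (qv 𝕜 S) x‖ ≤ 1 * ‖C00.mk (n + 1) x‖ := by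
  rw [one_mul]
  refine c0_norm_le (norm_nonneg _) fun i => ?_
  have h1 : Finsupp.linearCombination 𝕜 (qv 𝕜 S) x i =
      Finsupp.linearCombination 𝕜 (xiv 𝕜 S i 0) x := by
    have h2 : ev i (Finsupp.linearCombination 𝕜 (qv 𝕜 S) x) =
        x.sum fun s c => ev i (c • qv 𝕜 S s) := by
      rw [Finsupp.linearCombination_apply, Finsupp.sum, map_sum]
      rfl
    have h3 : Finsupp.linearCombination 𝕜 (xiv 𝕜 S i 0) x =
        x.sum fun s c => ev i (c • qv 𝕜 S s) := by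
      rw [Finsupp.linearCombination_apply]
      refine Finsupp.sum_congr fun s _ => ?_
      rw [map_smul, ev_apply, qv_apply]
    rw [h3, ← h2, ev_apply]
  rw [h1]
  have := xi_bound (𝕜 := 𝕜) S (Nat.zero_le i) x
  rwa [one_mul] at this

/-- The projection onto `c₀`. -/
noncomputable def Q (S : Sys n M) : X 𝕜 (n + 1) →L[𝕜] c0 𝕜 := ofBasis (qv 𝕜 S)

lemma Q_blk (S : Sys n M) (i : ℕ) : Q S (S.blk 𝕜 i 0) = dl 𝕜 i := by
  unfold Q
  refine ofBasis_blk (𝕜 := 𝕜) (v := qv 𝕜 S) (C := 1) (qv_bound S) S i 0 (dl 𝕜 i) fun s hs => ?_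
  unfold qv
  rw [tv_of_mem S _ (Nat.zero_le i) hs, if_pos rfl]

lemma QPJ (S : Sys n M) (f : c0 𝕜) : Q S (P 𝕜 (n + 1) M (J S f)) = f := by
  have h1 : HasSum (fun s => f s • S.blk 𝕜 s 0) (J S f) := (J_summable S f).hasSum
  have h2 : HasSum (fun s => Q S (P 𝕜 (n + 1) M (f s • S.blk 𝕜 s 0)))
      (Q S (P 𝕜 (n + 1) M (J S f))) := (h1.mapL (P 𝕜 (n + 1) M)).mapL (Q S)
  have h3 : ∀ s, Q S (P 𝕜 (n + 1) M (f s • S.blk 𝕜 s 0)) = f s • dl 𝕜 s := by
    intro s
    rw [map_smul, map_smul, P_blk S (Nat.zero_le s), Q_blk]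
  simp only [h3] at h2
  refine ZeroAtInftyContinuousMap.ext fun t => ?_
  have h4 : HasSum (fun s => ev t (f s • dl 𝕜 s)) (ev t (Q S (P 𝕜 (n + 1) M (J S f)))) :=
    h2.mapL (ev t)
  have h5 : HasSum (fun s => ev t (f s • dl 𝕜 s)) (f t) := by
    have h6 : ∀ s, s ≠ t → ev t (f s • dl 𝕜 s) = 0 := by
      intro s hs
      rw [map_smul, ev_apply, dl_apply, if_neg (Ne.symm hs), smul_zero]
    have h7 : ev t (f t • dl 𝕜 t) = f t := by
      rw [map_smul, ev_apply, dl_apply, if_pos rfl, smul_eq_mul, mul_one]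
    have := hasSum_single (f := fun s => ev t (f s • dl 𝕜 s)) t h6
    rwa [h7] at this
  exact h4.unique h5

/-- Every operator factoring through `c₀` is in every closed ideal which contains `P_M` for some
infinite `M`. -/
lemma Gc0_subset (hM : M.Infinite) {I : Set (Op 𝕜 (n + 1))}
    (hI : IsClosedIdeal I) (hP : P 𝕜 (n + 1) M ∈ I) : Gc0 𝕜 (n + 1) ⊆ I := by
  obtain ⟨S⟩ := exists_sys n hM
  rintro T ⟨A, B, rfl⟩
  have h1 : (A ∘L Q S) ∘L (P 𝕜 (n + 1) M ∘L (J S ∘L B)) ∈ I :=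
    hI.mul_mem_left _ _ (hI.mul_mem_right _ hP _)
  have h2 : (A ∘L Q S) ∘L (P 𝕜 (n + 1) M ∘L (J S ∘L B)) = A ∘L B := by
    ext y
    show A (Q S (P 𝕜 (n + 1) M (J S (B y)))) = A (B y)
    rw [QPJ]
  rwa [h2] at h1

end SC
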