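import Mathlib

/-!
# Schreier spaces of finite order: definitions

* `SC.Fam n`: the Schreier family `𝒮ₙ` of finite subsets of `ℕ+ = {1,2,…}`;
* `SC.C00 𝕜 n`: `c₀₀` with the norm `sup {∑_{j ∈ E} |x j| : ∅ ≠ E ∈ 𝒮ₙ}`;
* `SC.X 𝕜 n`: its completion, the Schreier space `X[𝒮ₙ]`;
* `SC.e 𝕜 n j`: the unit vector basis;
* `SC.P 𝕜 n N`: the basis projection `P_N`;
* `SC.Op 𝕜 n`: the bounded operators on `X[𝒮ₙ]`; `SC.compacts`: the compact ones;
* `SC.IsClosedIdeal`, `SC.spatialIdeal`, `SC.NontrivialSpatial`;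
* `SC.Gc0`: the operators which factor through `c₀`.
-/

open UniformSpace

namespace SC

/-- The Schreier family `𝒮ₙ` of finite subsets of `ℕ+ = {1, 2, …}`. -/
def Fam : ℕ → Set (Finset ℕ+)
  | 0 => {E | E = ∅ ∨ ∃ k : ℕ+, E = {k}}
  | n + 1 => {E | E = ∅ ∨ ∃ (k : ℕ) (F : Fin k → Finset ℕ+), 1 ≤ k ∧
      (∀ i, F i ∈ Fam n ∧ (F i).Nonempty) ∧
      (∀ i, ∀ a ∈ F i, k ≤ (a : ℕ)) ∧
      (∀ i j, i < j → ∀ a ∈ F i, ∀ b ∈ F j, a < b) ∧
      E = Finset.univ.biUnion F}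

/-- The vector space `c₀₀` of finitely supported families `ℕ+ → 𝕜`, which will be given the
Schreier norm of order `n`. -/
def C00 (𝕜 : Type*) [RCLike 𝕜] (_n : ℕ) : Type _ := ℕ+ →₀ 𝕜

variable {𝕜 : Type*} [RCLike 𝕜] {n : ℕ}

noncomputable instance : AddCommGroup (C00 𝕜 n) := Finsupp.instAddCommGroup (ι := ℕ+) (G := 𝕜)

noncomputable instance : Module 𝕜 (C00 𝕜 n) := Finsupp.module ℕ+ 𝕜

/-- The `j`-th coordinate of an element of `c₀₀`. -/
def C00.coord (x : C00 𝕜 n) (j : ℕ+) : 𝕜 := (show ℕ+ →₀ 𝕜 from x) j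

/-- The Schreier norm of order `n` on `c₀₀`: the supremum of `∑_{j ∈ E} |x j|` over all non-empty
`E ∈ 𝒮ₙ`. -/
noncomputable instance : Norm (C00 𝕜 n) :=
  ⟨fun x => ⨆ E : {E : Finset ℕ+ // E ∈ Fam n ∧ E.Nonempty}, ∑ j ∈ E.1, ‖x.coord j‖⟩

/-- The identity map from finitely supported families to `c₀₀`. -/
noncomputable def C00.mk (n : ℕ) : (ℕ+ →₀ 𝕜) ≃ₗ[𝕜] C00 𝕜 n := LinearEquiv.refl 𝕜 (ℕ+ →₀ 𝕜)

@[simp] lemma C00.coord_mk (x : ℕ+ →₀ 𝕜) (j : ℕ+) : (C00.mk n x).coord j = x j := rfl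

@[simp] lemma C00.coord_add (x y : C00 𝕜 n) (j : ℕ+) :
    (x + y).coord j = x.coord j + y.coord j := rfl

@[simp] lemma C00.coord_smul (c : 𝕜) (x : C00 𝕜 n) (j : ℕ+) :
    (c • x).coord j = c * x.coord j := rfl

@[simp] lemma C00.coord_zero (j : ℕ+) : (0 : C00 𝕜 n).coord j = 0 := rfl

lemma C00.ext' {x y : C00 𝕜 n} (h : ∀ j, x.coord j = y.coord j) : x = y :=
  Finsupp.ext (f := (show ℕ+ →₀ 𝕜 from x)) (g := (show ℕ+ →₀ 𝕜 from y)) h

lemma C00.sum_le_total (x : C00 𝕜 n) (E : Finset ℕ+) :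
    ∑ j ∈ E, ‖x.coord j‖ ≤ ∑ j ∈ (show ℕ+ →₀ 𝕜 from x).support, ‖x.coord j‖ := by
  classical
  have h1 : ∑ j ∈ E, ‖x.coord j‖ = ∑ j ∈ E ∩ (show ℕ+ →₀ 𝕜 from x).support, ‖x.coord j‖ := by
    symm
    apply Finset.sum_subset Finset.inter_subset_left
    intro j hj hj'
    have : j ∉ (show ℕ+ →₀ 𝕜 from x).support := fun h => hj' (Finset.mem_inter.2 ⟨hj, h⟩)
    have h2 : (show ℕ+ →₀ 𝕜 from x) j = 0 := Finsupp.notMem_support_iff.1 this
    simp [C00.coord, h2]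
  rw [h1]
  exact Finset.sum_le_sum_of_subset_of_nonneg Finset.inter_subset_right
    (fun _ _ _ => norm_nonneg _)

lemma C00.bddAbove (x : C00 𝕜 n) :
    BddAbove (Set.range fun E : {E : Finset ℕ+ // E ∈ Fam n ∧ E.Nonempty} =>
      ∑ j ∈ E.1, ‖x.coord j‖) := by
  refine ⟨∑ j ∈ (show ℕ+ →₀ 𝕜 from x).support, ‖x.coord j‖, ?_⟩
  rintro _ ⟨E, rfl⟩
  exact x.sum_le_total E.1

lemma Fam.empty_mem (n : ℕ) : (∅ : Finset ℕ+) ∈ Fam n := by
  cases n with
  | zero => exact Or.inl rfl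
  | succ n => exact Or.inl rfl

lemma Fam.singleton_mem (n : ℕ) (a : ℕ+) : ({a} : Finset ℕ+) ∈ Fam n := by
  induction n with
  | zero => exact Or.inr ⟨a, rfl⟩
  | succ n ih =>
    refine Or.inr ⟨1, fun _ => {a}, le_refl _, fun _ => ⟨ih, Finset.singleton_nonempty a⟩, ?_, ?_, ?_⟩
    · intro i b _
      exact b.2
    · intro i j hij
      exact absurd hij (by simp [Subsingleton.elim i j])
    · ext b
      simp

instance : Nonempty {E : Finset ℕ+ // E ∈ Fam n ∧ E.Nonempty} :=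
  ⟨⟨{1}, Fam.singleton_mem n 1, Finset.singleton_nonempty 1⟩⟩

lemma C00.norm_def (x : C00 𝕜 n) :
    ‖x‖ = ⨆ E : {E : Finset ℕ+ // E ∈ Fam n ∧ E.Nonempty}, ∑ j ∈ E.1, ‖x.coord j‖ := rfl

lemma C00.sum_le_norm (x : C00 𝕜 n) {E : Finset ℕ+} (hE : E ∈ Fam n) :
    ∑ j ∈ E, ‖x.coord j‖ ≤ ‖x‖ := by
  rcases E.eq_empty_or_nonempty with rfl | hne
  · rw [Finset.sum_empty, C00.norm_def]
    exact Real.iSup_nonneg fun E => Finset.sum_nonneg fun _ _ => norm_nonneg _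
  · rw [C00.norm_def]
    exact le_ciSup x.bddAbove ⟨E, hE, hne⟩

lemma C00.norm_le (x : C00 𝕜 n) {C : ℝ} (h : ∀ E ∈ Fam n, ∑ j ∈ E, ‖x.coord j‖ ≤ C) :
    ‖x‖ ≤ C := by
  rw [C00.norm_def]
  exact ciSup_le fun E => h E.1 E.2.1

lemma C00.coord_le_norm (x : C00 𝕜 n) (j : ℕ+) : ‖x.coord j‖ ≤ ‖x‖ := by
  have := x.sum_le_norm (Fam.singleton_mem n j)
  simpa using this

lemma C00.norm_nonneg' (x : C00 𝕜 n) : 0 ≤ ‖x‖ :=
  (norm_nonneg _).trans (x.coord_le_norm 1)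

lemma C00.core (𝕜 : Type*) [RCLike 𝕜] (n : ℕ) : NormedSpace.Core 𝕜 (C00 𝕜 n) where
  norm_nonneg x := x.norm_nonneg'
  norm_smul c x := by
    have key : ∀ (c : 𝕜) (x : C00 𝕜 n), ‖c • x‖ ≤ ‖c‖ * ‖x‖ := by
      intro c x
      refine C00.norm_le _ fun E hE => ?_
      have : ∑ j ∈ E, ‖(c • x).coord j‖ = ‖c‖ * ∑ j ∈ E, ‖x.coord j‖ := by
        rw [Finset.mul_sum]
        exact Finset.sum_congr rfl fun j _ => by rw [C00.coord_smul, norm_mul]
      rw [this]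
      exact mul_le_mul_of_nonneg_left (x.sum_le_norm hE) (norm_nonneg c)
    refine le_antisymm (key c x) ?_
    rcases eq_or_ne c 0 with rfl | hc
    · rw [norm_zero, zero_mul]
      exact C00.norm_nonneg' _
    · have h1 := key c⁻¹ (c • x)
      rw [smul_smul, inv_mul_cancel₀ hc, one_smul, norm_inv] at h1
      have hc' : 0 < ‖c‖ := norm_pos_iff.2 hc
      calc ‖c‖ * ‖x‖ ≤ ‖c‖ * (‖c‖⁻¹ * ‖c • x‖) := mul_le_mul_of_nonneg_left h1 hc'.le
        _ = ‖c • x‖ := by rw [← mul_assoc, mul_inv_cancel₀ hc'.ne', one_mul]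
  norm_triangle x y := by
    refine C00.norm_le _ fun E hE => ?_
    calc ∑ j ∈ E, ‖(x + y).coord j‖ ≤ ∑ j ∈ E, (‖x.coord j‖ + ‖y.coord j‖) :=
          Finset.sum_le_sum fun j _ => by rw [C00.coord_add]; exact norm_add_le _ _
      _ = ∑ j ∈ E, ‖x.coord j‖ + ∑ j ∈ E, ‖y.coord j‖ := Finset.sum_add_distrib
      _ ≤ ‖x‖ + ‖y‖ := add_le_add (x.sum_le_norm hE) (y.sum_le_norm hE)
  norm_eq_zero_iff x := by
    constructor
    · intro h
      refine C00.ext' fun j => ?_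
      have := x.coord_le_norm j
      rw [h] at this
      rw [C00.coord_zero]
      exact norm_le_zero_iff.1 this
    · rintro rfl
      refine le_antisymm (C00.norm_le _ fun E _ => by simp) (C00.norm_nonneg' _)

noncomputable instance : NormedAddCommGroup (C00 𝕜 n) := NormedAddCommGroup.ofCore (C00.core 𝕜 n)

noncomputable instance : NormedSpace 𝕜 (C00 𝕜 n) := NormedSpace.ofCore (C00.core 𝕜 n)

variable (𝕜 n)

/-- The Schreier space `X[𝒮ₙ]` over `𝕜`: the completion of `c₀₀` in the Schreier norm. -/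
def X : Type _ := Completion (C00 𝕜 n)

noncomputable instance : NormedAddCommGroup (X 𝕜 n) :=
  Completion.instNormedAddCommGroup (C00 𝕜 n)

noncomputable instance : NormedSpace 𝕜 (X 𝕜 n) :=
  Completion.instNormedSpace 𝕜 (C00 𝕜 n)

instance : CompleteSpace (X 𝕜 n) :=
  Completion.completeSpace (C00 𝕜 n)

/-- The canonical linear map from finitely supported families to `X[𝒮ₙ]`: the identity
`(ℕ+ →₀ 𝕜) → c₀₀` followed by the embedding of `c₀₀` into its completion. -/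
noncomputable def ι : (ℕ+ →₀ 𝕜) →ₗ[𝕜] X 𝕜 n where
  toFun x := ((C00.mk n x : C00 𝕜 n) : Completion (C00 𝕜 n))
  map_add' x y := by rw [map_add]; exact Completion.coe_add _ _
  map_smul' c x := by rw [map_smul]; exact Completion.coe_smul _ _

/-- The unit vector basis of `X[𝒮ₙ]`. -/
noncomputable def e (j : ℕ+) : X 𝕜 n := ι 𝕜 n (Finsupp.single j 1)

/-- The bounded operators on `X[𝒮ₙ]`, a ring with the composition of operators as product. -/
abbrev Op : Type _ := X 𝕜 n →L[𝕜] X 𝕜 n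

variable {𝕜 n} in
/-- The bounded operator `X[𝒮ₙ] → Y` which maps `e j` to `v j`: the continuous extension of the
linear map `x ↦ ∑ j, x j • v j` of `c₀₀` (it is only used when this map is bounded). -/
noncomputable def ofBasis {Y : Type*} [NormedAddCommGroup Y] [NormedSpace 𝕜 Y] [CompleteSpace Y]
    (v : ℕ+ → Y) : X 𝕜 n →L[𝕜] Y :=
  (Finsupp.linearCombination 𝕜 v).extendOfNorm (ι 𝕜 n)

/-- The basis projection `P_N` of `X[𝒮ₙ]` for a set `N ⊆ ℕ+`: it maps `e j` to `e j` if `j ∈ N`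
and to `0` otherwise. -/
noncomputable def P (N : Set ℕ+) : Op 𝕜 n :=
  open Classical in ofBasis fun j => if j ∈ N then e 𝕜 n j else 0

variable {𝕜 n}

/-- Closed two-sided ideals of a topological ring. -/
structure IsClosedIdeal {R : Type*} [Ring R] [TopologicalSpace R] (I : Set R) : Prop where
  isClosed : IsClosed I
  zero_mem : (0 : R) ∈ I
  add_mem : ∀ S ∈ I, ∀ T ∈ I, S + T ∈ I
  mul_mem_left : ∀ S : R, ∀ T ∈ I, S * T ∈ I
  mul_mem_right : ∀ T ∈ I, ∀ S : R, T * S ∈ I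

variable (𝕜 n)

/-- The compact operators on `X[𝒮ₙ]`. -/
def compacts : Set (Op 𝕜 n) := {T | IsCompactOperator T}

/-- The spatial ideal generated by `P_N`: the smallest closed two-sided ideal of the bounded
operators on `X[𝒮ₙ]` which contains `P_N`. -/
def spatialIdeal (N : Set ℕ+) : Set (Op 𝕜 n) := ⋂₀ {I | IsClosedIdeal I ∧ P 𝕜 n N ∈ I}

/-- The non-trivial spatial ideals: those of the form `spatialIdeal N` for a non-empty `N`, which
lie strictly between the compact operators and all bounded operators. -/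
def NontrivialSpatial (I : Set (Op 𝕜 n)) : Prop :=
  (∃ N : Set ℕ+, N.Nonempty ∧ I = spatialIdeal 𝕜 n N) ∧ compacts 𝕜 n ⊂ I ∧ I ⊂ Set.univ

/-- The space `c₀` of null sequences in `𝕜`, with the supremum norm. -/
abbrev c0 (𝕜 : Type*) [RCLike 𝕜] := ZeroAtInftyContinuousMap ℕ 𝕜

/-- The operators on `X[𝒮ₙ]` which factor through `c₀`. -/
def Gc0 : Set (Op 𝕜 n) := {T | ∃ (A : c0 𝕜 →L[𝕜] X 𝕜 n) (B : X 𝕜 n →L[𝕜] c0 𝕜), T = A ∘L B}

end SC
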