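import Pool.Agent.H47.SCDefs

open UniformSpace

namespace SC

variable {𝕜 : Type*} [RCLike 𝕜] {n : ℕ}

lemma ι_apply (x : ℕ+ →₀ 𝕜) :
    ι 𝕜 n x = ((C00.mk n x : C00 𝕜 n) : Completion (C00 𝕜 n)) := rfl

lemma ι_single (j : ℕ+) : ι 𝕜 n (Finsupp.single j 1) = e 𝕜 n j := rfl

lemma norm_ι (x : ℕ+ →₀ 𝕜) : ‖ι 𝕜 n x‖ = ‖C00.mk n x‖ :=
  Completion.norm_coe (C00.mk n x)

lemma ι_dense : DenseRange (ι 𝕜 n) := by
  have h : DenseRange ((↑) : C00 𝕜 n → Completion (C00 𝕜 n)) := Completion.denseRange_coe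
  have h2 : Set.range (ι 𝕜 n) = Set.range ((↑) : C00 𝕜 n → Completion (C00 𝕜 n)) := by
    ext y
    constructor
    · rintro ⟨x, rfl⟩
      exact ⟨C00.mk n x, rfl⟩
    · rintro ⟨x, rfl⟩
      exact ⟨(C00.mk n).symm x, rfl⟩
  unfold DenseRange
  rw [h2]
  exact h

lemma ι_eq_linearCombination (x : ℕ+ →₀ 𝕜) :
    ι 𝕜 n x = Finsupp.linearCombination 𝕜 (e 𝕜 n) x := by
  induction x using Finsupp.induction_linear with
  | zero => simp
  | add f g hf hg => rw [map_add, map_add, hf, hg]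
  | single a b =>
    rw [Finsupp.linearCombination_single, ← ι_single, ← map_smul, Finsupp.smul_single, smul_eq_mul,
      mul_one]

section
variable {Y : Type*} [NormedAddCommGroup Y] [NormedSpace 𝕜 Y] [CompleteSpace Y]

lemma ofBasis_ι {v : ℕ+ → Y} {C : ℝ}
    (h : ∀ x : ℕ+ →₀ 𝕜, ‖Finsupp.linearCombination 𝕜 v x‖ ≤ C * ‖C00.mk n x‖) (x : ℕ+ →₀ 𝕜) :
    ofBasis (n := n) v (ι 𝕜 n x) = Finsupp.linearCombination 𝕜 v x := by
  have h' : ∃ C : ℝ, ∀ x : ℕ+ →₀ 𝕜, ‖Finsupp.linearCombination 𝕜 v x‖ ≤ C * ‖ι 𝕜 n x‖ :=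
    ⟨C, fun x => by rw [norm_ι]; exact h x⟩
  exact LinearMap.extendOfNorm_eq (f := Finsupp.linearCombination 𝕜 v) (e := ι 𝕜 n) ι_dense h' x

lemma ofBasis_e {v : ℕ+ → Y} {C : ℝ}
    (h : ∀ x : ℕ+ →₀ 𝕜, ‖Finsupp.linearCombination 𝕜 v x‖ ≤ C * ‖C00.mk n x‖) (j : ℕ+) :
    ofBasis (n := n) v (e 𝕜 n j) = v j := by
  rw [← ι_single, ofBasis_ι h, Finsupp.linearCombination_single, one_smul]

lemma ofBasis_norm_le {v : ℕ+ → Y} {C : ℝ}
    (h : ∀ x : ℕ+ →₀ 𝕜, ‖Finsupp.linearCombination 𝕜 v x‖ ≤ C * ‖C00.mk n x‖) (y : X 𝕜 n) :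
    ‖ofBasis (n := n) v y‖ ≤ C * ‖y‖ := by
  have hc : IsClosed {y : X 𝕜 n | ‖ofBasis (n := n) v y‖ ≤ C * ‖y‖} :=
    isClosed_le (ofBasis (n := n) v).continuous.norm (continuous_const.mul continuous_norm)
  refine isClosed_property (ι_dense (𝕜 := 𝕜) (n := n)) hc (fun x => ?_) y
  rw [ofBasis_ι h, norm_ι]
  exact h x

end

lemma ext_e {Y : Type*} [NormedAddCommGroup Y] [NormedSpace 𝕜 Y] {S T : X 𝕜 n →L[𝕜] Y}
    (h : ∀ j, S (e 𝕜 n j) = T (e 𝕜 n j)) : S = T := by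
  have h1 : ∀ x : ℕ+ →₀ 𝕜, S (ι 𝕜 n x) = T (ι 𝕜 n x) := by
    intro x
    induction x using Finsupp.induction_linear with
    | zero => simp
    | add f g hf hg => rw [map_add, map_add, map_add, hf, hg]
    | single a b =>
      have : (Finsupp.single a b : ℕ+ →₀ 𝕜) = b • Finsupp.single a 1 := by
        rw [Finsupp.smul_single, smul_eq_mul, mul_one]
      rw [this, map_smul, map_smul, map_smul, ι_single, h]
  ext y
  refine isClosed_property (ι_dense (𝕜 := 𝕜) (n := n)) (isClosed_eq S.continuous T.continuous) h1 y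

/-- Boundedness of the basis projections. -/
lemma P_bound (N : Set ℕ+) [DecidablePred (· ∈ N)] (x : ℕ+ →₀ 𝕜) :
    ‖Finsupp.linearCombination 𝕜 (fun j => if j ∈ N then e 𝕜 n j else 0) x‖ ≤
      1 * ‖C00.mk n x‖ := by
  have h1 : Finsupp.linearCombination 𝕜 (fun j => if j ∈ N then e 𝕜 n j else 0) x =
      ι 𝕜 n (x.filter (· ∈ N)) := by
    induction x using Finsupp.induction_linear with
    | zero => rw [Finsupp.filter_zero, map_zero, map_zero]
    | add f g hf hg => rw [map_add, hf, hg, Finsupp.filter_add, map_add]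
    | single a b =>
      rw [Finsupp.linearCombination_single]
      by_cases ha : a ∈ N
      · rw [if_pos ha, Finsupp.filter_single_of_pos _ ha, ← ι_single, ← map_smul,
          Finsupp.smul_single, smul_eq_mul, mul_one]
      · rw [if_neg ha, Finsupp.filter_single_of_neg _ ha, map_zero, smul_zero]
  rw [h1, norm_ι, one_mul]
  refine C00.norm_le _ fun E hE => le_trans (Finset.sum_le_sum fun j _ => ?_)
    (C00.sum_le_norm _ hE)
  rw [C00.coord_mk, C00.coord_mk]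
  by_cases hj : j ∈ N
  · rw [Finsupp.filter_apply_pos _ _ hj]
  · rw [Finsupp.filter_apply_neg _ _ hj, norm_zero]
    exact norm_nonneg _

end SC
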