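import Pool.Agent.H47.SCExt

open UniformSpace

namespace SC

/-- A union of at most `k` successive members of `𝒮ₙ`, all of whose elements are `≥ k`, is in
`𝒮ₙ₊₁`. -/
lemma Fam.biUnion_mem {n : ℕ} (s : Finset ℕ) (F : ℕ → Finset ℕ+)
    (hF : ∀ i ∈ s, F i ∈ Fam n) (hk : ∀ i ∈ s, ∀ a ∈ F i, s.card ≤ (a : ℕ))
    (hlt : ∀ i ∈ s, ∀ j ∈ s, i < j → ∀ a ∈ F i, ∀ b ∈ F j, a < b) :
    s.biUnion F ∈ Fam (n + 1) := by
  classical
  set t := s.filter (fun i => (F i).Nonempty) with ht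
  have hts : ∀ i ∈ t, i ∈ s := fun i hi => (Finset.mem_filter.1 hi).1
  have htn : ∀ i ∈ t, (F i).Nonempty := fun i hi => (Finset.mem_filter.1 hi).2
  have hcard : t.card ≤ s.card := Finset.card_le_card (Finset.filter_subset _ _)
  have hun : s.biUnion F = t.biUnion F := by
    ext a
    simp only [Finset.mem_biUnion]
    constructor
    · rintro ⟨i, hi, ha⟩
      exact ⟨i, Finset.mem_filter.2 ⟨hi, ⟨a, ha⟩⟩, ha⟩
    · rintro ⟨i, hi, ha⟩
      exact ⟨i, hts i hi, ha⟩
  rw [hun]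
  rcases t.eq_empty_or_nonempty with h0 | hne
  · rw [h0, Finset.biUnion_empty]
    exact Fam.empty_mem _
  · refine Or.inr ⟨t.card, fun i => F (t.orderEmbOfFin rfl i), Finset.card_pos.2 hne, ?_, ?_, ?_, ?_⟩
    · intro i
      have hi : t.orderEmbOfFin rfl i ∈ t := Finset.orderEmbOfFin_mem t rfl i
      exact ⟨hF _ (hts _ hi), htn _ hi⟩
    · intro i a ha
      have hi : t.orderEmbOfFin rfl i ∈ t := Finset.orderEmbOfFin_mem t rfl i
      exact hcard.trans (hk _ (hts _ hi) a ha)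
    · intro i j hij a ha b hb
      have hi : t.orderEmbOfFin rfl i ∈ t := Finset.orderEmbOfFin_mem t rfl i
      have hj : t.orderEmbOfFin rfl j ∈ t := Finset.orderEmbOfFin_mem t rfl j
      exact hlt _ (hts _ hi) _ (hts _ hj) ((t.orderEmbOfFin rfl).strictMono hij) a ha b hb
    · ext a
      simp only [Finset.mem_biUnion, Finset.mem_univ, true_and]
      constructor
      · rintro ⟨i, hi, ha⟩
        have : i ∈ Set.range (t.orderEmbOfFin rfl) := by
          rw [Finset.range_orderEmbOfFin]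
          exact hi
        obtain ⟨j, rfl⟩ := this
        exact ⟨j, ha⟩
      · rintro ⟨i, ha⟩
        exact ⟨_, Finset.orderEmbOfFin_mem t rfl i, ha⟩

/-- Decomposition of the members of `𝒮ₙ₊₁`. -/
lemma Fam.exists_decomp {n : ℕ} {E : Finset ℕ+} (hE : E ∈ Fam (n + 1)) :
    ∃ (k : ℕ) (F : ℕ → Finset ℕ+), (∀ i ∈ Finset.range k, F i ∈ Fam n) ∧
      (∀ a ∈ E, k ≤ (a : ℕ)) ∧
      (∀ i ∈ Finset.range k, ∀ j ∈ Finset.range k, i < j → ∀ a ∈ F i, ∀ b ∈ F j, a < b) ∧
      E = (Finset.range k).biUnion F := by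
  rcases hE with rfl | ⟨k, F, hk1, hF, hk, hlt, rfl⟩
  · exact ⟨0, fun _ => ∅, by simp, by simp, by simp, by simp⟩
  · refine ⟨k, fun i => if h : i < k then F ⟨i, h⟩ else ∅, ?_, ?_, ?_, ?_⟩
    · intro i hi
      have hi' := Finset.mem_range.1 hi
      simp only [hi', dif_pos]
      exact (hF _).1
    · intro a ha
      obtain ⟨i, -, hi⟩ := Finset.mem_biUnion.1 ha
      exact hk i a hi
    · intro i hi j hj hij a ha b hb
      have hi' := Finset.mem_range.1 hi
      have hj' := Finset.mem_range.1 hj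
      simp only [hi', dif_pos] at ha
      simp only [hj', dif_pos] at hb
      exact hlt ⟨i, hi'⟩ ⟨j, hj'⟩ hij a ha b hb
    · ext a
      simp only [Finset.mem_biUnion, Finset.mem_univ, true_and, Finset.mem_range]
      constructor
      · rintro ⟨i, hi⟩
        exact ⟨i.1, i.2, by simpa using hi⟩
      · rintro ⟨i, hi, ha⟩
        simp only [hi, dif_pos] at ha
        exact ⟨⟨i, hi⟩, ha⟩

/-- The Schreier families are hereditary. -/
lemma Fam.subset_mem {n : ℕ} : ∀ {E F : Finset ℕ+}, E ∈ Fam n → F ⊆ E → F ∈ Fam n := by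
  classical
  induction n with
  | zero =>
    intro E F hE hFE
    rcases hE with rfl | ⟨k, rfl⟩
    · rw [Finset.subset_empty.1 hFE]
      exact Fam.empty_mem _
    · rcases Finset.subset_singleton_iff.1 hFE with h | h
      · rw [h]; exact Fam.empty_mem _
      · rw [h]; exact Fam.singleton_mem _ _
  | succ n ih =>
    intro E F hE hFE
    obtain ⟨k, G, hG, hk, hlt, rfl⟩ := Fam.exists_decomp hE
    have h1 : F = (Finset.range k).biUnion (fun i => F ∩ G i) := by
      ext a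
      simp only [Finset.mem_biUnion, Finset.mem_inter]
      constructor
      · intro ha
        obtain ⟨i, hi, hai⟩ := Finset.mem_biUnion.1 (hFE ha)
        exact ⟨i, hi, ha, hai⟩
      · rintro ⟨i, _, ha, _⟩
        exact ha
    rw [h1]
    refine Fam.biUnion_mem _ _ ?_ ?_ ?_
    · intro i hi
      exact ih (hG i hi) Finset.inter_subset_right
    · intro i hi a ha
      rw [Finset.card_range]
      exact hk a (hFE (Finset.mem_inter.1 ha).1)
    · intro i hi j hj hij a ha b hb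
      exact hlt i hi j hj hij a (Finset.mem_inter.1 ha).2 b (Finset.mem_inter.1 hb).2

lemma sum_biUnion_le' {y : ℕ+ → ℝ} (hy0 : ∀ b, 0 ≤ y b) (s : Finset ℕ) (F : ℕ → Finset ℕ+) :
    ∑ b ∈ s.biUnion F, y b ≤ ∑ i ∈ s, ∑ b ∈ F i, y b := by
  classical
  induction s using Finset.induction_on with
  | empty => simp
  | insert i s hi ih =>
    rw [Finset.sum_insert hi, Finset.biUnion_insert]
    have h1 := Finset.sum_union_inter (s₁ := F i) (s₂ := s.biUnion F) (f := y)
    have h2 : 0 ≤ ∑ b ∈ F i ∩ s.biUnion F, y b := Finset.sum_nonneg fun b _ => hy0 b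
    linarith

/-- A sum over a member `E` of `𝒮ₙ₊₁` is at most `a` times the bound for `𝒮ₙ`, for every
`a ∈ E`. -/
lemma Fam.sum_le {n : ℕ} {E : Finset ℕ+} (hE : E ∈ Fam (n + 1)) {a : ℕ+} (ha : a ∈ E)
    {y : ℕ+ → ℝ} {δ : ℝ} (hδ : 0 ≤ δ) (hy0 : ∀ b, 0 ≤ y b)
    (hy : ∀ F ∈ Fam n, ∑ b ∈ F, y b ≤ δ) :
    ∑ b ∈ E, y b ≤ (a : ℕ) * δ := by
  classical
  obtain ⟨k, F, hF, hk, -, rfl⟩ := Fam.exists_decomp hE
  have hka : (k : ℝ) ≤ ((a : ℕ) : ℝ) := by exact_mod_cast hk a ha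
  calc ∑ b ∈ (Finset.range k).biUnion F, y b ≤ ∑ i ∈ Finset.range k, ∑ b ∈ F i, y b :=
        sum_biUnion_le' hy0 _ _
    _ ≤ ∑ _i ∈ Finset.range k, δ := Finset.sum_le_sum fun i hi => hy _ (hF i hi)
    _ = k * δ := by rw [Finset.sum_const, Finset.card_range, nsmul_eq_mul]
    _ ≤ (a : ℕ) * δ := mul_le_mul_of_nonneg_right hka hδ

lemma sum_half_le (T : ℕ) : ∑ t ∈ Finset.range T, ((1 : ℝ) / 2) ^ (t + 1) ≤ 1 := by
  have : ∑ t ∈ Finset.range T, ((1 : ℝ) / 2) ^ (t + 1) = 1 - (1 / 2) ^ T := by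
    induction T with
    | zero => simp
    | succ T ih => rw [Finset.sum_range_succ, ih]; ring
  rw [this]
  have : (0 : ℝ) ≤ (1 / 2) ^ T := by positivity
  linarith

/-- The key estimate. -/
lemma key_estimate {n : ℕ} {μ : ℕ → ℕ} (hμ : StrictMono μ) (hμ0 : 1 ≤ μ 0) {u : ℕ → ℕ+ → ℝ}
    {c : ℝ} (hu0 : ∀ t a, 0 ≤ u t a)
    (hsupp : ∀ t a, u t a ≠ 0 → μ t < (a : ℕ) ∧ (a : ℕ) ≤ μ (t + 1))
    (hmass : ∀ t (E : Finset ℕ+), ∑ a ∈ E, u t a ≤ c)
    (hsmall : ∀ t, ∀ E ∈ Fam n, ∑ a ∈ E, u t a ≤ c * ((1 / 2) ^ (t + 1) / μ t))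
    {E : Finset ℕ+} (hE : E ∈ Fam (n + 1)) (T : ℕ) :
    ∑ t ∈ Finset.range T, ∑ a ∈ E, u t a ≤ 2 * c := by
  classical
  have hc : 0 ≤ c := by simpa using hmass 0 ∅
  by_cases hex : ∃ t, ∃ a ∈ E, u t a ≠ 0
  · obtain ⟨a, haE, ha⟩ := Nat.find_spec hex
    have hmin : ∀ t < Nat.find hex, ∑ a ∈ E, u t a = 0 := by
      intro t ht
      have := Nat.find_min hex ht
      push Not at this
      exact Finset.sum_eq_zero this
    set t0 := Nat.find hex with ht0
    have hbound : ∀ t, ∑ a ∈ E, u t a ≤ (if t = t0 then c else 0) + c * (1 / 2) ^ (t + 1) := by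
      intro t
      have hpos : 0 ≤ c * (1 / 2 : ℝ) ^ (t + 1) := by positivity
      rcases lt_trichotomy t t0 with h | h | h
      · rw [hmin t h, if_neg h.ne]
        linarith
      · rw [if_pos h]
        have := hmass t E
        linarith
      · rw [if_neg h.ne']
        have hμt : 0 < μ t := by
          have := hμ.monotone (Nat.zero_le t)
          omega
        have h1 := Fam.sum_le hE haE (by positivity) (hu0 t) (hsmall t)
        have h2 : (a : ℕ) ≤ μ t := (hsupp t0 a ha).2.trans (hμ.monotone h)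
        have h3 : ((a : ℕ) : ℝ) ≤ (μ t : ℝ) := by exact_mod_cast h2
        have h4 : (0 : ℝ) < (μ t : ℝ) := by exact_mod_cast hμt
        calc ∑ a ∈ E, u t a ≤ (a : ℕ) * (c * ((1 / 2) ^ (t + 1) / μ t)) := h1
          _ ≤ (μ t : ℝ) * (c * ((1 / 2) ^ (t + 1) / μ t)) :=
              mul_le_mul_of_nonneg_right h3 (by positivity)
          _ = 0 + c * (1 / 2) ^ (t + 1) := by field_simp; ring
    calc ∑ t ∈ Finset.range T, ∑ a ∈ E, u t a
        ≤ ∑ t ∈ Finset.range T, ((if t = t0 then c else 0) + c * (1 / 2) ^ (t + 1)) :=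
          Finset.sum_le_sum fun t _ => hbound t
      _ = (∑ t ∈ Finset.range T, if t = t0 then c else 0)
          + c * ∑ t ∈ Finset.range T, ((1 : ℝ) / 2) ^ (t + 1) := by
          rw [Finset.sum_add_distrib, Finset.mul_sum]
      _ ≤ c + c * 1 := by
          refine add_le_add ?_ (mul_le_mul_of_nonneg_left (sum_half_le T) hc)
          rw [Finset.sum_ite_eq']
          split_ifs <;> linarith
      _ = 2 * c := by ring
  · push Not at hex
    have : ∑ t ∈ Finset.range T, ∑ a ∈ E, u t a = 0 :=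
      Finset.sum_eq_zero fun t _ => Finset.sum_eq_zero fun a ha => hex t a ha
    rw [this]
    linarith

end SC
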