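import Mathlib

/-!
# A Khinchin inequality with constant `√3` by the fourth-moment method
-/

namespace SC

section avg

variable {E : Type*} [AddCommGroup E]

/-- Average of `f (∑_{j<k} ± a j)` over all choices of signs. -/
noncomputable def avg (a : ℕ → E) : ℕ → (E → ℝ) → ℝ
  | 0, f => f 0
  | k + 1, f => avg a k (fun x => (f (x + a k) + f (x - a k)) / 2)

lemma avg_zero (a : ℕ → E) (f : E → ℝ) : avg a 0 f = f 0 := rfl

lemma avg_succ (a : ℕ → E) (k : ℕ) (f : E → ℝ) :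
    avg a (k + 1) f = avg a k (fun x => (f (x + a k) + f (x - a k)) / 2) := rfl

lemma avg_mono (a : ℕ → E) (k : ℕ) : ∀ {f g : E → ℝ}, (∀ x, f x ≤ g x) → avg a k f ≤ avg a k g := by
  induction k with
  | zero => intro f g h; exact h 0
  | succ k ih =>
    intro f g h
    refine ih fun x => ?_
    have := h (x + a k)
    have := h (x - a k)
    linarith

lemma avg_add (a : ℕ → E) (k : ℕ) :
    ∀ f g : E → ℝ, avg a k (fun x => f x + g x) = avg a k f + avg a k g := by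
  induction k with
  | zero => intro f g; rfl
  | succ k ih =>
    intro f g
    rw [avg_succ, avg_succ, avg_succ, ← ih]
    congr 1
    ext x
    ring

lemma avg_mul (a : ℕ → E) (k : ℕ) (c : ℝ) :
    ∀ f : E → ℝ, avg a k (fun x => c * f x) = c * avg a k f := by
  induction k with
  | zero => intro f; rfl
  | succ k ih =>
    intro f
    rw [avg_succ, avg_succ, ← ih]
    congr 1
    ext x
    ring

lemma avg_const (a : ℕ → E) (k : ℕ) (c : ℝ) : avg a k (fun _ => c) = c := by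
  induction k with
  | zero => rfl
  | succ k ih =>
    rw [avg_succ]
    have : (fun _ : E => (c + c) / 2) = fun _ => c := by ext; ring
    rw [this, ih]

lemma avg_sum {ι : Type*} (a : ℕ → E) (k : ℕ) (s : Finset ι) (f : ι → E → ℝ) :
    avg a k (fun x => ∑ i ∈ s, f i x) = ∑ i ∈ s, avg a k (f i) := by
  classical
  induction s using Finset.induction_on with
  | empty => simp [avg_const]
  | insert i s hi ih =>
    simp only [Finset.sum_insert hi]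
    rw [avg_add, ih]

lemma avg_map {F : Type*} [AddCommGroup F] (φ : E →+ F) (a : ℕ → E) (k : ℕ) :
    ∀ f : F → ℝ, avg a k (fun x => f (φ x)) = avg (fun j => φ (a j)) k f := by
  induction k with
  | zero => intro f; rw [avg_zero, avg_zero, map_zero]
  | succ k ih =>
    intro f
    rw [avg_succ, avg_succ, ← ih]
    congr 1
    ext x
    rw [map_add, map_sub]

lemma avg_le_of_signs (a : ℕ → E) (k : ℕ) (C : ℝ) : ∀ f : E → ℝ,
    (∀ θ : ℕ → ℤ, (∀ j, θ j = 1 ∨ θ j = -1) → f (∑ j ∈ Finset.range k, θ j • a j) ≤ C) →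
    avg a k f ≤ C := by
  induction k with
  | zero =>
    intro f h
    have := h (fun _ => 1) (fun _ => Or.inl rfl)
    rw [avg_zero]
    simpa using this
  | succ k ih =>
    intro f h
    rw [avg_succ]
    refine ih _ fun θ hθ => ?_
    have key : ∀ ε : ℤ, (ε = 1 ∨ ε = -1) → f (∑ j ∈ Finset.range k, θ j • a j + ε • a k) ≤ C := by
      intro ε hε
      have h1 := h (fun j => if j = k then ε else θ j) (fun j => by
        by_cases hj : j = k
        · simp only [hj, if_pos]; exact hε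
        · simp only [hj, if_false]; exact hθ j)
      rw [Finset.sum_range_succ] at h1
      have h2 : ∑ j ∈ Finset.range k, (if j = k then ε else θ j) • a j =
          ∑ j ∈ Finset.range k, θ j • a j :=
        Finset.sum_congr rfl fun j hj => by
          rw [if_neg (Finset.mem_range.1 hj).ne]
      rw [h2] at h1
      simpa using h1
    have h1 := key 1 (Or.inl rfl)
    have h2 := key (-1) (Or.inr rfl)
    rw [one_smul] at h1
    rw [neg_smul, one_smul, ← sub_eq_add_neg] at h2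
    linarith

end avg

section moments

variable {𝕜 : Type*} [RCLike 𝕜]

lemma two_point_sq (x a : 𝕜) : (‖x + a‖ ^ 2 + ‖x - a‖ ^ 2) / 2 = ‖x‖ ^ 2 + ‖a‖ ^ 2 := by
  rw [norm_add_sq (𝕜 := 𝕜), norm_sub_sq (𝕜 := 𝕜)]
  ring

lemma two_point_four (x a : 𝕜) :
    (‖x + a‖ ^ 4 + ‖x - a‖ ^ 4) / 2 ≤ ‖x‖ ^ 4 + 6 * ‖a‖ ^ 2 * ‖x‖ ^ 2 + ‖a‖ ^ 4 := by
  have h1 : ‖x + a‖ ^ 4 = (‖x + a‖ ^ 2) ^ 2 := by ring
  have h2 : ‖x - a‖ ^ 4 = (‖x - a‖ ^ 2) ^ 2 := by ring
  rw [h1, h2, norm_add_sq (𝕜 := 𝕜), norm_sub_sq (𝕜 := 𝕜)]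
  have h3 : |RCLike.re (inner 𝕜 x a)| ≤ ‖x‖ * ‖a‖ :=
    (RCLike.abs_re_le_norm _).trans (norm_inner_le_norm x a)
  have h4 : RCLike.re (inner 𝕜 x a) ^ 2 ≤ ‖x‖ ^ 2 * ‖a‖ ^ 2 := by
    rw [← sq_abs, ← mul_pow]
    exact pow_le_pow_left₀ (abs_nonneg _) h3 2
  nlinarith [h4]

lemma avg_sq (a : ℕ → 𝕜) (k : ℕ) :
    avg a k (fun x => ‖x‖ ^ 2) = ∑ j ∈ Finset.range k, ‖a j‖ ^ 2 := by
  induction k with
  | zero => simp [avg_zero]
  | succ k ih =>
    rw [avg_succ]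
    simp only [two_point_sq]
    rw [avg_add, ih, avg_const, Finset.sum_range_succ]

lemma avg_four (a : ℕ → 𝕜) (k : ℕ) :
    avg a k (fun x => ‖x‖ ^ 4) ≤ 3 * (∑ j ∈ Finset.range k, ‖a j‖ ^ 2) ^ 2 := by
  induction k with
  | zero => simp [avg_zero]
  | succ k ih =>
    rw [avg_succ]
    have h1 : avg a k (fun x => (‖x + a k‖ ^ 4 + ‖x - a k‖ ^ 4) / 2) ≤
        avg a k (fun x => ‖x‖ ^ 4 + 6 * ‖a k‖ ^ 2 * ‖x‖ ^ 2 + ‖a k‖ ^ 4) :=
      avg_mono a k fun x => two_point_four x (a k)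
    rw [avg_add, avg_add, avg_mul, avg_sq, avg_const] at h1
    rw [Finset.sum_range_succ]
    have h2 : 0 ≤ ‖a k‖ ^ 4 := by positivity
    nlinarith [h1, ih, h2]

/-- Khinchin's inequality with constant `√3`. -/
lemma khinchin (a : ℕ → 𝕜) (k : ℕ) :
    Real.sqrt (∑ j ∈ Finset.range k, ‖a j‖ ^ 2) ≤ Real.sqrt 3 * avg a k (fun x => ‖x‖) := by
  set σ := Real.sqrt (∑ j ∈ Finset.range k, ‖a j‖ ^ 2) with hσ
  have hσ0 : 0 ≤ σ := Real.sqrt_nonneg _
  have hσ2 : σ ^ 2 = ∑ j ∈ Finset.range k, ‖a j‖ ^ 2 :=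
    Real.sq_sqrt (Finset.sum_nonneg fun _ _ => by positivity)
  have havg0 : 0 ≤ avg a k (fun x => ‖x‖) := by
    have := avg_mono a k (f := fun _ => 0) (g := fun x => ‖x‖) (fun x => norm_nonneg x)
    rwa [avg_const] at this
  have h3 : (0 : ℝ) ≤ Real.sqrt 3 := Real.sqrt_nonneg 3
  have h33 : Real.sqrt 3 ^ 2 = 3 := Real.sq_sqrt (by norm_num)
  rcases hσ0.eq_or_lt with h0 | hpos
  · rw [← h0]
    positivity
  · -- pointwise: `t ≥ 3/(2 t₀) t² - 1/(2 t₀³) t⁴` with `t₀ = √3 σ`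
    have h3pos : 0 < Real.sqrt 3 := Real.sqrt_pos.2 (by norm_num)
    obtain ⟨t0, ht0⟩ : ∃ t0, t0 = Real.sqrt 3 * σ := ⟨_, rfl⟩
    have ht0pos : 0 < t0 := by rw [ht0]; positivity
    have hpt : ∀ x : 𝕜, 3 / (2 * t0) * ‖x‖ ^ 2 + (-(1 / (2 * t0 ^ 3))) * ‖x‖ ^ 4 ≤ ‖x‖ := by
      intro x
      have hx : 0 ≤ ‖x‖ := norm_nonneg x
      have h5 : ‖x‖ - (3 / (2 * t0) * ‖x‖ ^ 2 + (-(1 / (2 * t0 ^ 3))) * ‖x‖ ^ 4) =
          ‖x‖ * (‖x‖ - t0) ^ 2 * (‖x‖ + 2 * t0) / (2 * t0 ^ 3) := by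
        field_simp
        ring
      have h6 : 0 ≤ ‖x‖ * (‖x‖ - t0) ^ 2 * (‖x‖ + 2 * t0) / (2 * t0 ^ 3) := by positivity
      linarith
    have h1 := avg_mono a k hpt
    rw [avg_add, avg_mul, avg_mul, avg_sq, ← hσ2] at h1
    have h2 := avg_four a k
    rw [← hσ2] at h2
    have h4 : 3 / (2 * t0) * σ ^ 2 + (-(1 / (2 * t0 ^ 3))) * (3 * (σ ^ 2) ^ 2) ≤
        avg a k (fun x => ‖x‖) := by
      refine le_trans ?_ h1
      have : -(1 / (2 * t0 ^ 3)) ≤ 0 := by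
        rw [neg_nonpos]; positivity
      nlinarith [mul_le_mul_of_nonpos_left h2 this]
    have h5 : Real.sqrt 3 * (3 / (2 * t0) * σ ^ 2 + (-(1 / (2 * t0 ^ 3))) * (3 * (σ ^ 2) ^ 2)) = σ := by
      rw [ht0]
      have h7 : Real.sqrt 3 ^ 3 = 3 * Real.sqrt 3 := by rw [pow_succ, h33]
      have h8 : (Real.sqrt 3 * σ) ^ 3 = 3 * Real.sqrt 3 * σ ^ 3 := by rw [mul_pow, h7]
      rw [h8]
      field_simp
      ring
    calc σ = _ := h5.symm
      _ ≤ Real.sqrt 3 * avg a k (fun x => ‖x‖) := mul_le_mul_of_nonneg_left h4 h3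

/-- `ℓ₁` norms against averages. -/
lemma sum_norm_le_avg (a : ℕ → 𝕜) (k : ℕ) :
    ∑ j ∈ Finset.range k, ‖a j‖ ≤ Real.sqrt (3 * k) * avg a k (fun x => ‖x‖) := by
  have h1 : (∑ j ∈ Finset.range k, ‖a j‖) ^ 2 ≤ k * ∑ j ∈ Finset.range k, ‖a j‖ ^ 2 := by
    have h := Finset.sum_mul_sq_le_sq_mul_sq (Finset.range k) (fun _ => (1 : ℝ)) (fun j => ‖a j‖)
    simpa using h
  have h2 : ∑ j ∈ Finset.range k, ‖a j‖ ≤
      Real.sqrt k * Real.sqrt (∑ j ∈ Finset.range k, ‖a j‖ ^ 2) := by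
    rw [← Real.sqrt_mul (Nat.cast_nonneg k)]
    exact Real.le_sqrt_of_sq_le h1
  calc ∑ j ∈ Finset.range k, ‖a j‖ ≤ Real.sqrt k * Real.sqrt (∑ j ∈ Finset.range k, ‖a j‖ ^ 2) := h2
    _ ≤ Real.sqrt k * (Real.sqrt 3 * avg a k (fun x => ‖x‖)) :=
        mul_le_mul_of_nonneg_left (khinchin a k) (Real.sqrt_nonneg _)
    _ = Real.sqrt (3 * k) * avg a k (fun x => ‖x‖) := by
        rw [Real.sqrt_mul (by norm_num : (0 : ℝ) ≤ 3)]
        ring

end moments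

end SC
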