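import Pool.Agent.H47.SCC0
import Pool.Agent.H47.SCKhin

open UniformSpace Filter Topology

namespace SC

variable {𝕜 : Type*} [RCLike 𝕜] {n : ℕ} {M : Set ℕ+}

/-! ### The trace estimate -/

lemma sum_V_dl (V : ℕ → (c0 𝕜 →L[𝕜] 𝕜)) (k : ℕ) {L : ℝ} (hL0 : 0 ≤ L)
    (hL : ∀ f, ∑ j ∈ Finset.range k, ‖V j f‖ ≤ L * ‖f‖) (S : ℕ) :
    ∑ s ∈ Finset.range S, ∑ j ∈ Finset.range k, ‖V j (dl 𝕜 s)‖ ≤ Real.sqrt (3 * k) * L := by
  classical
  let a : ℕ → (ℕ → 𝕜) := fun j s => V j (dl 𝕜 s)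
  have h1 : ∀ s, ∑ j ∈ Finset.range k, ‖V j (dl 𝕜 s)‖ ≤
      Real.sqrt (3 * k) * avg a k (fun x => ‖x s‖) := by
    intro s
    have h := sum_norm_le_avg (fun j => V j (dl 𝕜 s)) k
    have h2 := avg_map (Pi.evalAddMonoidHom (fun _ : ℕ => 𝕜) s) a k (fun y => ‖y‖)
    have h3 : avg a k (fun x => ‖x s‖) = avg (fun j => V j (dl 𝕜 s)) k (fun x => ‖x‖) := h2
    rw [h3]
    exact h
  have h2 : avg a k (fun x => ∑ s ∈ Finset.range S, ‖x s‖) ≤ L := by
    refine avg_le_of_signs a k L _ fun θ hθ => ?_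
    choose σ hσ1 hσ2 using fun s => RCLike.exists_norm_eq_mul_self
      ((∑ j ∈ Finset.range k, θ j • a j) s)
    let h : c0 𝕜 := ∑ s ∈ Finset.range S, σ s • dl 𝕜 s
    have hh : ‖h‖ ≤ 1 := by
      refine c0_norm_le zero_le_one fun t => ?_
      have h3 : h t = ∑ s ∈ Finset.range S, σ s * (if t = s then 1 else 0) := by
        have h4 : ev t h = ∑ s ∈ Finset.range S, ev t (σ s • dl 𝕜 s) := by
          simp only [h]
          rw [map_sum]
        exact h4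
      rw [h3]
      simp only [mul_ite, mul_one, mul_zero, Finset.sum_ite_eq]
      split_ifs
      · rw [hσ1]
      · rw [norm_zero]; exact zero_le_one
    have h5 : ∑ j ∈ Finset.range k, (θ j : 𝕜) * V j h =
        ((∑ s ∈ Finset.range S, ‖(∑ j ∈ Finset.range k, θ j • a j) s‖ : ℝ) : 𝕜) := by
      rw [RCLike.ofReal_sum]
      simp only [hσ2]
      have h6 : ∀ j, V j h = ∑ s ∈ Finset.range S, σ s * a j s := by
        intro j
        simp only [h]
        rw [map_sum]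
        exact Finset.sum_congr rfl fun s _ => by rw [map_smul, smul_eq_mul]
      simp only [h6, Finset.mul_sum]
      rw [Finset.sum_comm]
      refine Finset.sum_congr rfl fun s _ => ?_
      rw [Finset.sum_apply, Finset.mul_sum]
      refine Finset.sum_congr rfl fun j _ => ?_
      rw [Pi.smul_apply, zsmul_eq_mul]
      ring
    have h7 : ‖∑ j ∈ Finset.range k, (θ j : 𝕜) * V j h‖ ≤ L := by
      calc ‖∑ j ∈ Finset.range k, (θ j : 𝕜) * V j h‖
          ≤ ∑ j ∈ Finset.range k, ‖(θ j : 𝕜) * V j h‖ := _root_.norm_sum_le _ _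
        _ = ∑ j ∈ Finset.range k, ‖V j h‖ := by
            refine Finset.sum_congr rfl fun j _ => ?_
            rcases hθ j with h8 | h8 <;> rw [h8] <;> simp
        _ ≤ L * ‖h‖ := hL h
        _ ≤ L * 1 := mul_le_mul_of_nonneg_left hh hL0
        _ = L := mul_one L
    rw [h5, RCLike.norm_ofReal, abs_of_nonneg (Finset.sum_nonneg fun _ _ => norm_nonneg _)] at h7
    exact h7
  calc ∑ s ∈ Finset.range S, ∑ j ∈ Finset.range k, ‖V j (dl 𝕜 s)‖
      ≤ ∑ s ∈ Finset.range S, Real.sqrt (3 * k) * avg a k (fun x => ‖x s‖) :=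
        Finset.sum_le_sum fun s _ => h1 s
    _ = Real.sqrt (3 * k) * avg a k (fun x => ∑ s ∈ Finset.range S, ‖x s‖) := by
        rw [avg_sum, Finset.mul_sum]
    _ ≤ Real.sqrt (3 * k) * L := mul_le_mul_of_nonneg_left h2 (Real.sqrt_nonneg _)

lemma trace_bound (V : ℕ → (c0 𝕜 →L[𝕜] 𝕜)) (k : ℕ) {L : ℝ} (hL0 : 0 ≤ L)
    (hL : ∀ f, ∑ j ∈ Finset.range k, ‖V j f‖ ≤ L * ‖f‖) (f : ℕ → c0 𝕜) {b : ℝ}
    (hb0 : 0 ≤ b) (hb : ∀ j, ‖f j‖ ≤ b) :
    ‖∑ j ∈ Finset.range k, V j (f j)‖ ≤ b * (Real.sqrt (3 * k) * L) := by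
  have h1 : ∀ S, ‖∑ j ∈ Finset.range k, V j (trunc S (f j))‖ ≤ b * (Real.sqrt (3 * k) * L) := by
    intro S
    calc ‖∑ j ∈ Finset.range k, V j (trunc S (f j))‖
        ≤ ∑ j ∈ Finset.range k, ‖V j (trunc S (f j))‖ := _root_.norm_sum_le _ _
      _ ≤ ∑ j ∈ Finset.range k, ∑ s ∈ Finset.range S, b * ‖V j (dl 𝕜 s)‖ := by
          refine Finset.sum_le_sum fun j _ => ?_
          rw [trunc, map_sum]
          refine (_root_.norm_sum_le _ _).trans (Finset.sum_le_sum fun s _ => ?_)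
          rw [map_smul, norm_smul]
          exact mul_le_mul_of_nonneg_right ((c0_apply_le _ _).trans (hb j)) (norm_nonneg _)
      _ = b * ∑ s ∈ Finset.range S, ∑ j ∈ Finset.range k, ‖V j (dl 𝕜 s)‖ := by
          rw [Finset.sum_comm, Finset.mul_sum]
          exact Finset.sum_congr rfl fun s _ => by rw [Finset.mul_sum]
      _ ≤ b * (Real.sqrt (3 * k) * L) := mul_le_mul_of_nonneg_left (sum_V_dl V k hL0 hL S) hb0
  have h2 : Tendsto (fun S => ‖∑ j ∈ Finset.range k, V j (trunc S (f j))‖) atTop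
      (𝓝 ‖∑ j ∈ Finset.range k, V j (f j)‖) := by
    refine Tendsto.norm (tendsto_finsetSum _ fun j _ => ?_)
    exact ((V j).continuous.tendsto _).comp (tendsto_trunc (f j))
  exact le_of_tendsto' h2 h1

/-- The transfer operator of a block system is not in the closure of the operators which factor
through `c₀`. -/
lemma trans_notMem (S0 : Sys n M) : trans 𝕜 S0 S0 ∉ closure (Gc0 𝕜 (n + 1)) := by
  intro hmem
  obtain ⟨T, ⟨A, B, rfl⟩, hdist⟩ := Metric.mem_closure_iff.1 hmem (1 / 2) (by norm_num)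
  rw [dist_eq_norm] at hdist
  obtain ⟨i, hi⟩ := exists_nat_gt (12 * (‖A‖ * ‖B‖) ^ 2)
  obtain ⟨k, hk⟩ : ∃ k, k = i + 1 := ⟨_, rfl⟩
  have hk0 : (0 : ℝ) < k := by rw [hk]; positivity
  have hkb : 12 * (‖A‖ * ‖B‖) ^ 2 < k := by
    rw [hk]; push_cast; linarith
  -- the upper bound
  have hup : ‖∑ j ∈ Finset.range k, (xi 𝕜 S0 i j ∘L A) (B (S0.blk 𝕜 i j))‖ ≤
      ‖B‖ * (Real.sqrt (3 * k) * ‖A‖) := by
    refine trace_bound (fun j => xi 𝕜 S0 i j ∘L A) k (norm_nonneg A) (fun f => ?_)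
      (fun j => B (S0.blk 𝕜 i j)) (norm_nonneg B) (fun j => ?_)
    · rw [hk]
      exact (xi_joint' S0 i (A f)).trans (A.le_opNorm f)
    · refine (B.le_opNorm _).trans ?_
      have := mul_le_mul_of_nonneg_left (S0.norm_blk_le (𝕜 := 𝕜) i j) (norm_nonneg B)
      rwa [mul_one] at this
  -- the lower bound
  have hlow : (k : ℝ) / 2 ≤ ‖∑ j ∈ Finset.range k, (xi 𝕜 S0 i j ∘L A) (B (S0.blk 𝕜 i j))‖ := by
    have h1 : ∀ j ∈ Finset.range k,
        (xi 𝕜 S0 i j ∘L A) (B (S0.blk 𝕜 i j)) =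
          1 - xi 𝕜 S0 i j ((trans 𝕜 S0 S0 - A ∘L B) (S0.blk 𝕜 i j)) := by
      intro j hj
      have hj' : j ≤ i := by
        have := Finset.mem_range.1 hj
        omega
      rw [sub_apply, trans_blk S0 S0 hj', map_sub, xi_blk S0 hj']
      simp
    rw [Finset.sum_congr rfl h1, Finset.sum_sub_distrib, Finset.sum_const, Finset.card_range,
      nsmul_eq_mul, mul_one]
    have h2 : ‖∑ j ∈ Finset.range k, xi 𝕜 S0 i j ((trans 𝕜 S0 S0 - A ∘L B) (S0.blk 𝕜 i j))‖ ≤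
        k / 2 := by
      refine (_root_.norm_sum_le _ _).trans ?_
      have h3 : ∀ j ∈ Finset.range k,
          ‖xi 𝕜 S0 i j ((trans 𝕜 S0 S0 - A ∘L B) (S0.blk 𝕜 i j))‖ ≤ 1 / 2 := by
        intro j hj
        have h4 : ‖xi 𝕜 S0 i j ((trans 𝕜 S0 S0 - A ∘L B) (S0.blk 𝕜 i j))‖ ≤
            ‖(trans 𝕜 S0 S0 - A ∘L B) (S0.blk 𝕜 i j)‖ := by
          refine le_trans ?_ (xi_joint' S0 i _)
          refine Finset.single_le_sum
            (f := fun j' => ‖xi 𝕜 S0 i j' ((trans 𝕜 S0 S0 - A ∘L B) (S0.blk 𝕜 i j))‖)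
            (fun _ _ => norm_nonneg _) ?_
          rw [← hk]
          exact hj
        refine h4.trans ((ContinuousLinearMap.le_opNorm _ _).trans ?_)
        calc ‖trans 𝕜 S0 S0 - A ∘L B‖ * ‖S0.blk 𝕜 i j‖ ≤ (1 / 2) * 1 :=
              mul_le_mul hdist.le (S0.norm_blk_le i j) (norm_nonneg _) (by norm_num)
          _ = 1 / 2 := by norm_num
      refine (Finset.sum_le_sum h3).trans (le_of_eq ?_)
      rw [Finset.sum_const, Finset.card_range, nsmul_eq_mul]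
      ring
    have h5 : ‖((k : 𝕜))‖ = k := RCLike.norm_natCast k
    have h6 := norm_sub_norm_le (k : 𝕜)
      (∑ j ∈ Finset.range k, xi 𝕜 S0 i j ((trans 𝕜 S0 S0 - A ∘L B) (S0.blk 𝕜 i j)))
    rw [h5] at h6
    linarith
  have h := hlow.trans hup
  have h1 : ((k : ℝ) / 2) ^ 2 ≤ (‖B‖ * (Real.sqrt (3 * k) * ‖A‖)) ^ 2 :=
    pow_le_pow_left₀ (by positivity) h 2
  have h2 : Real.sqrt (3 * k) ^ 2 = 3 * k := Real.sq_sqrt (by positivity)
  have h3 : (‖B‖ * (Real.sqrt (3 * k) * ‖A‖)) ^ 2 = 3 * k * (‖A‖ * ‖B‖) ^ 2 := by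
    rw [mul_pow, mul_pow, h2]; ring
  rw [h3] at h1
  nlinarith [h1, hkb, hk0]

/-! ### Finite sets give compact projections -/

/-- The coordinate functional. -/
noncomputable def cf (𝕜 : Type*) [RCLike 𝕜] (n : ℕ) (s : ℕ+) : X 𝕜 n →L[𝕜] 𝕜 :=
  ofBasis fun t => if t = s then 1 else 0

lemma cf_bound (s : ℕ+) (x : ℕ+ →₀ 𝕜) :
    ‖Finsupp.linearCombination 𝕜 (fun t => if t = s then (1 : 𝕜) else 0) x‖ ≤
      1 * ‖C00.mk n x‖ := by
  have h1 : Finsupp.linearCombination 𝕜 (fun t => if t = s then (1 : 𝕜) else 0) x = x s := by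
    rw [Finsupp.linearCombination_apply, Finsupp.sum]
    simp only [smul_eq_mul, mul_ite, mul_one, mul_zero, Finset.sum_ite_eq']
    by_cases h : s ∈ x.support
    · rw [if_pos h]
    · rw [if_neg h, Finsupp.notMem_support_iff.1 h]
  rw [h1, one_mul]
  exact C00.coord_le_norm (C00.mk n x) s

lemma cf_e (s t : ℕ+) : cf 𝕜 n s (e 𝕜 n t) = if t = s then 1 else 0 := by
  unfold cf
  exact ofBasis_e (𝕜 := 𝕜) (n := n) (v := fun t => if t = s then (1 : 𝕜) else 0) (C := 1)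
    (cf_bound s) t

lemma P_finite {N : Set ℕ+} (hN : N.Finite) : IsCompactOperator (P 𝕜 n N) := by
  classical
  have h1 : P 𝕜 n N = ∑ s ∈ hN.toFinset, (cf 𝕜 n s).smulRight (e 𝕜 n s) := by
    refine ext_e fun t => ?_
    rw [P_e, sum_apply]
    simp only [ContinuousLinearMap.smulRight_apply, cf_e, ite_smul, one_smul, zero_smul,
      Finset.sum_ite_eq]
    simp only [Set.Finite.mem_toFinset]
  rw [h1]
  have h2 : ∀ s, (cf 𝕜 n s).smulRight (e 𝕜 n s) ∈
      compactOperator (RingHom.id 𝕜) (X 𝕜 n) (X 𝕜 n) := by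
    intro s
    have h3 : IsCompactOperator (cf 𝕜 n s) := isCompactOperator_of_locallyCompactSpace_dom _
    have h4 := h3.clm_comp (ContinuousLinearMap.toSpanSingleton 𝕜 (e 𝕜 n s))
    have h5 : ((ContinuousLinearMap.toSpanSingleton 𝕜 (e 𝕜 n s)) ∘ (cf 𝕜 n s)) =
        ((cf 𝕜 n s).smulRight (e 𝕜 n s) : X 𝕜 n → X 𝕜 n) := by
      ext y
      simp [ContinuousLinearMap.toSpanSingleton_apply]
    rw [h5] at h4
    exact h4
  exact Submodule.sum_mem _ fun s _ => h2 s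

lemma compact_isClosedIdeal : IsClosedIdeal (compacts 𝕜 n) where
  isClosed := isClosed_setOfPred_isCompactOperator
  zero_mem := isCompactOperator_zero
  add_mem _ hS _ hT := IsCompactOperator.add hS hT
  mul_mem_left S _ hT := IsCompactOperator.clm_comp hT S
  mul_mem_right _ hT S := IsCompactOperator.comp_clm hT S

lemma infinite_of_nontrivial {N : Set ℕ+}
    (h : compacts 𝕜 n ⊂ spatialIdeal 𝕜 n N) : N.Infinite := by
  intro hN
  refine h.2 ?_
  exact Set.sInter_subset_of_mem ⟨compact_isClosedIdeal, P_finite hN⟩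

/-- The closure of the set of operators factoring through `c₀` is strictly smaller than the
intersection of the non-trivial spatial ideals. -/
theorem main (𝕜 : Type*) [RCLike 𝕜] (n : ℕ) :
    closure (Gc0 𝕜 (n + 1)) ⊂ ⋂₀ {I | NontrivialSpatial 𝕜 (n + 1) I} := by
  constructor
  · rintro T hT I ⟨⟨N, -, rfl⟩, hI, -⟩
    have hN := infinite_of_nontrivial hI
    rintro I' ⟨hI', hP⟩
    exact closure_minimal (Gc0_subset hN hI' hP) hI'.isClosed hT
  · intro hsub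
    obtain ⟨S0⟩ := exists_sys n (M := Set.univ) Set.infinite_univ
    refine trans_notMem (𝕜 := 𝕜) S0 (hsub ?_)
    rintro I ⟨⟨N, -, rfl⟩, hI, -⟩
    have hN := infinite_of_nontrivial hI
    rintro I' ⟨hI', hP⟩
    exact trans_mem S0 hN hI' hP

end SC
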