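import Pool.Agent.H47.SCVec

open UniformSpace

namespace SC

variable {𝕜 : Type*} [RCLike 𝕜] {n : ℕ} {M : Set ℕ+}

section blocks

variable (𝕜)

/-- The `𝕜`-valued version of a block vector. -/
noncomputable def Sys.xk (S : Sys n M) (i j : ℕ) : ℕ+ →₀ 𝕜 :=
  (S.x i j).mapRange (fun r : ℝ => (r : 𝕜)) (by simp)

/-- The block vector as an element of the Schreier space. -/
noncomputable def Sys.blk (S : Sys n M) (i j : ℕ) : X 𝕜 (n + 1) := ι 𝕜 (n + 1) (S.xk 𝕜 i j)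

end blocks

lemma Sys.xk_apply (S : Sys n M) (i j : ℕ) (a : ℕ+) : S.xk 𝕜 i j a = ((S.x i j a : ℝ) : 𝕜) := rfl

lemma Sys.xk_support (S : Sys n M) (i j : ℕ) : (S.xk 𝕜 i j).support = (S.x i j).support := by
  ext a
  simp [Finsupp.mem_support_iff, Sys.xk_apply]

lemma Sys.norm_xk (S : Sys n M) (i j : ℕ) (a : ℕ+) : ‖S.xk 𝕜 i j a‖ = S.x i j a := by
  rw [Sys.xk_apply, RCLike.norm_ofReal, abs_of_nonneg (S.nonneg i j a)]

lemma Sys.sum_xk (S : Sys n M) (i j : ℕ) : ∑ a ∈ (S.x i j).support, S.xk 𝕜 i j a = 1 := by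
  simp only [Sys.xk_apply]
  rw [← RCLike.ofReal_sum, ← mass_eq, S.mass_one, RCLike.ofReal_one]

/-- Upper estimate for combinations of blocks. -/
lemma Sys.norm_sum_le (S : Sys n M) {α : Type*} (Z : Finset α) (b : α → 𝕜)
    (p : α → ℕ × ℕ) (hp : ∀ s ∈ Z, (p s).2 ≤ (p s).1) {c : ℝ}
    (hc : ∀ i, ∑ s ∈ Z with (p s).1 = i, ‖b s‖ ≤ c) :
    ‖∑ s ∈ Z, b s • S.blk 𝕜 (p s).1 (p s).2‖ ≤ 2 * c := by
  have h1 : ∑ s ∈ Z, b s • S.blk 𝕜 (p s).1 (p s).2 =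
      ι 𝕜 (n + 1) (∑ s ∈ Z, b s • S.xk 𝕜 (p s).1 (p s).2) := by
    rw [map_sum]
    exact Finset.sum_congr rfl fun s _ => by rw [map_smul]; rfl
  rw [h1, norm_ι]
  refine C00.norm_le _ fun E hE => ?_
  calc ∑ a ∈ E, ‖(C00.mk (n + 1) (∑ s ∈ Z, b s • S.xk 𝕜 (p s).1 (p s).2)).coord a‖
      ≤ ∑ a ∈ E, ∑ s ∈ Z, ‖b s‖ * S.x (p s).1 (p s).2 a := by
        refine Finset.sum_le_sum fun a _ => ?_
        rw [C00.coord_mk, Finsupp.finsetSum_apply]
        refine (_root_.norm_sum_le _ _).trans (le_of_eq (Finset.sum_congr rfl fun s _ => ?_))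
        rw [Finsupp.smul_apply, smul_eq_mul, norm_mul, Sys.norm_xk]
    _ = ∑ s ∈ Z, ‖b s‖ * ∑ a ∈ E, S.x (p s).1 (p s).2 a := by
        rw [Finset.sum_comm]
        exact Finset.sum_congr rfl fun s _ => by rw [Finset.mul_sum]
    _ ≤ 2 * c := S.upper Z (fun s => ‖b s‖) (fun s _ => norm_nonneg _) p hp hc hE

lemma Sys.norm_blk_le (S : Sys n M) (i j : ℕ) : ‖S.blk 𝕜 i j‖ ≤ 1 := by
  rw [Sys.blk, norm_ι]
  refine C00.norm_le _ fun E _ => ?_
  rw [← S.mass_one i j]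
  refine le_trans (le_of_eq ?_) (sum_le_mass (S.nonneg i j) E)
  exact Finset.sum_congr rfl fun a _ => by rw [C00.coord_mk, Sys.norm_xk]

/-- `s` is in the support of some block. -/
def Sys.Has (S : Sys n M) (s : ℕ+) : Prop :=
  ∃ p : ℕ × ℕ, p.2 ≤ p.1 ∧ s ∈ (S.x p.1 p.2).support

/-- The index of the block whose support contains `s`. -/
noncomputable def Sys.idx (S : Sys n M) (s : ℕ+) : ℕ × ℕ :=
  open Classical in if h : S.Has s then h.choose else 0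

lemma Sys.idx_spec (S : Sys n M) {s : ℕ+} (h : S.Has s) :
    (S.idx s).2 ≤ (S.idx s).1 ∧ s ∈ (S.x (S.idx s).1 (S.idx s).2).support := by
  unfold Sys.idx
  rw [dif_pos h]
  exact h.choose_spec

lemma Sys.idx_eq (S : Sys n M) {i j : ℕ} (hj : j ≤ i) {s : ℕ+} (hs : s ∈ (S.x i j).support) :
    S.idx s = (i, j) := by
  have h : S.Has s := ⟨(i, j), hj, hs⟩
  have h1 := S.idx_spec h
  have h2 := S.unique hj h1.1 hs h1.2
  exact Prod.ext h2.1.symm h2.2.symm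

/-- The images of the basis vectors under the transfer operators. -/
noncomputable def tv (S : Sys n M) {Y : Type*} [Zero Y] (z : ℕ → ℕ → Y) (s : ℕ+) : Y :=
  open Classical in if S.Has s then z (S.idx s).1 (S.idx s).2 else 0

lemma tv_of_mem (S : Sys n M) {Y : Type*} [Zero Y] (z : ℕ → ℕ → Y) {i j : ℕ} (hj : j ≤ i) {s : ℕ+}
    (hs : s ∈ (S.x i j).support) : tv S z s = z i j := by
  have h : S.Has s := ⟨(i, j), hj, hs⟩
  unfold tv
  rw [if_pos h, S.idx_eq hj hs]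

lemma tv_of_not (S : Sys n M) {Y : Type*} [Zero Y] (z : ℕ → ℕ → Y) {s : ℕ+}
    (hs : ¬ S.Has s) : tv S z s = 0 := by
  unfold tv
  rw [if_neg hs]

/-- Mass of a vector on the blocks of a given level. -/
lemma Sys.level_le (S : Sys n M) (x : ℕ+ →₀ 𝕜) (Z : Finset ℕ+) (hZ : ∀ s ∈ Z, S.Has s) (i : ℕ) :
    ∑ s ∈ Z with (S.idx s).1 = i, ‖x s‖ ≤ ‖C00.mk (n + 1) x‖ := by
  classical
  have h1 : Z.filter (fun s => (S.idx s).1 = i) ∈ Fam (n + 1) := by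
    refine Fam.subset_mem (S.union_mem i) ?_
    intro s hs
    obtain ⟨hs1, hs2⟩ := Finset.mem_filter.1 hs
    have h2 := S.idx_spec (hZ s hs1)
    rw [hs2] at h2
    exact Finset.mem_biUnion.2 ⟨(S.idx s).2, Finset.mem_range.2 (Nat.lt_succ_of_le h2.1), h2.2⟩
  exact C00.sum_le_norm (C00.mk (n + 1) x) h1

lemma tv_sum {Y : Type*} [AddCommGroup Y] [Module 𝕜 Y] (S : Sys n M) (z : ℕ → ℕ → Y)
    (x : ℕ+ →₀ 𝕜) [DecidablePred S.Has] :
    Finsupp.linearCombination 𝕜 (tv S z) x =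
      ∑ s ∈ x.support.filter S.Has, x s • z (S.idx s).1 (S.idx s).2 := by
  rw [Finsupp.linearCombination_apply, Finsupp.sum, Finset.sum_filter]
  refine Finset.sum_congr rfl fun s _ => ?_
  unfold tv
  by_cases h : S.Has s
  · rw [if_pos h, if_pos h]
  · rw [if_neg h, if_neg h, smul_zero]

variable {M' M'' : Set ℕ+}

lemma trans_bound (S : Sys n M) (S' : Sys n M') (x : ℕ+ →₀ 𝕜) :
    ‖Finsupp.linearCombination 𝕜 (tv S (S'.blk 𝕜)) x‖ ≤ 2 * ‖C00.mk (n + 1) x‖ := by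
  classical
  rw [tv_sum]
  exact S'.norm_sum_le _ _ _ (fun s hs => (S.idx_spec (Finset.mem_filter.1 hs).2).1)
    (S.level_le x _ (fun s hs => (Finset.mem_filter.1 hs).2))

/-- The transfer operator which maps the blocks of one system onto the blocks of another. -/
noncomputable def trans (𝕜 : Type*) [RCLike 𝕜] (S : Sys n M) (S' : Sys n M') :
    X 𝕜 (n + 1) →L[𝕜] X 𝕜 (n + 1) :=
  ofBasis (tv S (S'.blk 𝕜))

lemma trans_e (S : Sys n M) (S' : Sys n M') (s : ℕ+) :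
    trans 𝕜 S S' (e 𝕜 (n + 1) s) = tv S (S'.blk 𝕜) s := by
  unfold trans
  exact ofBasis_e (𝕜 := 𝕜) (n := n + 1) (v := tv S (S'.blk 𝕜)) (C := 2) (trans_bound S S') s

lemma ofBasis_blk {Y : Type*} [NormedAddCommGroup Y] [NormedSpace 𝕜 Y] [CompleteSpace Y]
    {v : ℕ+ → Y} {C : ℝ}
    (h : ∀ x : ℕ+ →₀ 𝕜, ‖Finsupp.linearCombination 𝕜 v x‖ ≤ C * ‖C00.mk (n + 1) x‖)
    (S : Sys n M) (i j : ℕ) (y : Y) (hy : ∀ s ∈ (S.x i j).support, v s = y) :
    ofBasis (n := n + 1) v (S.blk 𝕜 i j) = y := by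
  rw [Sys.blk, ofBasis_ι h, Finsupp.linearCombination_apply, Finsupp.sum, Sys.xk_support]
  calc ∑ a ∈ (S.x i j).support, S.xk 𝕜 i j a • v a
      = ∑ a ∈ (S.x i j).support, S.xk 𝕜 i j a • y :=
        Finset.sum_congr rfl fun a ha => by rw [hy a ha]
    _ = (∑ a ∈ (S.x i j).support, S.xk 𝕜 i j a) • y := by rw [Finset.sum_smul]
    _ = y := by rw [Sys.sum_xk, one_smul]

lemma trans_blk (S : Sys n M) (S' : Sys n M') {i j : ℕ} (hj : j ≤ i) :
    trans 𝕜 S S' (S.blk 𝕜 i j) = S'.blk 𝕜 i j := by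
  unfold trans
  exact ofBasis_blk (𝕜 := 𝕜) (v := tv S (S'.blk 𝕜)) (C := 2) (trans_bound S S') S i j
    (S'.blk 𝕜 i j) fun _ hs => tv_of_mem S _ hj hs

lemma trans_trans (S : Sys n M) (S' : Sys n M') (S'' : Sys n M'') :
    trans 𝕜 S' S'' ∘L trans 𝕜 S S' = trans 𝕜 S S'' := by
  refine ext_e fun s => ?_
  rw [ContinuousLinearMap.comp_apply, trans_e, trans_e]
  by_cases h : S.Has s
  · have h1 := S.idx_spec h
    rw [tv_of_mem S _ h1.1 h1.2, tv_of_mem S _ h1.1 h1.2, trans_blk S' S'' h1.1]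
  · rw [tv_of_not S _ h, tv_of_not S _ h, map_zero]

lemma P_ι_of_subset (N : Set ℕ+) (x : ℕ+ →₀ 𝕜) (hx : ∀ s ∈ x.support, s ∈ N) :
    P 𝕜 n N (ι 𝕜 n x) = ι 𝕜 n x := by
  classical
  have h := ofBasis_ι (𝕜 := 𝕜) (n := n) (P_bound (𝕜 := 𝕜) (n := n) N) x
  have h2 : P 𝕜 n N (ι 𝕜 n x) =
      Finsupp.linearCombination 𝕜 (fun j => if j ∈ N then e 𝕜 n j else 0) x := by
    rw [← h]
    unfold P
    congr!
  rw [h2, ι_eq_linearCombination, Finsupp.linearCombination_apply,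
    Finsupp.linearCombination_apply]
  refine Finsupp.sum_congr fun s hs => ?_
  rw [if_pos (hx s hs)]

lemma P_e (N : Set ℕ+) (s : ℕ+) [Decidable (s ∈ N)] :
    P 𝕜 n N (e 𝕜 n s) = if s ∈ N then e 𝕜 n s else 0 := by
  classical
  have h := ofBasis_e (𝕜 := 𝕜) (n := n) (P_bound (𝕜 := 𝕜) (n := n) N) s
  have h2 : P 𝕜 n N (e 𝕜 n s) = if s ∈ N then e 𝕜 n s else 0 := by
    unfold P
    convert h
  rw [h2]

lemma P_blk (S : Sys n M) {i j : ℕ} (hj : j ≤ i) :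
    P 𝕜 (n + 1) M (S.blk 𝕜 i j) = S.blk 𝕜 i j := by
  refine P_ι_of_subset M _ fun s hs => ?_
  rw [Sys.xk_support] at hs
  exact (S.mem i j hj s hs).1

lemma P_trans (S : Sys n M) (S' : Sys n M') :
    P 𝕜 (n + 1) M' ∘L trans 𝕜 S S' = trans 𝕜 S S' := by
  refine ext_e fun s => ?_
  rw [ContinuousLinearMap.comp_apply, trans_e]
  by_cases h : S.Has s
  · have h1 := S.idx_spec h
    rw [tv_of_mem S _ h1.1 h1.2, P_blk S' h1.1]
  · rw [tv_of_not S _ h, map_zero]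

/-- The transfer operator of a fixed block system is in every closed ideal which contains `P_M`
for some infinite `M`. -/
lemma trans_mem (S0 : Sys n M') (hM : M.Infinite) {I : Set (Op 𝕜 (n + 1))}
    (hI : IsClosedIdeal I) (hP : P 𝕜 (n + 1) M ∈ I) : trans 𝕜 S0 S0 ∈ I := by
  obtain ⟨S⟩ := exists_sys n hM
  have h1 : P 𝕜 (n + 1) M ∘L trans 𝕜 S0 S ∈ I := hI.mul_mem_right _ hP _
  rw [P_trans] at h1
  have h2 : trans 𝕜 S S0 ∘L trans 𝕜 S0 S ∈ I := hI.mul_mem_left (trans 𝕜 S S0) _ h1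
  rwa [trans_trans] at h2

end SC
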