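import Pool.Agent.H47.SCFam

open UniformSpace

namespace SC

/-- Total mass of a finitely supported function. -/
noncomputable def mass : (ℕ+ →₀ ℝ) →ₗ[ℝ] ℝ := Finsupp.linearCombination ℝ fun _ => (1 : ℝ)

lemma mass_eq (y : ℕ+ →₀ ℝ) : mass y = ∑ a ∈ y.support, y a := by
  rw [mass, Finsupp.linearCombination_apply, Finsupp.sum]
  simp

lemma mass_single (a : ℕ+) (r : ℝ) : mass (Finsupp.single a r) = r := by
  rw [mass, Finsupp.linearCombination_single]; simp

lemma sum_le_mass {y : ℕ+ →₀ ℝ} (hy : ∀ a, 0 ≤ y a) (E : Finset ℕ+) :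
    ∑ a ∈ E, y a ≤ mass y := by
  classical
  rw [mass_eq]
  have h1 : ∑ a ∈ E, y a = ∑ a ∈ E ∩ y.support, y a := by
    symm
    apply Finset.sum_subset Finset.inter_subset_left
    intro j hj hj'
    by_contra h
    exact hj' (Finset.mem_inter.2 ⟨hj, Finsupp.mem_support_iff.2 h⟩)
  rw [h1]
  exact Finset.sum_le_sum_of_subset_of_nonneg Finset.inter_subset_right (fun a _ _ => hy a)

/-- There is a sequence of successive averages supported in `𝒮ₙ`, with uniformly bounded sums. -/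
def PB (n : ℕ) : Prop :=
  ∀ M : Set ℕ+, M.Infinite → ∀ m : ℕ, ∃ (μ : ℕ → ℕ) (y : ℕ → ℕ+ →₀ ℝ), m ≤ μ 0 ∧ StrictMono μ ∧
    (∀ t a, 0 ≤ y t a) ∧ (∀ t, mass (y t) = 1) ∧ (∀ t, (y t).support ∈ Fam n) ∧
    (∀ t, ∀ a ∈ (y t).support, a ∈ M ∧ μ t < (a : ℕ) ∧ (a : ℕ) ≤ μ (t + 1)) ∧
    ∀ E ∈ Fam n, ∀ T, ∑ t ∈ Finset.range T, ∑ a ∈ E, y t a ≤ 2

/-- There are successive averages whose joint support is in `𝒮ₙ₊₁`, with small sums over the
members of `𝒮ₙ`. -/
def PR (n : ℕ) : Prop :=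
  ∀ M : Set ℕ+, M.Infinite → ∀ (m k : ℕ) (ε : ℝ), 0 < ε → ∃ w : ℕ → ℕ+ →₀ ℝ,
    (∀ j a, 0 ≤ w j a) ∧ (∀ j, mass (w j) = 1) ∧
    (∀ j, ∀ a ∈ (w j).support, a ∈ M ∧ m < (a : ℕ)) ∧
    (∀ j j', j < j' → ∀ a ∈ (w j).support, ∀ b ∈ (w j').support, a < b) ∧
    (Finset.range k).biUnion (fun j => (w j).support) ∈ Fam (n + 1) ∧
    ∀ j, ∀ E ∈ Fam n, ∑ a ∈ E, w j a ≤ ε

lemma exists_mem_gt {M : Set ℕ+} (hM : M.Infinite) (m : ℕ) : ∃ a ∈ M, m < (a : ℕ) := by
  obtain ⟨b, hb, h⟩ := hM.exists_gt m.succPNat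
  refine ⟨b, hb, ?_⟩
  have h1 : ((m.succPNat : ℕ+) : ℕ) < (b : ℕ) := h
  rw [Nat.succPNat_coe] at h1
  omega

lemma PB_zero : PB 0 := by
  classical
  intro M hM m
  choose g hgM hg using exists_mem_gt hM
  obtain ⟨μ, hμ0, hμs⟩ : ∃ μ : ℕ → ℕ, μ 0 = m ∧ ∀ t, μ (t + 1) = (g (μ t) : ℕ) :=
    ⟨fun t => Nat.rec m (fun _ r => (g r : ℕ)) t, rfl, fun _ => rfl⟩
  have hmono : StrictMono μ := strictMono_nat_of_lt_succ fun t => by rw [hμs]; exact hg _
  refine ⟨μ, fun t => Finsupp.single (g (μ t)) 1, hμ0.ge, hmono, ?_, ?_, ?_, ?_, ?_⟩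
  · intro t a
    rw [Finsupp.single_apply]
    split_ifs <;> norm_num
  · intro t
    exact mass_single _ _
  · intro t
    exact Fam.subset_mem (Fam.singleton_mem _ (g (μ t))) Finsupp.support_single_subset
  · intro t a ha
    have := Finset.mem_singleton.1 (Finsupp.support_single_subset ha)
    rw [this]
    exact ⟨hgM _, hg _, le_of_eq (hμs t).symm⟩
  · intro E hE T
    have hE' : E = ∅ ∨ ∃ k : ℕ+, E = {k} := hE
    rcases hE' with rfl | ⟨k, rfl⟩
    · simp
    · have key : ∀ T : ℕ, ∑ t ∈ Finset.range T, (Finsupp.single (g (μ t)) (1 : ℝ)) k ≤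
          (if (k : ℕ) ≤ μ T then (1 : ℝ) else 0) := by
        intro T
        induction T with
        | zero =>
          rw [Finset.sum_range_zero]
          split_ifs <;> norm_num
        | succ T ih =>
          rw [Finset.sum_range_succ]
          by_cases h : (k : ℕ) ≤ μ T
          · rw [if_pos h] at ih
            have h2 : (k : ℕ) ≤ μ (T + 1) := h.trans (hmono (Nat.lt_succ_self T)).le
            rw [if_pos h2]
            have h3 : g (μ T) ≠ k := by
              intro h3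
              have := hg (μ T)
              rw [h3] at this
              omega
            rw [Finsupp.single_apply, if_neg h3]
            linarith
          · rw [if_neg h] at ih
            rw [Finsupp.single_apply]
            by_cases h3 : g (μ T) = k
            · rw [if_pos h3]
              have h2 : (k : ℕ) ≤ μ (T + 1) := by rw [hμs, h3]
              rw [if_pos h2]
              linarith
            · rw [if_neg h3]
              split_ifs <;> linarith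
      have h1 := key T
      simp only [Finset.sum_singleton]
      refine h1.trans ?_
      split_ifs <;> norm_num

lemma PR_of_PB {n : ℕ} (h : PB n) : PR n := by
  classical
  intro M hM m k ε hε
  obtain ⟨L, hL⟩ := exists_nat_gt (2 / ε)
  have hL0 : (0 : ℝ) < L := lt_trans (by positivity) hL
  have hLn : 0 < L := by exact_mod_cast hL0
  have hLε : 2 / (L : ℝ) ≤ ε := by
    rw [div_le_iff₀ hL0]
    rw [div_lt_iff₀ hε] at hL
    linarith
  obtain ⟨μ, y, hμ0, hμ, hy0, hy1, hyF, hyM, hyE⟩ := h M hM (max m (k * L))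
  let w : ℕ → ℕ+ →₀ ℝ := fun j => (1 / (L : ℝ)) • ∑ t ∈ Finset.range L, y (j * L + t)
  have hw : ∀ j a, w j a = (1 / (L : ℝ)) * ∑ t ∈ Finset.range L, y (j * L + t) a := by
    intro j a
    simp only [w, Finsupp.smul_apply, Finsupp.finsetSum_apply, smul_eq_mul]
  have hsupp : ∀ j, ∀ a ∈ (w j).support, ∃ t < L, a ∈ (y (j * L + t)).support := by
    intro j a ha
    rw [Finsupp.mem_support_iff, hw] at ha
    have h1 : ∑ t ∈ Finset.range L, y (j * L + t) a ≠ 0 := by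
      intro h1
      rw [h1, mul_zero] at ha
      exact ha rfl
    obtain ⟨t, ht, h2⟩ := Finset.exists_ne_zero_of_sum_ne_zero h1
    exact ⟨t, Finset.mem_range.1 ht, Finsupp.mem_support_iff.2 h2⟩
  refine ⟨w, ?_, ?_, ?_, ?_, ?_, ?_⟩
  · intro j a
    rw [hw]
    exact mul_nonneg (by positivity) (Finset.sum_nonneg fun t _ => hy0 _ _)
  · intro j
    simp only [w]
    rw [map_smul, map_sum, Finset.sum_congr rfl (fun t _ => hy1 (j * L + t)), Finset.sum_const,
      Finset.card_range, nsmul_eq_mul, mul_one, smul_eq_mul]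
    field_simp
  · intro j a ha
    obtain ⟨t, _, ht⟩ := hsupp j a ha
    refine ⟨(hyM _ a ht).1, ?_⟩
    have h1 := (hyM _ a ht).2.1
    have h2 := hμ.monotone (Nat.zero_le (j * L + t))
    have h3 := le_max_left m (k * L)
    omega
  · intro j j' hjj a ha b hb
    obtain ⟨t, htL, ht⟩ := hsupp j a ha
    obtain ⟨t', _, ht'⟩ := hsupp j' b hb
    have h1 := (hyM _ a ht).2.2
    have h2 := (hyM _ b ht').2.1
    have h3 : j * L + t + 1 ≤ j' * L + t' := by
      have : (j + 1) * L ≤ j' * L := Nat.mul_le_mul_right L hjj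
      have h5 : (j + 1) * L = j * L + L := by ring
      omega
    have h4 := hμ.monotone h3
    have : (a : ℕ) < (b : ℕ) := by omega
    exact this
  · have hU : (Finset.range (k * L)).biUnion (fun t => (y t).support) ∈ Fam (n + 1) := by
      refine Fam.biUnion_mem _ _ (fun t _ => hyF t) ?_ ?_
      · intro t _ a ha
        rw [Finset.card_range]
        have h1 := (hyM _ a ha).2.1
        have h2 := hμ.monotone (Nat.zero_le t)
        have h3 := le_max_right m (k * L)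
        omega
      · intro t _ t' _ htt a ha b hb
        have h1 := (hyM _ a ha).2.2
        have h2 := (hyM _ b hb).2.1
        have h3 : t + 1 ≤ t' := htt
        have h4 := hμ.monotone h3
        have : (a : ℕ) < (b : ℕ) := by omega
        exact this
    refine Fam.subset_mem hU ?_
    intro a ha
    obtain ⟨j, hj, ha⟩ := Finset.mem_biUnion.1 ha
    obtain ⟨t, htL, ht⟩ := hsupp j a ha
    refine Finset.mem_biUnion.2 ⟨j * L + t, Finset.mem_range.2 ?_, ht⟩
    have hj' := Finset.mem_range.1 hj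
    have : (j + 1) * L ≤ k * L := Nat.mul_le_mul_right L hj'
    have h5 : (j + 1) * L = j * L + L := by ring
    omega
  · intro j E hE
    have h1 : ∑ a ∈ E, w j a = (1 / (L : ℝ)) * ∑ t ∈ Finset.range L, ∑ a ∈ E, y (j * L + t) a := by
      rw [Finset.sum_comm, Finset.mul_sum]
      exact Finset.sum_congr rfl fun a _ => hw j a
    have h2 : ∑ t ∈ Finset.range L, ∑ a ∈ E, y (j * L + t) a ≤
        ∑ t ∈ Finset.range (j * L + L), ∑ a ∈ E, y t a := by
      rw [Finset.sum_range_add]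
      have : 0 ≤ ∑ t ∈ Finset.range (j * L), ∑ a ∈ E, y t a :=
        Finset.sum_nonneg fun t _ => Finset.sum_nonneg fun a _ => hy0 t a
      linarith
    have h3 := hyE E hE (j * L + L)
    rw [h1]
    calc (1 / (L : ℝ)) * ∑ t ∈ Finset.range L, ∑ a ∈ E, y (j * L + t) a ≤ (1 / (L : ℝ)) * 2 :=
          mul_le_mul_of_nonneg_left (h2.trans h3) (by positivity)
      _ = 2 / L := by ring
      _ ≤ ε := hLε

/-- Block systems, given `PR n`. -/
lemma exists_sys_of_PR {n : ℕ} (h : PR n) {M : Set ℕ+} (hM : M.Infinite) (κ : ℕ → ℕ) (m : ℕ) :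
    ∃ (μ : ℕ → ℕ) (w : ℕ → ℕ → ℕ+ →₀ ℝ), m + 1 ≤ μ 0 ∧ StrictMono μ ∧
      (∀ t j a, 0 ≤ w t j a) ∧ (∀ t j, mass (w t j) = 1) ∧
      (∀ t j, j < κ t → ∀ a ∈ (w t j).support, a ∈ M ∧ μ t < (a : ℕ) ∧ (a : ℕ) ≤ μ (t + 1)) ∧
      (∀ t j j', j < j' → ∀ a ∈ (w t j).support, ∀ b ∈ (w t j').support, a < b) ∧
      (∀ t, (Finset.range (κ t)).biUnion (fun j => (w t j).support) ∈ Fam (n + 1)) ∧
      ∀ t j, ∀ E ∈ Fam n, ∑ a ∈ E, w t j a ≤ (1 / 2) ^ (t + 1) / μ t := by
  classical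
  have h' : ∀ (r t : ℕ), ∃ w : ℕ → ℕ+ →₀ ℝ,
      (∀ j a, 0 ≤ w j a) ∧ (∀ j, mass (w j) = 1) ∧
      (∀ j, ∀ a ∈ (w j).support, a ∈ M ∧ r + 1 < (a : ℕ)) ∧
      (∀ j j', j < j' → ∀ a ∈ (w j).support, ∀ b ∈ (w j').support, a < b) ∧
      (Finset.range (κ t)).biUnion (fun j => (w j).support) ∈ Fam (n + 1) ∧
      ∀ j, ∀ E ∈ Fam n, ∑ a ∈ E, w j a ≤ (1 / 2 : ℝ) ^ (t + 1) / ((r + 1 : ℕ) : ℝ) := by
    intro r t
    exact h M hM (r + 1) (κ t) _ (by positivity)
  choose W hW0 hW1 hWM hWd hWF hWE using h'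
  let B : ℕ → ℕ → ℕ := fun r t => r + 1 +
    ∑ j ∈ Finset.range (κ t), ∑ a ∈ (W r t j).support, (a : ℕ)
  let ν : ℕ → ℕ := fun t => Nat.rec m (fun t r => B r t) t
  have hν : ∀ t, ν (t + 1) = B (ν t) t := fun t => rfl
  have hmono : StrictMono ν := strictMono_nat_of_lt_succ fun t => by
    rw [hν]
    simp only [B]
    omega
  refine ⟨fun t => ν t + 1, fun t => W (ν t) t, le_refl _, ?_, ?_, ?_, ?_, ?_, ?_, ?_⟩
  · intro a b hab
    exact Nat.add_lt_add_right (hmono hab) 1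
  · intro t j a
    exact hW0 _ _ _ _
  · intro t j
    exact hW1 _ _ _
  · intro t j hj a ha
    refine ⟨(hWM _ _ _ a ha).1, (hWM _ _ _ a ha).2, ?_⟩
    have h1 : (a : ℕ) ≤ ∑ a ∈ (W (ν t) t j).support, (a : ℕ) :=
      Finset.single_le_sum (f := fun a : ℕ+ => (a : ℕ)) (fun _ _ => Nat.zero_le _) ha
    have h2 : ∑ a ∈ (W (ν t) t j).support, (a : ℕ) ≤
        ∑ j ∈ Finset.range (κ t), ∑ a ∈ (W (ν t) t j).support, (a : ℕ) :=
      Finset.single_le_sum (f := fun j => ∑ a ∈ (W (ν t) t j).support, (a : ℕ))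
        (fun _ _ => Nat.zero_le _) (Finset.mem_range.2 hj)
    show (a : ℕ) ≤ ν (t + 1) + 1
    rw [hν]
    simp only [B]
    omega
  · intro t
    exact hWd _ _
  · intro t
    exact hWF _ _
  · intro t j E hE
    exact hWE _ _ _ E hE

lemma PB_succ_of_PR {n : ℕ} (h : PR n) : PB (n + 1) := by
  classical
  intro M hM m
  obtain ⟨μ, w, hm, hμ, hw0, hw1, hwM, hwd, hwF, hwE⟩ := exists_sys_of_PR h hM (fun _ => 1) m
  refine ⟨μ, fun t => w t 0, by omega, hμ, fun t a => hw0 _ _ _, fun t => hw1 _ _, ?_, ?_, ?_⟩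
  · intro t
    have := hwF t
    simpa using this
  · intro t a ha
    exact hwM t 0 (by norm_num) a ha
  · intro E hE T
    have := key_estimate (n := n) (μ := μ) hμ (by omega) (u := fun t a => w t 0 a) (c := 1)
      (fun t a => hw0 _ _ _) ?_ ?_ ?_ hE T
    · simpa using this
    · intro t a ha
      exact (hwM t 0 (by norm_num) a (Finsupp.mem_support_iff.2 ha)).2
    · intro t E
      rw [← hw1 t 0]
      exact sum_le_mass (fun a => hw0 _ _ _) E
    · intro t E hE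
      rw [one_mul]
      exact hwE t 0 E hE

lemma PB_all (n : ℕ) : PB n := by
  induction n with
  | zero => exact PB_zero
  | succ n ih => exact PB_succ_of_PR (PR_of_PB ih)

lemma PR_all (n : ℕ) : PR n := PR_of_PB (PB_all n)

/-- A block system in `X[𝒮ₙ₊₁]` with supports in `M`. -/
structure Sys (n : ℕ) (M : Set ℕ+) where
  /-- the interval endpoints -/
  μ : ℕ → ℕ
  /-- the block vectors -/
  x : ℕ → ℕ → ℕ+ →₀ ℝ
  μ_pos : 1 ≤ μ 0
  mono : StrictMono μ
  nonneg : ∀ i j a, 0 ≤ x i j a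
  mass_one : ∀ i j, mass (x i j) = 1
  mem : ∀ i j, j ≤ i → ∀ a ∈ (x i j).support, a ∈ M ∧ μ i < (a : ℕ) ∧ (a : ℕ) ≤ μ (i + 1)
  disj : ∀ i j j', j < j' → ∀ a ∈ (x i j).support, ∀ b ∈ (x i j').support, a < b
  union_mem : ∀ i, (Finset.range (i + 1)).biUnion (fun j => (x i j).support) ∈ Fam (n + 1)
  small : ∀ i j, ∀ E ∈ Fam n, ∑ a ∈ E, x i j a ≤ (1 / 2) ^ (i + 1) / μ i

lemma exists_sys (n : ℕ) {M : Set ℕ+} (hM : M.Infinite) : Nonempty (Sys n M) := by
  obtain ⟨μ, w, hm, hμ, hw0, hw1, hwM, hwd, hwF, hwE⟩ :=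
    exists_sys_of_PR (PR_all n) hM (fun t => t + 1) 0
  exact ⟨⟨μ, w, by omega, hμ, hw0, hw1, fun i j hj => hwM i j (Nat.lt_succ_of_le hj), hwd, hwF,
    hwE⟩⟩

/-- The supports of the blocks are pairwise disjoint. -/
lemma Sys.unique {n : ℕ} {M : Set ℕ+} (S : Sys n M) {i j i' j' : ℕ} (hj : j ≤ i) (hj' : j' ≤ i')
    {a : ℕ+} (ha : a ∈ (S.x i j).support) (ha' : a ∈ (S.x i' j').support) : i = i' ∧ j = j' := by
  have h1 := (S.mem i j hj a ha).2
  have h2 := (S.mem i' j' hj' a ha').2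
  have hi : i = i' := by
    rcases lt_trichotomy i i' with h | h | h
    · have : S.μ (i + 1) ≤ S.μ i' := S.mono.monotone h
      omega
    · exact h
    · have : S.μ (i' + 1) ≤ S.μ i := S.mono.monotone h
      omega
  subst hi
  refine ⟨rfl, ?_⟩
  rcases lt_trichotomy j j' with h | h | h
  · exact absurd (S.disj i j j' h a ha a ha') (lt_irrefl _)
  · exact h
  · exact absurd (S.disj i j' j h a ha' a ha) (lt_irrefl _)

/-- Upper estimate for a non-negative combination of blocks. -/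
lemma Sys.upper {n : ℕ} {M : Set ℕ+} (S : Sys n M) {α : Type*} (Z : Finset α) (b : α → ℝ)
    (hb : ∀ s ∈ Z, 0 ≤ b s) (p : α → ℕ × ℕ) (hp : ∀ s ∈ Z, (p s).2 ≤ (p s).1) {c : ℝ}
    (hc : ∀ i, ∑ s ∈ Z with (p s).1 = i, b s ≤ c) {E : Finset ℕ+} (hE : E ∈ Fam (n + 1)) :
    ∑ s ∈ Z, b s * ∑ a ∈ E, S.x (p s).1 (p s).2 a ≤ 2 * c := by
  classical
  have hc0 : 0 ≤ c := (Finset.sum_nonneg fun s hs => hb s (Finset.mem_filter.1 hs).1).trans (hc 0)
  let u : ℕ → ℕ+ → ℝ := fun i a => ∑ s ∈ Z with (p s).1 = i, b s * S.x (p s).1 (p s).2 a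
  have hbs : ∀ {i : ℕ} {s : α}, s ∈ Z.filter (fun s => (p s).1 = i) → 0 ≤ b s :=
    fun hs => hb _ (Finset.mem_filter.1 hs).1
  have hu0 : ∀ i a, 0 ≤ u i a := fun i a =>
    Finset.sum_nonneg fun s hs => mul_nonneg (hbs hs) (S.nonneg _ _ _)
  have husum : ∀ i (F : Finset ℕ+), ∑ a ∈ F, u i a =
      ∑ s ∈ Z with (p s).1 = i, b s * ∑ a ∈ F, S.x (p s).1 (p s).2 a := by
    intro i F
    simp only [u]
    rw [Finset.sum_comm]
    exact Finset.sum_congr rfl fun s _ => by rw [Finset.mul_sum]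
  obtain ⟨T, hT⟩ : ∃ T, ∀ s ∈ Z, (p s).1 < T := by
    refine ⟨∑ s ∈ Z, (p s).1 + 1, fun s hs => ?_⟩
    have := Finset.single_le_sum (f := fun s => (p s).1) (fun _ _ => Nat.zero_le _) hs
    exact Nat.lt_succ_of_le this
  have hsum : ∑ s ∈ Z, b s * ∑ a ∈ E, S.x (p s).1 (p s).2 a =
      ∑ t ∈ Finset.range T, ∑ a ∈ E, u t a := by
    simp only [husum]
    rw [Finset.sum_fiberwise_of_maps_to (g := fun s => (p s).1)
      (f := fun s => b s * ∑ a ∈ E, S.x (p s).1 (p s).2 a)]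
    intro s hs
    exact Finset.mem_range.2 (hT s hs)
  rw [hsum]
  refine key_estimate (n := n) (μ := S.μ) S.mono S.μ_pos hu0 ?_ ?_ ?_ hE T
  · intro t a hta
    obtain ⟨s, hs, h2⟩ := Finset.exists_ne_zero_of_sum_ne_zero hta
    have hs' := Finset.mem_filter.1 hs
    have h3 : S.x (p s).1 (p s).2 a ≠ 0 := right_ne_zero_of_mul h2
    have h4 := (S.mem _ _ (hp s hs'.1) a (Finsupp.mem_support_iff.2 h3)).2
    rw [hs'.2] at h4
    exact h4
  · intro t F
    rw [husum]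
    calc ∑ s ∈ Z with (p s).1 = t, b s * ∑ a ∈ F, S.x (p s).1 (p s).2 a
        ≤ ∑ s ∈ Z with (p s).1 = t, b s * 1 := by
          refine Finset.sum_le_sum fun s hs => mul_le_mul_of_nonneg_left ?_ (hbs hs)
          rw [← S.mass_one (p s).1 (p s).2]
          exact sum_le_mass (S.nonneg _ _) F
      _ ≤ c := by simp only [mul_one]; exact hc t
  · intro t F hF
    rw [husum]
    calc ∑ s ∈ Z with (p s).1 = t, b s * ∑ a ∈ F, S.x (p s).1 (p s).2 a
        ≤ ∑ s ∈ Z with (p s).1 = t, b s * ((1 / 2) ^ (t + 1) / S.μ t) := by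
          refine Finset.sum_le_sum fun s hs => mul_le_mul_of_nonneg_left ?_ (hbs hs)
          have := S.small (p s).1 (p s).2 F hF
          rw [(Finset.mem_filter.1 hs).2] at this ⊢
          exact this
      _ = (∑ s ∈ Z with (p s).1 = t, b s) * ((1 / 2) ^ (t + 1) / S.μ t) := by
          rw [Finset.sum_mul]
      _ ≤ c * ((1 / 2) ^ (t + 1) / S.μ t) :=
          mul_le_mul_of_nonneg_right (hc t) (by positivity)

end SC
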